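import Pool.Agent.Q60.GL.LieG
import Pool.Agent.Q60.TD.KL

/-!
# Matrix coefficients of bounded degree
-/

set_option linter.unusedSectionVars false

namespace Pool.Agent.Q60.GL

open MvPolynomial Algebra Module Pool.Agent.Q60.ED Pool.Agent.Q60.FI Pool.Agent.Q60.TD

section span

variable {K L : Type} [Field K] [Field L] [Algebra K L] {B : Type} [Fintype B] [DecidableEq B]

/-- Extension of scalars for a space of matrices. -/
def SpM (L : Type) [Field L] [Algebra K L] (U : Submodule K (Matrix B B K)) :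
    Submodule L (Matrix B B L) :=
  Submodule.span L ((fun u => u.map (algebraMap K L)) '' (U : Set (Matrix B B K)))

variable {U U' : Submodule K (Matrix B B K)}

lemma SpM_mono (h : U ≤ U') : SpM L U ≤ SpM L U' := by
  refine Submodule.span_mono ?_
  rintro _ ⟨u, hu, rfl⟩
  exact ⟨u, h hu, rfl⟩

lemma map_mem_SpM {u : Matrix B B K} (hu : u ∈ U) : u.map (algebraMap K L) ∈ SpM L U :=
  Submodule.subset_span ⟨u, hu, rfl⟩

/-- Descent along a linear form. -/
lemma form_SpM (l : L →ₗ[K] K) {X : Matrix B B L} (hX : X ∈ SpM L U) :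
    (Matrix.of fun i j => l (X i j)) ∈ U := by
  refine Submodule.span_induction (p := fun X _ => (Matrix.of fun i j => l (X i j)) ∈ U)
    ?_ ?_ ?_ ?_ hX
  · rintro _ ⟨u, hu, rfl⟩
    have h1 : (Matrix.of fun i j => l (u.map (algebraMap K L) i j)) = l 1 • u := by
      ext i j
      rw [Matrix.of_apply, Matrix.map_apply, Algebra.algebraMap_eq_smul_one, map_smul,
        Matrix.smul_apply, smul_eq_mul, smul_eq_mul, mul_comm]
    simp only
    rw [h1]
    exact Submodule.smul_mem _ _ hu
  · have h1 : (Matrix.of fun i j => l ((0 : Matrix B B L) i j)) = 0 := by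
      ext i j
      simp
    rw [h1]
    exact Submodule.zero_mem _
  · intro x y _ _ hx hy
    have h1 : (Matrix.of fun i j => l ((x + y) i j)) =
        (Matrix.of fun i j => l (x i j)) + Matrix.of fun i j => l (y i j) := by
      ext i j
      simp
    rw [h1]
    exact Submodule.add_mem _ hx hy
  · intro c x hx' _
    -- the forms of the multiples
    revert l
    intro l hx
    have key : ∀ X ∈ SpM L U, ∀ l : L →ₗ[K] K, (Matrix.of fun i j => l (X i j)) ∈ U := by
      intro X hX
      refine Submodule.closure_induction (p := fun X _ => ∀ l : L →ₗ[K] K,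
        (Matrix.of fun i j => l (X i j)) ∈ U) ?_ ?_ ?_ hX
      · intro l
        have h1 : (Matrix.of fun i j => l ((0 : Matrix B B L) i j)) = 0 := by
          ext i j
          simp
        rw [h1]
        exact Submodule.zero_mem _
      · intro x y _ _ hx hy l
        have h1 : (Matrix.of fun i j => l ((x + y) i j)) =
            (Matrix.of fun i j => l (x i j)) + Matrix.of fun i j => l (y i j) := by
          ext i j
          simp
        rw [h1]
        exact Submodule.add_mem _ (hx l) (hy l)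
      · rintro r _ ⟨u, hu, rfl⟩ l
        have h1 : (Matrix.of fun i j => l ((r • u.map (algebraMap K L)) i j)) = l r • u := by
          ext i j
          rw [Matrix.of_apply, Matrix.smul_apply, Matrix.map_apply, smul_eq_mul, mul_comm,
            ← Algebra.smul_def, map_smul, Matrix.smul_apply, smul_eq_mul, smul_eq_mul, mul_comm]
        rw [h1]
        exact Submodule.smul_mem _ _ hu
    exact key _ (Submodule.smul_mem _ c hx') l

/-- A matrix lies in the extension if all its forms lie in the space. -/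
lemma mem_SpM {X : Matrix B B L} (h : ∀ l : L →ₗ[K] K, (Matrix.of fun i j => l (X i j)) ∈ U) :
    X ∈ SpM L U := by
  let cu : Matrix B B K →ₗ[K] (B × B → K) :=
    { toFun := fun X p => X p.1 p.2, map_add' := fun _ _ => rfl, map_smul' := fun _ _ => rfl }
  let uc : (B × B → L) →ₗ[L] Matrix B B L :=
    { toFun := fun v => Matrix.of fun i j => v (i, j), map_add' := fun _ _ => rfl,
      map_smul' := fun _ _ => rfl }
  have h1 : (fun p : B × B => X p.1 p.2) ∈ bcS L (U.map cu) := by
    apply mem_bcS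
    intro l
    exact ⟨_, h l, rfl⟩
  have h2 : bcS L (U.map cu) ≤ (SpM L U).comap uc := by
    rw [bcS, Submodule.span_le]
    rintro _ ⟨_, ⟨u, hu, rfl⟩, rfl⟩
    exact Submodule.subset_span ⟨u, hu, rfl⟩
  exact h2 h1

/-- The extension of an algebra is closed under multiplication. -/
lemma mul_SpM {R : Subalgebra K (Matrix B B K)} {X Y : Matrix B B L}
    (hX : X ∈ SpM L (Subalgebra.toSubmodule R)) (hY : Y ∈ SpM L (Subalgebra.toSubmodule R)) :
    X * Y ∈ SpM L (Subalgebra.toSubmodule R) := by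
  refine Submodule.span_induction (p := fun X _ => X * Y ∈ SpM L (Subalgebra.toSubmodule R))
    ?_ ?_ ?_ ?_ hX
  · rintro _ ⟨u, hu, rfl⟩
    refine Submodule.span_induction (p := fun Y _ => u.map (algebraMap K L) * Y ∈
      SpM L (Subalgebra.toSubmodule R)) ?_ ?_ ?_ ?_ hY
    · rintro _ ⟨v, hv, rfl⟩
      refine Submodule.subset_span ⟨u * v, R.mul_mem hu hv, ?_⟩
      exact Matrix.map_mul
    · rw [Matrix.mul_zero]; exact Submodule.zero_mem _
    · intro a b _ _ ha hb
      rw [Matrix.mul_add]; exact Submodule.add_mem _ ha hb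
    · intro c a _ ha
      rw [Matrix.mul_smul]; exact Submodule.smul_mem _ _ ha
  · rw [Matrix.zero_mul]; exact Submodule.zero_mem _
  · intro a b _ _ ha hb
    rw [Matrix.add_mul]; exact Submodule.add_mem _ ha hb
  · intro c a _ ha
    rw [Matrix.smul_mul]; exact Submodule.smul_mem _ _ ha

end span

section coeff

variable {K : Type} [Field K] {ι : Type} [Fintype ι] [DecidableEq ι]

/-- The indices of the tensors of degree at most `d`. -/
abbrev Bd (ι : Type) (d : ℕ) : Type := Σ k : Fin (d + 1), (Fin k → ι)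

/-- The action of a matrix on the tensors of degree at most `d`. -/
noncomputable def TT (d : ℕ) (g : Matrix ι ι K) : Matrix (Bd ι d) (Bd ι d) K :=
  Matrix.blockDiagonal' fun k : Fin (d + 1) => TP g k

/-- The infinitesimal action of a matrix on the tensors of degree at most `d`. -/
noncomputable def DD (d : ℕ) (A : Matrix ι ι K) : Matrix (Bd ι d) (Bd ι d) K :=
  Matrix.blockDiagonal' fun k : Fin (d + 1) => am A k

lemma TT_mul (d : ℕ) (g h : Matrix ι ι K) : TT d (g * h) = TT d g * TT d h := by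
  rw [TT, TT, TT, ← Matrix.blockDiagonal'_mul]
  congr 1
  funext k
  exact TP_mul g h k

lemma TT_one (d : ℕ) : TT d (1 : Matrix ι ι K) = 1 := by
  rw [TT, ← Matrix.blockDiagonal'_one]
  congr 1
  funext k
  exact TP_one k

lemma TT_same (d : ℕ) (g : Matrix ι ι K) (k : Fin (d + 1)) (I J : Fin k → ι) :
    TT d g ⟨k, I⟩ ⟨k, J⟩ = TP g k I J := Matrix.blockDiagonal'_apply_eq _ _ _ _

lemma TT_ne (d : ℕ) (g : Matrix ι ι K) {a b : Bd ι d} (h : a.1 ≠ b.1) : TT d g a b = 0 :=
  Matrix.blockDiagonal'_apply_ne _ _ _ h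

lemma DD_same (d : ℕ) (A : Matrix ι ι K) (k : Fin (d + 1)) (I J : Fin k → ι) :
    DD d A ⟨k, I⟩ ⟨k, J⟩ = am A k I J := Matrix.blockDiagonal'_apply_eq _ _ _ _

lemma TT_map {L : Type} [Field L] (σ : K →+* L) (d : ℕ) (g : Matrix ι ι K) :
    TT d (g.map σ) = (TT d g).map σ := by
  rw [TT, TT, Matrix.blockDiagonal'_map _ _ (map_zero σ)]
  congr 1
  funext k
  exact TP_map σ g k

/-- The pairing of matrices. -/
def fn {B : Type} [Fintype B] (c X : Matrix B B K) : K := ∑ a, ∑ b, c a b * X a b

lemma fn_add {B : Type} [Fintype B] (c X Y : Matrix B B K) : fn c (X + Y) = fn c X + fn c Y := by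
  simp only [fn, Matrix.add_apply, mul_add, Finset.sum_add_distrib]

lemma fn_smul {B : Type} [Fintype B] (c X : Matrix B B K) (r : K) :
    fn c (r • X) = r * fn c X := by
  simp only [fn, Matrix.smul_apply, smul_eq_mul, Finset.mul_sum]
  exact Finset.sum_congr rfl fun a _ => Finset.sum_congr rfl fun b _ => by ring

lemma fn_zero {B : Type} [Fintype B] (c : Matrix B B K) : fn c 0 = 0 := by
  simp [fn]

/-- Right multiplication on the coefficients. -/
lemma fn_mul {B : Type} [Fintype B] (c X u : Matrix B B K) :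
    fn c (X * u) = fn (c * u.transpose) X := by
  simp only [fn, Matrix.mul_apply, Matrix.transpose_apply, Finset.mul_sum, Finset.sum_mul]
  refine Finset.sum_congr rfl fun a _ => ?_
  rw [Finset.sum_comm]
  exact Finset.sum_congr rfl fun b _ => Finset.sum_congr rfl fun k _ => by ring

/-- The polynomial with given coefficients. -/
noncomputable def pc (d : ℕ) (c : Matrix (Bd ι d) (Bd ι d) K) : MvPolynomial (ι × ι) K :=
  ∑ k : Fin (d + 1), ∑ I : Fin k → ι, ∑ J : Fin k → ι, C (c ⟨k, I⟩ ⟨k, J⟩) * mon I J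

lemma sum_diag {d : ℕ} {M : Type} [AddCommMonoid M] (F : Bd ι d → Bd ι d → M)
    (h : ∀ a b, a.1 ≠ b.1 → F a b = 0) :
    ∑ a, ∑ b, F a b = ∑ k : Fin (d + 1), ∑ I : Fin k → ι, ∑ J : Fin k → ι, F ⟨k, I⟩ ⟨k, J⟩ := by
  rw [Fintype.sum_sigma]
  refine Finset.sum_congr rfl fun k _ => Finset.sum_congr rfl fun I _ => ?_
  rw [Fintype.sum_sigma, Finset.sum_eq_single k]
  · intro j _ hj
    exact Finset.sum_eq_zero fun J _ => h _ _ (Ne.symm hj)
  · intro h'
    exact absurd (Finset.mem_univ _) h'

lemma evM_pc (g : Matrix ι ι K) (d : ℕ) (c : Matrix (Bd ι d) (Bd ι d) K) :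
    evM g (pc d c) = fn c (TT d g) := by
  rw [fn, sum_diag _ fun a b h => by rw [TT_ne d g h, mul_zero], pc, map_sum]
  refine Finset.sum_congr rfl fun k _ => ?_
  rw [map_sum]
  refine Finset.sum_congr rfl fun I _ => ?_
  rw [map_sum]
  refine Finset.sum_congr rfl fun J _ => ?_
  rw [map_mul, evM_C, evM_mon, TT_same, TP_apply]

lemma evM_dA_pc (g A : Matrix ι ι K) (d : ℕ) (c : Matrix (Bd ι d) (Bd ι d) K) :
    evM g (dA A (pc d c)) = fn c (TT d g * DD d A) := by
  have h0 : TT d g * DD d A = Matrix.blockDiagonal' fun k : Fin (d + 1) => TP g k * am A k := by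
    rw [TT, DD, ← Matrix.blockDiagonal'_mul]
  rw [fn, sum_diag _ fun a b h => by
    rw [h0, Matrix.blockDiagonal'_apply_ne _ _ _ h, mul_zero], pc, map_sum, map_sum]
  refine Finset.sum_congr rfl fun k _ => ?_
  rw [map_sum, map_sum]
  refine Finset.sum_congr rfl fun I _ => ?_
  rw [map_sum, map_sum]
  refine Finset.sum_congr rfl fun J _ => ?_
  rw [Derivation.leibniz, dA_C, smul_zero, add_zero, smul_eq_mul, map_mul, evM_C, h0,
    Matrix.blockDiagonal'_apply_eq, dA_mon', map_sum, Matrix.mul_apply]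
  congr 1
  refine Finset.sum_congr rfl fun L _ => ?_
  rw [map_mul, evM_C, evM_mon, TP_apply, mul_comm]

/-- Every polynomial has coefficients. -/
lemma exists_pc (f : MvPolynomial (ι × ι) K) :
    ∃ (d : ℕ) (c : Matrix (Bd ι d) (Bd ι d) K), pc d c = f := by
  classical
  refine ⟨f.totalDegree, ?_⟩
  set d := f.totalDegree
  let Φ : Matrix (Bd ι d) (Bd ι d) K →ₗ[K] MvPolynomial (ι × ι) K :=
    { toFun := pc d
      map_add' := fun a b => by
        simp only [pc, Matrix.add_apply, map_add, add_mul, Finset.sum_add_distrib]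
      map_smul' := fun r a => by
        simp only [pc, Matrix.smul_apply, smul_eq_mul, map_mul, Finset.smul_sum,
          smul_eq_C_mul, mul_assoc, RingHom.id_apply] }
  have hs : ∀ (k : Fin (d + 1)) (I J : Fin k → ι),
      pc d (Matrix.single (⟨k, I⟩ : Bd ι d) ⟨k, J⟩ (1 : K)) = mon I J := by
    intro k I J
    rw [pc, Finset.sum_eq_single k, Finset.sum_eq_single I, Finset.sum_eq_single J]
    · rw [Matrix.single_apply_same, map_one, one_mul]
    · intro J' _ hJ
      rw [Matrix.single_apply_of_ne, map_zero, zero_mul]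
      rintro ⟨-, h⟩
      exact hJ (eq_of_heq (Sigma.mk.inj h).2).symm
    · intro h
      exact absurd (Finset.mem_univ _) h
    · intro I' _ hI
      refine Finset.sum_eq_zero fun J' _ => ?_
      rw [Matrix.single_apply_of_ne, map_zero, zero_mul]
      rintro ⟨h, -⟩
      exact hI (eq_of_heq (Sigma.mk.inj h).2).symm
    · intro h
      exact absurd (Finset.mem_univ _) h
    · intro k' _ hk
      refine Finset.sum_eq_zero fun I' _ => Finset.sum_eq_zero fun J' _ => ?_
      rw [Matrix.single_apply_of_ne, map_zero, zero_mul]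
      rintro ⟨h, -⟩
      exact hk (congrArg Sigma.fst h).symm
    · intro h
      exact absurd (Finset.mem_univ _) h
  have h1 : f ∈ LinearMap.range Φ := by
    rw [f.as_sum]
    refine Submodule.sum_mem _ fun m hm => ?_
    have h2 : monomial m (coeff m f) = coeff m f • monomial m (1 : K) := by
      rw [smul_monomial, smul_eq_mul, mul_one]
    rw [h2]
    refine Submodule.smul_mem _ _ ?_
    have h3 := le_totalDegree hm
    obtain ⟨n, q, hq⟩ := exists_seq m
    have h4 : (m.sum fun _ e => e) = n := by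
      rw [← hq, Finsupp.sum_fintype _ _ (fun _ => rfl)]
      simp only [Finsupp.finsetSum_apply]
      rw [Finset.sum_comm]
      simp [Finsupp.single_apply]
    have h5 : n < d + 1 := by omega
    refine ⟨Matrix.single (⟨⟨n, h5⟩, fun k => (q k).1⟩ : Bd ι d) ⟨⟨n, h5⟩, fun k => (q k).2⟩ 1, ?_⟩
    refine (hs ⟨n, h5⟩ _ _).trans ?_
    rw [TSys.mon_eq]
    change monomial (∑ k, Finsupp.single (q k) 1) 1 = _
    rw [hq]
  exact h1

end coeff

section rep

variable {K : Type} [Field K] {ι : Type} [Fintype ι] [DecidableEq ι] {Γ : Type*} [Group Γ]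
  {ρ : Γ →* Matrix ι ι K}

/-- The algebra generated by the infinitesimal action. -/
noncomputable def UA (d : ℕ) (𝔪 : Submodule K (Matrix ι ι K)) :
    Subalgebra K (Matrix (Bd ι d) (Bd ι d) K) :=
  Algebra.adjoin K (DD d '' (𝔪 : Set (Matrix ι ι K)))

/-- A polynomial which vanishes on the image of a subgroup of finite index is annihilated by the
algebra generated by the Lie algebra. -/
theorem fn_UA {Δ : Subgroup Γ} (hΔ : Δ.FiniteIndex) {d : ℕ}
    {u : Matrix (Bd ι d) (Bd ι d) K} (hu : u ∈ UA d (LG ρ)) {c : Matrix (Bd ι d) (Bd ι d) K}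
    (hc : ∀ s ∈ Δ, fn c (TT d (ρ s)) = 0) : ∀ s ∈ Δ, fn c (TT d (ρ s) * u) = 0 := by
  revert c
  refine Algebra.adjoin_induction (p := fun u _ => ∀ {c : Matrix (Bd ι d) (Bd ι d) K},
    (∀ s ∈ Δ, fn c (TT d (ρ s)) = 0) → ∀ s ∈ Δ, fn c (TT d (ρ s) * u) = 0) ?_ ?_ ?_ ?_ hu
  · rintro _ ⟨A, hA, rfl⟩ c hc s hs
    have h1 : pc d c ∈ VG ρ Δ := by
      rw [mem_VG]
      intro t ht
      rw [evM_pc, hc t ht]
    have h2 := mem_VG.1 (dA_VG A (mem_LG.1 hA Δ hΔ) _ h1) s hs
    rwa [evM_dA_pc] at h2
  · intro r c hc s hs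
    rw [Algebra.algebraMap_eq_smul_one, Matrix.mul_smul, Matrix.mul_one, fn_smul, hc s hs,
      mul_zero]
  · intro u v _ _ hu hv c hc s hs
    rw [Matrix.mul_add, fn_add, hu hc s hs, hv hc s hs, add_zero]
  · intro u v _ _ hu hv c hc s hs
    rw [← Matrix.mul_assoc, fn_mul]
    refine hu (fun t ht => ?_) s hs
    rw [← fn_mul]
    exact hv hc t ht

/-- The same at the unit element. -/
theorem fn_UA_one {Δ : Subgroup Γ} (hΔ : Δ.FiniteIndex) {d : ℕ}
    {u : Matrix (Bd ι d) (Bd ι d) K} (hu : u ∈ UA d (LG ρ)) {c : Matrix (Bd ι d) (Bd ι d) K}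
    (hc : ∀ s ∈ Δ, fn c (TT d (ρ s)) = 0) : fn c u = 0 := by
  have h1 := fn_UA hΔ hu hc 1 Δ.one_mem
  rwa [map_one, TT_one, Matrix.one_mul] at h1

variable {L : Type} [Field L] [Algebra K L]

/-- **Criterion for the points of the identity component.** -/
theorem mem_closure {Δ : Subgroup Γ} (hΔ : Δ.FiniteIndex) {g : Matrix ι ι L}
    (hg : ∀ d, TT d g ∈ SpM L (Subalgebra.toSubmodule (UA d (LG ρ))))
    {f : MvPolynomial (ι × ι) L} (hf : ∀ s ∈ Δ, evM ((ρ s).map (algebraMap K L)) f = 0) :
    evM g f = 0 := by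
  obtain ⟨d, c, rfl⟩ := exists_pc f
  rw [evM_pc]
  refine Submodule.span_induction (p := fun X _ => fn c X = 0) ?_ (fn_zero c)
    (fun x y _ _ hx hy => by rw [fn_add, hx, hy, add_zero])
    (fun r x _ hx => by rw [fn_smul, hx, mul_zero]) (hg d)
  rintro _ ⟨u, hu, rfl⟩
  apply eq_zero_of_forms (K := K)
  intro l
  have hl : ∀ X : Matrix (Bd ι d) (Bd ι d) K, l (fn c (X.map (algebraMap K L))) =
      fn (Matrix.of fun a b => l (c a b)) X := by
    intro X
    rw [fn, fn, map_sum]
    refine Finset.sum_congr rfl fun a _ => ?_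
    rw [map_sum]
    refine Finset.sum_congr rfl fun b _ => ?_
    rw [Matrix.map_apply, mul_comm, ← Algebra.smul_def, map_smul, smul_eq_mul, mul_comm,
      Matrix.of_apply]
  rw [hl]
  refine fn_UA_one hΔ hu fun s hs => ?_
  rw [← hl, ← TT_map, ← evM_pc, hf s hs, map_zero]

end rep

end Pool.Agent.Q60.GL
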