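import Pool.Agent.Q60.GL.Krull
import Pool.Agent.Q60.FI.LieEq

/-!
# The Zariski closure of the image of a representation and its Lie algebra
-/

set_option linter.unusedSectionVars false

namespace Pool.Agent.Q60.GL

open MvPolynomial Algebra Module Pool.Agent.Q60.ED Pool.Agent.Q60.FI

variable {K : Type} [Field K] {ι : Type} [Fintype ι] [DecidableEq ι]

/-- The left translation by a matrix. -/
noncomputable def lam (g : Matrix ι ι K) : MvPolynomial (ι × ι) K →ₐ[K] MvPolynomial (ι × ι) K :=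
  aeval fun p => ∑ c, C (g p.1 c) * X (c, p.2)

lemma lam_X (g : Matrix ι ι K) (p : ι × ι) : lam g (X p) = ∑ c, C (g p.1 c) * X (c, p.2) :=
  aeval_X _ _

lemma lam_C (g : Matrix ι ι K) (c : K) : lam g (C c) = C c := aeval_C _ _

lemma evM_lam (g h : Matrix ι ι K) (f : MvPolynomial (ι × ι) K) :
    evM h (lam g f) = evM (g * h) f := by
  have h1 : (evM h).comp (lam g) = evM (g * h) := by
    refine MvPolynomial.algHom_ext fun p => ?_
    rw [AlgHom.comp_apply, lam_X, map_sum, evM_X, Matrix.mul_apply]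
    refine Finset.sum_congr rfl fun c _ => ?_
    rw [map_mul, evM_C, evM_X]
  exact DFunLike.congr_fun h1 f

lemma dA_lam (A g : Matrix ι ι K) (f : MvPolynomial (ι × ι) K) :
    dA A (lam g f) = lam g (dA A f) := by
  induction f using MvPolynomial.induction_on with
  | C a => rw [lam_C, dA_C, map_zero]
  | add f f' hf hf' => rw [map_add, map_add, hf, hf', map_add, map_add]
  | mul_X f q hf =>
    rw [map_mul, Derivation.leibniz, Derivation.leibniz, hf, map_add]
    simp only [smul_eq_mul, map_mul]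
    congr 1
    congr 1
    rw [lam_X, map_sum, dA_X, map_sum]
    have h1 : ∀ c, dA A (C (g q.1 c) * X (c, q.2)) =
        ∑ k, C (g q.1 c) * X (c, k) * C (A k q.2) := by
      intro c
      rw [Derivation.leibniz, dA_C, smul_zero, add_zero, smul_eq_mul, dA_X, Finset.mul_sum]
      exact Finset.sum_congr rfl fun k _ => by ring
    rw [Finset.sum_congr rfl fun c _ => h1 c, Finset.sum_comm]
    refine Finset.sum_congr rfl fun k _ => ?_
    rw [map_mul, lam_X, lam_C, Finset.sum_mul]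

/-- The ideal of a set of matrices. -/
def VI (G : Set (Matrix ι ι K)) : Ideal (MvPolynomial (ι × ι) K) where
  carrier := {f | ∀ g ∈ G, evM g f = 0}
  add_mem' {a b} ha hb g hg := by rw [map_add, ha g hg, hb g hg, add_zero]
  zero_mem' g _ := map_zero _
  smul_mem' c a ha g hg := by rw [smul_eq_mul, map_mul, ha g hg, mul_zero]

lemma mem_VI {G : Set (Matrix ι ι K)} {f : MvPolynomial (ι × ι) K} :
    f ∈ VI G ↔ ∀ g ∈ G, evM g f = 0 := Iff.rfl

lemma VI_le {G : Set (Matrix ι ι K)} (h1 : 1 ∈ G) : VI G ≤ P1 := fun _ hf => mem_P1.2 (hf 1 h1)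

lemma VI_anti {G G' : Set (Matrix ι ι K)} (h : G ⊆ G') : VI G' ≤ VI G :=
  fun _ hf g hg => hf g (h hg)

lemma lam_VI {G : Set (Matrix ι ι K)} (hmul : ∀ a ∈ G, ∀ b ∈ G, a * b ∈ G) {g : Matrix ι ι K}
    (hg : g ∈ G) {f : MvPolynomial (ι × ι) K} (hf : f ∈ VI G) : lam g f ∈ VI G := by
  intro h hh
  rw [evM_lam]
  exact hf _ (hmul g hg h hh)

/-- The ideal of a set which is closed under multiplication is stable under the derivations which
are tangent to it. -/
lemma dA_VI {G : Set (Matrix ι ι K)} (hmul : ∀ a ∈ G, ∀ b ∈ G, a * b ∈ G) (A : Matrix ι ι K)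
    (hA : Tg (VI G) A) (f : MvPolynomial (ι × ι) K) (hf : f ∈ VI G) : dA A f ∈ VI G := by
  intro g hg
  have h1 := hA _ (lam_VI hmul hg hf)
  rw [← evM_dA, dA_lam, evM_lam, mul_one] at h1
  exact h1

section rep

variable {Γ : Type*} [Group Γ] (ρ : Γ →* Matrix ι ι K)

/-- The ideal of the image of a subgroup. -/
def VG (Δ : Subgroup Γ) : Ideal (MvPolynomial (ι × ι) K) := VI (ρ '' (Δ : Set Γ))

variable {ρ}

lemma mem_VG {Δ : Subgroup Γ} {f : MvPolynomial (ι × ι) K} :
    f ∈ VG ρ Δ ↔ ∀ s ∈ Δ, evM (ρ s) f = 0 := by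
  constructor
  · intro h s hs
    exact h _ ⟨s, hs, rfl⟩
  · rintro h _ ⟨s, hs, rfl⟩
    exact h s hs

lemma VG_le (Δ : Subgroup Γ) : VG ρ Δ ≤ P1 := VI_le ⟨1, Δ.one_mem, map_one ρ⟩

lemma VG_anti {Δ Δ' : Subgroup Γ} (h : Δ ≤ Δ') : VG ρ Δ' ≤ VG ρ Δ :=
  VI_anti (Set.image_mono h)

lemma dA_VG {Δ : Subgroup Γ} (A : Matrix ι ι K) (hA : Tg (VG ρ Δ) A)
    (f : MvPolynomial (ι × ι) K) (hf : f ∈ VG ρ Δ) : dA A f ∈ VG ρ Δ := by
  refine dA_VI ?_ A hA f hf
  rintro _ ⟨s, hs, rfl⟩ _ ⟨t, ht, rfl⟩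
  exact ⟨s * t, Δ.mul_mem hs ht, map_mul ρ s t⟩

/-- **The set of the elements near the unit element generates a subgroup of finite index.** If a
subgroup `H` contains all elements `s` of `Δ` such that `u` does not vanish at `ρ s`, and `u` does
not vanish at the unit matrix, then `H` has finite index in `Δ`. -/
theorem finite_index_of_unit {Δ H : Subgroup Γ} [hΔ : Δ.FiniteIndex] (hH : H ≤ Δ)
    {u : MvPolynomial (ι × ι) K} (hu : evM (1 : Matrix ι ι K) u ≠ 0)
    (h : ∀ s ∈ Δ, evM (ρ s) u ≠ 0 → s ∈ H) : H.FiniteIndex := by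
  classical
  let us : Δ → MvPolynomial (ι × ι) K := fun s => lam (ρ (s : Γ)⁻¹) u
  have hfg : (Ideal.span (Set.range us)).FG := IsNoetherian.noetherian _
  obtain ⟨T, hT, hTs⟩ := (Submodule.fg_span_iff_fg_span_finset_subset (Set.range us)).1 hfg
  have key : ∀ x : Δ, ∃ f ∈ T, evM (ρ (x : Γ)) f ≠ 0 := by
    intro x
    by_contra hcon
    push Not at hcon
    have h1 : us x ∈ Ideal.span (T : Set (MvPolynomial (ι × ι) K)) := by
      change us x ∈ Submodule.span _ _
      rw [← hTs]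
      exact Submodule.subset_span (Set.mem_range_self x)
    have h2 : Ideal.span (T : Set (MvPolynomial (ι × ι) K)) ≤
        RingHom.ker (evM (ρ (x : Γ))).toRingHom := by
      rw [Ideal.span_le]
      intro f hf
      exact hcon f hf
    have h3 : evM (ρ (x : Γ)) (us x) = 0 := h2 h1
    apply hu
    rw [evM_lam, ← map_mul, inv_mul_cancel, map_one] at h3
    exact h3
  have hT' : ∀ f ∈ T, ∃ s : Δ, us s = f := fun f hf => hT hf
  choose! c hc using hT'
  have hfin : Finite (Δ ⧸ H.subgroupOf Δ) := by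
    refine Finite.of_surjective (fun f : T => (QuotientGroup.mk (c f.1) : Δ ⧸ H.subgroupOf Δ)) ?_
    intro q
    obtain ⟨x, rfl⟩ := QuotientGroup.mk_surjective q
    obtain ⟨f, hf, hfx⟩ := key x
    refine ⟨⟨f, hf⟩, ?_⟩
    rw [QuotientGroup.eq, Subgroup.mem_subgroupOf]
    refine h _ (Subtype.property _) ?_
    rw [← hc f hf, evM_lam, ← map_mul] at hfx
    exact hfx
  have h1 : (H.subgroupOf Δ).FiniteIndex := Subgroup.finiteIndex_of_finite_quotient
  constructor
  rw [← Subgroup.relIndex_mul_index hH]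
  exact mul_ne_zero h1.index_ne_zero hΔ.index_ne_zero

end rep

end Pool.Agent.Q60.GL
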