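import Mathlib

/-!
# Polarised Hodge structures, Mumford-Tate groups and Galois representations in coordinates
-/

set_option autoImplicit false

namespace Pool.Agent.Q60.GL

open MvPolynomial Matrix Kronecker

noncomputable section

variable {κ : Type} [Fintype κ] [DecidableEq κ]

/-- The value of a polynomial in the entries at a matrix. -/
def value {F R : Type} [CommRing F] [CommRing R] [Algebra F R] (g : Matrix κ κ R)
    (f : MvPolynomial (κ × κ) F) : R :=
  aeval (fun q : κ × κ => g q.1 q.2) f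

/-- A rational matrix as a matrix over a field of characteristic zero. -/
def toField (R : Type) [Field R] [Algebra ℚ R] {m n : Type} (A : Matrix m n ℚ) : Matrix m n R :=
  A.map (algebraMap ℚ R)

/-- A rational Hodge structure on `ℚ^κ`, pure of weight `w`: the projections `e (a, b)` to the
pieces of type `(a, b)` of `ℂ^κ`, which are exchanged by complex conjugation. -/
structure HodgeStructure (κ : Type) [Fintype κ] [DecidableEq κ] (w : ℤ) where
  /-- the types which occur -/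
  types : Finset (ℤ × ℤ)
  /-- the projections -/
  e : ℤ × ℤ → Matrix κ κ ℂ
  weight : ∀ a ∈ types, a.1 + a.2 = w
  mul : ∀ a ∈ types, ∀ b ∈ types, e a * e b = if a = b then e a else 0
  sum : ∑ a ∈ types, e a = 1
  conj : ∀ a ∈ types, a.swap ∈ types ∧ (e a).map (starRingEnd ℂ) = e a.swap

variable {w : ℤ}

/-- The action of `ℂ^×`: multiplication by `z ^ (-a) * conj z ^ (-b)` on the piece of type
`(a, b)`. -/
def HodgeStructure.h (V : HodgeStructure κ w) (z : ℂ) : Matrix κ κ ℂ :=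
  ∑ a ∈ V.types, (z ^ (-a.1) * starRingEnd ℂ z ^ (-a.2)) • V.e a

/-- The Weil operator: multiplication by `i ^ (a - b)` on the piece of type `(a, b)`. -/
def HodgeStructure.weil (V : HodgeStructure κ w) : Matrix κ κ ℂ :=
  ∑ a ∈ V.types, (Complex.I ^ (a.1 - a.2)) • V.e a

/-- A rational bilinear form is a polarisation: the Hodge-Riemann relations. -/
structure IsPolarisation (V : HodgeStructure κ w) (Q : Matrix κ κ ℚ) : Prop where
  orth : ∀ a ∈ V.types, ∀ b ∈ V.types, b ≠ a.swap → (V.e a)ᵀ * toField ℂ Q * V.e b = 0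
  pos : ∀ x : κ → ℂ, x ≠ 0 → ∃ r : ℝ, 0 < r ∧ star x ⬝ᵥ (toField ℂ Q * V.weil) *ᵥ x = r

/-- An endomorphism of the rational Hodge structure. -/
def IsHodgeEnd (V : HodgeStructure κ w) (c : Matrix κ κ ℚ) : Prop :=
  ∀ z : ℂ, z ≠ 0 → V.h z * toField ℂ c = toField ℂ c * V.h z

/-- An endomorphism of the rational Hodge structure `V ⊗ V`. -/
def IsHodgeEndSq (V : HodgeStructure κ w) (A : Matrix (κ × κ) (κ × κ) ℚ) : Prop :=
  ∀ z : ℂ, z ≠ 0 → (V.h z ⊗ₖ V.h z) * toField ℂ A = toField ℂ A * (V.h z ⊗ₖ V.h z)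

/-- The centre of the algebra of the endomorphisms of the Hodge structure contains no nonzero
element which is skew for the polarisation; so the centre is a product of totally real fields. -/
def TotallyRealCentre (V : HodgeStructure κ w) (Q : Matrix κ κ ℚ) : Prop :=
  ∀ c : Matrix κ κ ℚ, IsHodgeEnd V c → (∀ a, IsHodgeEnd V a → a * c = c * a) →
    cᵀ * Q = -(Q * c) → c = 0

/-- `G` is the set of complex points of an algebraic subgroup over `ℚ` of the general linear
group. -/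
def IsQGroup (G : Set (Matrix κ κ ℂ)) : Prop :=
  (∃ P : Set (MvPolynomial (κ × κ) ℚ), ∀ g, g ∈ G ↔ g.det ≠ 0 ∧ ∀ f ∈ P, value g f = 0) ∧
  1 ∈ G ∧ (∀ a ∈ G, ∀ b ∈ G, a * b ∈ G) ∧ ∀ a ∈ G, a⁻¹ ∈ G

/-- The complex points of the Mumford-Tate group: the smallest algebraic subgroup over `ℚ` which
contains `h z` for all `z`. -/
def mumfordTate (h : ℂ → Matrix κ κ ℂ) : Set (Matrix κ κ ℂ) :=
  {g | ∀ G, IsQGroup G → (∀ z, z ≠ 0 → h z ∈ G) → g ∈ G}

/-- The points of the Mumford-Tate group over a field `R`. -/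
def InMumfordTate {R : Type} [Field R] [Algebra ℚ R] (h : ℂ → Matrix κ κ ℂ)
    (g : Matrix κ κ R) : Prop :=
  ∀ f : MvPolynomial (κ × κ) ℚ, (∀ m ∈ mumfordTate h, value m f = 0) → value g f = 0

variable {ℓ : ℕ} [Fact ℓ.Prime] {Γ : Type} [Group Γ]

/-- The points of the identity component of the Zariski closure of `ρ(Γ)` over the algebraic
closure of `ℚ_ℓ`: a polynomial which vanishes on the image of a subgroup of finite index vanishes
at `g`. -/
def InMonodromy (ρ : Γ →* Matrix κ κ ℚ_[ℓ]) (g : Matrix κ κ (AlgebraicClosure ℚ_[ℓ])) : Prop :=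
  ∀ f : MvPolynomial (κ × κ) (AlgebraicClosure ℚ_[ℓ]),
    (∃ Δ : Subgroup Γ, Δ.FiniteIndex ∧ ∀ s ∈ Δ,
      value ((ρ s).map (algebraMap ℚ_[ℓ] (AlgebraicClosure ℚ_[ℓ]))) f = 0) → value g f = 0

/-- The Mumford-Tate conjecture: the identity component of the algebraic monodromy group is the
Mumford-Tate group over `ℚ_ℓ`. -/
def MumfordTateConjecture (h : ℂ → Matrix κ κ ℂ) (ρ : Γ →* Matrix κ κ ℚ_[ℓ]) : Prop :=
  ∀ g : Matrix κ κ (AlgebraicClosure ℚ_[ℓ]), g.det ≠ 0 → (InMonodromy ρ g ↔ InMumfordTate h g)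

/-- The identity component of the algebraic monodromy group is contained in the Mumford-Tate
group. -/
def MonodromyInMumfordTate (h : ℂ → Matrix κ κ ℂ) (ρ : Γ →* Matrix κ κ ℚ_[ℓ]) : Prop :=
  ∀ g : Matrix κ κ (AlgebraicClosure ℚ_[ℓ]), g.det ≠ 0 → InMonodromy ρ g → InMumfordTate h g

/-- The Mumford-Tate group is contained in the algebraic monodromy group. -/
def MumfordTateInMonodromy (h : ℂ → Matrix κ κ ℂ) (ρ : Γ →* Matrix κ κ ℚ_[ℓ]) : Prop :=
  ∀ g : Matrix κ κ (AlgebraicClosure ℚ_[ℓ]), g.det ≠ 0 → InMumfordTate h g → InMonodromy ρ g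

/-- The group acts by similitudes of the form; the form is invariant if the weight is zero. -/
def Similitudes (w : ℤ) (Q : Matrix κ κ ℚ) (ρ : Γ →* Matrix κ κ ℚ_[ℓ]) : Prop :=
  ∀ s, ∃ c : ℚ_[ℓ], (ρ s)ᵀ * toField ℚ_[ℓ] Q * ρ s = c • toField ℚ_[ℓ] Q ∧ (w = 0 → c = 1)

/-- The representation `V_ℓ` is semisimple: stable subspaces have stable complements. -/
def Semisimple (ρ : Γ →* Matrix κ κ ℚ_[ℓ]) : Prop :=
  ∀ W : Submodule ℚ_[ℓ] (κ → ℚ_[ℓ]), (∀ s, ∀ v ∈ W, ρ s *ᵥ v ∈ W) →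
    ∃ W' : Submodule ℚ_[ℓ] (κ → ℚ_[ℓ]), IsCompl W W' ∧ ∀ s, ∀ v ∈ W', ρ s *ᵥ v ∈ W'

/-- There is an element (for example a Frobenius element) whose eigenvalues have, for some embedding
of the algebraic closure of `ℚ_ℓ` into `ℂ`, all the same absolute value, different from `1`. -/
def HasPureElement (ρ : Γ →* Matrix κ κ ℚ_[ℓ]) : Prop :=
  ∃ (s : Γ) (σ : AlgebraicClosure ℚ_[ℓ] →+* ℂ) (r : ℝ), 0 < r ∧ r ≠ 1 ∧
    ∀ α : AlgebraicClosure ℚ_[ℓ], Polynomial.aeval α (ρ s).charpoly = 0 → ‖σ α‖ = r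

/-- The matrix `A` commutes with the action of a subgroup of finite index on `V_ℓ ⊗ V_ℓ`. -/
def IsTateEndSq (ρ : Γ →* Matrix κ κ ℚ_[ℓ]) (A : Matrix (κ × κ) (κ × κ) ℚ_[ℓ]) : Prop :=
  ∃ Δ : Subgroup Γ, Δ.FiniteIndex ∧ ∀ s ∈ Δ, (ρ s ⊗ₖ ρ s) * A = A * (ρ s ⊗ₖ ρ s)

/-- The endomorphisms of the Hodge structure `V ⊗ V` commute with the action of a subgroup of finite
index. -/
def HodgeIsTate (V : HodgeStructure κ w) (ρ : Γ →* Matrix κ κ ℚ_[ℓ]) : Prop :=
  ∀ A : Matrix (κ × κ) (κ × κ) ℚ, IsHodgeEndSq V A → IsTateEndSq ρ (toField ℚ_[ℓ] A)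

/-- The endomorphisms of `V_ℓ ⊗ V_ℓ` which commute with a subgroup of finite index are linear
combinations of endomorphisms of the Hodge structure `V ⊗ V`. -/
def TateIsHodge (V : HodgeStructure κ w) (ρ : Γ →* Matrix κ κ ℚ_[ℓ]) : Prop :=
  ∀ A : Matrix (κ × κ) (κ × κ) ℚ_[ℓ], IsTateEndSq ρ A →
    A ∈ Submodule.span ℚ_[ℓ] (toField ℚ_[ℓ] '' {B | IsHodgeEndSq V B})

/-- The centre of the algebra of the endomorphisms of the Hodge structure. -/
def IsCentralEnd (V : HodgeStructure κ w) (c : Matrix κ κ ℚ) : Prop :=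
  IsHodgeEnd V c ∧ ∀ a, IsHodgeEnd V a → a * c = c * a

/-- The two groups have, up to a finite index, the same elements in the centre of the algebra of
the endomorphisms of the Hodge structure: a fixed power of every such element of one group belongs
to the other one. -/
def CentralCondition (V : HodgeStructure κ w) (ρ : Γ →* Matrix κ κ ℚ_[ℓ]) : Prop :=
  ∃ n : ℕ, 0 < n ∧ ∀ g ∈ Submodule.span (AlgebraicClosure ℚ_[ℓ])
      (toField (AlgebraicClosure ℚ_[ℓ]) '' {c | IsCentralEnd V c}), g.det ≠ 0 →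
    (InMumfordTate V.h g → InMonodromy ρ (g ^ n)) ∧ (InMonodromy ρ g → InMumfordTate V.h (g ^ n))

end

end Pool.Agent.Q60.GL
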