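import Pool.Agent.Q60.GL.Alg
import Pool.Agent.Q60.ED.Proj

/-!
# The double centraliser of an algebra with a positive adjunction
-/

set_option linter.unusedSectionVars false

namespace Pool.Agent.Q60.GL

open Module Matrix Pool.Agent.Q60.ED Pool.Agent.Q60.FI Pool.Agent.Q60.TD

section density

variable {K : Type} [Field K] {B : Type} [Fintype B] [DecidableEq B]

/-- A subspace is stable under an algebra of matrices. -/
def Stb (R : Subalgebra K (Matrix B B K)) (W : Submodule K (B → K)) : Prop :=
  ∀ r ∈ R, ∀ v ∈ W, r *ᵥ v ∈ W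

/-- **The density theorem for matrices.** -/
theorem density (R : Subalgebra K (Matrix B B K))
    (hss : ∀ W, Stb R W → ∃ W', IsCompl W W' ∧ Stb R W') {X : Matrix B B K}
    (hX : ∀ T : Matrix B B K, (∀ r ∈ R, r * T = T * r) → X * T = T * X) : X ∈ R := by
  classical
  let e : Matrix B B K ≃ₐ[K] Module.End K (B → K) := Matrix.toLinAlgEquiv'
  let S : Subalgebra K (Module.End K (B → K)) := R.map e.toAlgHom
  have hSr : ∀ r ∈ R, e r ∈ S := fun r hr => ⟨r, hr, rfl⟩
  have hsm : ∀ (r : Matrix B B K) (hr : r ∈ R) (v : B → K), (⟨e r, hSr r hr⟩ : S) • v = r *ᵥ v :=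
    fun r hr v => rfl
  have hSe : ∀ s : S, ∃ r, ∃ hr : r ∈ R, s = ⟨e r, hSr r hr⟩ := by
    rintro ⟨_, r, hr, rfl⟩
    exact ⟨r, hr, rfl⟩
  have hK : ∀ (c : K) (v : B → K), (algebraMap K S c) • v = c • v := fun c v => rfl
  -- the module is semisimple
  have hsemi : IsSemisimpleModule S (B → K) := by
    rw [isSemisimpleModule_iff]
    refine ⟨fun W => ?_⟩
    let W0 : Submodule K (B → K) :=
      { carrier := W
        add_mem' := fun ha hb => W.add_mem ha hb
        zero_mem' := W.zero_mem
        smul_mem' := fun c v hv => by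
          rw [← hK c v]
          exact W.smul_mem _ hv }
    obtain ⟨W1, hc, hst⟩ := hss W0 fun r hr v hv => by
      rw [← hsm r hr v]
      exact W.smul_mem _ hv
    let W' : Submodule S (B → K) :=
      { carrier := W1
        add_mem' := fun ha hb => W1.add_mem ha hb
        zero_mem' := W1.zero_mem
        smul_mem' := fun s v hv => by
          obtain ⟨r, hr, rfl⟩ := hSe s
          rw [hsm r hr]
          exact hst r hr v hv }
    refine ⟨W', ?_, ?_⟩
    · rw [disjoint_iff]
      refine (Submodule.eq_bot_iff _).2 fun x hx => ?_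
      have h1 : x ∈ W0 ⊓ W1 := hx
      rw [hc.inf_eq_bot] at h1
      exact h1
    · rw [codisjoint_iff]
      refine (Submodule.eq_top_iff').2 fun x => ?_
      have h1 : x ∈ W0 ⊔ W1 := by
        rw [hc.sup_eq_top]
        trivial
      obtain ⟨a, ha, b, hb, rfl⟩ := Submodule.mem_sup.1 h1
      exact Submodule.add_mem_sup (S := W) (T := W') ha hb
  -- the matrix as a linear map over the commutant
  have hlin : ∀ (φ : Module.End S (B → K)) (v : B → K), X *ᵥ (φ v) = φ (X *ᵥ v) := by
    intro φ v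
    let φ0 : (B → K) →ₗ[K] (B → K) :=
      { toFun := φ
        map_add' := φ.map_add
        map_smul' := fun c v => by
          rw [← hK c v, φ.map_smul, hK]
          rfl }
    obtain ⟨T, hT⟩ : ∃ T : Matrix B B K, e T = φ0 := ⟨e.symm φ0, e.apply_symm_apply φ0⟩
    have hTv : ∀ v, T *ᵥ v = φ v := fun v => LinearMap.congr_fun hT v
    have h1 : ∀ r ∈ R, r * T = T * r := by
      intro r hr
      apply e.injective
      refine LinearMap.ext fun v => ?_
      change (r * T) *ᵥ v = (T * r) *ᵥ v
      rw [← Matrix.mulVec_mulVec, ← Matrix.mulVec_mulVec, hTv, hTv, ← hsm r hr v, φ.map_smul,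
        hsm r hr]
    have h2 := congrArg (fun M => M *ᵥ v) (hX T h1)
    simp only [← Matrix.mulVec_mulVec, hTv] at h2
    exact h2
  let f : Module.End (Module.End S (B → K)) (B → K) :=
    { toFun := fun v => X *ᵥ v
      map_add' := fun v w => Matrix.mulVec_add X v w
      map_smul' := fun φ v => hlin φ v }
  obtain ⟨s, hs⟩ := jacobson_density (R := S) (M := B → K) f (Finset.univ.image fun b : B => (Pi.single b 1 : B → K))
  obtain ⟨r, hr, rfl⟩ := hSe s
  have h3 : X = r := by
    ext a b
    have h4 := hs (Pi.single b 1) (Finset.mem_image_of_mem _ (Finset.mem_univ b))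
    rw [hsm r hr] at h4
    have h5 := congrFun h4 a
    change (X *ᵥ Pi.single b 1) a = _ at h5
    rw [Matrix.mulVec_single_one, Matrix.mulVec_single_one] at h5
    exact h5
  rw [h3]
  exact hr

/-- The algebra has a complement for every stable subspace. -/
theorem exists_compl_of_adj {R : Subalgebra K (Matrix B B K)} {G : Matrix B B K}
    (hadj : ∀ r ∈ R, ∃ r' ∈ R, rᵀ * G = G * r')
    (hnd : ∀ W, Stb R W → ∀ v ∈ W, (∀ w ∈ W, bf G v w = 0) → v = 0)
    (W : Submodule K (B → K)) (hW : Stb R W) : ∃ W', IsCompl W W' ∧ Stb R W' := by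
  obtain ⟨p, h1, h2, h3⟩ := exists_orth G W (hnd W hW)
  have hker : ∀ v, p v = 0 ↔ ∀ w ∈ W, bf G v w = 0 := by
    intro v
    constructor
    · intro h w hw
      rw [← h3 v w hw, h, bf_zero_left]
    · intro h
      refine hnd W hW _ (h1 v) fun w hw => ?_
      rw [h3 v w hw, h w hw]
  refine ⟨LinearMap.ker p, ?_, fun r hr v hv => ?_⟩
  · constructor
    · rw [disjoint_iff]
      refine (Submodule.eq_bot_iff _).2 fun x hx => ?_
      rw [← h2 x hx.1]
      exact hx.2
    · rw [codisjoint_iff]
      refine (Submodule.eq_top_iff').2 fun x => ?_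
      have h4 : x = p x + (x - p x) := by abel
      rw [h4]
      refine Submodule.add_mem_sup (h1 x) ?_
      rw [LinearMap.mem_ker, map_sub, h2 _ (h1 x), sub_self]
  · rw [LinearMap.mem_ker, hker] at hv ⊢
    intro w hw
    obtain ⟨r', hr', hrr⟩ := hadj r hr
    have h4 : bf G (r *ᵥ v) w = bf G v (r' *ᵥ w) := by
      rw [bf_eq, bf_eq, Matrix.mulVec_mulVec, ← hrr, ← Matrix.mulVec_mulVec,
        ← Matrix.vecMul_transpose, ← Matrix.dotProduct_mulVec]
    rw [h4]
    exact hv _ (hW r' hr' w hw)

end density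

section pos

variable {B : Type} [Fintype B] [DecidableEq B]

/-- **The double centraliser theorem for a rational algebra with a positive adjunction.** -/
theorem double_centraliser {R : Subalgebra ℚ (Matrix B B ℚ)} {G : Matrix B B ℚ}
    {Cw : Matrix B B ℂ} (hadj : ∀ r ∈ R, ∃ r' ∈ R, rᵀ * G = G * r')
    (hCw : Cw ∈ SpM ℂ (Subalgebra.toSubmodule R))
    (hpos : ∀ x : B → ℂ, bf (G.map fun q : ℚ => (q : ℂ)) x (Cw *ᵥ fun a => starRingEnd ℂ (x a)) = 0 →
      x = 0) {L : Type} [Field L] [Algebra ℚ L] {X : Matrix B B L}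
    (hX : ∀ T : Matrix B B ℚ, (∀ r ∈ R, r * T = T * r) →
      X * T.map (algebraMap ℚ L) = T.map (algebraMap ℚ L) * X) :
    X ∈ SpM L (Subalgebra.toSubmodule R) := by
  have hnd : ∀ W, Stb R W → ∀ v ∈ W, (∀ w ∈ W, bf G v w = 0) → v = 0 := by
    intro W hW v hv hvw
    apply cx_inj
    have h1 : (fun a => starRingEnd ℂ (cx v a)) = cx v := by
      funext a
      simp [cx]
    have h2 : cx (0 : B → ℚ) = 0 := by
      funext a
      simp [cx]
    rw [h2]
    apply hpos
    rw [h1]
    refine Submodule.span_induction (p := fun Y _ =>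
      bf (G.map fun q : ℚ => (q : ℂ)) (cx v) (Y *ᵥ cx v) = 0) ?_ ?_ ?_ ?_ hCw
    · rintro _ ⟨u, hu, rfl⟩
      have h3 : (u.map (algebraMap ℚ ℂ)) *ᵥ cx v = cx (u *ᵥ v) := by
        funext a
        rw [Matrix.mulVec, dotProduct, cx, Matrix.mulVec, dotProduct, Rat.cast_sum]
        refine Finset.sum_congr rfl fun b _ => ?_
        rw [Rat.cast_mul]
        rfl
      simp only
      rw [h3, bf_cx, hvw _ (hW u hu v hv), Rat.cast_zero]
    · rw [Matrix.zero_mulVec, bf_zero_right]
    · intro a b _ _ ha hb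
      rw [Matrix.add_mulVec, bf_add_right, ha, hb, add_zero]
    · intro c a _ ha
      rw [Matrix.smul_mulVec, bf_smul_right, ha, mul_zero]
  apply mem_SpM
  intro l
  refine density R (exists_compl_of_adj hadj hnd) fun T hT => ?_
  have h1 := hX T hT
  ext i j
  have h2 := congrArg l (congrFun (congrFun h1 i) j)
  rw [Matrix.mul_apply, Matrix.mul_apply, map_sum, map_sum] at h2
  rw [Matrix.mul_apply, Matrix.mul_apply]
  refine Eq.trans ?_ (h2.trans ?_)
  · refine Finset.sum_congr rfl fun k _ => ?_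
    rw [Matrix.map_apply, mul_comm (X i k), ← Algebra.smul_def, map_smul, smul_eq_mul, mul_comm]
    rfl
  · refine Finset.sum_congr rfl fun k _ => ?_
    rw [Matrix.map_apply, ← Algebra.smul_def, map_smul, smul_eq_mul]
    rfl

end pos

end Pool.Agent.Q60.GL
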