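import Pool.Agent.Q60.GL.LieG

/-!
# Exponentials of matrices and polynomial functions
-/

set_option linter.unusedSectionVars false

namespace Pool.Agent.Q60.GL

open MvPolynomial Module Matrix Pool.Agent.Q60.ED

variable {κ : Type} [Fintype κ] [DecidableEq κ]

section map

variable {K L : Type} [Field K] [Field L]

lemma dA_mapR (σ : K →+* L) (A : Matrix κ κ K) (f : MvPolynomial (κ × κ) K) :
    MvPolynomial.map σ (dA A f) = dA (A.map σ) (MvPolynomial.map σ f) := by
  induction f using MvPolynomial.induction_on with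
  | C a => rw [dA_C, map_C, dA_C, map_zero]
  | add p q hp hq => rw [map_add, map_add, map_add, map_add, hp, hq]
  | mul_X p r hp =>
    have h1 : MvPolynomial.map σ (dA A (X r)) = dA (A.map σ) (X r) := by
      rw [dA_X, dA_X, map_sum]
      refine Finset.sum_congr rfl fun c _ => ?_
      rw [map_mul, map_X, map_C]
      rfl
    rw [Derivation.leibniz, map_add, smul_eq_mul, smul_eq_mul, map_mul, map_mul, map_mul, hp,
      map_X, h1, Derivation.leibniz, smul_eq_mul, smul_eq_mul]

lemma evM_mapR (σ : K →+* L) (g : Matrix κ κ K) (f : MvPolynomial (κ × κ) K) :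
    evM (g.map σ) (MvPolynomial.map σ f) = σ (evM g f) := by
  induction f using MvPolynomial.induction_on with
  | C a => rw [map_C, evM_C, evM_C]
  | add p q hp hq => rw [map_add, map_add, map_add, hp, hq, map_add]
  | mul_X p r hp =>
    rw [map_mul, map_mul, map_mul, map_X, evM_X, evM_X, hp, map_mul, Matrix.map_apply]

lemma dA_iter_mapR (σ : K →+* L) (A : Matrix κ κ K) (f : MvPolynomial (κ × κ) K) (n : ℕ) :
    MvPolynomial.map σ ((dA A)^[n] f) = (dA (A.map σ))^[n] (MvPolynomial.map σ f) := by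
  induction n generalizing f with
  | zero => rfl
  | succ n ih => rw [Function.iterate_succ_apply, Function.iterate_succ_apply, ih, dA_mapR]

end map

/-- The exponential curve. -/
noncomputable def ex (Z : Matrix κ κ ℂ) (t : ℂ) : Matrix κ κ ℂ := NormedSpace.exp (t • Z)

lemma ex_zero (Z : Matrix κ κ ℂ) : ex Z 0 = 1 := by
  rw [ex, zero_smul, NormedSpace.exp_zero]

lemma ex_add (Z : Matrix κ κ ℂ) (s t : ℂ) : ex Z (s + t) = ex Z s * ex Z t := by
  rw [ex, add_smul]
  exact Matrix.exp_add_of_commute _ _ ((Commute.refl Z).smul_left s |>.smul_right t)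

lemma ex_pow (Z : Matrix κ κ ℂ) (n : ℕ) (t : ℂ) : ex Z t ^ n = ex Z (n * t) := by
  induction n with
  | zero => rw [pow_zero, Nat.cast_zero, zero_mul, ex_zero]
  | succ n ih =>
    rw [pow_succ, ih, ← ex_add]
    congr 1
    push_cast
    ring

lemma ex_det (Z : Matrix κ κ ℂ) (t : ℂ) : (ex Z t).det ≠ 0 := by
  have h1 := ex_add Z t (-t)
  rw [add_neg_cancel, ex_zero] at h1
  intro h0
  have h2 := congrArg Matrix.det h1
  rw [Matrix.det_one, Matrix.det_mul, h0, zero_mul] at h2
  exact one_ne_zero h2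

open scoped Matrix.Norms.Operator in
lemma hasDeriv_ex (Z : Matrix κ κ ℂ) (t : ℂ) (i j : κ) :
    HasDerivAt (fun t => ex Z t i j) ((ex Z t * Z) i j) t := by
  have h1 := hasDerivAt_exp_smul_const (𝕂 := ℂ) Z t
  let φ : Matrix κ κ ℂ →L[ℂ] ℂ := LinearMap.toContinuousLinearMap
    (Matrix.entryLinearMap ℂ ℂ i j)
  exact φ.hasFDerivAt.comp_hasDerivAt t h1

lemma hasDeriv_evM (Z : Matrix κ κ ℂ) (f : MvPolynomial (κ × κ) ℂ) (t : ℂ) :
    HasDerivAt (fun t => evM (ex Z t) f) (evM (ex Z t) (dA Z f)) t := by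
  induction f using MvPolynomial.induction_on with
  | C a =>
    simp only [evM_C, dA_C, map_zero]
    exact hasDerivAt_const _ _
  | add p q hp hq =>
    simp only [map_add]
    exact hp.add hq
  | mul_X p i hp =>
    have h1 := hp.mul (hasDeriv_ex Z t i.1 i.2)
    have h2 : (fun t : ℂ => evM (ex Z t) (p * MvPolynomial.X i)) =
        (fun t : ℂ => evM (ex Z t) p) * fun t : ℂ => ex Z t i.1 i.2 := by
      funext z
      rw [map_mul, evM_X]
      rfl
    rw [h2]
    refine h1.congr_deriv ?_
    rw [Derivation.leibniz, smul_eq_mul, smul_eq_mul, map_add, map_mul, map_mul, evM_X, dA_X,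
      map_sum]
    have h3 : ∑ c, evM (ex Z t) (MvPolynomial.X (i.1, c) * MvPolynomial.C (Z c i.2)) =
        (ex Z t * Z) i.1 i.2 := by
      rw [Matrix.mul_apply]
      refine Finset.sum_congr rfl fun c _ => ?_
      rw [map_mul, evM_X, evM_C]
    rw [h3]
    ring

/-- **Polynomials on exponential curves**: a polynomial all of whose derivatives vanish at the unit
matrix vanishes on the curve. -/
theorem evM_ex_zero {Z : Matrix κ κ ℂ} {f : MvPolynomial (κ × κ) ℂ}
    (h : ∀ n, evM (1 : Matrix κ κ ℂ) ((dA Z)^[n] f) = 0) (t : ℂ) : evM (ex Z t) f = 0 := by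
  have h1 : ∀ f, Differentiable ℂ fun t => evM (ex Z t) f := fun f t =>
    (hasDeriv_evM Z f t).differentiableAt
  have h2 : ∀ (n : ℕ) (f : MvPolynomial (κ × κ) ℂ), iteratedDeriv n (fun t => evM (ex Z t) f) =
      fun t => evM (ex Z t) ((dA Z)^[n] f) := by
    intro n
    induction n with
    | zero => intro f; rw [iteratedDeriv_zero]; rfl
    | succ n ih =>
      intro f
      rw [iteratedDeriv_succ', Function.iterate_succ_apply, ← ih]
      congr 1
      funext t
      exact (hasDeriv_evM Z f t).deriv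
  have h3 := Complex.taylorSeries_eq_of_entire' (c := 0) (z := t) (h1 f)
  rw [← h3]
  refine (tsum_congr fun n => ?_).trans tsum_zero
  rw [h2]
  beta_reduce
  rw [ex_zero, h n, mul_zero, zero_mul]

/-- A polynomial which vanishes on the curve has derivative zero. -/
theorem dA_of_ex {Z : Matrix κ κ ℂ} {f : MvPolynomial (κ × κ) ℂ}
    (h : ∀ t, evM (ex Z t) f = 0) : evM (1 : Matrix κ κ ℂ) (dA Z f) = 0 := by
  have h1 := hasDeriv_evM Z f 0
  rw [ex_zero] at h1
  have h2 : (fun t => evM (ex Z t) f) = fun _ => 0 := funext h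
  rw [h2] at h1
  exact h1.unique (hasDerivAt_const _ _)

end Pool.Agent.Q60.GL
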