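import Pool.Agent.Q60.GL.Grp

/-!
# Pure elements and homotheties

If all eigenvalues of one element have the same absolute value different from one then the Lie
algebra contains the scalar matrices.
-/

set_option linter.unusedSectionVars false

namespace Pool.Agent.Q60.GL

open Module Matrix Kronecker Pool.Agent.Q60.ED Pool.Agent.Q60.FI Pool.Agent.Q60.TD
  Pool.Agent.Q60.NP Pool.Agent.Q60.MV Pool.Agent.Q60.CJ Pool.Agent.Q60.TP

section kron

variable {L : Type} [Field L] {B₁ B₂ : Type} [Fintype B₁] [DecidableEq B₁] [Fintype B₂]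
  [DecidableEq B₂]

/-- `α` is an eigenvalue. -/
def Eig {B : Type} [Fintype B] (M : Matrix B B L) (α : L) : Prop := ∃ v ≠ 0, M *ᵥ v = α • v

lemma kron_one (A : Matrix B₁ B₁ L) (v : B₁ × B₂ → L) (i : B₁) (j : B₂) :
    ((A ⊗ₖ (1 : Matrix B₂ B₂ L)) *ᵥ v) (i, j) = (A *ᵥ fun i => v (i, j)) i := by
  rw [Matrix.mulVec, dotProduct, Fintype.sum_prod_type, Matrix.mulVec, dotProduct]
  refine Finset.sum_congr rfl fun i' _ => ?_
  rw [Finset.sum_eq_single j]
  · rw [Matrix.kroneckerMap_apply, Matrix.one_apply_eq, mul_one]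
  · intro j' _ hj
    rw [Matrix.kroneckerMap_apply, Matrix.one_apply_ne (Ne.symm hj), mul_zero, zero_mul]
  · intro h
    exact absurd (Finset.mem_univ _) h

lemma one_kron (C : Matrix B₂ B₂ L) (v : B₁ × B₂ → L) (i : B₁) (j : B₂) :
    (((1 : Matrix B₁ B₁ L) ⊗ₖ C) *ᵥ v) (i, j) = (C *ᵥ fun j => v (i, j)) j := by
  rw [Matrix.mulVec, dotProduct, Fintype.sum_prod_type, Finset.sum_eq_single i, Matrix.mulVec,
    dotProduct]
  · refine Finset.sum_congr rfl fun j' _ => ?_
    rw [Matrix.kroneckerMap_apply, Matrix.one_apply_eq, one_mul]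
  · intro i' _ hi
    refine Finset.sum_eq_zero fun j' _ => ?_
    rw [Matrix.kroneckerMap_apply, Matrix.one_apply_ne (Ne.symm hi), zero_mul, zero_mul]
  · intro h
    exact absurd (Finset.mem_univ _) h

/-- The eigenvalues of a tensor product of matrices. -/
lemma kron_eig [IsAlgClosed L] (A : Matrix B₁ B₁ L) (C : Matrix B₂ B₂ L) {α : L}
    (h : Eig (A ⊗ₖ C) α) : ∃ β, Eig C β ∧ (β ≠ 0 → Eig A (α / β)) := by
  have h1 : A ⊗ₖ C = (A ⊗ₖ (1 : Matrix B₂ B₂ L)) * ((1 : Matrix B₁ B₁ L) ⊗ₖ C) := by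
    rw [← Matrix.mul_kronecker_mul, Matrix.mul_one, Matrix.one_mul]
  have h2 : A ⊗ₖ C = ((1 : Matrix B₁ B₁ L) ⊗ₖ C) * (A ⊗ₖ (1 : Matrix B₂ B₂ L)) := by
    rw [← Matrix.mul_kronecker_mul, Matrix.mul_one, Matrix.one_mul]
  set N := (1 : Matrix B₁ B₁ L) ⊗ₖ C with hN
  set G := A ⊗ₖ (1 : Matrix B₂ B₂ L) with hG
  let E : Submodule L (B₁ × B₂ → L) :=
    { carrier := {v | (A ⊗ₖ C) *ᵥ v = α • v}
      add_mem' := fun {a b} ha hb => by
        rw [Set.mem_ofPred_eq, Matrix.mulVec_add, ha, hb, smul_add]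
      zero_mem' := by rw [Set.mem_ofPred_eq, Matrix.mulVec_zero, smul_zero]
      smul_mem' := fun c a ha => by
        rw [Set.mem_ofPred_eq, Matrix.mulVec_smul, ha, smul_comm] }
  obtain ⟨v, hv, hv'⟩ := h
  have hE : Nontrivial E := by
    refine ⟨⟨v, hv'⟩, 0, fun h0 => hv (congrArg Subtype.val h0)⟩
  have hst : ∀ v ∈ E, N *ᵥ v ∈ E := by
    intro v hv
    change (A ⊗ₖ C) *ᵥ (N *ᵥ v) = α • (N *ᵥ v)
    have h3 : (A ⊗ₖ C) * N = N * (A ⊗ₖ C) := by
      conv_lhs => rw [h2, Matrix.mul_assoc, ← h1]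
    rw [Matrix.mulVec_mulVec, h3, ← Matrix.mulVec_mulVec, hv, Matrix.mulVec_smul]
  let T : E →ₗ[L] E := (Matrix.toLin' N).restrict hst
  obtain ⟨β, hβ⟩ := Module.End.exists_eigenvalue T
  obtain ⟨x, hx1, hx2⟩ := hβ.exists_hasEigenvector
  have hx3 : N *ᵥ (x : B₁ × B₂ → L) = β • (x : B₁ × B₂ → L) := by
    have h3 := Module.End.mem_eigenspace_iff.1 hx1
    exact congrArg Subtype.val h3
  have hx0 : (x : B₁ × B₂ → L) ≠ 0 := fun h0 => hx2 (Subtype.ext h0)
  obtain ⟨⟨i, j⟩, hij⟩ := Function.ne_iff.1 hx0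
  refine ⟨β, ⟨fun j => (x : B₁ × B₂ → L) (i, j), fun h0 => hij (congrFun h0 j), ?_⟩,
    fun hβ0 => ⟨fun i => (x : B₁ × B₂ → L) (i, j), fun h0 => hij (congrFun h0 i), ?_⟩⟩
  · funext j'
    have h3 := congrFun hx3 (i, j')
    rw [one_kron] at h3
    exact h3
  · funext i'
    have h3 : β • (G *ᵥ (x : B₁ × B₂ → L)) = α • (x : B₁ × B₂ → L) := by
      rw [← Matrix.mulVec_smul, ← hx3, Matrix.mulVec_mulVec, ← h1]
      exact x.2
    have h4 := congrFun h3 (i', j)
    rw [Pi.smul_apply, kron_one, Pi.smul_apply, smul_eq_mul, smul_eq_mul] at h4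
    rw [Pi.smul_apply, smul_eq_mul, div_mul_eq_mul_div, eq_div_iff hβ0, ← h4, mul_comm]

end kron

section pow

variable {L : Type} [Field L] [IsAlgClosed L] {κ : Type} [Fintype κ] [DecidableEq κ]

lemma TP_append' (g : Matrix κ κ L) {m n : ℕ} (I I' : Fin m → κ) (J J' : Fin n → κ) :
    TP g (m + n) (Fin.append I J) (Fin.append I' J') = TP g m I I' * TP g n J J' := by
  rw [TP_apply, TP_apply, TP_apply, Fin.prod_univ_add]
  simp only [Fin.append_left, Fin.append_right]

/-- The absolute values of the eigenvalues of the tensor powers. -/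
lemma TP_eig (g : Matrix κ κ L) (σ : L →+* ℂ) {r : ℝ} (hr : 0 < r)
    (h : ∀ α, Eig g α → ‖σ α‖ = r) (n : ℕ) : ∀ α, Eig (TP g n) α → ‖σ α‖ = r ^ n := by
  induction n with
  | zero =>
    rintro α ⟨v, hv, hv'⟩
    obtain ⟨I, hI⟩ := Function.ne_iff.1 hv
    have h1 := congrFun hv' I
    have h2 : TP g 0 = 1 := by
      ext I J
      rw [TP_apply, Finset.univ_eq_empty, Finset.prod_empty, Subsingleton.elim I J,
        Matrix.one_apply_eq]
    rw [h2, Matrix.one_mulVec, Pi.smul_apply, smul_eq_mul] at h1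
    have h3 : α = 1 := by
      have h4 : (α - 1) * v I = 0 := by rw [sub_mul, one_mul, ← h1, sub_self]
      exact sub_eq_zero.1 ((mul_eq_zero.1 h4).resolve_right hI)
    rw [h3, map_one, norm_one, pow_zero]
  | succ n ih =>
    rintro α ⟨v, hv, hv'⟩
    have h1 : Eig (TP g n ⊗ₖ TP g 1) α := by
      refine ⟨fun p => v (Fin.append p.1 p.2), fun h0 => hv ?_, ?_⟩
      · funext L'
        have h2 := congrFun h0 (fun k => L' (Fin.castAdd 1 k), fun k => L' (Fin.natAdd n k))
        simp only at h2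
        rw [Fin.append_castAdd_natAdd] at h2
        exact h2
      · funext p
        have h2 := congrFun hv' (Fin.append p.1 p.2)
        rw [Matrix.mulVec, dotProduct, sum_append] at h2
        rw [Matrix.mulVec, dotProduct, Fintype.sum_prod_type]
        refine Eq.trans ?_ h2
        refine Finset.sum_congr rfl fun I _ => Finset.sum_congr rfl fun J _ => ?_
        rw [TP_append', Matrix.kroneckerMap_apply]
    obtain ⟨β, ⟨w, hw, hw'⟩, hβ⟩ := kron_eig _ _ h1
    have h2 : Eig g β := by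
      refine ⟨fun i => w ![i], fun h0 => hw ?_, ?_⟩
      · funext J
        have h3 := congrFun h0 (J 0)
        have h4 : ![J 0] = J := by
          funext k
          rw [Subsingleton.elim k 0]
          rfl
        rw [h4] at h3
        exact h3
      · apply e1_inj
        have h3 : e1 (fun i => w ![i]) = w := by
          funext J
          rw [e1]
          congr 1
          funext k
          rw [Subsingleton.elim k 0]
          rfl
        rw [← TP_e1, h3, hw']
        funext J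
        rw [e1, Pi.smul_apply, Pi.smul_apply]
        congr 2
        funext k
        rw [Subsingleton.elim k 0]
        rfl
    have h3 := h β h2
    have hβ0 : β ≠ 0 := by
      rintro rfl
      rw [map_zero, norm_zero] at h3
      exact hr.ne h3
    have h4 := ih _ (hβ hβ0)
    rw [map_div₀, norm_div, h3, div_eq_iff hr.ne'] at h4
    rw [h4, pow_succ]

end pow

section spec

variable {L : Type} [Field L] {B : Type} [Fintype B] [DecidableEq B]

lemma eig_iff {M : Matrix B B L} {α : L} : Eig M α ↔ M.charpoly.IsRoot α := by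
  rw [Polynomial.IsRoot, Matrix.eval_charpoly, ← Matrix.exists_mulVec_eq_zero_iff]
  refine exists_congr fun v => and_congr_right fun _ => ?_
  rw [Matrix.sub_mulVec, sub_eq_zero, Matrix.scalar_apply, Matrix.diagonal_const_mulVec, eq_comm]

lemma eig_pow [IsAlgClosed L] {M : Matrix B B L} {n : ℕ} (hn : 0 < n) {α : L}
    (h : Eig (M ^ n) α) : ∃ β, Eig M β ∧ β ^ n = α := by
  rw [eig_iff, ← Matrix.mem_spectrum_iff_isRoot_charpoly, spectrum.map_pow_of_pos _ hn] at h
  obtain ⟨β, hβ, hβ'⟩ := h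
  exact ⟨β, eig_iff.2 (Matrix.mem_spectrum_iff_isRoot_charpoly.1 hβ), hβ'⟩

lemma eig_map {K : Type} [Field K] [Algebra K L] {M : Matrix B B K} {α : L} :
    Eig (M.map (algebraMap K L)) α ↔ Polynomial.aeval α M.charpoly = 0 := by
  rw [eig_iff, Matrix.charpoly_map, Polynomial.IsRoot, Polynomial.eval_map_algebraMap]

end spec

section homothety

variable {K L : Type} [Field K] [Field L] [Algebra K L] [IsAlgClosed L]
  {κ : Type} [Fintype κ] [DecidableEq κ] {Γ : Type*} [Group Γ] {ρ : Γ →* Matrix κ κ K}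

lemma aeval_bd {d : ℕ} (M : ∀ k : Fin (d + 1), Matrix (Fin k → κ) (Fin k → κ) K)
    (p : Polynomial K) : Polynomial.aeval (Matrix.blockDiagonal' M) p =
      Matrix.blockDiagonal' fun k => Polynomial.aeval (M k) p := by
  induction p using Polynomial.induction_on' with
  | add p q hp hq =>
    rw [map_add, hp, hq, ← Matrix.blockDiagonal'_add]
    congr 1
    funext k
    exact (map_add (Polynomial.aeval (M k)) p q).symm
  | monomial n a =>
    rw [Polynomial.aeval_monomial]
    have h1 : (Matrix.blockDiagonal' M) ^ n = Matrix.blockDiagonal' fun k => M k ^ n :=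
      (map_pow (Matrix.blockDiagonal'RingHom _ K) M n).symm
    rw [h1, ← Algebra.smul_def, ← Matrix.blockDiagonal'_smul]
    congr 1
    funext k
    rw [Polynomial.aeval_monomial, ← Algebra.smul_def]
    rfl

/-- **Pure elements and homotheties.** -/
theorem one_mem_LG (σ : L →+* ℂ) {r : ℝ} (hr0 : 0 < r) (hr1 : r ≠ 1) {s : Γ}
    (h : ∀ α : L, Polynomial.aeval α (ρ s).charpoly = 0 → ‖σ α‖ = r) :
    (1 : Matrix κ κ K) ∈ LG ρ := by
  rw [mem_LG]
  intro Δ hΔ f hf
  obtain ⟨m, hm, -, hsm⟩ := Subgroup.exists_pow_mem_of_index_ne_zero hΔ.index_ne_zero s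
  set g := ρ s ^ m with hg
  have hgL : ∀ α, Eig (g.map (algebraMap K L)) α → ‖σ α‖ = r ^ m := by
    intro α hα
    have h1 : g.map (algebraMap K L) = ((ρ s).map (algebraMap K L)) ^ m :=
      Matrix.map_pow _ (algebraMap K L) m
    rw [h1] at hα
    obtain ⟨β, hβ, rfl⟩ := eig_pow hm hα
    rw [map_pow, norm_pow, h β (eig_map.1 hβ)]
  obtain ⟨d, c, rfl⟩ := exists_pc f
  -- the characteristic polynomials of the blocks
  let χ : Fin (d + 1) → Polynomial K := fun k => (TP g k).charpoly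
  have hχ : Pairwise (Function.onFun IsCoprime fun k => Ideal.span {χ k}) := by
    intro j k hjk
    change IsCoprime (Ideal.span {χ j}) (Ideal.span {χ k})
    rw [Ideal.isCoprime_span_singleton_iff]
    refine (Polynomial.isCoprime_iff_aeval_ne_zero_of_isAlgClosed K L (χ j) (χ k)).2 fun α => ?_
    by_contra hcon
    push Not at hcon
    have h1 : ∀ k : Fin (d + 1), Polynomial.aeval α (χ k) = 0 → ‖σ α‖ = (r ^ m) ^ (k : ℕ) := by
      intro k hk
      have h2 := eig_map.2 hk
      rw [← TP_map (algebraMap K L)] at h2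
      exact TP_eig _ σ (pow_pos hr0 m) hgL k α h2
    have h2 := (h1 j hcon.1).symm.trans (h1 k hcon.2)
    rw [← pow_mul, ← pow_mul] at h2
    have h3 := pow_right_injective₀ hr0 hr1 h2
    exact hjk (Fin.ext (Nat.eq_of_mul_eq_mul_left hm h3))
  obtain ⟨p, hp⟩ := Ideal.exists_forall_sub_mem_ideal hχ fun k => Polynomial.C ((k : ℕ) : K)
  have hpk : ∀ k : Fin (d + 1), Polynomial.aeval (TP g k) p = ((k : ℕ) : K) • 1 := by
    intro k
    obtain ⟨u, hu⟩ := Ideal.mem_span_singleton.1 (hp k)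
    have h1 := congrArg (Polynomial.aeval (TP g k)) hu
    rw [map_sub, map_mul, Matrix.aeval_self_charpoly, zero_mul, Polynomial.aeval_C,
      sub_eq_zero] at h1
    rw [h1, Algebra.algebraMap_eq_smul_one]
  have hD : Polynomial.aeval (TT d g) p = DD d (1 : Matrix κ κ K) := by
    rw [TT, aeval_bd, DD]
    congr 1
    funext k
    rw [hpk k, am_one]
  have h1 : ∀ n : ℕ, fn c (TT d g ^ n) = 0 := by
    intro n
    have h2 : TT d g ^ n = TT d (ρ (s ^ m) ^ n) := by
      rw [hg, ← map_pow]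
      induction n with
      | zero => rw [pow_zero, pow_zero, TT_one]
      | succ n ih => rw [pow_succ, pow_succ, TT_mul, ih]
    rw [h2, ← evM_pc, ← map_pow]
    exact mem_VG.1 hf _ (Δ.pow_mem hsm n)
  have h2 : fn c (DD d (1 : Matrix κ κ K)) = 0 := by
    rw [← hD, Polynomial.aeval_eq_sum_range]
    have h3 : ∀ (t : Finset ℕ) (F : ℕ → Matrix (Bd κ d) (Bd κ d) K),
        (∀ i, fn c (F i) = 0) → fn c (∑ i ∈ t, F i) = 0 := by
      intro t F hF
      induction t using Finset.induction_on with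
      | empty => rw [Finset.sum_empty, fn_zero]
      | insert a t ha ih => rw [Finset.sum_insert ha, fn_add, hF, ih, add_zero]
    refine h3 _ _ fun i => ?_
    rw [fn_smul, h1, mul_zero]
  rw [← evM_dA, evM_dA_pc, TT_one, Matrix.one_mul, h2]

end homothety

end Pool.Agent.Q60.GL
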