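import Pool.Agent.Q60.GL.Red
import Pool.Agent.Q60.GL.Pure

/-!
# The Mumford-Tate conjecture and the square of the representation: the main theorem
-/

set_option linter.unusedSectionVars false

namespace Pool.Agent.Q60.GL

open MvPolynomial Module Matrix Kronecker Pool.Agent.Q60.ED Pool.Agent.Q60.FI Pool.Agent.Q60.TD
  Pool.Agent.Q60.NP Pool.Agent.Q60.MV Pool.Agent.Q60.CJ Pool.Agent.Q60.TP

section sub

variable {κ : Type} [Fintype κ] [DecidableEq κ]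

/-- The matrix with indices in the pairs. -/
def sb {R : Type} (A : Matrix (κ × κ) (κ × κ) R) : Matrix (Fin 2 → κ) (Fin 2 → κ) R :=
  A.submatrix (finTwoArrowEquiv κ) (finTwoArrowEquiv κ)

lemma sb_inj {R : Type} {A B : Matrix (κ × κ) (κ × κ) R} (h : sb A = sb B) : A = B := by
  ext p q
  have h1 := congrFun (congrFun h ((finTwoArrowEquiv κ).symm p)) ((finTwoArrowEquiv κ).symm q)
  rw [sb, sb, Matrix.submatrix_apply, Matrix.submatrix_apply, Equiv.apply_symm_apply,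
    Equiv.apply_symm_apply] at h1
  exact h1

lemma sb_surj {R : Type} (M : Matrix (Fin 2 → κ) (Fin 2 → κ) R) : ∃ A, sb A = M := by
  refine ⟨M.submatrix (finTwoArrowEquiv κ).symm (finTwoArrowEquiv κ).symm, ?_⟩
  ext I J
  rw [sb, Matrix.submatrix_apply, Matrix.submatrix_apply, Equiv.symm_apply_apply,
    Equiv.symm_apply_apply]

variable {R : Type} [Field R]

lemma sb_mul (A B : Matrix (κ × κ) (κ × κ) R) : sb (A * B) = sb A * sb B :=
  (Matrix.submatrix_mul_equiv A B _ _ _).symm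

lemma sb_kron (g : Matrix κ κ R) : sb (g ⊗ₖ g) = TP g 2 := by
  ext I J
  rw [sb, Matrix.submatrix_apply, Matrix.kroneckerMap_apply, TP_apply, Fin.prod_univ_two]
  rfl

lemma sb_comm {g : Matrix κ κ R} {A : Matrix (κ × κ) (κ × κ) R} :
    (g ⊗ₖ g) * A = A * (g ⊗ₖ g) ↔ TP g 2 * sb A = sb A * TP g 2 := by
  rw [← sb_kron, ← sb_mul, ← sb_mul]
  exact ⟨fun h => by rw [h], fun h => sb_inj h⟩

lemma sb_toField [Algebra ℚ R] (A : Matrix (κ × κ) (κ × κ) ℚ) :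
    sb (toField R A) = toField R (sb A) := rfl

end sub

section main

variable {κ : Type} [Fintype κ] [DecidableEq κ] {w : ℤ} {V : HodgeStructure κ w}
  {Q : Matrix κ κ ℚ} {ℓ : ℕ} [Fact ℓ.Prime] {Γ : Type} [Group Γ] {ρ : Γ →* Matrix κ κ ℚ_[ℓ]}

lemma tate_iff {A : Matrix (κ × κ) (κ × κ) ℚ_[ℓ]} : IsTateEndSq ρ A ↔ VComm ρ (sb A) := by
  refine exists_congr fun Δ => and_congr_right fun _ => forall_congr' fun s =>
    forall_congr' fun _ => sb_comm

lemma hodge_iff {A : Matrix (κ × κ) (κ × κ) ℚ} : IsHodgeEndSq V A ↔ IsHom V (sb A) := by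
  refine forall_congr' fun z => forall_congr' fun _ => ?_
  rw [sb_comm, sb_toField]

lemma span_iff {A : Matrix (κ × κ) (κ × κ) ℚ_[ℓ]} :
    A ∈ Submodule.span ℚ_[ℓ] (toField ℚ_[ℓ] '' {B | IsHodgeEndSq V B}) ↔
      sb A ∈ SpM ℚ_[ℓ] (HE V) := by
  let Φ : Matrix (κ × κ) (κ × κ) ℚ_[ℓ] →ₗ[ℚ_[ℓ]] Matrix (Fin 2 → κ) (Fin 2 → κ) ℚ_[ℓ] :=
    { toFun := sb, map_add' := fun _ _ => rfl, map_smul' := fun _ _ => rfl }
  have hΦ : Function.Injective Φ := fun _ _ h => sb_inj h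
  have h1 : SpM ℚ_[ℓ] (HE V) =
      (Submodule.span ℚ_[ℓ] (toField ℚ_[ℓ] '' {B | IsHodgeEndSq V B})).map Φ := by
    rw [Submodule.map_span, SpM]
    congr 1
    ext M
    constructor
    · rintro ⟨B, hB, rfl⟩
      obtain ⟨A, rfl⟩ := sb_surj B
      exact ⟨_, ⟨A, hodge_iff.2 hB, rfl⟩, rfl⟩
    · rintro ⟨_, ⟨A, hA, rfl⟩, rfl⟩
      exact ⟨sb A, hodge_iff.1 hA, rfl⟩
  rw [h1]
  constructor
  · intro h
    exact ⟨A, h, rfl⟩
  · rintro ⟨B, hB, hB'⟩
    rw [← hΦ hB']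
    exact hB

lemma ht_iff : HodgeIsTate V ρ ↔ HTK V ρ := by
  constructor
  · intro h M hM
    obtain ⟨A, rfl⟩ := sb_surj M
    rw [← sb_toField, ← tate_iff]
    exact h A (hodge_iff.2 hM)
  · intro h A hA
    rw [tate_iff, sb_toField]
    exact h _ (hodge_iff.1 hA)

lemma th_iff : TateIsHodge V ρ ↔ THK V ρ := by
  constructor
  · intro h M hM
    obtain ⟨A, rfl⟩ := sb_surj M
    rw [← span_iff]
    exact h A (tate_iff.2 hM)
  · intro h A hA
    rw [span_iff]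
    exact h _ (tate_iff.1 hA)

lemma sq_of (h : HTK V ρ) (h' : THK V ρ) : SqK V ρ := by
  intro M
  refine ⟨h' M, fun hM => ?_⟩
  refine Submodule.span_induction (p := fun M _ => VComm ρ M) ?_ ?_ ?_ ?_ hM
  · rintro _ ⟨A, hA, rfl⟩
    exact h A hA
  · exact ⟨⊤, inferInstance, fun s _ => by rw [Matrix.mul_zero, Matrix.zero_mul]⟩
  · rintro x y _ _ ⟨Δ, hΔ, hx⟩ ⟨Δ', hΔ', hy⟩
    exact ⟨Δ ⊓ Δ', inferInstance, fun s hs => by
      rw [Matrix.mul_add, Matrix.add_mul, hx s hs.1, hy s hs.2]⟩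
  · rintro c x _ ⟨Δ, hΔ, hx⟩
    exact ⟨Δ, hΔ, fun s hs => by rw [Matrix.mul_smul, Matrix.smul_mul, hx s hs]⟩

lemma card_alg (p : ℕ) [hp : Fact p.Prime] :
    Cardinal.mk (AlgebraicClosure ℚ_[p]) = Cardinal.continuum := by
  have h2 : Cardinal.continuum ≤ Cardinal.mk ℚ_[p] :=
    continuum_le_cardinal_of_nontriviallyNormedField ℚ_[p]
  have h3 : Cardinal.mk ℚ_[p] ≤ Cardinal.continuum := by
    have h4 : Cardinal.mk ℚ_[p] ≤ Cardinal.mk (CauSeq ℚ (padicNorm p)) :=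
      Cardinal.mk_le_of_surjective (f := fun x => (Quotient.mk _ x : ℚ_[p])) (by
        intro y
        exact Quotient.exists_rep y)
    refine h4.trans ?_
    have h5 : Cardinal.mk (CauSeq ℚ (padicNorm p)) ≤ Cardinal.mk (ℕ → ℚ) :=
      Cardinal.mk_le_of_injective (f := fun x => (x : ℕ → ℚ)) (by
        intro x y hxy
        exact Subtype.ext hxy)
    refine h5.trans ?_
    simp
  have h6 : Cardinal.mk ℚ_[p] = Cardinal.continuum := le_antisymm h3 h2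
  apply le_antisymm
  · have := Algebra.IsAlgebraic.cardinalMk_le_max ℚ_[p] (AlgebraicClosure ℚ_[p])
    rw [h6, max_eq_left Cardinal.aleph0_le_continuum] at this
    exact this
  · rw [← h6]
    exact Cardinal.mk_le_of_injective (algebraMap ℚ_[p] (AlgebraicClosure ℚ_[p])).injective

lemma exists_iso (ℓ : ℕ) [Fact ℓ.Prime] : Nonempty (AlgebraicClosure ℚ_[ℓ] ≃+* ℂ) := by
  apply IsAlgClosed.ringEquiv_of_equiv_of_charZero
  · rw [card_alg]
    exact Cardinal.aleph0_lt_continuum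
  · rw [← Cardinal.eq, card_alg, Cardinal.mk_complex]

lemma zspan : Submodule.span (AlgebraicClosure ℚ_[ℓ])
    (toField (AlgebraicClosure ℚ_[ℓ]) '' {c | IsCentralEnd V c}) =
      SpM (AlgebraicClosure ℚ_[ℓ]) (Subalgebra.toSubmodule (ZA V)) := rfl

lemma mtc_iff : MumfordTateConjecture V.h ρ ↔ MTCK V ρ (AlgebraicClosure ℚ_[ℓ]) := Iff.rfl

lemma cc_iff : CentralCondition V ρ ↔ CCK V ρ (AlgebraicClosure ℚ_[ℓ]) := Iff.rfl

lemma mtc_and : MumfordTateConjecture V.h ρ ↔ MonodromyInMumfordTate V.h ρ ∧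
    MumfordTateInMonodromy V.h ρ :=
  ⟨fun h => ⟨fun g hg => (h g hg).1, fun g hg => (h g hg).2⟩,
    fun h g hg => ⟨h.1 g hg, h.2 g hg⟩⟩

variable (hQ : IsPolarisation V Q) (hρ : Similitudes w Q ρ)

include hQ hρ

/-- The first inclusion. -/
theorem mon_iff (htr : TotallyRealCentre V Q) :
    MonodromyInMumfordTate V.h ρ ↔ HodgeIsTate V ρ :=
  ⟨fun h => ht_iff.2 (ht_of_monIn (L := AlgebraicClosure ℚ_[ℓ]) h),
    fun h => monIn_of (L := AlgebraicClosure ℚ_[ℓ]) hQ hρ htr (ht_iff.1 h)⟩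

variable (hpure : w ≠ 0 → HasPureElement ρ)

include hpure

lemma one_of (hw : w ≠ 0) : 1 ∈ LG ρ := by
  obtain ⟨s, σ, r, h0, h1, h⟩ := hpure hw
  exact one_mem_LG σ h0 h1 h

/-- The second inclusion. -/
theorem mt_iff (htr : TotallyRealCentre V Q) (hss : Semisimple ρ) :
    MumfordTateInMonodromy V.h ρ ↔ TateIsHodge V ρ := by
  obtain ⟨τ⟩ := exists_iso ℓ
  refine ⟨fun h => th_iff.2 (th_of_mtIn τ h), fun h => ?_⟩
  have h1 : HypT V Q ρ := ⟨hQ, hρ, one_of hQ hρ hpure, hss, th_iff.1 h⟩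
  exact h1.mtIn htr

/-- **The Mumford-Tate conjecture for totally real centre.** -/
theorem mtc_tr_iff (htr : TotallyRealCentre V Q) :
    MumfordTateConjecture V.h ρ ↔ Semisimple ρ ∧ HodgeIsTate V ρ ∧ TateIsHodge V ρ := by
  obtain ⟨τ⟩ := exists_iso ℓ
  constructor
  · intro h
    have hss : Semisimple ρ := ss_of_mtc hQ τ (mtc_iff.1 h)
    have h2 := mtc_and.1 h
    exact ⟨hss, (mon_iff hQ hρ htr).1 h2.1, (mt_iff hQ hρ hpure htr hss).1 h2.2⟩
  · rintro ⟨hss, h1, h2⟩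
    exact mtc_and.2 ⟨(mon_iff hQ hρ htr).2 h1, (mt_iff hQ hρ hpure htr hss).2 h2⟩

/-- **The Mumford-Tate conjecture in general.** -/
theorem mtc_gen_iff : MumfordTateConjecture V.h ρ ↔
    Semisimple ρ ∧ HodgeIsTate V ρ ∧ TateIsHodge V ρ ∧ CentralCondition V ρ := by
  obtain ⟨τ⟩ := exists_iso ℓ
  constructor
  · intro h
    have h2 := mtc_and.1 h
    refine ⟨ss_of_mtc hQ τ (mtc_iff.1 h),
      ht_iff.2 (ht_of_monIn (L := AlgebraicClosure ℚ_[ℓ]) h2.1), th_iff.2 (th_of_mtIn τ h2.2),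
      1, one_pos, fun g _ hg => ⟨fun h' => ?_, fun h' => ?_⟩⟩
    · rw [pow_one]
      exact (h g hg).2 h'
    · rw [pow_one]
      exact (h g hg).1 h'
  · rintro ⟨hss, h1, h2, h3⟩
    have h4 : Hyp V Q ρ := ⟨hQ, hρ, one_of hQ hρ hpure, hss, sq_of (ht_iff.1 h1) (th_iff.1 h2)⟩
    exact h4.mtc_cc τ (cc_iff.1 h3)

end main

end Pool.Agent.Q60.GL
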