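import Pool.Agent.Q60.GL.Perf

/-!
# The Mumford-Tate group is contained in the monodromy group
-/

set_option linter.unusedSectionVars false

namespace Pool.Agent.Q60.GL

open MvPolynomial Module Matrix Pool.Agent.Q60.ED Pool.Agent.Q60.FI Pool.Agent.Q60.TD
  Pool.Agent.Q60.NP Pool.Agent.Q60.MV Pool.Agent.Q60.CJ Pool.Agent.Q60.TP

variable {K L : Type} [Field K] [CharZero K] [Field L] [CharZero L] [Algebra K L]
  {κ : Type} [Fintype κ] [DecidableEq κ] {w : ℤ}
  {V : HodgeStructure κ w} {Q : Matrix κ κ ℚ} {Γ : Type*} [Group Γ] {ρ : Γ →* Matrix κ κ K}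

/-- The hypotheses on the Galois representation, with one half of the square condition. -/
structure HypT (V : HodgeStructure κ w) (Q : Matrix κ κ ℚ) (ρ : Γ →* Matrix κ κ K) : Prop where
  pol : IsPolarisation V Q
  sim : SimK w Q ρ
  one : w ≠ 0 → 1 ∈ LG ρ
  ss : SsV ρ
  th : THK V ρ

variable (h : HypT V Q ρ)

include h

/-- The skew part of an element of the Lie algebra. -/
lemma HypT.dec {B : Matrix κ κ K} (hB : B ∈ LG ρ) :
    ∃ μ : K, B - μ • 1 ∈ LG ρ ⊓ skS (toField K Q) ∧ (w = 0 → μ = 0) := by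
  obtain ⟨μ, h1, h2⟩ := decomp (pol_det h.pol) h.sim hB
  refine ⟨μ, ⟨?_, h1⟩, h2⟩
  refine Submodule.sub_mem _ hB ?_
  rcases eq_or_ne w 0 with hw | hw
  · rw [h2 hw, zero_smul]
    exact Submodule.zero_mem _
  · exact Submodule.smul_mem _ _ (h.one hw)

lemma HypT.sh : SH (toField K Q) ρ where
  det := toField_det (pol_det h.pol)
  sim := fun s => by
    obtain ⟨c, hc, -⟩ := h.sim s
    exact ⟨c, hc⟩
  dec := fun B hB => by
    obtain ⟨μ, h1, -⟩ := h.dec hB
    exact ⟨μ, h1⟩

/-- Operators which commute with the skew part of the Lie algebra are combinations of Hodge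
operators. -/
lemma HypT.op_of_comm {P : Matrix (Fin 2 → κ) (Fin 2 → κ) K}
    (hP : ∀ A ∈ LG ρ ⊓ skS (toField K Q), am A 2 * P = P * am A 2) : P ∈ SpM K (HE V) := by
  refine h.th P (vcomm_of_am fun A hA => ?_)
  obtain ⟨μ, h1, -⟩ := h.dec hA
  exact comm_dec (hP _ h1)

/-- The commutant of the Lie algebra commutes with the Lie algebra of the Hodge group. -/
lemma HypT.cen {c : Matrix κ κ K} (hc : ∀ B ∈ LG ρ ⊓ skS (toField K Q), B * c = c * B)
    {y : Matrix κ κ K} (hy : y ∈ HL K h.pol) : y * c = c * y := by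
  have h1 : K2 c 1 ∈ SpM K (HE V) := h.op_of_comm fun A hA => by
    rw [← sub_eq_zero, am_K2, hc A hA, sub_self]
    ext I J
    simp [K2]
  exact K2_comm (HL_comm h.pol hy h1)

/-- The commutators of the Lie algebra of the Hodge group belong to the Lie algebra of the
monodromy group. -/
lemma HypT.br {y y' : Matrix κ κ K} (hy : y ∈ HL K h.pol) (hy' : y' ∈ HL K h.pol) :
    y' * y - y * y' ∈ LG ρ ⊓ skS (toField K Q) := by
  obtain ⟨P, hP0, hP1, hP2⟩ := h.sh.proj h.ss (W := (LG ρ ⊓ skS (toField K Q)).map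
    (tvL (toField K Q))) (by
    rintro A hA _ ⟨X, hX, rfl⟩
    exact ⟨_, h.sh.br hA hX, (am_tv hA.2 X).symm⟩)
  have hP := h.op_of_comm hP0
  have hP1' : ∀ X, pr (toField K Q) P X ∈ LG ρ ⊓ skS (toField K Q) := by
    intro X
    obtain ⟨Y, hY, hY'⟩ := hP1 (tv (toField K Q) X)
    have h1 : pr (toField K Q) P X = Y := by
      apply tv_inj h.sh.det
      rw [tv_pr h.sh.det]
      exact hY'.symm
    rw [h1]
    exact hY
  have hP2' : ∀ X ∈ LG ρ ⊓ skS (toField K Q), pr (toField K Q) P X = X := fun X hX =>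
    pr_id h.sh.det (hP2 _ ⟨X, hX, rfl⟩)
  -- the Lie algebra is an ideal
  have h1 : ∀ B ∈ LG ρ ⊓ skS (toField K Q), B * y - y * B ∈ LG ρ ⊓ skS (toField K Q) := by
    intro B hB
    have h2 := pr_br h.sh.det (HL_skew h.pol hy) (HL_comm h.pol hy hP) B
    rw [hP2' B hB] at h2
    have h3 : B * y - y * B = -(y * B - B * y) := by rw [neg_sub]
    rw [h3, ← h2]
    exact Submodule.neg_mem _ (hP1' _)
  -- the other part commutes with the Lie algebra
  have h2 : ∀ B ∈ LG ρ ⊓ skS (toField K Q), B * (y - pr (toField K Q) P y) =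
      (y - pr (toField K Q) P y) * B := by
    intro B hB
    have h3 := pr_br h.sh.det hB.2 (hP0 B hB) y
    rw [hP2' _ (h1 B hB)] at h3
    rw [Matrix.mul_sub, Matrix.sub_mul, sub_eq_sub_iff_sub_eq_sub]
    exact h3
  have h3 := h.cen h2 hy'
  rw [Matrix.mul_sub, Matrix.sub_mul, sub_eq_sub_iff_sub_eq_sub] at h3
  have h4 := pr_br h.sh.det (HL_skew h.pol hy') (HL_comm h.pol hy' hP) y
  rw [← h3] at h4
  rw [← h4]
  exact hP1' _

/-- **The Lie algebra of the Mumford-Tate group is contained in the Lie algebra of the monodromy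
group.** -/
theorem HypT.ge (htr : TotallyRealCentre V Q) {y : Matrix κ κ K} (hy : y ∈ HL K h.pol) :
    y ∈ LG ρ :=
  (HL_perfect' h.pol htr (D := LG ρ ⊓ skS (toField K Q)) (fun _ hX _ hY => h.br hY hX) hy).1

/-- **The second inclusion from the Tate endomorphisms of the square.** -/
theorem HypT.mtIn (htr : TotallyRealCentre V Q) : MTIn V ρ L := fun _ _ hg =>
  mt_le_of h.pol h.one (fun _ hB => h.ge htr hB) hg

omit h

/-- The converse. -/
theorem th_of_mtIn (τ : L ≃+* ℂ) (h : MTIn V ρ L) : THK V ρ := by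
  rintro M ⟨Δ, hΔ, hM⟩
  have hdet : ∀ z, z ≠ 0 → (V.h z).det ≠ 0 := fun z hz => h_det V hz
  set M' := M.map (algebraMap K L) with hM'
  set N := M'.map τ with hN
  have h1 : ∀ m ∈ mumfordTate V.h, TP m 2 * N = N * TP m 2 := by
    intro m hm
    have h2 : InMumfordTate V.h (m.map τ.symm) := by
      intro f hf
      have h3 := value_mapL (τ.symm : ℂ →+* L) (fun a => by simp) m f
      rw [hf m hm, map_zero] at h3
      exact h3
    have h3 := h (m.map τ.symm) (det_map_ne (τ.symm : ℂ →+* L) (mt_det hdet hm)) h2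
    have h4 : TP (m.map τ.symm) 2 * M' = M' * TP (m.map τ.symm) 2 := by
      rw [FM_comm]
      intro p
      refine h3 _ ⟨Δ, hΔ, fun s hs => ?_⟩
      have h5 : TP ((ρ s).map (algebraMap K L)) 2 * M' =
          M' * TP ((ρ s).map (algebraMap K L)) 2 := by
        rw [TP_map (algebraMap K L), hM', ← Matrix.map_mul, ← Matrix.map_mul, hM s hs]
      exact FM_comm.1 h5 p
    have h5 := congrArg (fun X => X.map (τ : L →+* ℂ)) h4
    simp only [Matrix.map_mul] at h5
    rw [← TP_map (τ : L →+* ℂ)] at h5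
    have h6 : (m.map τ.symm).map (τ : L →+* ℂ) = m := by
      ext i j
      simp
    rw [h6] at h5
    exact h5
  -- the rational algebra
  have h2 : ∀ X ∈ MQ V.h 2, toField K (bk X) * M = M * toField K (bk X) := by
    intro X hX
    have h3 : bk (toField ℂ X) * N = N * bk (toField ℂ X) := by
      refine Submodule.span_induction (p := fun X _ => bk X * N = N * bk X) ?_ ?_ ?_ ?_
        (mem_MQ.1 hX)
      · rintro _ ⟨m, hm, rfl⟩
        rw [bk_TT]
        exact h1 m hm
      · have h4 : bk (0 : Matrix (Bd κ 2) (Bd κ 2) ℂ) = 0 := rfl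
        rw [h4, Matrix.zero_mul, Matrix.mul_zero]
      · intro a b _ _ ha hb
        have h4 : bk (a + b) = bk a + bk b := rfl
        rw [h4, Matrix.add_mul, Matrix.mul_add, ha, hb]
      · intro c a _ ha
        have h4 : bk (c • a) = c • bk a := rfl
        rw [h4, Matrix.smul_mul, Matrix.mul_smul, ha]
    have h4 := congrArg (fun X => X.map (τ.symm : ℂ →+* L)) h3
    simp only [Matrix.map_mul] at h4
    have h5 : N.map (τ.symm : ℂ →+* L) = M' := by
      ext i j
      simp [hN]
    have h6 : (bk (toField ℂ X)).map (τ.symm : ℂ →+* L) =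
        (toField K (bk X)).map (algebraMap K L) := by
      rw [toField_map]
      ext i j
      simp [toField, bk]
    rw [h5, h6, hM', ← Matrix.map_mul, ← Matrix.map_mul] at h4
    exact map_inj h4
  apply mem_SpM
  intro l z hz
  have h3 : ∀ X ∈ SpM ℂ (Subalgebra.toSubmodule (MQ V.h 2)),
      bk X * toField ℂ (Matrix.of fun i j => l (M i j)) =
        toField ℂ (Matrix.of fun i j => l (M i j)) * bk X := by
    intro X hX
    refine Submodule.span_induction (p := fun X _ => bk X *
      toField ℂ (Matrix.of fun i j => l (M i j)) =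
        toField ℂ (Matrix.of fun i j => l (M i j)) * bk X) ?_ ?_ ?_ ?_ hX
    · rintro _ ⟨x, hx, rfl⟩
      have h4 := form_eq (l := l) (h2 x hx)
      rw [mul_form_left, mul_form_right] at h4
      have h5 := congrArg (toField ℂ) h4
      rw [toField_mul, toField_mul] at h5
      exact h5
    · have h4 : bk (0 : Matrix (Bd κ 2) (Bd κ 2) ℂ) = 0 := rfl
      rw [h4, Matrix.zero_mul, Matrix.mul_zero]
    · intro a b _ _ ha hb
      have h4 : bk (a + b) = bk a + bk b := rfl
      rw [h4, Matrix.add_mul, Matrix.mul_add, ha, hb]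
    · intro c a _ ha
      have h4 : bk (c • a) = c • bk a := rfl
      rw [h4, Matrix.smul_mul, Matrix.mul_smul, ha]
  have h4 := h3 (TT 2 (V.h z)) (MC_le hdet (Submodule.subset_span ⟨_, h_mem_mt hz, rfl⟩))
  rw [bk_TT] at h4
  exact h4

end Pool.Agent.Q60.GL
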