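import Pool.Agent.Q60.GL.Key
import Pool.Agent.Q60.MV.Core

/-!
# Endomorphisms of a Hodge structure and tensors of degree two
-/

set_option linter.unusedSectionVars false

namespace Pool.Agent.Q60.GL

open MvPolynomial Module Matrix Pool.Agent.Q60.ED Pool.Agent.Q60.FI Pool.Agent.Q60.TD
  Pool.Agent.Q60.NP Pool.Agent.Q60.MV Pool.Agent.Q60.CJ Pool.Agent.Q60.TP

section hodge

variable {κ : Type} [Fintype κ] [DecidableEq κ] {w : ℤ} {V : HodgeStructure κ w}
  {Q : Matrix κ κ ℚ}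

lemma toField_K2 {R : Type} [Field R] [Algebra ℚ R] (x y : Matrix κ κ ℚ) :
    toField R (K2 x y) = K2 (toField R x) (toField R y) := by
  ext I J
  rw [toField, Matrix.map_apply, K2, Matrix.of_apply, map_mul]
  rfl

lemma toField_one {R : Type} [Field R] [Algebra ℚ R] {m : Type} [DecidableEq m] :
    toField R (1 : Matrix m m ℚ) = 1 := Matrix.map_one _ (map_zero _) (map_one _)

/-- Commutation of tensor products. -/
lemma K2_comm_iff {K : Type} [Field K] {g c : Matrix κ κ K} (hg : g.det ≠ 0) :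
    TP g 2 * K2 c 1 = K2 c 1 * TP g 2 ↔ g * c = c * g := by
  rw [TP_two, K2_mul, K2_mul, Matrix.mul_one, Matrix.one_mul]
  constructor
  · intro h
    have h1 : K2 (g * c) g * K2 1 g⁻¹ = K2 (c * g) g * K2 1 g⁻¹ := by rw [h]
    rw [K2_mul, K2_mul, Matrix.mul_nonsing_inv _ (isUnit_iff_ne_zero.2 hg), Matrix.mul_one,
      Matrix.mul_one] at h1
    have h2 : K2 (g * c - c * g) (1 : Matrix κ κ K) = 0 := by
      rw [← K2_sub, h1, sub_self]
    exact sub_eq_zero.1 (K2_inj h2)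
  · intro h
    rw [h]

lemma isHom_K2 {c : Matrix κ κ ℚ} : IsHom V (K2 c 1) ↔ IsHodgeEnd V c := by
  rw [IsHom, IsHodgeEnd]
  refine forall_congr' fun z => forall_congr' fun hz => ?_
  rw [toField_K2, toField_one]
  exact K2_comm_iff (h_det V hz)

lemma end_iff (hQ : IsPolarisation V Q) {c : Matrix κ κ ℚ} :
    IsHodgeEnd V c ↔ ∀ z : ℂ, z ≠ 0 → cz V z * toField ℂ c = toField ℂ c * cz V z := by
  constructor
  · intro h z hz
    have h1 := hom_cz (isHom_K2.2 h) hz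
    rw [toField_K2, toField_one] at h1
    exact (K2_comm_iff (phs_det hQ hz)).1 h1
  · intro h z hz
    obtain ⟨c', u, hc, hu, h1⟩ := h_eq_smul (V := V) hz
    rw [h1, Matrix.smul_mul, Matrix.mul_smul, h u hu]

lemma toField_cx_tv (Q c : Matrix κ κ ℚ) :
    mat2 (cx (tv Q c)) = toField ℂ c * (toField ℂ Q⁻¹)ᵀ := by
  have h1 : mat2 (cx (tv Q c)) = toField ℂ (c * (Q⁻¹)ᵀ) := by
    ext i j
    simp [mat2, cx, tv, NP.vec, toField]
  rw [h1, toField_mul]
  rfl

/-- Hodge tensors of degree two and endomorphisms. -/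
lemma tv_iff (hQ : IsPolarisation V Q) {c : Matrix κ κ ℚ} :
    tv Q c ∈ (phs hQ).T 2 ↔ IsHodgeEnd V c := by
  rw [end_iff hQ, PHS.mem_T]
  refine forall_congr' fun z => forall_congr' fun hz => ?_
  rw [phs_c hQ hz]
  have h2 : cz V z * (toField ℂ Q⁻¹)ᵀ * (cz V z)ᵀ = (toField ℂ Q⁻¹)ᵀ := by
    have h3 := congrArg Matrix.transpose (cz_Om hQ hz)
    rw [Matrix.transpose_mul, Matrix.transpose_mul, Matrix.transpose_transpose,
      ← Matrix.mul_assoc] at h3
    exact h3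
  have hd : (toField ℂ Q⁻¹)ᵀ.det ≠ 0 := by
    rw [Matrix.det_transpose]
    intro h0
    have h1 := congrArg Matrix.det (toField_inv (pol_det hQ)).1
    rw [Matrix.det_mul, h0, mul_zero, Matrix.det_one] at h1
    exact zero_ne_one h1
  have hd2 : (cz V z)ᵀ.det ≠ 0 := by
    rw [Matrix.det_transpose]
    exact phs_det hQ hz
  constructor
  · intro h
    have h1 := congrArg mat2 h
    rw [tpow_two, toField_cx_tv] at h1
    have h3 : cz V z * toField ℂ c * ((toField ℂ Q⁻¹)ᵀ * (cz V z)ᵀ) =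
        toField ℂ c * cz V z * ((toField ℂ Q⁻¹)ᵀ * (cz V z)ᵀ) := by
      calc cz V z * toField ℂ c * ((toField ℂ Q⁻¹)ᵀ * (cz V z)ᵀ)
          = cz V z * (toField ℂ c * (toField ℂ Q⁻¹)ᵀ) * (cz V z)ᵀ := by
            simp only [Matrix.mul_assoc]
        _ = toField ℂ c * (toField ℂ Q⁻¹)ᵀ := h1
        _ = toField ℂ c * (cz V z * (toField ℂ Q⁻¹)ᵀ * (cz V z)ᵀ) := by rw [h2]
        _ = _ := by simp only [Matrix.mul_assoc]
    have hu : IsUnit ((toField ℂ Q⁻¹)ᵀ * (cz V z)ᵀ).det := by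
      rw [Matrix.det_mul]
      exact isUnit_iff_ne_zero.2 (mul_ne_zero hd hd2)
    set U := (toField ℂ Q⁻¹)ᵀ * (cz V z)ᵀ
    have h4 := congrArg (fun M => M * U⁻¹) h3
    simp only [Matrix.mul_assoc _ U U⁻¹, Matrix.mul_nonsing_inv _ hu, Matrix.mul_one] at h4
    exact h4
  · intro h
    apply PHS.mat2_inj
    rw [tpow_two, toField_cx_tv, ← Matrix.mul_assoc, h, Matrix.mul_assoc (toField ℂ c),
      Matrix.mul_assoc (toField ℂ c), h2]

/-- The condition on the centre for the Hodge tensors. -/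
lemma cen_of (hQ : IsPolarisation V Q) (hc : TotallyRealCentre V Q) :
    ∀ c : Matrix κ κ ℚ, tv (phs hQ).Q c ∈ (phs hQ).T 2 →
      (∀ a, tv (phs hQ).Q a ∈ (phs hQ).T 2 → a * c = c * a) →
      (∀ s ∈ (phs hQ).T 2, aop c s = 0) → c = 0 := by
  intro c h1 h2 h3
  refine hc c ((tv_iff hQ).1 h1) (fun a ha => h2 a ((tv_iff hQ).2 ha)) ?_
  have h4 := h3 _ PHS.Om_mem
  have h5 : Skw Q c := by
    rw [skw_iff]
    exact h4
  have hu := isUnit_iff_ne_zero.2 (pol_det hQ)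
  rw [Skw] at h5
  have h6 : Q * (c * Q⁻¹ + Q⁻¹ * cᵀ) * Q = Q * c + cᵀ * Q := by
    rw [Matrix.mul_add, Matrix.add_mul, ← Matrix.mul_assoc Q Q⁻¹, Matrix.mul_nonsing_inv _ hu,
      Matrix.one_mul, Matrix.mul_assoc Q, Matrix.mul_assoc c, Matrix.nonsing_inv_mul _ hu,
      Matrix.mul_one]
  rw [h5, Matrix.mul_zero, Matrix.zero_mul] at h6
  rw [eq_neg_iff_add_eq_zero, add_comm]
  exact h6.symm

end hodge

end Pool.Agent.Q60.GL
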