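import Pool.Agent.Q60.GL.Ssl
import Pool.Agent.Q60.GL.Key2

/-!
# The Lie algebra of the monodromy group and the Lie algebra of the Mumford-Tate group:
the main step
-/

set_option linter.unusedSectionVars false

namespace Pool.Agent.Q60.GL

open MvPolynomial Module Matrix Pool.Agent.Q60.ED Pool.Agent.Q60.FI Pool.Agent.Q60.TD
  Pool.Agent.Q60.NP Pool.Agent.Q60.MV Pool.Agent.Q60.CJ Pool.Agent.Q60.TP

section pr

variable {K : Type} [Field K] {κ : Type} [Fintype κ] [DecidableEq κ] {q : Matrix κ κ K}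

/-- The matrix with a given tensor. -/
def tvi (q : Matrix κ κ K) (t : (Fin 2 → κ) → K) : Matrix κ κ K := mat2 t * qᵀ

lemma tv_tvi (hq : q.det ≠ 0) (t : (Fin 2 → κ) → K) : tv q (tvi q t) = t := by
  rw [tvi, tv_mul_right hq]
  funext w
  rw [NP.vec, mat2, Matrix.of_apply]
  congr 1
  funext k
  fin_cases k <;> rfl

lemma tvi_tv (hq : q.det ≠ 0) (A : Matrix κ κ K) : tvi q (tv q A) = A :=
  tv_inj hq (tv_tvi hq _)

/-- The map on matrices defined by an operator. -/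
noncomputable def pr (q : Matrix κ κ K) (P : Matrix (Fin 2 → κ) (Fin 2 → κ) K) (X : Matrix κ κ K) :
    Matrix κ κ K := tvi q (P *ᵥ tv q X)

lemma tv_pr (hq : q.det ≠ 0) (P : Matrix (Fin 2 → κ) (Fin 2 → κ) K) (X : Matrix κ κ K) :
    tv q (pr q P X) = P *ᵥ tv q X := tv_tvi hq _

lemma pr_br (hq : q.det ≠ 0) {P : Matrix (Fin 2 → κ) (Fin 2 → κ) K} {B : Matrix κ κ K}
    (hB : Skw q B) (hP : am B 2 * P = P * am B 2) (X : Matrix κ κ K) :
    pr q P (B * X - X * B) = B * pr q P X - pr q P X * B := by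
  apply tv_inj hq
  rw [tv_pr hq, ← am_tv hB, ← am_tv hB, tv_pr hq, Matrix.mulVec_mulVec, Matrix.mulVec_mulVec, hP]

lemma pr_id (hq : q.det ≠ 0) {P : Matrix (Fin 2 → κ) (Fin 2 → κ) K} {X : Matrix κ κ K}
    (h : P *ᵥ tv q X = tv q X) : pr q P X = X := tv_inj hq (by rw [tv_pr hq, h])

/-- Extension of the commutation by scalars. -/
lemma comm_dec [CharZero K] {P : Matrix (Fin 2 → κ) (Fin 2 → κ) K} {B : Matrix κ κ K} {μ : K}
    (h : am (B - μ • 1) 2 * P = P * am (B - μ • 1) 2) : am B 2 * P = P * am B 2 := by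
  have h4 : am B 2 = am (B - μ • 1) 2 + (μ * (2 : ℕ)) • 1 := by
    have h5 : B = (B - μ • 1) + μ • 1 := by rw [sub_add_cancel]
    conv_lhs => rw [h5, am_add, am_smul, am_one, smul_smul]
  rw [h4, Matrix.add_mul, Matrix.mul_add, h, Matrix.smul_mul, Matrix.mul_smul, Matrix.one_mul,
    Matrix.mul_one]

end pr

section lie

variable {K : Type} [Field K] [CharZero K] {κ : Type} [Fintype κ] [DecidableEq κ] {w : ℤ}
  {V : HodgeStructure κ w} {Q : Matrix κ κ ℚ}

/-- The Lie algebra of the Hodge group, over an extension. -/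
def HL (K : Type) [Field K] [CharZero K] (hQ : IsPolarisation V Q) :
    Submodule K (Matrix κ κ K) where
  carrier := {B | ∀ n, ∀ t ∈ (phs hQ).T n, aop B (bc K t) = 0}
  add_mem' {a b} ha hb n t ht := by
    rw [← am_mulVec, am_add, Matrix.add_mulVec, am_mulVec, am_mulVec, ha n t ht, hb n t ht,
      add_zero]
  zero_mem' n t _ := by
    rw [← am_mulVec, am_zero, Matrix.zero_mulVec]
  smul_mem' c a ha n t ht := by
    rw [← am_mulVec, am_smul, Matrix.smul_mulVec, am_mulVec, ha n t ht, smul_zero]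

lemma mem_HL {hQ : IsPolarisation V Q} {B : Matrix κ κ K} :
    B ∈ HL K hQ ↔ ∀ n, ∀ t ∈ (phs hQ).T n, aop B (bc K t) = 0 := Iff.rfl

variable (hQ : IsPolarisation V Q)

lemma HL_skew {B : Matrix κ κ K} (hB : B ∈ HL K hQ) : Skw (toField K Q) B :=
  Skw_of_phs hQ (hB 2 _ PHS.Om_mem)

lemma HL_rat {y : Matrix κ κ ℚ} (hy : Lie (phs hQ).T y) : y.map (algebraMap ℚ K) ∈ HL K hQ :=
  fun _ _ ht => lie_kill hQ hy ht

lemma HL_form {B : Matrix κ κ K} (hB : B ∈ HL K hQ) (l : K →ₗ[ℚ] ℚ) :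
    Lie (phs hQ).T (Matrix.of fun i j => l (B i j)) := by
  intro n t ht
  funext I
  rw [← aop_form, hB n t ht]
  exact map_zero l

lemma HL_of_form {B : Matrix κ κ K}
    (h : ∀ l : K →ₗ[ℚ] ℚ, Lie (phs hQ).T (Matrix.of fun i j => l (B i j))) : B ∈ HL K hQ := by
  intro n t ht
  funext I
  apply eq_zero_of_forms (K := ℚ)
  intro l
  rw [aop_form, h l n t ht]
  rfl

/-- The Lie algebra commutes with the operators of degree two. -/
lemma HL_comm {B : Matrix κ κ K} (hB : B ∈ HL K hQ) {P : Matrix (Fin 2 → κ) (Fin 2 → κ) K}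
    (hP : P ∈ SpM K (HE V)) : am B 2 * P = P * am B 2 := by
  refine Submodule.span_induction (p := fun P _ => am B 2 * P = P * am B 2) ?_ ?_ ?_ ?_ hP
  · rintro _ ⟨A, hA, rfl⟩
    exact comm_of_kill hQ (HL_skew hQ hB) hB hA
  · rw [Matrix.mul_zero, Matrix.zero_mul]
  · intro x y _ _ hx hy
    rw [Matrix.mul_add, Matrix.add_mul, hx, hy]
  · intro c x _ hx
    rw [Matrix.mul_smul, Matrix.smul_mul, hx]

lemma tv_form1 (l : K →ₗ[ℚ] ℚ) (c : Matrix κ κ K) : tv Q (Matrix.of fun i j => l (c i j)) =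
    fun w => l (tv (toField K Q) c w) := tv_form0 l c

lemma mulVec_form (l : K →ₗ[ℚ] ℚ) {B : Type} [Fintype B] (P : Matrix B B ℚ) (v : B → K) (a : B) :
    l ((toField K P *ᵥ v) a) = (P *ᵥ fun b => l (v b)) a := by
  rw [Matrix.mulVec, dotProduct, map_sum, Matrix.mulVec, dotProduct]
  refine Finset.sum_congr rfl fun b _ => ?_
  rw [toField, Matrix.map_apply, ← Algebra.smul_def, map_smul, smul_eq_mul]

/-- The projection onto the Lie algebra of the Hodge group. -/
lemma HL_proj : ∃ P : Matrix (Fin 2 → κ) (Fin 2 → κ) K, P ∈ SpM K (HE V) ∧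
    (∀ X, pr (toField K Q) P X ∈ HL K hQ) ∧ ∀ X ∈ HL K hQ, pr (toField K Q) P X = X := by
  have hd := pol_det hQ
  have hdK := toField_det (K := K) hd
  have hnd : ∀ n, ∀ v ∈ (phs hQ).T n, (∀ w ∈ (phs hQ).T n, bf (TP (phs hQ).Q n) v w = 0) →
      v = 0 := fun n v hv h => PHS.pos_T hv (h v hv)
  obtain ⟨P, hP, hP1, hP2⟩ := exists_P (Q := Q) hd (C' := toC (psys (phs hQ))) hnd
  have hPh : IsHom V P := by
    rw [CSys.mem_opAlg, CSys.mem_M_iff] at hP
    exact hom_of_tensor hQ hP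
  refine ⟨toField K P, map_mem_SpM hPh, fun X => ?_, fun X hX => ?_⟩
  · apply HL_of_form
    intro l
    obtain ⟨B, hB, hB'⟩ := hP1 (Matrix.of fun i j => l (X i j))
    have h1 : tv Q (Matrix.of fun i j => l (pr (toField K Q) (toField K P) X i j)) = tv Q B := by
      rw [tv_form1, tv_pr hdK, ← hB', tv_form1]
      funext w
      exact mulVec_form l P _ w
    rw [tv_inj hd h1]
    exact hB
  · apply pr_id hdK
    funext w
    rw [← sub_eq_zero]
    apply eq_zero_of_forms (K := ℚ)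
    intro l
    have h1 := hP2 _ (HL_form hQ hX l)
    rw [tv_form1] at h1
    rw [map_sub, mulVec_form, h1, sub_self]

end lie

section main

variable {K : Type} [Field K] [CharZero K] {κ : Type} [Fintype κ] [DecidableEq κ] {w : ℤ}
  {V : HodgeStructure κ w} {Q : Matrix κ κ ℚ} {Γ : Type*} [Group Γ] {ρ : Γ →* Matrix κ κ K}

/-- The hypotheses on the Galois representation. -/
structure Hyp (V : HodgeStructure κ w) (Q : Matrix κ κ ℚ) (ρ : Γ →* Matrix κ κ K) : Prop where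
  pol : IsPolarisation V Q
  sim : SimK w Q ρ
  one : w ≠ 0 → 1 ∈ LG ρ
  ss : SsV ρ
  sq : SqK V ρ

variable (h : Hyp V Q ρ)

include h

/-- The skew part of an element of the Lie algebra. -/
lemma Hyp.dec {B : Matrix κ κ K} (hB : B ∈ LG ρ) :
    ∃ μ : K, B - μ • 1 ∈ LG ρ ⊓ skS (toField K Q) ∧ (w = 0 → μ = 0) := by
  obtain ⟨μ, h1, h2⟩ := decomp (pol_det h.pol) h.sim hB
  refine ⟨μ, ⟨?_, h1⟩, h2⟩
  refine Submodule.sub_mem _ hB ?_
  rcases eq_or_ne w 0 with hw | hw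
  · rw [h2 hw, zero_smul]
    exact Submodule.zero_mem _
  · exact Submodule.smul_mem _ _ (h.one hw)

lemma Hyp.sh : SH (toField K Q) ρ where
  det := toField_det (pol_det h.pol)
  sim := fun s => by
    obtain ⟨c, hc, -⟩ := h.sim s
    exact ⟨c, hc⟩
  dec := fun B hB => by
    obtain ⟨μ, h1, -⟩ := h.dec hB
    exact ⟨μ, h1⟩

/-- Operators which commute with the skew part of the Lie algebra are combinations of Hodge
operators. -/
lemma Hyp.op_of_comm {P : Matrix (Fin 2 → κ) (Fin 2 → κ) K}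
    (hP : ∀ A ∈ LG ρ ⊓ skS (toField K Q), am A 2 * P = P * am A 2) : P ∈ SpM K (HE V) := by
  refine (h.sq P).1 (vcomm_of_am fun A hA => ?_)
  obtain ⟨μ, h1, -⟩ := h.dec hA
  exact comm_dec (hP _ h1)

lemma Hyp.comm_of_op {P : Matrix (Fin 2 → κ) (Fin 2 → κ) K} (hP : P ∈ SpM K (HE V))
    {A : Matrix κ κ K} (hA : A ∈ LG ρ) : am A 2 * P = P * am A 2 :=
  am_of_vcomm ((h.sq P).2 hP) hA

/-- The two Lie algebras have the same commutant. -/
lemma Hyp.cen {c : Matrix κ κ K} : (∀ B ∈ LG ρ ⊓ skS (toField K Q), B * c = c * B) ↔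
    ∀ B ∈ HL K h.pol, B * c = c * B := by
  constructor
  · intro hc B hB
    have h1 : K2 c 1 ∈ SpM K (HE V) := h.op_of_comm fun A hA => by
      rw [← sub_eq_zero, am_K2, hc A hA, sub_self]
      ext I J
      simp [K2]
    have h2 := HL_comm h.pol hB h1
    rw [← sub_eq_zero, am_K2] at h2
    exact sub_eq_zero.1 (K2_inj h2)
  · intro hc B hB
    have h1 : K2 c 1 ∈ SpM K (HE V) := by
      apply mem_SpM
      intro l
      have h4 : (Matrix.of fun i j => l (K2 c 1 i j)) =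
          K2 (Matrix.of fun i j => l (c i j)) (1 : Matrix κ κ ℚ) := by
        ext I J
        simp only [K2, Matrix.of_apply, Matrix.one_apply]
        split_ifs
        · rw [mul_one, mul_one]
        · rw [mul_zero, mul_zero, map_zero]
      rw [h4]
      refine isHom_K2.2 ((tv_iff h.pol).1 (PH.tv_mem (phs h.pol) fun y hy => ?_))
      have h5 := hc _ (HL_rat (K := K) h.pol hy)
      ext i j
      have h6 := congrArg l (congrFun (congrFun h5 i) j)
      rw [Matrix.mul_apply, Matrix.mul_apply, map_sum, map_sum] at h6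
      rw [Matrix.mul_apply, Matrix.mul_apply]
      refine Eq.trans ?_ (h6.trans ?_)
      · refine Finset.sum_congr rfl fun k _ => ?_
        rw [Matrix.map_apply, ← Algebra.smul_def, map_smul, smul_eq_mul]
        rfl
      · refine Finset.sum_congr rfl fun k _ => ?_
        rw [Matrix.map_apply, mul_comm, ← Algebra.smul_def, map_smul, smul_eq_mul, mul_comm]
        rfl
    have h2 := h.comm_of_op h1 hB.1
    rw [← sub_eq_zero, am_K2] at h2
    exact sub_eq_zero.1 (K2_inj h2)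

/-- The commutators of the two Lie algebras belong to the second one. -/
lemma Hyp.br1 {B y : Matrix κ κ K} (hB : B ∈ LG ρ ⊓ skS (toField K Q)) (hy : y ∈ HL K h.pol) :
    B * y - y * B ∈ HL K h.pol := by
  obtain ⟨P, hP, hP1, hP2⟩ := HL_proj (K := K) h.pol
  have h1 := pr_br h.sh.det hB.2 (h.comm_of_op hP hB.1) y
  rw [hP2 y hy] at h1
  rw [← h1]
  exact hP1 _

/-- The projection onto a subspace which is stable under the Lie algebra. -/
lemma Hyp.proj {U : Submodule K (Matrix κ κ K)}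
    (hU : ∀ A ∈ LG ρ ⊓ skS (toField K Q), ∀ X ∈ U, A * X - X * A ∈ U) :
    ∃ P : Matrix (Fin 2 → κ) (Fin 2 → κ) K, P ∈ SpM K (HE V) ∧
      (∀ X, pr (toField K Q) P X ∈ U) ∧ ∀ X ∈ U, pr (toField K Q) P X = X := by
  obtain ⟨P, hP, hP1, hP2⟩ := h.sh.proj h.ss (W := U.map (tvL (toField K Q))) (by
    rintro A hA _ ⟨X, hX, rfl⟩
    exact ⟨_, hU A hA X hX, (am_tv hA.2 X).symm⟩)
  refine ⟨P, h.op_of_comm hP, fun X => ?_, fun X hX => pr_id h.sh.det (hP2 _ ⟨X, hX, rfl⟩)⟩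
  obtain ⟨Y, hY, hY'⟩ := hP1 (tv (toField K Q) X)
  have h1 : pr (toField K Q) P X = Y := by
    apply tv_inj h.sh.det
    rw [tv_pr h.sh.det]
    exact hY'.symm
  rw [h1]
  exact hY

/-- The commutators of the two Lie algebras belong to the first one. -/
lemma Hyp.br2 {B y : Matrix κ κ K} (hB : B ∈ LG ρ ⊓ skS (toField K Q)) (hy : y ∈ HL K h.pol) :
    B * y - y * B ∈ LG ρ ⊓ skS (toField K Q) := by
  obtain ⟨P, hP, hP1, hP2⟩ := h.proj (U := LG ρ ⊓ skS (toField K Q)) fun A hA X hX =>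
    h.sh.br hA hX
  have h1 := pr_br h.sh.det (HL_skew h.pol hy) (HL_comm h.pol hy hP) B
  rw [hP2 B hB] at h1
  have h2 : B * y - y * B = -(y * B - B * y) := by rw [neg_sub]
  rw [h2, ← h1]
  exact Submodule.neg_mem _ (hP1 _)

/-- The commutators of the Lie algebra belong to the Lie algebra of the Hodge group. -/
lemma Hyp.br {B B' : Matrix κ κ K} (hB : B ∈ LG ρ ⊓ skS (toField K Q))
    (hB' : B' ∈ LG ρ ⊓ skS (toField K Q)) : B' * B - B * B' ∈ HL K h.pol := by
  obtain ⟨P, hP, hP1, hP2⟩ := HL_proj (K := K) h.pol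
  have h1 : ∀ y ∈ HL K h.pol, y * (B - pr (toField K Q) P B) = (B - pr (toField K Q) P B) * y := by
    intro y hy
    have h2 := pr_br h.sh.det (HL_skew h.pol hy) (HL_comm h.pol hy hP) B
    have h3 : y * B - B * y ∈ HL K h.pol := by
      have h4 := Submodule.neg_mem _ (h.br1 hB hy)
      rwa [neg_sub] at h4
    rw [hP2 _ h3] at h2
    rw [Matrix.mul_sub, Matrix.sub_mul, sub_eq_sub_iff_sub_eq_sub]
    exact h2
  have h5 := h.cen.2 h1 B' hB'
  rw [Matrix.mul_sub, Matrix.sub_mul, sub_eq_sub_iff_sub_eq_sub] at h5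
  rw [h5]
  exact h.br1 hB' (hP1 B)

/-- **The Lie algebra is contained in the Lie algebra of the Hodge group** if its centre is. -/
theorem Hyp.le (hc : ∀ z ∈ LG ρ ⊓ skS (toField K Q),
      (∀ B ∈ LG ρ ⊓ skS (toField K Q), B * z = z * B) → z ∈ HL K h.pol)
    {B : Matrix κ κ K} (hB : B ∈ LG ρ ⊓ skS (toField K Q)) : B ∈ HL K h.pol := by
  obtain ⟨P, hP, hP1, hP2⟩ := h.proj (U := (LG ρ ⊓ skS (toField K Q)) ⊓ HL K h.pol)
    fun A hA X hX => ⟨h.sh.br hA hX.1, h.br1 hA hX.2⟩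
  set z := B - pr (toField K Q) P B with hz
  have h1 : z ∈ LG ρ ⊓ skS (toField K Q) := Submodule.sub_mem _ hB (hP1 B).1
  have h2 : z ∈ HL K h.pol := by
    refine hc z h1 fun B' hB' => ?_
    have h3 := pr_br h.sh.det hB'.2 (h.comm_of_op hP hB'.1) B
    rw [hP2 _ ⟨h.sh.br hB' hB, h.br hB hB'⟩] at h3
    rw [hz, Matrix.mul_sub, Matrix.sub_mul, sub_eq_sub_iff_sub_eq_sub]
    exact h3
  have h3 : B = z + pr (toField K Q) P B := by rw [hz, sub_add_cancel]
  rw [h3]
  exact Submodule.add_mem _ h2 (hP1 B).2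

/-- **The Lie algebra contains the Lie algebra of the Hodge group** if the centres agree. -/
theorem Hyp.ge (hc : ∀ z ∈ LG ρ ⊓ skS (toField K Q),
      (∀ B ∈ LG ρ ⊓ skS (toField K Q), B * z = z * B) → z ∈ HL K h.pol)
    (hc' : ∀ z ∈ HL K h.pol, (∀ B ∈ HL K h.pol, B * z = z * B) →
      z ∈ LG ρ ⊓ skS (toField K Q))
    {y : Matrix κ κ K} (hy : y ∈ HL K h.pol) : y ∈ LG ρ ⊓ skS (toField K Q) := by
  obtain ⟨P, hP, hP1, hP2⟩ := h.proj (U := LG ρ ⊓ skS (toField K Q)) fun A hA X hX =>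
    h.sh.br hA hX
  set z := y - pr (toField K Q) P y with hz
  have h1 : z ∈ HL K h.pol := Submodule.sub_mem _ hy (h.le hc (hP1 y))
  have h2 : z ∈ LG ρ ⊓ skS (toField K Q) := by
    refine hc' z h1 (h.cen.1 fun B hB => ?_)
    have h3 := pr_br h.sh.det hB.2 (h.comm_of_op hP hB.1) y
    rw [hP2 _ (h.br2 hB hy)] at h3
    rw [hz, Matrix.mul_sub, Matrix.sub_mul, sub_eq_sub_iff_sub_eq_sub]
    exact h3
  have h3 : y = z + pr (toField K Q) P y := by rw [hz, sub_add_cancel]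
  rw [h3]
  exact Submodule.add_mem _ h2 (hP1 y)

end main

end Pool.Agent.Q60.GL
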