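import Pool.Agent.Q60.GL.Expo
import Pool.Agent.Q60.GL.Key3

/-!
# Points of the identity component and exponentials
-/

set_option linter.unusedSectionVars false

namespace Pool.Agent.Q60.GL

open MvPolynomial Module Matrix Pool.Agent.Q60.ED Pool.Agent.Q60.FI Pool.Agent.Q60.TD
  Pool.Agent.Q60.NP Pool.Agent.Q60.MV Pool.Agent.Q60.CJ Pool.Agent.Q60.TP

section gen

variable {K L : Type} [Field K] [Field L] [Algebra K L] {κ : Type} [Fintype κ] [DecidableEq κ]
  {Γ : Type*} [Group Γ]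

/-- The points of the identity component of the Zariski closure over an extension. -/
def InMon (ρ : Γ →* Matrix κ κ K) (g : Matrix κ κ L) : Prop :=
  ∀ f : MvPolynomial (κ × κ) L,
    (∃ Δ : Subgroup Γ, Δ.FiniteIndex ∧ ∀ s ∈ Δ, value ((ρ s).map (algebraMap K L)) f = 0) →
      value g f = 0

variable {ρ : Γ →* Matrix κ κ K}

lemma inMon_of {g : Matrix κ κ L}
    (hg : ∀ d, TT d g ∈ SpM L (Subalgebra.toSubmodule (UA d (LG ρ)))) : InMon ρ g := by
  rintro f ⟨Δ, hΔ, hf⟩
  exact mem_closure hΔ hg hf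

lemma inMon_one : InMon ρ (1 : Matrix κ κ L) := by
  rintro f ⟨Δ, _, hf⟩
  have h1 := hf 1 Δ.one_mem
  rw [map_one, Matrix.map_one _ (map_zero _) (map_one _)] at h1
  exact h1

lemma form_pc (l : L →ₗ[K] K) {d : ℕ} (c : Matrix (Bd κ d) (Bd κ d) L)
    (X : Matrix (Bd κ d) (Bd κ d) K) : l (fn c (X.map (algebraMap K L))) =
      fn (Matrix.of fun a b => l (c a b)) X := by
  rw [fn, fn, map_sum]
  refine Finset.sum_congr rfl fun a _ => ?_
  rw [map_sum]
  refine Finset.sum_congr rfl fun b _ => ?_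
  rw [Matrix.map_apply, mul_comm, ← Algebra.smul_def, map_smul, smul_eq_mul, mul_comm,
    Matrix.of_apply]

/-- The derivations along the Lie algebra preserve the equations over an extension. -/
lemma dA_equations {Δ : Subgroup Γ} (hΔ : Δ.FiniteIndex) {z : Matrix κ κ K} (hz : z ∈ LG ρ)
    {f : MvPolynomial (κ × κ) L} (hf : ∀ s ∈ Δ, evM ((ρ s).map (algebraMap K L)) f = 0) :
    ∀ s ∈ Δ, evM ((ρ s).map (algebraMap K L)) (dA (z.map (algebraMap K L)) f) = 0 := by
  intro s hs
  obtain ⟨d, c, rfl⟩ := exists_pc f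
  rw [evM_dA_pc]
  apply eq_zero_of_forms (K := K)
  intro l
  have h1 : TT d ((ρ s).map (algebraMap K L)) * DD d (z.map (algebraMap K L)) =
      (TT d (ρ s) * DD d z).map (algebraMap K L) := by
    rw [Matrix.map_mul, TT_map, DD_map]
  rw [h1, form_pc]
  refine fn_UA hΔ (Algebra.subset_adjoin ⟨z, hz, rfl⟩) (fun t ht => ?_) s hs
  rw [← form_pc, ← TT_map, ← evM_pc, hf t ht, map_zero]

lemma dA_iter_eq {Δ : Subgroup Γ} (hΔ : Δ.FiniteIndex) {z : Matrix κ κ K} (hz : z ∈ LG ρ)
    {f : MvPolynomial (κ × κ) L} (hf : ∀ s ∈ Δ, evM ((ρ s).map (algebraMap K L)) f = 0) (n : ℕ) :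
    ∀ s ∈ Δ, evM ((ρ s).map (algebraMap K L)) ((dA (z.map (algebraMap K L)))^[n] f) = 0 := by
  induction n generalizing f with
  | zero => exact hf
  | succ n ih =>
    intro s hs
    rw [Function.iterate_succ_apply]
    exact ih (dA_equations hΔ hz hf) s hs

variable (τ : L ≃+* ℂ)

/-- The exponential curve over `L`. -/
noncomputable def gx (τ : L ≃+* ℂ) (z : Matrix κ κ L) (t : ℂ) : Matrix κ κ L :=
  (ex (z.map τ) t).map τ.symm

lemma gx_map (z : Matrix κ κ L) (t : ℂ) : (gx τ z t).map τ = ex (z.map τ) t := by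
  ext i j
  simp [gx]

lemma gx_det (z : Matrix κ κ L) (t : ℂ) : (gx τ z t).det ≠ 0 :=
  det_map_ne (τ.symm : ℂ →+* L) (ex_det _ t)

lemma gx_pow (z : Matrix κ κ L) (t : ℂ) (n : ℕ) : gx τ z t ^ n = gx τ z (n * t) := by
  rw [gx, gx, ← ex_pow]
  exact (Matrix.map_pow _ (τ.symm : ℂ →+* L) n).symm

/-- **Polynomials on the curve.** -/
lemma evM_gx {z : Matrix κ κ L} {f : MvPolynomial (κ × κ) L}
    (h : ∀ n, evM (1 : Matrix κ κ L) ((dA z)^[n] f) = 0) (t : ℂ) : evM (gx τ z t) f = 0 := by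
  have h1 := evM_mapR (τ : L →+* ℂ) (gx τ z t) f
  have h2 : evM (ex (z.map τ) t) (MvPolynomial.map (τ : L →+* ℂ) f) = 0 := by
    refine evM_ex_zero (fun n => ?_) t
    have h3 := dA_iter_mapR (τ : L →+* ℂ) z f n
    have h4 : (dA (z.map τ))^[n] (MvPolynomial.map (τ : L →+* ℂ) f) =
        MvPolynomial.map (τ : L →+* ℂ) ((dA z)^[n] f) := h3.symm
    have h5 : (1 : Matrix κ κ ℂ) = (1 : Matrix κ κ L).map (τ : L →+* ℂ) :=
      (Matrix.map_one _ (map_zero _) (map_one _)).symm
    rw [h4, h5, evM_mapR, h n, map_zero]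
  have h3 : (gx τ z t).map (τ : L →+* ℂ) = ex (z.map τ) t := gx_map τ z t
  rw [h3, h2] at h1
  exact (map_eq_zero _).1 h1.symm

lemma dA_of_gx {z : Matrix κ κ L} {f : MvPolynomial (κ × κ) L}
    (h : ∀ t, evM (gx τ z t) f = 0) : evM (1 : Matrix κ κ L) (dA z f) = 0 := by
  have h1 : evM (1 : Matrix κ κ ℂ) (dA (z.map τ) (MvPolynomial.map (τ : L →+* ℂ) f)) = 0 := by
    refine dA_of_ex fun t => ?_
    have h2 := evM_mapR (τ : L →+* ℂ) (gx τ z t) f
    have h3 : (gx τ z t).map (τ : L →+* ℂ) = ex (z.map τ) t := gx_map τ z t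
    rw [h3, h t, map_zero] at h2
    exact h2
  have h4 : dA (z.map τ) (MvPolynomial.map (τ : L →+* ℂ) f) =
      MvPolynomial.map (τ : L →+* ℂ) (dA z f) := (dA_mapR (τ : L →+* ℂ) z f).symm
  have h5 : (1 : Matrix κ κ ℂ) = (1 : Matrix κ κ L).map (τ : L →+* ℂ) :=
    (Matrix.map_one _ (map_zero _) (map_one _)).symm
  rw [h4, h5, evM_mapR] at h1
  exact (map_eq_zero _).1 h1

/-- The exponentials of the elements of the Lie algebra belong to the identity component. -/
theorem inMon_gx {z : Matrix κ κ K} (hz : z ∈ LG ρ) (t : ℂ) :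
    InMon ρ (gx τ (z.map (algebraMap K L)) t) := by
  rintro f ⟨Δ, hΔ, hf⟩
  refine evM_gx τ (fun n => ?_) t
  have h1 := dA_iter_eq (L := L) hΔ hz (f := f) hf n 1 Δ.one_mem
  rw [map_one, Matrix.map_one _ (map_zero _) (map_one _)] at h1
  exact h1

/-- A matrix whose exponentials belong to the identity component belongs to the Lie algebra. -/
theorem mem_LG_of_gx {z : Matrix κ κ K}
    (h : ∀ t, InMon ρ (gx τ (z.map (algebraMap K L)) t)) : z ∈ LG ρ := by
  rw [mem_LG]
  intro Δ hΔ f hf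
  have h1 : evM (1 : Matrix κ κ L) (dA (z.map (algebraMap K L))
      (MvPolynomial.map (algebraMap K L) f)) = 0 := by
    refine dA_of_gx τ fun t => h t _ ⟨Δ, hΔ, fun s hs => ?_⟩
    change evM _ _ = 0
    rw [evM_mapR, mem_VG.1 hf s hs, map_zero]
  have h5 : (1 : Matrix κ κ L) = (1 : Matrix κ κ K).map (algebraMap K L) :=
    (Matrix.map_one _ (map_zero _) (map_one _)).symm
  rw [← dA_mapR, h5, evM_mapR] at h1
  have h6 := (map_eq_zero _).1 h1
  rwa [evM_dA] at h6

/-- The linear polynomials. -/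
noncomputable def lf (c : Matrix κ κ K) : MvPolynomial (κ × κ) K :=
  ∑ i, ∑ j, C (c i j) * X (i, j)

lemma evM_lf (g c : Matrix κ κ K) : evM g (lf c) = fn c g := by
  rw [lf, map_sum, fn]
  refine Finset.sum_congr rfl fun i _ => ?_
  rw [map_sum]
  refine Finset.sum_congr rfl fun j _ => ?_
  rw [map_mul, evM_C, evM_X]

lemma dA_lf (z c : Matrix κ κ K) : dA z (lf c) = lf (c * zᵀ) := by
  rw [lf, map_sum, lf]
  refine Finset.sum_congr rfl fun i _ => ?_
  rw [map_sum]
  have h1 : ∀ j, dA z (C (c i j) * X (i, j)) = ∑ k, C (c i j * z k j) * X (i, k) := by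
    intro j
    rw [Derivation.leibniz, dA_C, smul_zero, add_zero, smul_eq_mul, dA_X, Finset.mul_sum]
    refine Finset.sum_congr rfl fun k _ => ?_
    rw [map_mul]
    ring
  rw [Finset.sum_congr rfl fun j _ => h1 j, Finset.sum_comm]
  refine Finset.sum_congr rfl fun k _ => ?_
  rw [Matrix.mul_apply, map_sum, Finset.sum_mul]
  rfl

lemma dA_iter_lf (z c : Matrix κ κ K) (n : ℕ) : (dA z)^[n] (lf c) = lf (c * (z ^ n)ᵀ) := by
  induction n generalizing c with
  | zero => rw [pow_zero, Matrix.transpose_one, Matrix.mul_one]; rfl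
  | succ n ih =>
    rw [Function.iterate_succ_apply, dA_lf, ih, Matrix.mul_assoc, ← Matrix.transpose_mul,
      ← pow_succ]

/-- The exponentials of the elements of an algebra belong to the algebra. -/
theorem gx_mem [CharZero K] {R : Subalgebra K (Matrix κ κ K)} {z : Matrix κ κ L}
    (hz : z ∈ SpM L (Subalgebra.toSubmodule R)) (t : ℂ) :
    gx τ z t ∈ SpM L (Subalgebra.toSubmodule R) := by
  rw [mem_SpM_iff]
  intro c hc
  rw [← evM_lf]
  refine evM_gx τ (fun n => ?_) t
  rw [dA_iter_lf, evM_lf, ← fn_mul, Matrix.one_mul]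
  have h1 : z ^ n ∈ SpA L R := Subalgebra.pow_mem _ (mem_SpA.2 hz) n
  exact mem_SpM_iff.1 (mem_SpA.1 h1) c hc

end gen

section hodge

variable {K L : Type} [Field K] [CharZero K] [Field L] [CharZero L] [Algebra K L]
  {κ : Type} [Fintype κ] [DecidableEq κ] {w : ℤ} {V : HodgeStructure κ w} {Q : Matrix κ κ ℚ}
  {Γ : Type*} [Group Γ] {ρ : Γ →* Matrix κ κ K} (τ : L ≃+* ℂ)

lemma FM_comm {a b : ℕ} {g : Matrix κ κ L} {M : Matrix (Fin a → κ) (Fin b → κ) L} :
    TP g a * M = M * TP g b ↔ ∀ p, evM g (FM M p) = 0 := by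
  constructor
  · intro h p
    rw [evM_FM, h, sub_self]
    rfl
  · intro h
    ext I J
    have h1 := h (I, J)
    rw [evM_FM] at h1
    exact sub_eq_zero.1 h1

/-- Exponentials of infinitesimal homomorphisms. -/
lemma gx_comm {a b : ℕ} {z : Matrix κ κ L} {M : Matrix (Fin a → κ) (Fin b → κ) L}
    (h : am z a * M = M * am z b) (t : ℂ) : TP (gx τ z t) a * M = M * TP (gx τ z t) b := by
  rw [FM_comm]
  intro p
  refine evM_gx τ (fun n => ?_) t
  have hsp : ∀ f ∈ Ideal.span (Set.range (FM M)), dA z f ∈ Ideal.span (Set.range (FM M)) := by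
    intro f hf
    refine Submodule.span_induction (p := fun f _ => dA z f ∈ Ideal.span (Set.range (FM M)))
      ?_ ?_ ?_ ?_ hf
    · rintro _ ⟨q, rfl⟩
      rw [dA_FM, h, sub_self]
      have h2 : (fun L' : Fin a → κ => (0 : Matrix (Fin a → κ) (Fin b → κ) L) L' q.2) = 0 := rfl
      rw [h2, xt_zero, zero_add]
      exact Ideal.sum_mem _ fun L' _ => Ideal.mul_mem_left _ _
        (Ideal.subset_span (Set.mem_range_self _))
    · rw [map_zero]; exact Ideal.zero_mem _
    · intro a b _ _ ha hb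
      rw [map_add]; exact Ideal.add_mem _ ha hb
    · intro c a ha hda
      rw [smul_eq_mul, Derivation.leibniz, smul_eq_mul, smul_eq_mul]
      exact Ideal.add_mem _ (Ideal.mul_mem_left _ _ hda) (Ideal.mul_mem_right _ _ ha)
  have hit : ∀ n, (dA z)^[n] (FM M p) ∈ Ideal.span (Set.range (FM M)) := by
    intro n
    induction n with
    | zero => exact Ideal.subset_span ⟨p, rfl⟩
    | succ n ih =>
      rw [Function.iterate_succ_apply']
      exact hsp _ ih
  have h1 : Ideal.span (Set.range (FM M)) ≤ (P1 : Ideal (MvPolynomial (κ × κ) L)) := by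
    rw [Ideal.span_le]
    rintro _ ⟨q, rfl⟩
    change FM M q ∈ P1
    rw [mem_P1, evM_FM, TP_one, TP_one, Matrix.one_mul, Matrix.mul_one, sub_self]
    rfl
  exact mem_P1.1 (h1 (hit n))

/-- The derivative of homomorphisms. -/
lemma comm_of_gx {a b : ℕ} {z : Matrix κ κ L} {M : Matrix (Fin a → κ) (Fin b → κ) L}
    (h : ∀ t, TP (gx τ z t) a * M = M * TP (gx τ z t) b) : am z a * M = M * am z b := by
  ext I J
  have h1 := dA_of_gx τ (f := FM M (I, J)) fun t => FM_comm.1 (h t) (I, J)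
  rw [dA_FM, map_add, evM_one_xt, map_sum] at h1
  rw [Finset.sum_eq_zero fun L _ => by
    rw [map_mul, evM_FM, TP_one, TP_one, Matrix.one_mul, Matrix.mul_one, sub_self]
    exact mul_zero _, add_zero, Matrix.sub_apply, sub_eq_zero] at h1
  exact h1

/-- The exponentials of the infinitesimal homomorphisms belong to the Mumford-Tate group. -/
theorem inMT_gx (hQ : IsPolarisation V Q) {z : Matrix κ κ L}
    (h : ∀ (a b : ℕ) (A : Matrix (Fin a → κ) (Fin b → κ) ℚ), IsHom V A →
      am z a * toField L A = toField L A * am z b) (t : ℂ) :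
    InMumfordTate V.h (gx τ z t) :=
  inMT_of_comm hQ fun a b A hA => gx_comm τ (h a b A hA) t

theorem comm_of_inMT_gx {z : Matrix κ κ L} (h : ∀ t, InMumfordTate V.h (gx τ z t)) {a b : ℕ}
    {A : Matrix (Fin a → κ) (Fin b → κ) ℚ} (hA : IsHom V A) :
    am z a * toField L A = toField L A * am z b :=
  comm_of_gx τ fun t => comm_of_inMT (h t) hA

end hodge

end Pool.Agent.Q60.GL
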