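import Pool.Agent.Q60.GL.Mt
import Pool.Agent.Q60.HD.Gram
import Pool.Agent.Q60.ED.ThmB

/-!
# Polarised Hodge structures: the Mumford-Tate group is reductive
-/

set_option linter.unusedSectionVars false

namespace Pool.Agent.Q60.GL

open MvPolynomial Module Matrix Pool.Agent.Q60.ED Pool.Agent.Q60.FI Pool.Agent.Q60.TD
  Pool.Agent.W437.HD

section

variable {κ : Type} [Fintype κ] [DecidableEq κ]

lemma bf_TT {d : ℕ} (Q : Matrix κ κ ℂ) (v w : Bd κ d → ℂ) :
    bf (TT d Q) v w = ∑ k : Fin (d + 1), bf (TP Q k) (fun I => v ⟨k, I⟩) fun I => w ⟨k, I⟩ := by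
  rw [bf, sum_diag (fun a b => v a * TT d Q a b * w b) fun a b h => by
    rw [TT_ne d Q h, mul_zero, zero_mul]]
  refine Finset.sum_congr rfl fun k _ => ?_
  rw [bf]
  refine Finset.sum_congr rfl fun I _ => Finset.sum_congr rfl fun J _ => ?_
  rw [TT_same]

lemma TT_mulVec {d : ℕ} (g : Matrix κ κ ℂ) (v : Bd κ d → ℂ) (k : Fin (d + 1)) (I : Fin k → κ) :
    (TT d g *ᵥ v) ⟨k, I⟩ = tpow g k (fun J => v ⟨k, J⟩) I := by
  rw [Matrix.mulVec, dotProduct, Fintype.sum_sigma, Finset.sum_eq_single k]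
  · rw [tpow_apply]
    refine Finset.sum_congr rfl fun J _ => ?_
    rw [TT_same, TP_apply]
  · intro j _ hj
    refine Finset.sum_eq_zero fun J _ => ?_
    rw [TT_ne d g (a := (⟨k, I⟩ : Bd κ d)) (b := ⟨j, J⟩) (Ne.symm hj), zero_mul]
  · intro h
    exact absurd (Finset.mem_univ _) h

lemma TT_toField (d : ℕ) (Q : Matrix κ κ ℚ) :
    (TT d Q).map (fun q : ℚ => (q : ℂ)) = TT d (qc Q) :=
  (TT_map (Rat.castHom ℂ) d Q).symm

/-- Positivity on the tensors of bounded degree. -/
lemma pos_TT {d : ℕ} {Q : Matrix κ κ ℚ} {C B : Matrix κ κ ℂ} (hB : B.det ≠ 0)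
    (h : qc Q * C = B.conjTranspose * B) (x : Bd κ d → ℂ)
    (hx : bf ((TT d Q).map fun q : ℚ => (q : ℂ)) x
      (TT d C *ᵥ fun a => starRingEnd ℂ (x a)) = 0) : x = 0 := by
  rw [TT_toField, bf_TT] at hx
  have h1 : ∀ k : Fin (d + 1), bf (TP (qc Q) k) (fun I => x ⟨k, I⟩)
      (fun I => (TT d C *ᵥ fun a => starRingEnd ℂ (x a)) ⟨k, I⟩) =
      ((∑ J, Complex.normSq ((TP B k *ᵥ fun J => starRingEnd ℂ (x ⟨k, J⟩)) J) : ℝ) : ℂ) := by
    intro k
    rw [← bf_gram h k fun I => x ⟨k, I⟩]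
    congr 1
    funext I
    exact TT_mulVec C _ k I
  simp only [h1] at hx
  rw [← Complex.ofReal_zero] at hx
  simp only [← Complex.ofReal_sum] at hx
  have h2 := Complex.ofReal_injective hx
  rw [Finset.sum_eq_zero_iff_of_nonneg] at h2
  · funext ⟨k, J⟩
    have h4 := h2 k (Finset.mem_univ _)
    rw [Finset.sum_eq_zero_iff_of_nonneg fun _ _ => Complex.normSq_nonneg _] at h4
    have h5 : (TP B k *ᵥ fun J => starRingEnd ℂ (x ⟨k, J⟩)) = 0 := by
      funext L
      exact Complex.normSq_eq_zero.1 (h4 L (Finset.mem_univ _))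
    have h6 : (fun J => starRingEnd ℂ (x ⟨k, J⟩)) = 0 := by
      have h7 := congrArg (fun v => TP B⁻¹ k *ᵥ v) h5
      simp only [Matrix.mulVec_mulVec, (TP_det hB k).2, Matrix.one_mulVec,
        Matrix.mulVec_zero] at h7
      exact h7
    have h8 := congrFun h6 J
    exact (map_eq_zero (starRingEnd ℂ)).1 h8
  · intro k _
    exact Finset.sum_nonneg fun _ _ => Complex.normSq_nonneg _

end

section hodge

variable {κ : Type} [Fintype κ] [DecidableEq κ] {w : ℤ} (V : HodgeStructure κ w)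

/-- The operator with given values on the pieces. -/
noncomputable def HodgeStructure.op (f : ℤ × ℤ → ℂ) : Matrix κ κ ℂ := ∑ a ∈ V.types, f a • V.e a

lemma op_mul (f g : ℤ × ℤ → ℂ) : V.op f * V.op g = V.op fun a => f a * g a := by
  rw [HodgeStructure.op, HodgeStructure.op, HodgeStructure.op, Finset.sum_mul]
  refine Finset.sum_congr rfl fun a ha => ?_
  rw [Finset.mul_sum, Finset.sum_eq_single a]
  · rw [Matrix.smul_mul, Matrix.mul_smul, V.mul a ha a ha, if_pos rfl, smul_smul]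
  · intro b hb hba
    rw [Matrix.smul_mul, Matrix.mul_smul, V.mul a ha b hb, if_neg (Ne.symm hba), smul_zero,
      smul_zero]
  · intro h
    exact absurd ha h

lemma op_one : V.op (fun _ => 1) = 1 := by
  rw [HodgeStructure.op]
  simp only [one_smul]
  exact V.sum

lemma op_congr {f g : ℤ × ℤ → ℂ} (h : ∀ a ∈ V.types, f a = g a) : V.op f = V.op g :=
  Finset.sum_congr rfl fun a ha => by rw [h a ha]

lemma h_eq_op (z : ℂ) : V.h z = V.op fun a => z ^ (-a.1) * starRingEnd ℂ z ^ (-a.2) := rfl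

lemma weil_eq_op : V.weil = V.op fun a => Complex.I ^ (a.1 - a.2) := rfl

lemma h_mul_inv {z : ℂ} (hz : z ≠ 0) : V.h z * V.h z⁻¹ = 1 := by
  rw [h_eq_op, h_eq_op, op_mul, ← op_one V]
  refine op_congr V fun a _ => ?_
  have hz' : starRingEnd ℂ z ≠ 0 := (map_ne_zero _).2 hz
  rw [map_inv₀, _root_.inv_zpow, _root_.inv_zpow, mul_mul_mul_comm, mul_inv_cancel₀ (zpow_ne_zero _ hz),
    mul_inv_cancel₀ (zpow_ne_zero _ hz'), one_mul]

lemma h_det {z : ℂ} (hz : z ≠ 0) : (V.h z).det ≠ 0 := by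
  intro h0
  have h1 := congrArg Matrix.det (h_mul_inv V hz)
  rw [Matrix.det_mul, h0, zero_mul, Matrix.det_one] at h1
  exact zero_ne_one h1

lemma weil_eq_h : V.weil = V.h (-Complex.I) := by
  rw [weil_eq_op, h_eq_op]
  refine op_congr V fun a _ => ?_
  have h1 : (-Complex.I : ℂ) = Complex.I⁻¹ := by rw [Complex.inv_I]
  rw [map_neg, Complex.conj_I, neg_neg, h1, _root_.inv_zpow', neg_neg, zpow_sub₀ Complex.I_ne_zero,
    _root_.zpow_neg, div_eq_mul_inv]

variable {V} {Q : Matrix κ κ ℚ}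

lemma gram_of (hQ : IsPolarisation V Q) : ∃ B : Matrix κ κ ℂ, B.det ≠ 0 ∧
    qc Q * V.weil = B.conjTranspose * B := Pool.Agent.Q60.HD.exists_gram hQ.pos

lemma pol_det (hQ : IsPolarisation V Q) : Q.det ≠ 0 := by
  obtain ⟨B, hB, h⟩ := gram_of hQ
  intro h0
  have h1 := congrArg Matrix.det h
  have h2 : (qc Q).det = ((Q.det : ℚ) : ℂ) := (RingHom.map_det (Rat.castHom ℂ) Q).symm
  rw [Matrix.det_mul, h2, h0, Rat.cast_zero, zero_mul, Matrix.det_mul,
    Matrix.det_conjTranspose] at h1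
  exact mul_ne_zero (star_ne_zero.2 hB) hB h1.symm

lemma e_adj (hQ : IsPolarisation V Q) {a : ℤ × ℤ} (ha : a ∈ V.types) :
    (V.e a)ᵀ * toField ℂ Q = toField ℂ Q * V.e a.swap := by
  have hs : a.swap ∈ V.types := (V.conj a ha).1
  have h1 : (V.e a)ᵀ * toField ℂ Q = (V.e a)ᵀ * toField ℂ Q * V.e a.swap := by
    conv_lhs => rw [← Matrix.mul_one ((V.e a)ᵀ * toField ℂ Q), ← V.sum, Finset.mul_sum]
    rw [Finset.sum_eq_single a.swap]
    · intro b hb hba
      exact hQ.orth a ha b hb hba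
    · intro h
      exact absurd hs h
  have h2 : toField ℂ Q * V.e a.swap = (V.e a)ᵀ * toField ℂ Q * V.e a.swap := by
    have h3 : (1 : Matrix κ κ ℂ) = ∑ b ∈ V.types, (V.e b)ᵀ := by
      rw [← Matrix.transpose_sum, V.sum, Matrix.transpose_one]
    conv_lhs => rw [← Matrix.one_mul (toField ℂ Q * V.e a.swap), h3, Finset.sum_mul]
    rw [Finset.sum_eq_single a]
    · rw [← Matrix.mul_assoc]
    · intro b hb hba
      rw [← Matrix.mul_assoc]
      refine hQ.orth b hb a.swap hs fun h => hba ?_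
      exact (Prod.swap_injective h).symm
    · intro h
      exact absurd ha h
  rw [h1, h2]

lemma adjM_h (hQ : IsPolarisation V Q) (z : ℂ) :
    adjM Q (V.h z) = V.h (starRingEnd ℂ z) := by
  have h1 : (V.h z)ᵀ * toField ℂ Q = toField ℂ Q * V.h (starRingEnd ℂ z) := by
    rw [h_eq_op, h_eq_op, HodgeStructure.op, HodgeStructure.op, Matrix.transpose_sum,
      Finset.sum_mul, Finset.mul_sum]
    refine Finset.sum_nbij' Prod.swap Prod.swap (fun a ha => (V.conj a ha).1)
      (fun a ha => (V.conj a ha).1) (fun a _ => Prod.swap_swap a) (fun a _ => Prod.swap_swap a)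
      fun a ha => ?_
    rw [Matrix.transpose_smul, Matrix.smul_mul, e_adj hQ ha, Matrix.mul_smul]
    congr 1
    rw [Complex.conj_conj, mul_comm]
    rfl
  rw [adjM, Matrix.mul_assoc, h1, ← Matrix.mul_assoc, (toField_inv (pol_det hQ)).2, Matrix.one_mul]

lemma TT_transpose {K : Type} [Field K] (d : ℕ) (g : Matrix κ κ K) : TT d gᵀ = (TT d g)ᵀ := by
  rw [TT, TT, Matrix.blockDiagonal'_transpose]
  rfl

/-- The rational algebra of the Mumford-Tate group is stable under the adjunction. -/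
lemma MQ_adj (hQ : IsPolarisation V Q) {d : ℕ} {r : Matrix (Bd κ d) (Bd κ d) ℚ}
    (hr : r ∈ MQ V.h d) : ∃ r' ∈ MQ V.h d, rᵀ * TT d Q = TT d Q * r' := by
  have hd := pol_det hQ
  have hQi : Q * Q⁻¹ = 1 := Matrix.mul_nonsing_inv _ (isUnit_iff_ne_zero.2 hd)
  refine ⟨TT d Q⁻¹ * rᵀ * TT d Q, ?_, ?_⟩
  · rw [mem_MQ] at hr ⊢
    have h1 : toField ℂ (TT d Q⁻¹ * rᵀ * TT d Q) =
        TT d (toField ℂ Q⁻¹) * (toField ℂ r)ᵀ * TT d (toField ℂ Q) := by
      simp only [toField, Matrix.map_mul, TT_map]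
      rfl
    rw [h1]
    refine Submodule.span_induction (p := fun X _ =>
      TT d (toField ℂ Q⁻¹) * Xᵀ * TT d (toField ℂ Q) ∈ MC V.h d) ?_ ?_ ?_ ?_ hr
    · rintro _ ⟨m, hm, rfl⟩
      refine Submodule.subset_span ⟨adjM Q m, mt_adj (fun z hz => h_det V hz) hd (fun z hz => ?_) hm,
        ?_⟩
      · rw [adjM_h hQ]
        exact h_mem_mt ((map_ne_zero _).2 hz)
      · rw [adjM, TT_mul, TT_mul, TT_transpose]
    · rw [Matrix.transpose_zero, Matrix.mul_zero, Matrix.zero_mul]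
      exact Submodule.zero_mem _
    · intro a b _ _ ha hb
      rw [Matrix.transpose_add, Matrix.mul_add, Matrix.add_mul]
      exact Submodule.add_mem _ ha hb
    · intro c a _ ha
      rw [Matrix.transpose_smul, Matrix.mul_smul, Matrix.smul_mul]
      exact Submodule.smul_mem _ _ ha
  · rw [← Matrix.mul_assoc, ← Matrix.mul_assoc, ← TT_mul, hQi, TT_one, Matrix.one_mul]

/-- A homomorphism of Hodge structures between tensor powers. -/
def IsHom (V : HodgeStructure κ w) {a b : ℕ} (A : Matrix (Fin a → κ) (Fin b → κ) ℚ) : Prop :=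
  ∀ z, z ≠ 0 → TP (V.h z) a * toField ℂ A = toField ℂ A * TP (V.h z) b

/-- A block of a matrix. -/
def blk {K : Type} {d : ℕ} (T : Matrix (Bd κ d) (Bd κ d) K) (a b : Fin (d + 1)) :
    Matrix (Fin a → κ) (Fin b → κ) K := Matrix.of fun I J => T ⟨a, I⟩ ⟨b, J⟩

lemma TT_comm_iff {K : Type} [Field K] {d : ℕ} (g : Matrix κ κ K)
    (T : Matrix (Bd κ d) (Bd κ d) K) :
    TT d g * T = T * TT d g ↔ ∀ a b : Fin (d + 1), TP g a * blk T a b = blk T a b * TP g b := by
  have h1 : ∀ (a b : Fin (d + 1)) (I : Fin a → κ) (J : Fin b → κ),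
      (TT d g * T) ⟨a, I⟩ ⟨b, J⟩ = (TP g a * blk T a b) I J := by
    intro a b I J
    rw [Matrix.mul_apply, Fintype.sum_sigma, Finset.sum_eq_single a, Matrix.mul_apply]
    · refine Finset.sum_congr rfl fun L _ => ?_
      rw [TT_same]
      rfl
    · intro c _ hc
      refine Finset.sum_eq_zero fun L _ => ?_
      rw [TT_ne d g (a := (⟨a, I⟩ : Bd κ d)) (b := ⟨c, L⟩) (Ne.symm hc), zero_mul]
    · intro h
      exact absurd (Finset.mem_univ _) h
  have h2 : ∀ (a b : Fin (d + 1)) (I : Fin a → κ) (J : Fin b → κ),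
      (T * TT d g) ⟨a, I⟩ ⟨b, J⟩ = (blk T a b * TP g b) I J := by
    intro a b I J
    rw [Matrix.mul_apply, Fintype.sum_sigma, Finset.sum_eq_single b, Matrix.mul_apply]
    · refine Finset.sum_congr rfl fun L _ => ?_
      rw [TT_same]
      rfl
    · intro c _ hc
      refine Finset.sum_eq_zero fun L _ => ?_
      rw [TT_ne d g (a := (⟨c, L⟩ : Bd κ d)) (b := ⟨b, J⟩) hc, mul_zero]
    · intro h
      exact absurd (Finset.mem_univ _) h
  constructor
  · intro h a b
    ext I J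
    rw [← h1, ← h2, h]
  · intro h
    ext ⟨a, I⟩ ⟨b, J⟩
    rw [h1, h2, h]

variable {L : Type} [Field L] [Algebra ℚ L]

/-- **Double centraliser.** A matrix which commutes with the homomorphisms of Hodge structures
between tensor powers acts on the tensors of bounded degree by an element of the algebra of the
Mumford-Tate group. -/
theorem TT_mem_MQ (hQ : IsPolarisation V Q) {g : Matrix κ κ L}
    (hg : ∀ (a b : ℕ) (A : Matrix (Fin a → κ) (Fin b → κ) ℚ), IsHom V A →
      TP g a * toField L A = toField L A * TP g b) (d : ℕ) :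
    TT d g ∈ SpM L (Subalgebra.toSubmodule (MQ V.h d)) := by
  obtain ⟨B, hB, hgram⟩ := gram_of hQ
  have hdet : ∀ z, z ≠ 0 → (V.h z).det ≠ 0 := fun z hz => h_det V hz
  have hI : (-Complex.I : ℂ) ≠ 0 := neg_ne_zero.2 Complex.I_ne_zero
  refine double_centraliser (G := TT d Q) (Cw := TT d V.weil) (fun r hr => MQ_adj hQ hr)
    (MC_le hdet (Submodule.subset_span ⟨_, by rw [weil_eq_h]; exact h_mem_mt hI, rfl⟩))
    (fun x hx => pos_TT hB hgram x hx) fun T hT => ?_
  have h1 : ∀ z, z ≠ 0 → TT d (V.h z) * toField ℂ T = toField ℂ T * TT d (V.h z) := by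
    intro z hz
    have h2 : TT d (V.h z) ∈ SpM ℂ (Subalgebra.toSubmodule (MQ V.h d)) :=
      MC_le hdet (Submodule.subset_span ⟨_, h_mem_mt hz, rfl⟩)
    refine Submodule.span_induction (p := fun X _ => X * toField ℂ T = toField ℂ T * X)
      ?_ ?_ ?_ ?_ h2
    · rintro _ ⟨r, hr, rfl⟩
      simp only
      rw [toField, ← Matrix.map_mul, ← Matrix.map_mul, hT r hr]
    · rw [Matrix.zero_mul, Matrix.mul_zero]
    · intro a b _ _ ha hb
      rw [Matrix.add_mul, Matrix.mul_add, ha, hb]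
    · intro c a _ ha
      rw [Matrix.smul_mul, Matrix.mul_smul, ha]
  refine (TT_comm_iff g _).2 fun a b => ?_
  refine hg a b (blk T a b) fun z hz => ?_
  exact (TT_comm_iff (V.h z) _).1 (h1 z hz) a b

/-- **The Mumford-Tate group is the centraliser of the homomorphisms of Hodge structures.** -/
theorem inMT_of_comm (hQ : IsPolarisation V Q) {g : Matrix κ κ L}
    (hg : ∀ (a b : ℕ) (A : Matrix (Fin a → κ) (Fin b → κ) ℚ), IsHom V A →
      TP g a * toField L A = toField L A * TP g b) : InMumfordTate V.h g := by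
  intro f hf
  obtain ⟨d, c, rfl⟩ := exists_pc f
  rw [value_pc]
  have h1 : ∀ X ∈ MQ V.h d, fn c X = 0 := by
    intro X hX
    have h2 : fn (toField ℂ c) (toField ℂ X) = 0 := by
      refine Submodule.span_induction (p := fun X _ => fn (toField ℂ c) X = 0) ?_ (fn_zero _)
        (fun x y _ _ hx hy => by rw [fn_add, hx, hy, add_zero])
        (fun r x _ hx => by rw [fn_smul, hx, mul_zero]) (mem_MQ.1 hX)
      rintro _ ⟨m, hm, rfl⟩
      have h3 := hf m hm
      rwa [value_pc] at h3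
    have h3 : fn (toField ℂ c) (toField ℂ X) = algebraMap ℚ ℂ (fn c X) := by
      rw [fn, fn, map_sum]
      refine Finset.sum_congr rfl fun a _ => ?_
      rw [map_sum]
      refine Finset.sum_congr rfl fun b _ => ?_
      rw [map_mul]
      rfl
    rw [h3] at h2
    exact (map_eq_zero _).1 h2
  refine Submodule.span_induction (p := fun X _ => fn (c.map (algebraMap ℚ L)) X = 0) ?_
    (fn_zero _) (fun x y _ _ hx hy => by rw [fn_add, hx, hy, add_zero])
    (fun r x _ hx => by rw [fn_smul, hx, mul_zero]) (TT_mem_MQ hQ hg d)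
  rintro _ ⟨X, hX, rfl⟩
  have h3 : fn (c.map (algebraMap ℚ L)) (X.map (algebraMap ℚ L)) = algebraMap ℚ L (fn c X) := by
    rw [fn, fn, map_sum]
    refine Finset.sum_congr rfl fun a _ => ?_
    rw [map_sum]
    refine Finset.sum_congr rfl fun b _ => ?_
    rw [map_mul]
    rfl
  simp only
  rw [h3, h1 X hX, map_zero]

/-- The points of the Mumford-Tate group commute with the homomorphisms of Hodge structures. -/
theorem comm_of_inMT {g : Matrix κ κ L} (hg : InMumfordTate V.h g) {a b : ℕ}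
    {A : Matrix (Fin a → κ) (Fin b → κ) ℚ} (hA : IsHom V A) :
    TP g a * toField L A = toField L A * TP g b := by
  ext I J
  have h1 := hg (FM A (I, J)) fun m hm => by
    rw [value_FM]
    have h2 := mt_comm (fun z hz => h_det V hz) hA hm
    change (TP m a * toField ℂ A - toField ℂ A * TP m b) I J = 0
    rw [h2, sub_self]
    rfl
  rw [value_FM] at h1
  exact sub_eq_zero.1 h1

end hodge

end Pool.Agent.Q60.GL
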