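import Pool.Agent.Q60.GL.Two

/-!
# The Lie algebra of the monodromy group and the Lie algebra of the Mumford-Tate group
-/

set_option linter.unusedSectionVars false

namespace Pool.Agent.Q60.GL

open MvPolynomial Module Matrix Pool.Agent.Q60.ED Pool.Agent.Q60.FI Pool.Agent.Q60.TD
  Pool.Agent.Q60.NP Pool.Agent.Q60.MV Pool.Agent.Q60.CJ Pool.Agent.Q60.TP

section skew

variable {K : Type} [Field K] {κ : Type} [Fintype κ] [DecidableEq κ] {Q : Matrix κ κ K}

lemma aop_Om {Q B : Matrix κ κ K} :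
    aop B (fun I : Fin 2 → κ => Q⁻¹ (I 0) (I 1)) = NP.vec (B * Q⁻¹ + Q⁻¹ * Bᵀ) :=
  aop_vec B Q⁻¹

lemma skw_iff {B : Matrix κ κ K} :
    Skw Q B ↔ aop B (fun I : Fin 2 → κ => Q⁻¹ (I 0) (I 1)) = 0 := by
  rw [aop_Om]
  constructor
  · intro h
    rw [Skw] at h
    rw [h]
    rfl
  · intro h
    exact vec_inj (h.trans rfl)

/-- The skew matrices as a subspace. -/
def skS (Q : Matrix κ κ K) : Submodule K (Matrix κ κ K) where
  carrier := {B | Skw Q B}
  add_mem' {a b} ha hb := by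
    have h1 : (a + b) * Q⁻¹ + Q⁻¹ * (a + b)ᵀ = (a * Q⁻¹ + Q⁻¹ * aᵀ) + (b * Q⁻¹ + Q⁻¹ * bᵀ) := by
      rw [Matrix.transpose_add, Matrix.add_mul, Matrix.mul_add]
      abel
    rw [Set.mem_ofPred_eq, Skw, h1, ha, hb, add_zero]
  zero_mem' := by
    rw [Set.mem_ofPred_eq, Skw]
    simp
  smul_mem' c a ha := by
    have h1 : (c • a) * Q⁻¹ + Q⁻¹ * (c • a)ᵀ = c • (a * Q⁻¹ + Q⁻¹ * aᵀ) := by
      rw [Matrix.transpose_smul, Matrix.smul_mul, Matrix.mul_smul, smul_add]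
    rw [Set.mem_ofPred_eq, Skw, h1, ha, smul_zero]

/-- The adjoint form of the similitude relation. -/
lemma sim_Om (hQ : Q.det ≠ 0) {g : Matrix κ κ K} (hg : g.det ≠ 0) {c : K}
    (h : gᵀ * Q * g = c • Q) : g * Q⁻¹ * gᵀ = c • Q⁻¹ := by
  have hQu := isUnit_iff_ne_zero.2 hQ
  have hgu := isUnit_iff_ne_zero.2 hg
  have h1 : gᵀ * Q = c • (Q * g⁻¹) := by
    have h2 := congrArg (fun M => M * g⁻¹) h
    simp only [Matrix.mul_assoc, Matrix.smul_mul] at h2
    rw [Matrix.mul_nonsing_inv _ hgu, Matrix.mul_one] at h2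
    exact h2
  have h3 : (g * Q⁻¹ * gᵀ) * Q = c • (Q⁻¹ * Q) := by
    rw [Matrix.mul_assoc, h1, Matrix.mul_smul, Matrix.nonsing_inv_mul _ hQu, Matrix.mul_assoc g,
      ← Matrix.mul_assoc Q⁻¹, Matrix.nonsing_inv_mul _ hQu, Matrix.one_mul,
      Matrix.mul_nonsing_inv _ hgu]
  have h4 := congrArg (fun M => M * Q⁻¹) h3
  simp only [Matrix.smul_mul] at h4
  rw [Matrix.mul_assoc, Matrix.mul_nonsing_inv _ hQu, Matrix.mul_one, Matrix.mul_assoc Q⁻¹,
    Matrix.mul_nonsing_inv _ hQu, Matrix.mul_one] at h4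
  exact h4

/-- The operator `Ω ⊗ Q`. -/
noncomputable def casM (Q : Matrix κ κ K) : Matrix (Fin 2 → κ) (Fin 2 → κ) K :=
  Matrix.of fun I J => Q⁻¹ (I 0) (I 1) * Q (J 0) (J 1)

lemma mul_casM (A : Matrix κ κ K) (X : Matrix κ κ K)
    (hX : am A 2 *ᵥ NP.vec Q⁻¹ = NP.vec X) (I J : Fin 2 → κ) :
    (am A 2 * casM Q) I J = X (I 0) (I 1) * Q (J 0) (J 1) := by
  have h1 := congrFun hX I
  rw [Matrix.mulVec, dotProduct] at h1
  rw [Matrix.mul_apply, casM]
  simp only [Matrix.of_apply, ← mul_assoc, ← Finset.sum_mul]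
  congr 1

lemma casM_mul (P : Matrix (Fin 2 → κ) (Fin 2 → κ) K) (X : Matrix κ κ K)
    (hX : Pᵀ *ᵥ NP.vec Q = NP.vec X) (I J : Fin 2 → κ) :
    (casM Q * P) I J = Q⁻¹ (I 0) (I 1) * X (J 0) (J 1) := by
  have h1 := congrFun hX J
  rw [Matrix.mulVec, dotProduct] at h1
  rw [Matrix.mul_apply, casM]
  simp only [Matrix.of_apply, mul_assoc, ← Finset.mul_sum]
  congr 1
  refine Eq.trans ?_ h1
  exact Finset.sum_congr rfl fun L _ => mul_comm _ _

lemma mul_casM' (P : Matrix (Fin 2 → κ) (Fin 2 → κ) K) (X : Matrix κ κ K)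
    (hX : P *ᵥ NP.vec Q⁻¹ = NP.vec X) (I J : Fin 2 → κ) :
    (P * casM Q) I J = X (I 0) (I 1) * Q (J 0) (J 1) := by
  have h1 := congrFun hX I
  rw [Matrix.mulVec, dotProduct] at h1
  rw [Matrix.mul_apply, casM]
  simp only [Matrix.of_apply, ← mul_assoc, ← Finset.sum_mul]
  congr 1

/-- The operator commutes with similitudes. -/
lemma casM_comm (hQ : Q.det ≠ 0) {g : Matrix κ κ K} (hg : g.det ≠ 0) {c : K}
    (h : gᵀ * Q * g = c • Q) : TP g 2 * casM Q = casM Q * TP g 2 := by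
  ext I J
  rw [mul_casM' (TP g 2) (c • Q⁻¹) (by rw [TP_vec, sim_Om hQ hg h]),
    casM_mul (TP g 2) (c • Q) (by
      rw [← TP_transpose, TP_vec, Matrix.transpose_transpose, h])]
  rw [Matrix.smul_apply, Matrix.smul_apply, smul_eq_mul, smul_eq_mul]
  ring

lemma am_vec (x Y : Matrix κ κ K) : am x 2 *ᵥ NP.vec Y = NP.vec (x * Y + Y * xᵀ) := by
  rw [am_mulVec, aop_vec]

end skew

section lie

variable {K : Type} [Field K] [CharZero K] {κ : Type} [Fintype κ] [DecidableEq κ] {w : ℤ}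
  {V : HodgeStructure κ w} {Q : Matrix κ κ ℚ} {Γ : Type*} [Group Γ] {ρ : Γ →* Matrix κ κ K}

lemma rho_det (s : Γ) : (ρ s).det ≠ 0 := by
  intro h0
  have h1 := congrArg Matrix.det (rep_inv (ρ := ρ) s)
  rw [Matrix.det_mul, h0, zero_mul, Matrix.det_one] at h1
  exact zero_ne_one h1

lemma toField_det (hQ : Q.det ≠ 0) : (toField K Q).det ≠ 0 :=
  det_map_ne (algebraMap ℚ K) hQ

lemma toField_inv' (Q : Matrix κ κ ℚ) : (toField K Q)⁻¹ = toField K Q⁻¹ := map_inv_mat Q K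

/-- The group acts by similitudes. -/
def SimK (w : ℤ) (Q : Matrix κ κ ℚ) (ρ : Γ →* Matrix κ κ K) : Prop :=
  ∀ s, ∃ c : K, (ρ s)ᵀ * toField K Q * ρ s = c • toField K Q ∧ (w = 0 → c = 1)

/-- Every element of the Lie algebra is the sum of a scalar and a skew matrix. -/
lemma decomp (hQ : Q.det ≠ 0) (hsim : SimK w Q ρ) {B : Matrix κ κ K} (hB : B ∈ LG ρ) :
    ∃ μ : K, Skw (toField K Q) (B - μ • 1) ∧ (w = 0 → μ = 0) := by
  have hQK := toField_det (K := K) hQ
  set q := toField K Q with hq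
  -- weight zero
  have h0 : w = 0 → Skw q B := by
    intro hw
    let M : Matrix (Fin 2 → κ) (Fin 0 → κ) K := Matrix.of fun I _ => q⁻¹ (I 0) (I 1)
    have h1 : VComm ρ M := by
      refine ⟨⊤, inferInstance, fun s _ => ?_⟩
      obtain ⟨c, hc, hc1⟩ := hsim s
      rw [hc1 hw] at hc
      have h2 := sim_Om hQK (rho_det s) hc
      rw [one_smul] at h2
      have h3 : TP (ρ s) 0 = 1 := by
        ext I J
        rw [TP_apply, Finset.univ_eq_empty, Finset.prod_empty, Subsingleton.elim I J,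
          Matrix.one_apply_eq]
      rw [h3, Matrix.mul_one]
      ext I J
      have h4 := congrFun (TP_vec (ρ s) q⁻¹) I
      rw [h2, Matrix.mulVec, dotProduct] at h4
      rw [Matrix.mul_apply]
      exact h4
    have h2 := am_of_vcomm h1 hB
    have h3 : am B 0 = 0 := by
      ext I J
      have h4 := congrFun (congrFun (Matrix.mul_one (am B 0)) I) J
      rw [← h4, am_mul, Finset.univ_eq_empty, Finset.sum_empty]
      rfl
    rw [h3, Matrix.mul_zero] at h2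
    rw [skw_iff]
    funext I
    have h4 := congrFun (congrFun h2 I) Fin.elim0
    rw [Matrix.mul_apply] at h4
    rw [← am_mulVec]
    exact h4
  rcases eq_or_ne w 0 with hw | hw
  · exact ⟨0, by rw [zero_smul, sub_zero]; exact h0 hw, fun _ => rfl⟩
  -- the general case
  have h1 : VComm ρ (casM q) := by
    refine ⟨⊤, inferInstance, fun s _ => ?_⟩
    obtain ⟨c, hc, -⟩ := hsim s
    exact casM_comm hQK (rho_det s) hc
  have h2 := am_of_vcomm h1 hB
  by_cases hκ : ∃ i j, q i j ≠ 0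
  · obtain ⟨i, j, hij⟩ := hκ
    have h3 : ∀ a b, (B * q⁻¹ + q⁻¹ * Bᵀ) a b * q i j = q⁻¹ a b * (Bᵀ * q + q * B) i j := by
      intro a b
      have h4 := congrFun (congrFun h2 ![a, b]) ![i, j]
      rw [mul_casM' (am B 2) _ (am_vec B q⁻¹), casM_mul (am B 2) (Bᵀ * q + q * B) (by
        rw [← am_transpose, am_vec, Matrix.transpose_transpose])] at h4
      exact h4
    set μ' := (Bᵀ * q + q * B) i j / q i j with hμ
    have h5 : B * q⁻¹ + q⁻¹ * Bᵀ = μ' • q⁻¹ := by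
      ext a b
      rw [Matrix.smul_apply, smul_eq_mul, hμ, div_mul_eq_mul_div, eq_div_iff hij, h3]
      ring
    refine ⟨μ' / 2, ?_, fun h => absurd h hw⟩
    rw [Skw, Matrix.sub_mul, Matrix.transpose_sub, Matrix.mul_sub, Matrix.transpose_smul,
      Matrix.transpose_one, Matrix.smul_mul, Matrix.mul_smul, Matrix.one_mul, Matrix.mul_one]
    have h6 : B * q⁻¹ - (μ' / 2) • q⁻¹ + (q⁻¹ * Bᵀ - (μ' / 2) • q⁻¹) =
        (B * q⁻¹ + q⁻¹ * Bᵀ) - ((μ' / 2) + (μ' / 2)) • q⁻¹ := by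
      rw [add_smul]
      abel
    rw [h6, h5, add_halves, sub_self]
  · push Not at hκ
    have h3 : q = 0 := by
      ext i j
      exact hκ i j
    refine ⟨0, ?_, fun _ => rfl⟩
    have h4 : q⁻¹ = 0 := by
      rw [h3]
      exact Matrix.inv_zero
    rw [Skw, h4]
    simp

/-- The rational homomorphisms of degree two. -/
noncomputable def HE (V : HodgeStructure κ w) :
    Submodule ℚ (Matrix (Fin 2 → κ) (Fin 2 → κ) ℚ) where
  carrier := {M | IsHom V M}
  add_mem' {a b} ha hb z hz := by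
    have h1 : toField ℂ (a + b) = toField ℂ a + toField ℂ b :=
      Matrix.map_add _ (fun x y => map_add _ x y) a b
    rw [h1, Matrix.mul_add, Matrix.add_mul, ha z hz, hb z hz]
  zero_mem' z _ := by
    have h1 : toField ℂ (0 : Matrix (Fin 2 → κ) (Fin 2 → κ) ℚ) = 0 :=
      Matrix.map_zero _ (map_zero _)
    rw [h1, Matrix.mul_zero, Matrix.zero_mul]
  smul_mem' c a ha z hz := by
    have h1 : toField ℂ (c • a) = (algebraMap ℚ ℂ c) • toField ℂ a := by
      ext i j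
      simp [toField]
    rw [h1, Matrix.mul_smul, Matrix.smul_mul, ha z hz]

/-- The square condition, for tensors. -/
def SqK (V : HodgeStructure κ w) (ρ : Γ →* Matrix κ κ K) : Prop :=
  ∀ M : Matrix (Fin 2 → κ) (Fin 2 → κ) K, VComm ρ M ↔ M ∈ SpM K (HE V)

/-- Semisimplicity of the square, for tensors. -/
def SSK (ρ : Γ →* Matrix κ κ K) : Prop :=
  ∀ W : Submodule K ((Fin 2 → κ) → K), (∀ s, ∀ v ∈ W, TP (ρ s) 2 *ᵥ v ∈ W) →
    ∃ W' : Submodule K ((Fin 2 → κ) → K), IsCompl W W' ∧ ∀ s, ∀ v ∈ W', TP (ρ s) 2 *ᵥ v ∈ W'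

lemma bc_tenM {a b : ℕ} (M : Matrix (Fin a → κ) (Fin b → κ) ℚ) :
    bc K (tenM M) = tenM (toField K M) := rfl

lemma Skw_of_phs {y : Matrix κ κ K} (hQ : IsPolarisation V Q)
    (h : aop y (bc K (PHS.Om Q)) = 0) : Skw (toField K Q) y := by
  rw [skw_iff, toField_inv']
  exact h

/-- A skew matrix which annihilates the Hodge tensors commutes with the homomorphisms. -/
lemma comm_of_kill (hQ : IsPolarisation V Q) {y : Matrix κ κ K} (hs : Skw (toField K Q) y)
    (h : ∀ n, ∀ t ∈ (phs hQ).T n, aop y (bc K t) = 0) {a b : ℕ}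
    {A : Matrix (Fin a → κ) (Fin b → κ) ℚ} (hA : IsHom V A) :
    am y a * toField K A = toField K A * am y b := by
  rw [← kill_iff (toField_det (pol_det hQ)) hs, toField_inv', ← toField_TP, ← toField_mul,
    ← bc_tenM]
  exact h _ _ (tensor_of_hom hQ hA)

lemma lie_kill (hQ : IsPolarisation V Q) {y : Matrix κ κ ℚ} (hy : Lie (phs hQ).T y) {n : ℕ}
    {t : (Fin n → κ) → ℚ} (ht : t ∈ (phs hQ).T n) :
    aop (y.map (algebraMap ℚ K)) (bc K t) = 0 := by
  have h1 : aop (y.map (algebraMap ℚ K)) (bc K t) = bc K (aop y t) := by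
    rw [← am_mulVec, ← am_mulVec, am_map]
    exact bc_mulVec (am y n) t
  rw [h1, hy n t ht]
  funext I
  exact map_zero _

end lie

end Pool.Agent.Q60.GL
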