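import Pool.Agent.Q60.ED.Cartier

/-!
# The Euler argument for the ideal of a group
-/

set_option linter.unusedSectionVars false

namespace Pool.Agent.Q60.GL

open MvPolynomial Algebra Module Pool.Agent.Q60.ED

variable {K : Type} [Field K] {ι : Type} [Fintype ι] [DecidableEq ι]

/-- The matrices which are tangent at the unit matrix to the zero set of the ideal. -/
def Tg (J : Ideal (MvPolynomial (ι × ι) K)) (A : Matrix ι ι K) : Prop :=
  ∀ f ∈ J, ∑ p : ι × ι, A p.1 p.2 * grd f p = 0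

variable {J : Ideal (MvPolynomial (ι × ι) K)}

/-- The projection along the gradients of the equations. -/
lemma exists_projJ (J : Ideal (MvPolynomial (ι × ι) K)) :
    ∃ Q : (ι × ι → K) →ₗ[K] (ι × ι → K), (∀ f ∈ J, Q (grd f) = 0) ∧
      ∀ v, ∃ f ∈ J, v - Q v = grd f := by
  let N : Submodule K (ι × ι → K) := (J.restrictScalars K).map grd
  obtain ⟨s, hs⟩ := N.mkQ.exists_rightInverse_of_surjective N.range_mkQ
  refine ⟨s ∘ₗ N.mkQ, fun f hf => ?_, fun v => ?_⟩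
  · have h1 : N.mkQ (grd f) = 0 := (Submodule.Quotient.mk_eq_zero N).2 ⟨f, hf, rfl⟩
    rw [LinearMap.comp_apply, h1, map_zero]
  · have h1 : v - (s ∘ₗ N.mkQ) v ∈ N := by
      rw [← Submodule.Quotient.mk_eq_zero, ← Submodule.mkQ_apply, map_sub, LinearMap.comp_apply]
      have h2 := LinearMap.congr_fun hs (N.mkQ v)
      rw [LinearMap.comp_apply, LinearMap.id_apply] at h2
      rw [h2, sub_self]
    obtain ⟨f, hf, hfv⟩ := h1
    exact ⟨f, hf, hfv.symm⟩

section Eu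

variable {Q : (ι × ι → K) →ₗ[K] (ι × ι → K)}

lemma row_tg (hQ : ∀ f ∈ J, Q (grd f) = 0) (p : ι × ι) : Tg J (row Q p) := by
  intro f hf
  rw [row_sum, hQ f hf]
  rfl

lemma Eu_J (hD : ∀ A, Tg J A → ∀ f ∈ J, dA A f ∈ J) (hQ : ∀ f ∈ J, Q (grd f) = 0)
    {f : MvPolynomial (ι × ι) K} (hf : f ∈ J) : Eu Q f ∈ J := by
  rw [Eu_apply]
  exact Ideal.sum_mem _ fun p _ => Ideal.mul_mem_left _ _ (hD _ (row_tg hQ p) f hf)

lemma Eu_subJ (hJ : J ≤ P1) (hQ2 : ∀ v, ∃ f ∈ J, v - Q v = grd f)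
    {f : MvPolynomial (ι × ι) K} (hf : f ∈ (P1 : Ideal (MvPolynomial (ι × ι) K))) :
    Eu Q f - f ∈ (P1 : Ideal (MvPolynomial (ι × ι) K)) ^ 2 ⊔ J := by
  obtain ⟨h, hh, hhf⟩ := hQ2 (grd f)
  have h1 := taylor f
  have h2 := taylor h
  rw [mem_P1.1 hf, map_zero, sub_zero] at h1
  rw [mem_P1.1 (hJ hh), map_zero, sub_zero] at h2
  have h3 : Eu Q f - ∑ p, C (Q (grd f) p) * xi p ∈ (P1 : Ideal (MvPolynomial (ι × ι) K)) ^ 2 := by
    rw [Eu_apply, ← Finset.sum_sub_distrib]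
    refine Ideal.sum_mem _ fun p _ => ?_
    have h4 : xi p * dA (row Q p) f - C (Q (grd f) p) * xi p =
        xi p * (dA (row Q p) f - C (evM (1 : Matrix ι ι K) (dA (row Q p) f))) := by
      rw [evM_dA, row_sum]
      ring
    rw [h4, sq]
    exact Ideal.mul_mem_mul (xi_mem p) (sub_C_mem _)
  have h5 : ∑ p, C (grd h p) * xi p = ∑ p, C (grd f p) * xi p - ∑ p, C (Q (grd f) p) * xi p := by
    rw [← Finset.sum_sub_distrib]
    refine Finset.sum_congr rfl fun p _ => ?_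
    rw [← hhf, Pi.sub_apply, map_sub]
    ring
  have h6 : Eu Q f - f = (Eu Q f - ∑ p, C (Q (grd f) p) * xi p) -
      (f - ∑ p, C (grd f p) * xi p) + (h - ∑ p, C (grd h p) * xi p) - h := by
    rw [h5]; ring
  rw [h6]
  refine Ideal.sub_mem _ (Submodule.mem_sup_left ?_) (Submodule.mem_sup_right hh)
  exact Ideal.add_mem _ (Ideal.sub_mem _ h3 h1) h2

lemma Eu_powJ (hJ : J ≤ P1) (hQ2 : ∀ v, ∃ f ∈ J, v - Q v = grd f) (k : ℕ) :
    ∀ f ∈ (P1 : Ideal (MvPolynomial (ι × ι) K)) ^ k,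
      Eu Q f - (k : MvPolynomial (ι × ι) K) * f ∈
        (P1 : Ideal (MvPolynomial (ι × ι) K)) ^ (k + 1) ⊔ J := by
  induction k with
  | zero =>
    intro f _
    rw [Nat.cast_zero, zero_mul, sub_zero, zero_add, pow_one]
    exact Submodule.mem_sup_left (Eu_mem f)
  | succ k ih =>
    intro f hf
    rw [pow_succ] at hf
    refine Submodule.mul_induction_on hf ?_ ?_
    · intro a ha b hb
      have h1 : Eu Q (a * b) - ((k + 1 : ℕ) : MvPolynomial (ι × ι) K) * (a * b) =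
          a * (Eu Q b - b) + b * (Eu Q a - (k : MvPolynomial (ι × ι) K) * a) := by
        rw [Derivation.leibniz, smul_eq_mul, smul_eq_mul, Nat.cast_succ]
        ring
      rw [h1]
      refine Ideal.add_mem _ ?_ ?_
      · obtain ⟨c, hc, d, hd, hcd⟩ := Submodule.mem_sup.1 (Eu_subJ hJ hQ2 hb)
        rw [← hcd, mul_add]
        refine Submodule.add_mem_sup ?_ (Ideal.mul_mem_left _ _ hd)
        rw [show k + 1 + 1 = k + 2 by ring, pow_add]
        exact Ideal.mul_mem_mul ha hc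
      · obtain ⟨c, hc, d, hd, hcd⟩ := Submodule.mem_sup.1 (ih a ha)
        rw [← hcd, mul_add]
        refine Submodule.add_mem_sup ?_ (Ideal.mul_mem_left _ _ hd)
        rw [pow_succ, mul_comm b c]
        exact Ideal.mul_mem_mul hc hb
    · intro a b ha hb
      have h1 : Eu Q (a + b) - ((k + 1 : ℕ) : MvPolynomial (ι × ι) K) * (a + b) =
          (Eu Q a - ((k + 1 : ℕ) : MvPolynomial (ι × ι) K) * a) +
          (Eu Q b - ((k + 1 : ℕ) : MvPolynomial (ι × ι) K) * b) := by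
        rw [map_add]; ring
      rw [h1]
      exact Ideal.add_mem _ ha hb

lemma le_powJ [CharZero K] (hJ : J ≤ P1) (hD : ∀ A, Tg J A → ∀ f ∈ J, dA A f ∈ J)
    (hQ : ∀ f ∈ J, Q (grd f) = 0) (hQ2 : ∀ v, ∃ f ∈ J, v - Q v = grd f)
    {F : Ideal (MvPolynomial (ι × ι) K)} (hF : F ≤ P1)
    (hFD : ∀ A, Tg J A → ∀ f ∈ F, dA A f ∈ F ⊔ J) (k : ℕ) :
    F ≤ (P1 : Ideal (MvPolynomial (ι × ι) K)) ^ (k + 1) ⊔ J := by
  induction k with
  | zero => rw [zero_add, pow_one]; exact hF.trans le_sup_left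
  | succ k ih =>
    intro f hf
    obtain ⟨g, hg, h, hh, hgh⟩ := Submodule.mem_sup.1 (ih hf)
    have h1 := Eu_powJ hJ hQ2 (k + 1) g hg
    have hEf : Eu Q f ∈ (P1 : Ideal (MvPolynomial (ι × ι) K)) ^ (k + 1 + 1) ⊔ J := by
      rw [Eu_apply]
      refine Ideal.sum_mem _ fun p _ => ?_
      have h2 : dA (row Q p) f ∈ (P1 : Ideal (MvPolynomial (ι × ι) K)) ^ (k + 1) ⊔ J :=
        (sup_le ih le_sup_right) (hFD _ (row_tg hQ p) f hf)
      obtain ⟨a, ha, b, hb, hab⟩ := Submodule.mem_sup.1 h2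
      rw [← hab, mul_add]
      refine Submodule.add_mem_sup ?_ (Ideal.mul_mem_left _ _ hb)
      rw [pow_succ, mul_comm (xi p)]
      exact Ideal.mul_mem_mul ha (xi_mem p)
    have h2 : Eu Q g = Eu Q f - Eu Q h := by
      rw [← hgh, map_add, add_sub_cancel_right]
    have h4 : ((k + 1 : ℕ) : MvPolynomial (ι × ι) K) * g ∈
        (P1 : Ideal (MvPolynomial (ι × ι) K)) ^ (k + 1 + 1) ⊔ J := by
      have h5 : ((k + 1 : ℕ) : MvPolynomial (ι × ι) K) * g = (Eu Q f - Eu Q h) -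
          (Eu Q g - ((k + 1 : ℕ) : MvPolynomial (ι × ι) K) * g) := by
        rw [h2]; ring
      rw [h5]
      exact Ideal.sub_mem _ (Ideal.sub_mem _ hEf (Submodule.mem_sup_right (Eu_J hD hQ hh))) h1
    have h6 : g ∈ (P1 : Ideal (MvPolynomial (ι × ι) K)) ^ (k + 1 + 1) ⊔ J := by
      have h7 := Ideal.mul_mem_left _ (C ((k + 1 : ℕ) : K)⁻¹) h4
      have h8 : (C ((k + 1 : ℕ) : K)⁻¹ : MvPolynomial (ι × ι) K) *
          (((k + 1 : ℕ) : MvPolynomial (ι × ι) K) * g) = g := by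
        rw [← mul_assoc, ← map_natCast (C : K →+* MvPolynomial (ι × ι) K), ← map_mul,
          inv_mul_cancel₀ (Nat.cast_ne_zero.2 (Nat.succ_ne_zero k)), map_one, one_mul]
      rwa [h8] at h7
    rw [← hgh]
    exact Ideal.add_mem _ h6 (Submodule.mem_sup_right hh)

end Eu

/-- Near the unit matrix the ideal contains every family of equations which is stable under the
invariant derivations. -/
lemma exists_unitJ [CharZero K] (hJ : J ≤ P1) (hD : ∀ A, Tg J A → ∀ f ∈ J, dA A f ∈ J)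
    {F : Ideal (MvPolynomial (ι × ι) K)} (hF : F ≤ P1)
    (hFD : ∀ A, Tg J A → ∀ f ∈ F, dA A f ∈ F ⊔ J) {f : MvPolynomial (ι × ι) K} (hf : f ∈ F) :
    ∃ u, evM (1 : Matrix ι ι K) u = 1 ∧ u * f ∈ J := by
  obtain ⟨Q, hQ, hQ2⟩ := exists_projJ J
  have h1 := fun k => le_powJ hJ hD hQ hQ2 hF hFD k hf
  have h2 : (Ideal.Quotient.mk J f) ∈
      (⨅ i : ℕ, (P1 : Ideal (MvPolynomial (ι × ι) K)) ^ i • ⊤ :
        Submodule (MvPolynomial (ι × ι) K) (MvPolynomial (ι × ι) K ⧸ J)) := by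
    rw [Submodule.mem_iInf]
    intro i
    rcases Nat.eq_zero_or_pos i with rfl | hi
    · rw [pow_zero, Ideal.one_eq_top, Submodule.top_smul]
      trivial
    · obtain ⟨k, rfl⟩ : ∃ k, i = k + 1 := ⟨i - 1, by omega⟩
      obtain ⟨g, hg, h, hh, hgh⟩ := Submodule.mem_sup.1 (h1 k)
      have h3 : Ideal.Quotient.mk J f = g • (1 : MvPolynomial (ι × ι) K ⧸ J) := by
        rw [← hgh, map_add, Ideal.Quotient.eq_zero_iff_mem.2 hh, add_zero]
        change Ideal.Quotient.mk J g = Ideal.Quotient.mk J (g * 1)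
        rw [mul_one]
      rw [h3]
      exact Submodule.smul_mem_smul hg trivial
  rw [Ideal.mem_iInf_smul_pow_eq_bot_iff] at h2
  obtain ⟨r, hr⟩ := h2
  refine ⟨1 - r.1, ?_, ?_⟩
  · rw [map_sub, map_one, mem_P1.1 r.2, sub_zero]
  · rw [← Ideal.Quotient.eq_zero_iff_mem, sub_mul, one_mul, map_sub]
    have h4 : Ideal.Quotient.mk J (r.1 * f) = r.1 • Ideal.Quotient.mk J f := by
      rfl
    rw [h4, hr, sub_self]

/-- The same with one unit for finitely many equations. -/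
lemma exists_unit_family [CharZero K] (hJ : J ≤ P1) (hD : ∀ A, Tg J A → ∀ f ∈ J, dA A f ∈ J)
    {τ : Type} [Fintype τ] (F : τ → MvPolynomial (ι × ι) K) (hF : ∀ i, F i ∈ (P1 : Ideal _))
    (hFD : ∀ A, Tg J A → ∀ i, dA A (F i) ∈ Ideal.span (Set.range F) ⊔ J) :
    ∃ u, evM (1 : Matrix ι ι K) u = 1 ∧ ∀ i, u * F i ∈ J := by
  classical
  have hFD' : ∀ A, Tg J A → ∀ f ∈ Ideal.span (Set.range F),
      dA A f ∈ Ideal.span (Set.range F) ⊔ J := by
    intro A hA f hf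
    refine Submodule.span_induction (p := fun f _ => dA A f ∈ Ideal.span (Set.range F) ⊔ J)
      ?_ ?_ ?_ ?_ hf
    · rintro _ ⟨i, rfl⟩
      exact hFD A hA i
    · rw [map_zero]; exact Ideal.zero_mem _
    · intro a b _ _ ha hb
      rw [map_add]; exact Ideal.add_mem _ ha hb
    · intro c a ha hda
      rw [smul_eq_mul, Derivation.leibniz, smul_eq_mul, smul_eq_mul]
      exact Ideal.add_mem _ (Ideal.mul_mem_left _ _ hda)
        (Ideal.mul_mem_right _ _ (Submodule.mem_sup_left ha))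
  have hle : Ideal.span (Set.range F) ≤ (P1 : Ideal (MvPolynomial (ι × ι) K)) := by
    rw [Ideal.span_le]
    rintro _ ⟨i, rfl⟩
    exact hF i
  choose u hu1 hu using fun i => exists_unitJ hJ hD hle hFD'
    (Ideal.subset_span (Set.mem_range_self i) : F i ∈ Ideal.span (Set.range F))
  refine ⟨∏ i, u i, ?_, fun i => ?_⟩
  · rw [map_prod]
    exact Finset.prod_eq_one fun i _ => hu1 i
  · rw [← Finset.mul_prod_erase _ _ (Finset.mem_univ i), mul_comm (u i), mul_assoc]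
    exact Ideal.mul_mem_left _ _ (hu i)

end Pool.Agent.Q60.GL
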