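import Pool.Agent.Q60.GL.Clo

/-!
# The Lie algebra of the identity component of the Zariski closure
-/

set_option linter.unusedSectionVars false

namespace Pool.Agent.Q60.GL

open MvPolynomial Algebra Module Pool.Agent.Q60.ED Pool.Agent.Q60.FI

variable {K : Type} [Field K] {ι : Type} [Fintype ι] [DecidableEq ι]

/-- The tangent matrices as a subspace. -/
def TgS (J : Ideal (MvPolynomial (ι × ι) K)) : Submodule K (Matrix ι ι K) where
  carrier := {A | Tg J A}
  add_mem' {a b} ha hb f hf := by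
    simp only [Matrix.add_apply, add_mul, Finset.sum_add_distrib]
    rw [ha f hf, hb f hf, add_zero]
  zero_mem' f _ := by simp
  smul_mem' c a ha f hf := by
    simp only [Matrix.smul_apply, smul_eq_mul, mul_assoc, ← Finset.mul_sum]
    rw [ha f hf, mul_zero]

lemma mem_TgS {J : Ideal (MvPolynomial (ι × ι) K)} {A : Matrix ι ι K} : A ∈ TgS J ↔ Tg J A :=
  Iff.rfl

lemma TgS_anti {J J' : Ideal (MvPolynomial (ι × ι) K)} (h : J ≤ J') : TgS J' ≤ TgS J :=
  fun _ hA f hf => hA f (h hf)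

section rep

variable {Γ : Type*} [Group Γ] (ρ : Γ →* Matrix ι ι K)

/-- The Lie algebra of the identity component of the Zariski closure of the image. -/
def LG : Submodule K (Matrix ι ι K) :=
  ⨅ Δ : {Δ : Subgroup Γ // Δ.FiniteIndex}, TgS (VG ρ Δ.1)

variable {ρ}

lemma mem_LG {A : Matrix ι ι K} :
    A ∈ LG ρ ↔ ∀ Δ : Subgroup Γ, Δ.FiniteIndex → Tg (VG ρ Δ) A := by
  rw [LG, Submodule.mem_iInf]
  constructor
  · intro h Δ hΔ
    exact h ⟨Δ, hΔ⟩
  · intro h Δ
    exact h Δ.1 Δ.2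

/-- The Lie algebra is the tangent space of the Zariski closure for a suitable subgroup. -/
lemma exists_sub (ρ : Γ →* Matrix ι ι K) : ∃ Δ : Subgroup Γ, Δ.FiniteIndex ∧
    ∀ A, Tg (VG ρ Δ) A → A ∈ LG ρ := by
  have hwf : WellFoundedLT (Submodule K (Matrix ι ι K)) := inferInstance
  obtain ⟨M, ⟨Δ, hΔ, rfl⟩, hmin⟩ := hwf.wf.has_min
    {M | ∃ Δ : Subgroup Γ, Δ.FiniteIndex ∧ M = TgS (VG ρ Δ)} ⟨_, ⊤, inferInstance, rfl⟩
  refine ⟨Δ, hΔ, fun A hA => mem_LG.2 fun Δ' hΔ' => ?_⟩
  have h1 : (Δ ⊓ Δ').FiniteIndex := inferInstance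
  have h2 := hmin _ ⟨Δ ⊓ Δ', h1, rfl⟩
  have h3 : TgS (VG ρ (Δ ⊓ Δ')) ≤ TgS (VG ρ Δ) := TgS_anti (VG_anti inf_le_left)
  have h4 : TgS (VG ρ (Δ ⊓ Δ')) = TgS (VG ρ Δ) := by
    rcases h3.lt_or_eq with h | h
    · exact absurd h h2
    · exact h
  have h5 : A ∈ TgS (VG ρ (Δ ⊓ Δ')) := by
    rw [h4]
    exact hA
  exact TgS_anti (VG_anti inf_le_right) h5

/-- Conjugation and derivations. -/
lemma dA_rho {A h h' : Matrix ι ι K} (hh : h * h' = 1) (f : MvPolynomial (ι × ι) K) :
    dA A (rho h f) = rho h (dA (h' * A * h) f) := by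
  induction f using MvPolynomial.induction_on with
  | C a => rw [rho_C, dA_C, dA_C, map_zero]
  | add f f' hf hf' => rw [map_add, map_add, hf, hf', map_add, map_add]
  | mul_X f q hf =>
    rw [map_mul, Derivation.leibniz, Derivation.leibniz, hf, map_add]
    simp only [smul_eq_mul, map_mul]
    congr 1
    congr 1
    rw [rho_X, map_sum, dA_X, map_sum]
    have h1 : ∀ k, dA A (X (q.1, k) * C (h k q.2)) =
        ∑ c, X (q.1, c) * C (A c k * h k q.2) := by
      intro k
      rw [Derivation.leibniz, dA_C, smul_zero, zero_add, smul_eq_mul, dA_X, Finset.mul_sum]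
      refine Finset.sum_congr rfl fun c _ => ?_
      rw [map_mul]
      ring
    have h2 : ∀ c, rho h (X (q.1, c) * C ((h' * A * h) c q.2)) =
        ∑ k, X (q.1, k) * C (h k c * (h' * A * h) c q.2) := by
      intro c
      rw [map_mul, rho_X, rho_C, Finset.sum_mul]
      refine Finset.sum_congr rfl fun k _ => ?_
      rw [map_mul]
      ring
    rw [Finset.sum_congr rfl fun c _ => h1 c, Finset.sum_congr rfl fun c _ => h2 c,
      Finset.sum_comm]
    conv_rhs => rw [Finset.sum_comm]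
    refine Finset.sum_congr rfl fun c _ => ?_
    rw [← Finset.mul_sum, ← Finset.mul_sum]
    congr 1
    rw [← map_sum, ← map_sum]
    congr 1
    have h3 : (h * (h' * A * h)) c q.2 = (A * h) c q.2 := by
      rw [Matrix.mul_assoc h', ← Matrix.mul_assoc, hh, Matrix.one_mul]
    rw [Matrix.mul_apply, Matrix.mul_apply] at h3
    exact h3.symm

lemma rep_inv (s : Γ) : ρ s * ρ s⁻¹ = 1 := by rw [← map_mul, mul_inv_cancel, map_one]

lemma rep_inv' (s : Γ) : ρ s⁻¹ * ρ s = 1 := by rw [← map_mul, inv_mul_cancel, map_one]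

/-- The Lie algebra is stable under conjugation. -/
lemma LG_conj (s : Γ) {A : Matrix ι ι K} (hA : A ∈ LG ρ) : ρ s * A * ρ s⁻¹ ∈ LG ρ := by
  rw [mem_LG] at hA ⊢
  intro Δ hΔ f hf
  let Δ' : Subgroup Γ := Δ.comap (MulAut.conj s).toMonoidHom
  have hΔ' : Δ'.FiniteIndex := by
    constructor
    rw [Subgroup.index_comap_of_surjective Δ (MulAut.conj s).surjective]
    exact hΔ.index_ne_zero
  have hf' : lam (ρ s) (rho (ρ s⁻¹) f) ∈ VG ρ Δ' := by
    rw [mem_VG] at hf ⊢
    intro x hx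
    rw [evM_lam, evM_rho, ← map_mul, ← map_mul]
    exact hf _ hx
  have h1 := hA Δ' hΔ' _ hf'
  rw [← evM_dA, dA_lam, dA_rho (rep_inv' s), evM_lam, evM_rho, Matrix.mul_one, rep_inv,
    evM_dA] at h1
  exact h1

end rep

section hom

variable {a b : ℕ}

/-- The equations for the matrices which commute with `M`. -/
noncomputable def FM (M : Matrix (Fin a → ι) (Fin b → ι) K) (p : (Fin a → ι) × (Fin b → ι)) :
    MvPolynomial (ι × ι) K :=
  xt (fun L => M L p.2) p.1 - ∑ L, C (M p.1 L) * mon L p.2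

lemma evM_FM (g : Matrix ι ι K) (M : Matrix (Fin a → ι) (Fin b → ι) K)
    (p : (Fin a → ι) × (Fin b → ι)) : evM g (FM M p) = (TP g a * M - M * TP g b) p.1 p.2 := by
  rw [FM, map_sub, evM_xt, map_sum, Matrix.sub_apply, tpow_eq, Matrix.mul_apply, Matrix.mul_apply]
  congr 1
  refine Finset.sum_congr rfl fun L _ => ?_
  rw [map_mul, evM_C, evM_mon, TP_apply]

lemma mon_eq_xt {n : ℕ} (I J : Fin n → ι) :
    (mon I J : MvPolynomial (ι × ι) K) = xt (Pi.single J 1) I := by
  rw [xt, Finset.sum_eq_single J]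
  · rw [Pi.single_eq_same, map_one, one_mul]
  · intro L _ hL
    rw [Pi.single_eq_of_ne hL, map_zero, zero_mul]
  · intro h
    exact absurd (Finset.mem_univ _) h

lemma dA_mon' (A : Matrix ι ι K) {n : ℕ} (I J : Fin n → ι) :
    dA A (mon I J) = ∑ L, C (am A n L J) * mon I L := by
  rw [mon_eq_xt, dA_xt, xt]
  rfl

lemma dA_FM (A : Matrix ι ι K) (M : Matrix (Fin a → ι) (Fin b → ι) K)
    (p : (Fin a → ι) × (Fin b → ι)) : dA A (FM M p) =
      xt (fun L => (am A a * M - M * am A b) L p.2) p.1 + ∑ L, C (am A b L p.2) * FM M (p.1, L) := by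
  have h1 : (aop A fun L => M L p.2) = fun L => (am A a * M) L p.2 := by
    rw [← am_mulVec]
    rfl
  have h2 : ∀ L, dA A (C (M p.1 L) * mon L p.2) =
      ∑ J, C (am A b J p.2) * (C (M p.1 L) * mon L J) := by
    intro L
    rw [Derivation.leibniz, dA_C, smul_zero, add_zero, smul_eq_mul, dA_mon', Finset.mul_sum]
    exact Finset.sum_congr rfl fun J _ => by ring
  have h3 : ∀ s t : (Fin a → ι) → K, xt (s - t) p.1 = xt s p.1 - xt t p.1 := by
    intro s t
    simp only [xt, Pi.sub_apply, map_sub, sub_mul, Finset.sum_sub_distrib]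
  have h4 : (fun L => (am A a * M - M * am A b) L p.2) =
      (fun L => (am A a * M) L p.2) - fun L => (M * am A b) L p.2 := rfl
  have h5 : xt (fun L => (M * am A b) L p.2) p.1 =
      ∑ J, C (am A b J p.2) * xt (fun L => M L J) p.1 := by
    rw [xt]
    simp only [xt, Finset.mul_sum]
    rw [Finset.sum_comm]
    refine Finset.sum_congr rfl fun L _ => ?_
    rw [Matrix.mul_apply, map_sum, Finset.sum_mul]
    refine Finset.sum_congr rfl fun J _ => ?_
    rw [map_mul]
    ring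
  rw [FM, map_sub, dA_xt, h1, map_sum, Finset.sum_congr rfl fun L _ => h2 L, Finset.sum_comm, h4,
    h3, h5]
  have h6 : ∀ J, C (am A b J p.2) * FM M (p.1, J) =
      C (am A b J p.2) * xt (fun L => M L J) p.1 -
        ∑ L, C (am A b J p.2) * (C (M p.1 L) * mon L J) := by
    intro J
    rw [FM, mul_sub, Finset.mul_sum]
  rw [Finset.sum_congr rfl fun J _ => h6 J, Finset.sum_sub_distrib]
  ring

variable {Γ : Type*} [Group Γ] (ρ : Γ →* Matrix ι ι K)

/-- The matrix `M` is a homomorphism for a subgroup of finite index. -/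
def VComm (M : Matrix (Fin a → ι) (Fin b → ι) K) : Prop :=
  ∃ Δ : Subgroup Γ, Δ.FiniteIndex ∧ ∀ s ∈ Δ, TP (ρ s) a * M = M * TP (ρ s) b

variable {ρ}

/-- Homomorphisms for a subgroup of finite index are homomorphisms for the Lie algebra. -/
theorem am_of_vcomm {M : Matrix (Fin a → ι) (Fin b → ι) K} (hM : VComm ρ M) {A : Matrix ι ι K}
    (hA : A ∈ LG ρ) : am A a * M = M * am A b := by
  obtain ⟨Δ, hΔ, h⟩ := hM
  have h1 : ∀ p, FM M p ∈ VG ρ Δ := by
    intro p
    rw [mem_VG]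
    intro s hs
    rw [evM_FM, h s hs, sub_self]
    rfl
  have h2 : ∀ p, evM (1 : Matrix ι ι K) (FM M p) = 0 := fun p => VG_le Δ (h1 p)
  ext I J
  have h3 := mem_LG.1 hA Δ hΔ _ (h1 (I, J))
  rw [← evM_dA, dA_FM, map_add, evM_one_xt, map_sum] at h3
  rw [Finset.sum_eq_zero fun L _ => by rw [map_mul, h2, mul_zero], add_zero,
    Matrix.sub_apply, sub_eq_zero] at h3
  exact h3

/-- **Homomorphisms for the Lie algebra are homomorphisms for a subgroup of finite index.** -/
theorem vcomm_of_am [CharZero K] {M : Matrix (Fin a → ι) (Fin b → ι) K}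
    (h : ∀ A ∈ LG ρ, am A a * M = M * am A b) : VComm ρ M := by
  classical
  obtain ⟨Δ, hΔ, hmin⟩ := exists_sub ρ
  obtain ⟨u, hu1, hu⟩ := exists_unit_family (VG_le Δ) (fun A hA f hf => dA_VG A hA f hf) (FM M)
    (fun p => by
      rw [mem_P1, evM_FM, TP_one, TP_one, Matrix.one_mul, Matrix.mul_one, sub_self]
      rfl)
    (fun A hA p => by
      have h1 := h A (hmin A hA)
      rw [dA_FM, h1, sub_self]
      have h2 : (fun L : Fin a → ι => (0 : Matrix (Fin a → ι) (Fin b → ι) K) L p.2) = 0 := rfl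
      rw [h2, xt_zero, zero_add]
      exact Submodule.mem_sup_left (Ideal.sum_mem _ fun L _ => Ideal.mul_mem_left _ _
        (Ideal.subset_span (Set.mem_range_self _))))
  let H : Subgroup Γ :=
    { carrier := {s | s ∈ Δ ∧ TP (ρ s) a * M = M * TP (ρ s) b}
      mul_mem' := by
        rintro s t ⟨hs, hs'⟩ ⟨ht, ht'⟩
        refine ⟨Δ.mul_mem hs ht, ?_⟩
        rw [map_mul, TP_mul, TP_mul, Matrix.mul_assoc, ht', ← Matrix.mul_assoc, hs',
          Matrix.mul_assoc]
      one_mem' := ⟨Δ.one_mem, by rw [map_one, TP_one, TP_one, Matrix.one_mul, Matrix.mul_one]⟩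
      inv_mem' := by
        rintro s ⟨hs, hs'⟩
        refine ⟨Δ.inv_mem hs, ?_⟩
        have h1 : ∀ n, TP (ρ s⁻¹) n * TP (ρ s) n = 1 := fun n => by
          rw [← TP_mul, rep_inv', TP_one]
        have h2 : ∀ n, TP (ρ s) n * TP (ρ s⁻¹) n = 1 := fun n => by
          rw [← TP_mul, rep_inv, TP_one]
        calc TP (ρ s⁻¹) a * M = TP (ρ s⁻¹) a * (M * TP (ρ s) b) * TP (ρ s⁻¹) b := by
              rw [Matrix.mul_assoc, Matrix.mul_assoc M, h2, Matrix.mul_one]
          _ = M * TP (ρ s⁻¹) b := by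
              rw [← hs', ← Matrix.mul_assoc, h1, Matrix.one_mul] }
  have hHΔ : H ≤ Δ := fun s hs => hs.1
  refine ⟨H, finite_index_of_unit (ρ := ρ) hHΔ (u := u) (by rw [hu1]; exact one_ne_zero)
    (fun s hs hne => ⟨hs, ?_⟩), fun s hs => hs.2⟩
  ext I J
  have h1 := mem_VG.1 (hu (I, J)) s hs
  rw [map_mul, evM_FM] at h1
  have h2 := (mul_eq_zero.1 h1).resolve_left hne
  rw [Matrix.sub_apply, sub_eq_zero] at h2
  exact h2

end hom

end Pool.Agent.Q60.GL
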