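import Pool.Agent.Q60.GL.Typ

/-!
# The Mumford-Tate group and the algebra generated by its Lie algebra
-/

set_option linter.unusedSectionVars false

namespace Pool.Agent.Q60.GL

open MvPolynomial Module Matrix Pool.Agent.Q60.ED Pool.Agent.Q60.FI Pool.Agent.Q60.TD
  Pool.Agent.Q60.NP

section functional

variable {K L : Type} [Field K] [Field L] [Algebra K L] {B : Type} [Fintype B] [DecidableEq B]
  {U : Submodule K (Matrix B B K)}

lemma exists_fn (φ : Matrix B B K →ₗ[K] K) : ∃ c : Matrix B B K, ∀ X, fn c X = φ X := by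
  refine ⟨Matrix.of fun a b => φ (Matrix.single a b 1), fun X => ?_⟩
  conv_rhs => rw [Matrix.matrix_eq_sum_single X, map_sum]
  rw [fn]
  refine Finset.sum_congr rfl fun a _ => ?_
  rw [map_sum]
  refine Finset.sum_congr rfl fun b _ => ?_
  have h1 : Matrix.single a b (X a b) = X a b • Matrix.single a b (1 : K) := by
    rw [Matrix.smul_single, smul_eq_mul, mul_one]
  rw [h1, map_smul, smul_eq_mul, mul_comm]
  rfl

lemma form_fn (l : L →ₗ[K] K) (c : Matrix B B K) (X : Matrix B B L) :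
    l (fn (c.map (algebraMap K L)) X) = fn c (Matrix.of fun a b => l (X a b)) := by
  rw [fn, fn, map_sum]
  refine Finset.sum_congr rfl fun a _ => ?_
  rw [map_sum]
  refine Finset.sum_congr rfl fun b _ => ?_
  rw [Matrix.map_apply, ← Algebra.smul_def, map_smul, smul_eq_mul, Matrix.of_apply]

lemma fn_map (c X : Matrix B B K) :
    fn (c.map (algebraMap K L)) (X.map (algebraMap K L)) = algebraMap K L (fn c X) := by
  rw [fn, fn, map_sum]
  refine Finset.sum_congr rfl fun a _ => ?_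
  rw [map_sum]
  refine Finset.sum_congr rfl fun b _ => ?_
  rw [map_mul]
  rfl

/-- The extension of a space of matrices is given by the linear equations of the space. -/
lemma mem_SpM_iff {X : Matrix B B L} : X ∈ SpM L U ↔
    ∀ c : Matrix B B K, (∀ u ∈ U, fn c u = 0) → fn (c.map (algebraMap K L)) X = 0 := by
  constructor
  · intro hX c hc
    refine Submodule.span_induction (p := fun X _ => fn (c.map (algebraMap K L)) X = 0) ?_
      (fn_zero _) (fun x y _ _ hx hy => by rw [fn_add, hx, hy, add_zero])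
      (fun r x _ hx => by rw [fn_smul, hx, mul_zero]) hX
    rintro _ ⟨u, hu, rfl⟩
    simp only
    rw [fn_map, hc u hu, map_zero]
  · intro h
    apply mem_SpM
    intro l
    by_contra hne
    have h1 : U.mkQ (Matrix.of fun i j => l (X i j)) ≠ 0 := by
      rw [Submodule.mkQ_apply, Ne, Submodule.Quotient.mk_eq_zero]
      exact hne
    obtain ⟨φ, hφ⟩ : ∃ φ : Module.Dual K (Matrix B B K ⧸ U),
        φ (U.mkQ (Matrix.of fun i j => l (X i j))) ≠ 0 := by
      by_contra hcon
      push Not at hcon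
      exact h1 ((Module.forall_dual_apply_eq_zero_iff K _).1 hcon)
    obtain ⟨c, hc⟩ := exists_fn (φ ∘ₗ U.mkQ)
    have h2 := h c fun u hu => by
      rw [hc, LinearMap.comp_apply, Submodule.mkQ_apply, (Submodule.Quotient.mk_eq_zero U).2 hu,
        map_zero]
    have h3 := form_fn l c X
    rw [h2, map_zero, hc] at h3
    exact hφ h3.symm

/-- The extension of an algebra as an algebra. -/
noncomputable def SpA (L : Type) [Field L] [Algebra K L] (R : Subalgebra K (Matrix B B K)) :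
    Subalgebra L (Matrix B B L) where
  carrier := SpM L (Subalgebra.toSubmodule R)
  mul_mem' ha hb := mul_SpM ha hb
  add_mem' ha hb := Submodule.add_mem _ ha hb
  algebraMap_mem' r := by
    have h1 : algebraMap L (Matrix B B L) r =
        r • ((1 : Matrix B B K).map (algebraMap K L)) := by
      rw [Algebra.algebraMap_eq_smul_one, Matrix.map_one _ (map_zero _) (map_one _)]
    rw [h1]
    exact Submodule.smul_mem _ _ (map_mem_SpM R.one_mem)

lemma mem_SpA {R : Subalgebra K (Matrix B B K)} {X : Matrix B B L} :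
    X ∈ SpA L R ↔ X ∈ SpM L (Subalgebra.toSubmodule R) := Iff.rfl

/-- A finite dimensional algebra contains the inverses of its elements. -/
lemma inv_mem_alg {R : Subalgebra L (Matrix B B L)} {X Y : Matrix B B L} (hX : X ∈ R)
    (hXY : Y * X = 1) : Y ∈ R := by
  let f : Subalgebra.toSubmodule R →ₗ[L] Subalgebra.toSubmodule R :=
    { toFun := fun A => ⟨X * A.1, R.mul_mem hX A.2⟩
      map_add' := fun a b => Subtype.ext (Matrix.mul_add X a.1 b.1)
      map_smul' := fun c a => Subtype.ext (Matrix.mul_smul X c a.1) }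
  have hinj : Function.Injective f := by
    intro a b hab
    have h1 : X * a.1 = X * b.1 := congrArg Subtype.val hab
    have h2 := congrArg (fun M => Y * M) h1
    simp only [← Matrix.mul_assoc, hXY, Matrix.one_mul] at h2
    exact Subtype.ext h2
  obtain ⟨A, hA⟩ := LinearMap.injective_iff_surjective.1 hinj ⟨1, R.one_mem⟩
  have h1 : X * A.1 = 1 := congrArg Subtype.val hA
  have h2 : Y = A.1 := by
    calc Y = Y * (X * A.1) := by rw [h1, Matrix.mul_one]
      _ = A.1 := by rw [← Matrix.mul_assoc, hXY, Matrix.one_mul]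
  rw [h2]
  exact A.2

end functional

section am

variable {K L : Type} [Field K] [Field L] [Algebra K L] {κ : Type} [Fintype κ] [DecidableEq κ]

lemma am_add (x y : Matrix κ κ K) (n : ℕ) : am (x + y) n = am x n + am y n := by
  ext I J
  exact (aopL (Pi.single J 1) I).map_add x y

lemma am_smul (c : K) (x : Matrix κ κ K) (n : ℕ) : am (c • x) n = c • am x n := by
  ext I J
  exact (aopL (Pi.single J 1) I).map_smul c x

lemma am_zero (n : ℕ) : am (0 : Matrix κ κ K) n = 0 := by
  ext I J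
  exact (aopL (Pi.single J 1) I).map_zero

lemma am_form (l : L →ₗ[K] K) (x : Matrix κ κ L) (n : ℕ) (I J : Fin n → κ) :
    l (am x n I J) = am (Matrix.of fun i j => l (x i j)) n I J := by
  rw [am, am, Matrix.of_apply, Matrix.of_apply, ← aop_form]
  congr 3
  funext L
  rw [Pi.single_apply, bc, Pi.single_apply]
  split_ifs <;> simp

lemma am_map (x : Matrix κ κ K) (n : ℕ) :
    am (x.map (algebraMap K L)) n = (am x n).map (algebraMap K L) := by
  ext I J
  rw [Matrix.map_apply, am, am, Matrix.of_apply, Matrix.of_apply, aop_apply, aop_apply, map_sum]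
  refine Finset.sum_congr rfl fun k _ => ?_
  rw [map_sum]
  refine Finset.sum_congr rfl fun j _ => ?_
  rw [map_mul, Pi.single_apply, Pi.single_apply]
  split_ifs <;> simp

lemma DD_add (d : ℕ) (x y : Matrix κ κ K) : DD d (x + y) = DD d x + DD d y := by
  rw [DD, DD, DD, ← Matrix.blockDiagonal'_add]
  congr 1
  funext k
  exact am_add x y k

lemma DD_smul (d : ℕ) (c : K) (x : Matrix κ κ K) : DD d (c • x) = c • DD d x := by
  rw [DD, DD, ← Matrix.blockDiagonal'_smul]
  congr 1
  funext k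
  exact am_smul c x k

lemma DD_zero (d : ℕ) : DD d (0 : Matrix κ κ K) = 0 := by
  rw [DD, ← Matrix.blockDiagonal'_zero]
  congr 1
  funext k
  exact am_zero k

lemma DD_map (d : ℕ) (x : Matrix κ κ K) :
    DD d (x.map (algebraMap K L)) = (DD d x).map (algebraMap K L) := by
  rw [DD, DD, Matrix.blockDiagonal'_map _ _ (map_zero _)]
  congr 1
  funext k
  exact am_map x k

/-- The infinitesimal action of a combination of elements of a space. -/
lemma DD_mem {𝔪 : Submodule K (Matrix κ κ K)} {x : Matrix κ κ L} (hx : x ∈ SpM L 𝔪) (d : ℕ) :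
    DD d x ∈ SpM L (Subalgebra.toSubmodule (UA d 𝔪)) := by
  refine Submodule.span_induction (p := fun x _ =>
    DD d x ∈ SpM L (Subalgebra.toSubmodule (UA d 𝔪))) ?_ ?_ ?_ ?_ hx
  · rintro _ ⟨y, hy, rfl⟩
    simp only
    rw [DD_map]
    exact map_mem_SpM (Algebra.subset_adjoin ⟨y, hy, rfl⟩)
  · rw [DD_zero]
    exact Submodule.zero_mem _
  · intro a b _ _ ha hb
    rw [DD_add]
    exact Submodule.add_mem _ ha hb
  · intro c a _ ha
    rw [DD_smul]
    exact Submodule.smul_mem _ _ ha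

/-- Extension of scalars of the algebra generated by a space. -/
lemma UA_map {M : Type} [Field M] [Algebra K M] [Algebra L M] [IsScalarTower K L M]
    {𝔪 : Submodule K (Matrix κ κ K)} {𝔫 : Submodule L (Matrix κ κ L)}
    (h : ∀ y ∈ 𝔪, y.map (algebraMap K L) ∈ 𝔫) (d : ℕ) :
    SpM M (Subalgebra.toSubmodule (UA d 𝔪)) ≤ SpM M (Subalgebra.toSubmodule (UA d 𝔫)) := by
  have h1 : ∀ u ∈ UA d 𝔪, u.map (algebraMap K L) ∈ UA d 𝔫 := by
    intro u hu
    refine Algebra.adjoin_induction (p := fun u _ => u.map (algebraMap K L) ∈ UA d 𝔫)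
      ?_ ?_ ?_ ?_ hu
    · rintro _ ⟨y, hy, rfl⟩
      rw [← DD_map]
      exact Algebra.subset_adjoin ⟨_, h y hy, rfl⟩
    · intro r
      have h2 : (algebraMap K (Matrix (Bd κ d) (Bd κ d) K) r).map (algebraMap K L) =
          algebraMap L _ (algebraMap K L r) := by
        rw [Algebra.algebraMap_eq_smul_one, Algebra.algebraMap_eq_smul_one]
        ext i j
        rw [Matrix.map_apply, Matrix.smul_apply, Matrix.smul_apply, smul_eq_mul, smul_eq_mul,
          map_mul, Matrix.one_apply, Matrix.one_apply]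
        split_ifs <;> simp
      rw [h2]
      exact Subalgebra.algebraMap_mem _ _
    · intro a b _ _ ha hb
      rw [Matrix.map_add _ (fun x y => map_add _ x y)]
      exact Subalgebra.add_mem _ ha hb
    · intro a b _ _ ha hb
      rw [Matrix.map_mul]
      exact Subalgebra.mul_mem _ ha hb
  rw [SpM, Submodule.span_le]
  rintro _ ⟨u, hu, rfl⟩
  have h2 : u.map (algebraMap K M) = (u.map (algebraMap K L)).map (algebraMap L M) := by
    ext i j
    exact IsScalarTower.algebraMap_apply K L M (u i j)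
  simp only
  rw [h2]
  exact map_mem_SpM (h1 u hu)

end am

section hodge

variable {κ : Type} [Fintype κ] [DecidableEq κ] {w : ℤ} (V : HodgeStructure κ w)

/-- The Lie algebra of the matrices which commute with the homomorphisms of Hodge structures
between tensor powers. -/
noncomputable def LH : Submodule ℚ (Matrix κ κ ℚ) where
  carrier := {y | ∀ (a b : ℕ) (A : Matrix (Fin a → κ) (Fin b → κ) ℚ), IsHom V A →
    am y a * A = A * am y b}
  add_mem' {x y} hx hy a b A hA := by
    rw [am_add, am_add, Matrix.add_mul, Matrix.mul_add, hx a b A hA, hy a b A hA]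
  zero_mem' a b A _ := by rw [am_zero, am_zero, Matrix.zero_mul, Matrix.mul_zero]
  smul_mem' c x hx a b A hA := by
    rw [am_smul, am_smul, Matrix.smul_mul, Matrix.mul_smul, hx a b A hA]

variable {V}

lemma mem_LH {y : Matrix κ κ ℚ} : y ∈ LH V ↔
    ∀ (a b : ℕ) (A : Matrix (Fin a → κ) (Fin b → κ) ℚ), IsHom V A → am y a * A = A * am y b :=
  Iff.rfl

/-- Criterion for the extension of the Lie algebra. -/
lemma mem_LH_ext {L : Type} [Field L] [Algebra ℚ L] {x : Matrix κ κ L} : x ∈ SpM L (LH V) ↔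
    ∀ (a b : ℕ) (A : Matrix (Fin a → κ) (Fin b → κ) ℚ), IsHom V A →
      am x a * toField L A = toField L A * am x b := by
  constructor
  · intro hx a b A hA
    refine Submodule.span_induction (p := fun x _ =>
      am x a * toField L A = toField L A * am x b) ?_ ?_ ?_ ?_ hx
    · rintro _ ⟨y, hy, rfl⟩
      simp only
      rw [am_map, am_map, toField, ← Matrix.map_mul, ← Matrix.map_mul, hy a b A hA]
    · rw [am_zero, am_zero, Matrix.zero_mul, Matrix.mul_zero]
    · intro x y _ _ hx hy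
      rw [am_add, am_add, Matrix.add_mul, Matrix.mul_add, hx, hy]
    · intro c x _ hx
      rw [am_smul, am_smul, Matrix.smul_mul, Matrix.mul_smul, hx]
  · intro h
    apply mem_SpM
    intro l a b A hA
    ext I J
    have h1 := congrArg l (congrFun (congrFun (h a b A hA) I) J)
    rw [Matrix.mul_apply, Matrix.mul_apply, map_sum, map_sum] at h1
    rw [Matrix.mul_apply, Matrix.mul_apply]
    refine Eq.trans ?_ (h1.trans ?_)
    · refine Finset.sum_congr rfl fun k _ => ?_
      rw [toField, Matrix.map_apply, mul_comm (am x a I k), ← Algebra.smul_def, map_smul,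
        smul_eq_mul, am_form, mul_comm]
    · refine Finset.sum_congr rfl fun k _ => ?_
      rw [toField, Matrix.map_apply, ← Algebra.smul_def, map_smul, smul_eq_mul, am_form]

lemma op_mem_LH {f : ℤ × ℤ → ℂ} (hf : ∀ (n : ℕ) (t : Fin n → ℤ × ℤ), ∑ i, f (t i) = f (tot t)) :
    V.op f ∈ SpM ℂ (LH V) :=
  mem_LH_ext.2 fun _ _ _ hA => hom_am V hA hf

/-- The projection to the tensors of a given multitype, among the tensors of bounded degree. -/
noncomputable def vt (V : HodgeStructure κ w) (d : ℕ) (τ : Σ k : Fin (d + 1), (Fin k → ℤ × ℤ)) :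
    Matrix (Bd κ d) (Bd κ d) ℂ :=
  Matrix.blockDiagonal' (Pi.single τ.1 (et V τ.2))

lemma bd_mul_single {d : ℕ} (M : ∀ k : Fin (d + 1), Matrix (Fin k → κ) (Fin k → κ) ℂ)
    (k : Fin (d + 1)) (X : Matrix (Fin k → κ) (Fin k → κ) ℂ) :
    Matrix.blockDiagonal' M * Matrix.blockDiagonal' (Pi.single k X) =
      Matrix.blockDiagonal' (Pi.single k (M k * X)) := by
  rw [← Matrix.blockDiagonal'_mul]
  congr 1
  funext j
  by_cases hj : j = k
  · subst hj
    rw [Pi.single_eq_same, Pi.single_eq_same]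
  · rw [Pi.single_eq_of_ne hj, Pi.single_eq_of_ne hj, Matrix.mul_zero]

lemma bd_sum {d : ℕ} (M : ∀ k : Fin (d + 1), Matrix (Fin k → κ) (Fin k → κ) ℂ) :
    ∑ k, Matrix.blockDiagonal' (Pi.single k (M k)) = Matrix.blockDiagonal' M := by
  have h1 : ∀ s : Finset (Fin (d + 1)), ∑ k ∈ s, Matrix.blockDiagonal' (Pi.single k (M k)) =
      Matrix.blockDiagonal' (∑ k ∈ s, Pi.single k (M k)) := by
    intro s
    induction s using Finset.induction_on with
    | empty => rw [Finset.sum_empty, Finset.sum_empty, Matrix.blockDiagonal'_zero]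
    | insert a s ha ih => rw [Finset.sum_insert ha, Finset.sum_insert ha, ih,
        Matrix.blockDiagonal'_add]
  rw [h1, Finset.univ_sum_single]

lemma bd_single_sum {d : ℕ} (k : Fin (d + 1)) {T : Type} (s : Finset T)
    (X : T → Matrix (Fin k → κ) (Fin k → κ) ℂ) :
    Matrix.blockDiagonal' (Pi.single k (∑ t ∈ s, X t)) =
      ∑ t ∈ s, Matrix.blockDiagonal' (Pi.single k (X t) :
        ∀ j : Fin (d + 1), Matrix (Fin j → κ) (Fin j → κ) ℂ) := by
  classical
  induction s using Finset.induction_on with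
  | empty => rw [Finset.sum_empty, Finset.sum_empty, Pi.single_zero, Matrix.blockDiagonal'_zero]
  | insert a s ha ih => rw [Finset.sum_insert ha, Finset.sum_insert ha, Pi.single_add,
      Matrix.blockDiagonal'_add, ih]

lemma bd_single_smul {d : ℕ} (k : Fin (d + 1)) (c : ℂ) (X : Matrix (Fin k → κ) (Fin k → κ) ℂ) :
    Matrix.blockDiagonal' (Pi.single k (c • X)) = c • Matrix.blockDiagonal' (Pi.single k X :
        ∀ j : Fin (d + 1), Matrix (Fin j → κ) (Fin j → κ) ℂ) := by
  rw [← Matrix.blockDiagonal'_smul, Pi.single_smul]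

/-- All multitypes of the tensors of bounded degree. -/
def allT (V : HodgeStructure κ w) (d : ℕ) : Finset (Σ k : Fin (d + 1), (Fin k → ℤ × ℤ)) :=
  Finset.univ.sigma fun k => mts V k

lemma TT_op (f : ℤ × ℤ → ℂ) (d : ℕ) :
    TT d (V.op f) = ∑ τ ∈ allT V d, (∏ i, f (τ.2 i)) • vt V d τ := by
  rw [TT, ← bd_sum, allT, Finset.sum_sigma]
  refine Finset.sum_congr rfl fun k _ => ?_
  rw [TP_op, bd_single_sum]
  refine Finset.sum_congr rfl fun t _ => ?_
  rw [bd_single_smul]
  rfl

lemma vt_sum (d : ℕ) : ∑ τ ∈ allT V d, vt V d τ = 1 := by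
  have h1 := TT_op (V := V) (fun _ => 1) d
  rw [op_one, TT_one] at h1
  rw [h1]
  refine Finset.sum_congr rfl fun τ _ => ?_
  rw [Finset.prod_const_one, one_smul]

lemma DD_vt (f : ℤ × ℤ → ℂ) {d : ℕ} {τ : Σ k : Fin (d + 1), (Fin k → ℤ × ℤ)}
    (hτ : τ ∈ allT V d) : DD d (V.op f) * vt V d τ = (∑ i, f (τ.2 i)) • vt V d τ := by
  have h1 : τ.2 ∈ mts V τ.1 := (Finset.mem_sigma.1 hτ).2
  rw [DD, vt, bd_mul_single, am_et V f h1, bd_single_smul]

/-- The first number of the type. -/
def f1 (a : ℤ × ℤ) : ℂ := ((a.1 : ℤ) : ℂ)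

/-- The second number of the type. -/
def f2 (a : ℤ × ℤ) : ℂ := ((a.2 : ℤ) : ℂ)

lemma f1_tot (n : ℕ) (t : Fin n → ℤ × ℤ) : ∑ i, f1 (t i) = f1 (tot t) := by
  simp only [f1, tot, Int.cast_sum]

lemma f2_tot (n : ℕ) (t : Fin n → ℤ × ℤ) : ∑ i, f2 (t i) = f2 (tot t) := by
  simp only [f2, tot, Int.cast_sum]

lemma sep_types (V : HodgeStructure κ w) (d : ℕ) (W : Submodule ℂ (Matrix (Bd κ d) (Bd κ d) ℂ))
    (h1 : ∀ X ∈ W, DD d (V.op f1) * X ∈ W) (h2 : ∀ X ∈ W, DD d (V.op f2) * X ∈ W)
    (hone : (1 : Matrix (Bd κ d) (Bd κ d) ℂ) ∈ W) (a : ℤ × ℤ) :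
    ∑ τ ∈ allT V d with tot τ.2 = a, vt V d τ ∈ W := by
  classical
  rw [← vt_sum (V := V) d] at hone
  have e1 := separate W (LinearMap.mulLeft ℂ (DD d (V.op f1))) h1 (allT V d) (vt V d)
    (fun τ => f1 (tot τ.2)) (fun τ hτ => by
      rw [LinearMap.mulLeft_apply, DD_vt _ hτ, f1_tot]) hone (f1 a)
  have e2 := separate W (LinearMap.mulLeft ℂ (DD d (V.op f2))) h2 _ (vt V d)
    (fun τ => f2 (tot τ.2)) (fun τ hτ => by
      rw [LinearMap.mulLeft_apply, DD_vt _ (Finset.mem_filter.1 hτ).1, f2_tot]) e1 (f2 a)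
  have e4 : ∀ S : Finset (Σ k : Fin (d + 1), (Fin k → ℤ × ℤ)), ∑ τ ∈ S, vt V d τ ∈ W →
      (∀ τ, τ ∈ S ↔ τ ∈ allT V d ∧ tot τ.2 = a) →
      ∑ τ ∈ allT V d with tot τ.2 = a, vt V d τ ∈ W := by
    intro S hS hS'
    have e5 : ((allT V d).filter fun τ => tot τ.2 = a) = S := by
      ext τ
      rw [hS', Finset.mem_filter]
    rw [e5]
    exact hS
  refine e4 _ e2 fun τ => ?_
  rw [Finset.mem_filter, Finset.mem_filter, and_assoc]
  refine and_congr_right fun _ => ?_
  rw [f1, f1, f2, f2, Int.cast_inj, Int.cast_inj, Prod.ext_iff]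

lemma prod_zpow {x : ℂ} (hx : x ≠ 0) {n : ℕ} (g : Fin n → ℤ) :
    ∏ i, x ^ (-g i) = x ^ (-∑ i, g i) := by
  have h2 : ∀ s : Finset (Fin n), ∏ i ∈ s, x ^ (-g i) = x ^ (-∑ i ∈ s, g i) := by
    intro s
    induction s using Finset.induction_on with
    | empty => simp
    | insert a s ha ih => rw [Finset.prod_insert ha, Finset.sum_insert ha, ih, neg_add,
        zpow_add₀ hx]
  exact h2 _

lemma TT_h_eq (V : HodgeStructure κ w) (d : ℕ) {z : ℂ} (hz : z ≠ 0) :
    TT d (V.h z) = ∑ τ ∈ allT V d,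
      (z ^ (-(tot τ.2).1) * starRingEnd ℂ z ^ (-(tot τ.2).2)) • vt V d τ := by
  have hz' : starRingEnd ℂ z ≠ 0 := (map_ne_zero _).2 hz
  rw [h_eq_op, TT_op]
  refine Finset.sum_congr rfl fun τ _ => ?_
  congr 1
  rw [Finset.prod_mul_distrib, tot, prod_zpow hz, prod_zpow hz']

/-- **The operators of the Hodge structure** act on the tensors of bounded degree by elements of
the algebra generated by the Lie algebra. -/
theorem TT_h_mem {𝔫 : Submodule ℚ (Matrix κ κ ℚ)} (hn1 : V.op f1 ∈ SpM ℂ 𝔫)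
    (hn2 : V.op f2 ∈ SpM ℂ 𝔫) (d : ℕ) {z : ℂ} (hz : z ≠ 0) :
    TT d (V.h z) ∈ SpM ℂ (Subalgebra.toSubmodule (UA d 𝔫)) := by
  classical
  have h1 := sep_types V d (SpM ℂ (Subalgebra.toSubmodule (UA d 𝔫)))
    (fun X hX => mul_SpM (DD_mem hn1 d) hX)
    (fun X hX => mul_SpM (DD_mem hn2 d) hX)
    (SpA ℂ (UA d 𝔫)).one_mem
  rw [TT_h_eq V d hz, ← Finset.sum_fiberwise_of_maps_to (s := allT V d)
    (t := (allT V d).image fun τ => tot τ.2) (g := fun τ => tot τ.2)
    fun τ hτ => Finset.mem_image_of_mem _ hτ]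
  refine Submodule.sum_mem _ fun a _ => ?_
  have h5 : ∑ τ ∈ allT V d with tot τ.2 = a,
      (z ^ (-(tot τ.2).1) * starRingEnd ℂ z ^ (-(tot τ.2).2)) • vt V d τ =
      (z ^ (-a.1) * starRingEnd ℂ z ^ (-a.2)) • ∑ τ ∈ allT V d with tot τ.2 = a, vt V d τ := by
    rw [Finset.smul_sum]
    refine Finset.sum_congr rfl fun τ hτ => ?_
    rw [(Finset.mem_filter.1 hτ).2]
  rw [h5]
  exact Submodule.smul_mem _ _ (h1 a)

/-- **The points of the Mumford-Tate group** act on the tensors of bounded degree by elements of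
the algebra generated by the Lie algebra. -/
theorem TT_mem_of_inMT {𝔫 : Submodule ℚ (Matrix κ κ ℚ)} (hn1 : V.op f1 ∈ SpM ℂ 𝔫)
    (hn2 : V.op f2 ∈ SpM ℂ 𝔫) {L : Type} [Field L] [Algebra ℚ L] {g : Matrix κ κ L}
    (hg : InMumfordTate V.h g) (d : ℕ) :
    TT d g ∈ SpM L (Subalgebra.toSubmodule (UA d (𝔫))) := by
  rw [mem_SpM_iff]
  intro c hc
  rw [← value_pc]
  refine hg _ fun m hm => ?_
  have hG : IsQGroup {g : Matrix κ κ ℂ | g.det ≠ 0 ∧ TT d g ∈ SpA ℂ (UA d (𝔫))} := by
    refine ⟨⟨{f | ∃ c : Matrix (Bd κ d) (Bd κ d) ℚ, (∀ u ∈ UA d (𝔫), fn c u = 0) ∧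
      f = pc d c}, fun g => ?_⟩, ?_, ?_, ?_⟩
    · rw [Set.mem_ofPred_eq]
      refine and_congr_right fun _ => ?_
      rw [mem_SpA, mem_SpM_iff]
      constructor
      · rintro h _ ⟨c, hc, rfl⟩
        rw [value_pc]
        exact h c hc
      · intro h c hc
        have h1 := h _ ⟨c, hc, rfl⟩
        rwa [value_pc] at h1
    · refine ⟨by simp, ?_⟩
      rw [TT_one]
      exact Subalgebra.one_mem _
    · rintro x ⟨hx, hx'⟩ y ⟨hy, hy'⟩
      refine ⟨by rw [Matrix.det_mul]; exact mul_ne_zero hx hy, ?_⟩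
      rw [TT_mul]
      exact Subalgebra.mul_mem _ hx' hy'
    · rintro x ⟨hx, hx'⟩
      refine ⟨by
        rw [Matrix.det_nonsing_inv, Ring.inverse_eq_inv']
        exact inv_ne_zero hx, ?_⟩
      refine inv_mem_alg hx' ?_
      rw [← TT_mul, Matrix.nonsing_inv_mul _ (isUnit_iff_ne_zero.2 hx), TT_one]
  have h1 := (hm _ hG fun z hz => ⟨h_det V hz, TT_h_mem hn1 hn2 d hz⟩).2
  rw [value_pc]
  exact mem_SpM_iff.1 (mem_SpA.1 h1) c hc

end hodge

end Pool.Agent.Q60.GL
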