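import Pool.Agent.Q60.GL.Red
import Pool.Agent.Q60.PB.Small
import Pool.Agent.Q60.NP.Sub

/-!
# Groups between the Mumford-Tate group and the group of similitudes
-/

set_option linter.unusedSectionVars false

namespace Pool.Agent.Q60.GL

open MvPolynomial Module Matrix Pool.Agent.Q60.ED Pool.Agent.Q60.FI Pool.Agent.Q60.TD
  Pool.Agent.Q60.NP Pool.Agent.Q60.MV Pool.Agent.Q60.CJ Pool.Agent.Q60.TP
open Pool.Agent.Q55.Ke (tpow_zero tpow_tmul tpow_perm)

section fix

variable {κ : Type} [Fintype κ] [DecidableEq κ] {Q : Matrix κ κ ℚ}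

/-- The rational tensors which are fixed by a set of matrices. -/
noncomputable def fixT (H : Set (Matrix κ κ ℂ)) (n : ℕ) : Submodule ℚ ((Fin n → κ) → ℚ) where
  carrier := {t | ∀ g ∈ H, tpow g n (cx t) = cx t}
  add_mem' {a b} ha hb g hg := by rw [cx_add, map_add, ha g hg, hb g hg]
  zero_mem' g _ := by
    have : cx (0 : (Fin n → κ) → ℚ) = 0 := by funext a; simp [cx]
    rw [this, map_zero]
  smul_mem' q a ha g hg := by rw [cx_smul, map_smul, ha g hg]

lemma mem_fixT {H : Set (Matrix κ κ ℂ)} {n : ℕ} {t : (Fin n → κ) → ℚ} :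
    t ∈ fixT H n ↔ ∀ g ∈ H, tpow g n (cx t) = cx t := Iff.rfl

lemma iso_det (hQ : Q.det ≠ 0) {g : Matrix κ κ ℂ} (hg : gᵀ * toField ℂ Q * g = toField ℂ Q) :
    g.det ≠ 0 := by
  intro h0
  have h1 := congrArg Matrix.det hg
  rw [Matrix.det_mul, h0, mul_zero] at h1
  exact toField_det (K := ℂ) hQ h1.symm

lemma iso_Om (hQ : Q.det ≠ 0) {g : Matrix κ κ ℂ} (hg : gᵀ * toField ℂ Q * g = toField ℂ Q) :
    g * toField ℂ Q⁻¹ * gᵀ = toField ℂ Q⁻¹ := by
  have h1 := sim_Om (K := ℂ) (Q := toField ℂ Q) (c := 1) (toField_det hQ) (iso_det hQ hg)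
    (by rw [hg, one_smul])
  rw [one_smul, toField_inv'] at h1
  exact h1

lemma cx_tmul {m n : ℕ} (s : (Fin m → κ) → ℚ) (t : (Fin n → κ) → ℚ) :
    cx (tmul s t) = tmul (cx s) (cx t) := by
  funext I
  simp [cx, tmul]

/-- The tensors fixed by a set of isometries are a closed system. -/
noncomputable def fixP (hQ : Q.det ≠ 0) (H : Set (Matrix κ κ ℂ))
    (hH : ∀ g ∈ H, gᵀ * toField ℂ Q * g = toField ℂ Q) : PSys Q where
  S := fixT H
  one := fun g _ => tpow_zero _ _
  mul := fun {m n s t} hs ht g hg => by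
    rw [cx_tmul, tpow_tmul, hs g hg, ht g hg]
  perm := fun {n} σ {t} ht g hg => by
    have h1 : cx (fun J => t (J ∘ σ)) = fun J => cx t (J ∘ σ) := rfl
    rw [h1, tpow_perm, ht g hg]
  contr := fun {m n s t} hs ht g hg => by
    have hd := iso_det hQ (hH g hg)
    have h1 : cx (fun J => ∑ I, ∑ I', s I * TP Q m I I' * t (Fin.append I' J)) =
        fun J => ∑ I, ∑ I', cx s I * TP (toField ℂ Q) m I I' * cx t (Fin.append I' J) := by
      funext J
      have h2 : ∀ I I', TP (toField ℂ Q) m I I' = ((TP Q m I I' : ℚ) : ℂ) := by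
        intro I I'
        rw [TP_apply, TP_apply, Rat.cast_prod]
        rfl
      simp only [cx, h2]
      push_cast
      rfl
    rw [h1]
    funext L
    rw [tpow_contr hd, hs g hg, ht g hg]
    have h3 : (g⁻¹)ᵀ * toField ℂ Q * g⁻¹ = toField ℂ Q := by
      have hu := isUnit_iff_ne_zero.2 hd
      have hut : IsUnit gᵀ.det := by rwa [Matrix.det_transpose]
      conv_lhs => rw [← hH g hg]
      rw [Matrix.transpose_nonsing_inv, ← Matrix.mul_assoc, ← Matrix.mul_assoc,
        Matrix.nonsing_inv_mul _ hut, Matrix.one_mul, Matrix.mul_assoc,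
        Matrix.mul_nonsing_inv _ hu, Matrix.mul_one]
    rw [h3]
  cas := fun g hg => by
    have h1 := iso_Om hQ (hH g hg)
    apply PHS.mat2_inj
    rw [tpow_two, PHS.mat2_Om]
    exact h1

/-- The part of even degree of a closed system. -/
noncomputable def evP (C : PSys Q) : PSys Q where
  S n := if Even n then C.S n else ⊥
  one := by
    rw [if_pos Even.zero]
    exact C.one
  mul := fun {m n s t} hs ht => by
    by_cases hm : Even m
    · by_cases hn : Even n
      · rw [if_pos hm] at hs
        rw [if_pos hn] at ht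
        rw [if_pos (hm.add hn)]
        exact C.mul hs ht
      · rw [if_neg hn, Submodule.mem_bot] at ht
        have h1 : tmul s t = 0 := by
          funext I
          simp [tmul, ht]
        rw [h1]
        exact Submodule.zero_mem _
    · rw [if_neg hm, Submodule.mem_bot] at hs
      have h1 : tmul s t = 0 := by
        funext I
        simp [tmul, hs]
      rw [h1]
      exact Submodule.zero_mem _
  perm := fun {n} σ {t} ht => by
    by_cases hn : Even n
    · rw [if_pos hn] at ht ⊢
      exact C.perm σ ht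
    · rw [if_neg hn, Submodule.mem_bot] at ht ⊢
      rw [ht]
      rfl
  contr := fun {m n s t} hs ht => by
    have h0 : ∀ s : (Fin m → κ) → ℚ, ∀ t : (Fin (m + n) → κ) → ℚ, (s = 0 ∨ t = 0) →
        (fun J : Fin n → κ => ∑ I, ∑ I', s I * TP Q m I I' * t (Fin.append I' J)) = 0 := by
      rintro s t (rfl | rfl)
      · funext J
        simp
      · funext J
        simp
    by_cases hm : Even m
    · by_cases hn : Even n
      · rw [if_pos hm] at hs
        rw [if_pos (hm.add hn)] at ht
        rw [if_pos hn]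
        exact C.contr hs ht
      · rw [if_neg (fun h => hn ((Nat.even_add.1 h).1 hm)), Submodule.mem_bot] at ht
        rw [h0 s t (Or.inr ht)]
        exact Submodule.zero_mem _
    · rw [if_neg hm, Submodule.mem_bot] at hs
      rw [h0 s t (Or.inl hs)]
      exact Submodule.zero_mem _
  cas := by
    rw [if_pos even_two]
    exact C.cas

end fix

end Pool.Agent.Q60.GL
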