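import Pool.Agent.Q60.GL.Mot

/-!
# Groups between the Mumford-Tate group and the group of similitudes: the tensors of bounded degree
-/

set_option linter.unusedSectionVars false

namespace Pool.Agent.Q60.GL

open MvPolynomial Module Matrix Pool.Agent.Q60.ED Pool.Agent.Q60.FI Pool.Agent.Q60.TD
  Pool.Agent.Q60.NP Pool.Agent.Q60.MV Pool.Agent.Q60.CJ Pool.Agent.Q60.TP
open Pool.Agent.Q55.Ke (tpow_zero tpow_tmul tpow_perm)

variable {κ : Type} [Fintype κ] [DecidableEq κ] {w : ℤ} {V : HodgeStructure κ w}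
  {Q : Matrix κ κ ℚ}

/-- The action of a nonzero number, up to a scalar. -/
lemma h_eq_smul' {z : ℂ} (hz : z ≠ 0) :
    V.h z = ((‖z‖ : ℂ) ^ (-w)) • cz V ((‖z‖ : ℂ) / z) := by
  have hr : (‖z‖ : ℂ) ≠ 0 := by
    rw [Ne, Complex.ofReal_eq_zero, norm_eq_zero]
    exact hz
  set r : ℂ := (‖z‖ : ℂ) with hrdef
  have hzz : z * starRingEnd ℂ z = r * r := by
    rw [Complex.mul_conj, Complex.normSq_eq_norm_sq, hrdef]
    push_cast
    ring
  have hz' : starRingEnd ℂ z ≠ 0 := (map_ne_zero _).2 hz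
  rw [h_eq_op, cz, HodgeStructure.op, HodgeStructure.op, Finset.smul_sum]
  refine Finset.sum_congr rfl fun a ha => ?_
  rw [smul_smul]
  congr 1
  have h1 : starRingEnd ℂ z = r * r / z := by
    rw [← hzz]
    field_simp
  have hw := V.weight a ha
  rw [h1, div_zpow, div_zpow, mul_zpow]
  have h2 : r ^ (-w) = r ^ (-a.1) * r ^ (-a.2) := by
    rw [← zpow_add₀ hr]
    congr 1
    omega
  have h3 : r ^ (a.1 - a.2) = r ^ a.1 * r ^ (-a.2) := by
    rw [← zpow_add₀ hr]
    rfl
  have h4 : z ^ (a.1 - a.2) = z ^ a.1 * z ^ (-a.2) := by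
    rw [← zpow_add₀ hz]
    rfl
  have h5 : r ^ (-a.1) * r ^ a.1 = 1 := by
    rw [← zpow_add₀ hr, neg_add_cancel, zpow_zero]
  have h6 : z ^ (-a.1) * z ^ a.1 = 1 := by
    rw [← zpow_add₀ hz, neg_add_cancel, zpow_zero]
  rw [h2, h3, h4]
  have hz1 : z ^ a.1 ≠ 0 := zpow_ne_zero _ hz
  have hz2 : z ^ (-a.2) ≠ 0 := zpow_ne_zero _ hz
  field_simp
  linear_combination h6 - h5

/-- Hodge tensors give homomorphisms in weight zero. -/
lemma hom_of_tensor0 (hQ : IsPolarisation V Q) (hw : w = 0) {a b : ℕ}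
    {A : Matrix (Fin a → κ) (Fin b → κ) ℚ}
    (hA : tenM (A * TP Q⁻¹ b) ∈ (phs hQ).T (a + b)) : IsHom V A := by
  intro z hz
  have hr : (‖z‖ : ℂ) ≠ 0 := by
    rw [Ne, Complex.ofReal_eq_zero, norm_eq_zero]
    exact hz
  have h1 := h_eq_smul' (V := V) hz
  have h2 : (‖z‖ : ℂ) ^ (-w) = 1 := by rw [hw, neg_zero, zpow_zero]
  rw [h2, one_smul] at h1
  rw [h1, (tensor_iff hQ A).1 hA _ (div_ne_zero hr hz)]

/-- The scalars belong to the Mumford-Tate group. -/
lemma scalar_mem (hQ : IsPolarisation V Q) (hw : w ≠ 0) {μ : ℂ} (hμ : μ ≠ 0) :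
    μ • (1 : Matrix κ κ ℂ) ∈ mumfordTate V.h := by
  rw [mem_mt fun z hz => h_det V hz]
  refine ⟨?_, ?_⟩
  · rw [Matrix.det_smul, Matrix.det_one, mul_one]
    exact pow_ne_zero _ hμ
  · refine inMT_of_comm hQ fun a b A hA => ?_
    by_cases hab : a = b
    · subst hab
      rw [MV.TP_smul, TP_one, Matrix.smul_mul, Matrix.mul_smul, Matrix.one_mul, Matrix.mul_one]
    · rw [hom_eq_zero hw hab hA]
      have h6 : toField ℂ (0 : Matrix (Fin a → κ) (Fin b → κ) ℚ) = 0 :=
        Matrix.map_zero _ (map_zero _)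
      rw [h6, Matrix.mul_zero, Matrix.zero_mul]

/-- The operators of the circle belong to the Mumford-Tate group. -/
lemma cz_mem (hQ : IsPolarisation V Q) {z : ℂ} (hz : z ≠ 0) : cz V z ∈ mumfordTate V.h := by
  rw [mem_mt fun z hz => h_det V hz]
  exact ⟨phs_det hQ hz, inMT_of_comm hQ fun a b A hA => hom_cz hA hz⟩

/-- The matrix fixes all Hodge tensors. -/
def Good (hQ : IsPolarisation V Q) (g : Matrix κ κ ℂ) : Prop :=
  ∀ n, ∀ t ∈ (phs hQ).T n, tpow g n (cx t) = cx t

/-- The matrices which fix the Hodge tensors belong to the Mumford-Tate group. -/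
lemma Good.mem {hQ : IsPolarisation V Q} {g : Matrix κ κ ℂ} (h : Good hQ g)
    (hg : gᵀ * toField ℂ Q * g = toField ℂ Q) : g ∈ mumfordTate V.h := by
  have hd := iso_det (pol_det hQ) hg
  rw [mem_mt fun z hz => h_det V hz]
  refine ⟨hd, inMT_of_comm hQ fun a b A hA => ?_⟩
  have h1 := h _ _ (tensor_of_hom hQ hA)
  rw [cx_tenM, toField_mul, toField_TP] at h1
  have hd' : (toField ℂ Q⁻¹).det ≠ 0 := by
    intro h0
    have h1 := congrArg Matrix.det (toField_inv (pol_det hQ)).1
    rw [Matrix.det_mul, h0, mul_zero, Matrix.det_one] at h1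
    exact zero_ne_one h1
  exact (inv_iff hd hd' (iso_Om (pol_det hQ) hg) _).1 h1

/-- The action on the tensor of an operator. -/
lemma fix_of_comm (hQ : IsPolarisation V Q) {g : Matrix κ κ ℂ}
    (hg : gᵀ * toField ℂ Q * g = toField ℂ Q) {a b : ℕ} {A : Matrix (Fin a → κ) (Fin b → κ) ℚ}
    (h : TP g a * toField ℂ A = toField ℂ A * TP g b) :
    tpow g (a + b) (cx (tenM (A * TP Q⁻¹ b))) = cx (tenM (A * TP Q⁻¹ b)) := by
  have hd := iso_det (pol_det hQ) hg
  have hd' : (toField ℂ Q⁻¹).det ≠ 0 := by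
    intro h0
    have h1 := congrArg Matrix.det (toField_inv (pol_det hQ)).1
    rw [Matrix.det_mul, h0, mul_zero, Matrix.det_one] at h1
    exact zero_ne_one h1
  rw [cx_tenM, toField_mul, toField_TP]
  exact (inv_iff hd hd' (iso_Om (pol_det hQ) hg) _).2 h

lemma tmul_cancel {m n : ℕ} {s s' : (Fin m → κ) → ℂ} {t : (Fin n → κ) → ℂ} (ht : t ≠ 0)
    (h : tmul s t = tmul s' t) : s = s' := by
  obtain ⟨J, hJ⟩ := Function.ne_iff.1 ht
  funext I
  have h1 := congrFun h (Fin.append I J)
  simp only [tmul, Fin.append_left, Fin.append_right] at h1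
  exact mul_right_cancel₀ hJ h1

lemma sq_sign {n : ℕ} {s t : (Fin n → κ) → ℂ} (ht : t ≠ 0)
    (h : tmul s s = tmul t t) : s = t ∨ s = -t := by
  obtain ⟨J, hJ⟩ := Function.ne_iff.1 ht
  have h0 : ∀ I J, s I * s J = t I * t J := by
    intro I J
    have h1 := congrFun h (Fin.append I J)
    simp only [tmul, Fin.append_left, Fin.append_right] at h1
    exact h1
  have hJ' : t J ≠ 0 := hJ
  have h1 : s J = t J ∨ s J = -t J := by
    have h2 := h0 J J
    have h3 : (s J - t J) * (s J + t J) = 0 := by linear_combination h2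
    rcases mul_eq_zero.1 h3 with h4 | h4
    · exact Or.inl (sub_eq_zero.1 h4)
    · exact Or.inr (eq_neg_of_add_eq_zero_left h4)
  rcases h1 with h1 | h1
  · left
    funext I
    have h2 := h0 I J
    rw [h1] at h2
    exact mul_right_cancel₀ hJ' h2
  · right
    funext I
    have h2 := h0 I J
    rw [h1, mul_neg] at h2
    rw [Pi.neg_apply]
    apply mul_right_cancel₀ hJ'
    linear_combination -h2

lemma cx_ne {n : ℕ} {t : (Fin n → κ) → ℚ} (ht : t ≠ 0) : cx t ≠ 0 := by
  intro h
  apply ht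
  funext I
  have h1 := congrFun h I
  simpa [cx] using h1

lemma even_fixed (hQ : IsPolarisation V Q) {H : Set (Matrix κ κ ℂ)}
    (hH : ∀ g ∈ H, gᵀ * toField ℂ Q * g = toField ℂ Q) {N : ℕ}
    (hm : ∀ a ≤ N, ∀ b ≤ N, ∀ A : Matrix (Fin a → κ) (Fin b → κ) ℚ, IsHom V A →
      ∀ g ∈ H, TP g a * toField ℂ A = toField ℂ A * TP g b) {n : ℕ} (hn : Even n)
    (hn' : n ≤ 2 * N) {t : (Fin n → κ) → ℚ} (ht : t ∈ (phs hQ).T n) {g : Matrix κ κ ℂ}
    (hg : g ∈ H) : tpow g n (cx t) = cx t := by
  obtain ⟨a, rfl⟩ := hn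
  have h1 : tenM (opt Q (a := a) (b := a) t * TP Q⁻¹ a) = t := tenM_opt (pol_det hQ) _
  have h2 : IsHom V (opt Q (a := a) (b := a) t) := hom_of_tensor hQ (by rw [h1]; exact ht)
  have h3 := fix_of_comm hQ (hH g hg) (hm a (by omega) a (by omega) _ h2 g hg)
  rw [h1] at h3
  exact h3

/-- **The isometries which commute with the homomorphisms of bounded degree fix the Hodge tensors,
up to a sign.** -/
theorem good_of (hQ : IsPolarisation V Q) (htr : TotallyRealCentre V Q) {H : Set (Matrix κ κ ℂ)}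
    (hH : ∀ g ∈ H, gᵀ * toField ℂ Q * g = toField ℂ Q) (hcz : ∀ z, z ≠ 0 → cz V z ∈ H)
    (hm : ∀ a ≤ Fintype.card κ ^ 3, ∀ b ≤ Fintype.card κ ^ 3,
      ∀ A : Matrix (Fin a → κ) (Fin b → κ) ℚ, IsHom V A →
      ∀ g ∈ H, TP g a * toField ℂ A = toField ℂ A * TP g b) {g : Matrix κ κ ℂ} (hg : g ∈ H) :
    Good hQ g ∨ (w ≠ 0 ∧ Good hQ (-g)) := by
  set N := Fintype.card κ ^ 3 with hN
  have hle : ∀ H' : Set (Matrix κ κ ℂ), (∀ z, z ≠ 0 → cz V z ∈ H') →
      ∀ n, fixT H' n ≤ (phs hQ).T n := by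
    intro H' hH' n t ht
    rw [PHS.mem_T]
    intro z hz
    rw [phs_c hQ hz]
    exact ht _ (hH' z hz)
  rcases eq_or_ne w 0 with hw | hw
  · -- weight zero
    left
    intro n t ht
    have h1 : ∀ n ≤ N, (phs hQ).T n ≤ fixT H n := by
      intro n hn t ht g hg
      have h2 : tenM (opt Q (a := n) (b := 0) t * TP Q⁻¹ 0) = t := tenM_opt (pol_det hQ) _
      have h3 : IsHom V (opt Q (a := n) (b := 0) t) := hom_of_tensor0 hQ hw (by
        rw [h2]
        exact ht)
      have h4 := fix_of_comm hQ (hH g hg) (hm n hn 0 (Nat.zero_le _) _ h3 g hg)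
      rw [h2] at h4
      exact h4
    exact PB.poly_bound' (phs hQ) (fixP (pol_det hQ) H hH) (psys (phs hQ)) (hle H hcz)
      (fun _ => rfl) h1 (cen_of hQ htr) n ht g hg
  · by_cases hodd : ∀ n ≤ N, ¬ Even n → (phs hQ).T n = ⊥
    · -- there are no tensors of odd degree
      left
      intro n t ht
      have h0 : ∀ n, (phs hQ).T n ≤ (evP (psys (phs hQ))).S n := by
        refine PB.poly_bound' (phs hQ) (evP (psys (phs hQ))) (psys (phs hQ)) (fun n => ?_)
          (fun _ => rfl) (fun n hn => ?_) (cen_of hQ htr)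
        · change (if Even n then (phs hQ).T n else ⊥) ≤ _
          split_ifs
          · exact le_rfl
          · exact bot_le
        · change _ ≤ (if Even n then (phs hQ).T n else ⊥)
          split_ifs with h
          · exact le_rfl
          · rw [hodd n hn h]
      have h1 : ∀ n ≤ N, (phs hQ).T n ≤ fixT H n := by
        intro n hn t ht g hg
        by_cases hev : Even n
        · exact even_fixed hQ hH hm hev (by omega) ht hg
        · rw [hodd n hn hev, Submodule.mem_bot] at ht
          have h2 : cx t = 0 := by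
            rw [ht]
            funext a
            simp [cx]
          rw [h2, map_zero]
      exact PB.poly_bound' (phs hQ) (fixP (pol_det hQ) H hH) (psys (phs hQ)) (hle H hcz)
        (fun _ => rfl) h1 (cen_of hQ htr) n ht g hg
    · -- there is a tensor of odd degree
      push Not at hodd
      obtain ⟨m, hmN, hmo, hmne⟩ := hodd
      obtain ⟨t₀, ht₀, ht₀'⟩ := Submodule.exists_mem_ne_zero_of_ne_bot hmne
      have hc0 := cx_ne ht₀'
      have hsign : ∀ g ∈ H, tpow g m (cx t₀) = cx t₀ ∨ tpow g m (cx t₀) = -cx t₀ := by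
        intro g hg
        have h1 := even_fixed hQ hH hm (n := m + m) ⟨m, rfl⟩ (by omega)
          ((psys (phs hQ)).mul ht₀ ht₀) hg
        rw [cx_tmul, tpow_tmul] at h1
        exact sq_sign hc0 h1
      set H' : Set (Matrix κ κ ℂ) := {g | g ∈ H ∧ tpow g m (cx t₀) = cx t₀} with hH'
      have hiso : ∀ g ∈ H', gᵀ * toField ℂ Q * g = toField ℂ Q := fun g hg => hH g hg.1
      have hcz' : ∀ z, z ≠ 0 → cz V z ∈ H' := by
        intro z hz
        refine ⟨hcz z hz, ?_⟩
        rw [← phs_c hQ hz]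
        exact (PHS.mem_T.1 ht₀) z hz
      have h1 : ∀ n ≤ N, (phs hQ).T n ≤ fixT H' n := by
        intro n hn t ht g hg
        by_cases hev : Even n
        · exact even_fixed hQ hH hm hev (by omega) ht hg.1
        · have h2 := even_fixed hQ hH hm (n := n + m) (by
              rw [Nat.even_add]
              exact ⟨fun h => absurd h hev, fun h => absurd h hmo⟩) (by omega)
            ((psys (phs hQ)).mul ht ht₀) hg.1
          rw [cx_tmul, tpow_tmul, hg.2] at h2
          exact tmul_cancel hc0 h2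
      have h2 : ∀ g ∈ H', Good hQ g := fun g hg n t ht =>
        PB.poly_bound' (phs hQ) (fixP (pol_det hQ) H' hiso) (psys (phs hQ)) (hle H' hcz')
          (fun _ => rfl) h1 (cen_of hQ htr) n ht g hg
      rcases hsign g hg with h3 | h3
      · left
        exact h2 g ⟨hg, h3⟩
      · right
        refine ⟨hw, ?_⟩
        -- the argument for the opposite matrix
        set H'' : Set (Matrix κ κ ℂ) := insert (-g) H' with hH''
        have hneg : ∀ n, ∀ v : (Fin n → κ) → ℂ, tpow (-g) n v = (-1 : ℂ) ^ n • tpow g n v := by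
          intro n v
          funext I
          rw [tpow_apply, Pi.smul_apply, tpow_apply, smul_eq_mul, Finset.mul_sum]
          refine Finset.sum_congr rfl fun J _ => ?_
          have h4 : ∏ k, (-g) (I k) (J k) = (-1 : ℂ) ^ n * ∏ k, g (I k) (J k) := by
            simp only [Matrix.neg_apply]
            rw [Finset.prod_neg, Finset.card_univ, Fintype.card_fin]
          rw [h4, mul_assoc]
        have hiso2 : ∀ x ∈ H'', xᵀ * toField ℂ Q * x = toField ℂ Q := by
          intro x hx
          rcases Set.mem_insert_iff.1 hx with rfl | hx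
          · rw [Matrix.transpose_neg, Matrix.neg_mul, Matrix.neg_mul, Matrix.mul_neg, neg_neg]
            exact hH g hg
          · exact hiso x hx
        have hodd1 : ¬ Even m := hmo
        have h5 : ∀ n ≤ N, (phs hQ).T n ≤ fixT H'' n := by
          intro n hn t ht x hx
          rcases Set.mem_insert_iff.1 hx with rfl | hx
          · by_cases hev : Even n
            · rw [hneg, hev.neg_one_pow, one_smul]
              exact even_fixed hQ hH hm hev (by omega) ht hg
            · have h6 := even_fixed hQ hH hm (n := n + m) (by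
                  rw [Nat.even_add]
                  exact ⟨fun h => absurd h hev, fun h => absurd h hmo⟩) (by omega)
                ((psys (phs hQ)).mul ht ht₀) hg
              rw [cx_tmul, tpow_tmul, h3] at h6
              rw [hneg, (Nat.not_even_iff_odd.1 hev).neg_one_pow]
              apply tmul_cancel hc0
              rw [← h6]
              funext I
              simp [tmul]
          · exact h1 n hn ht x hx
        intro n t ht
        exact PB.poly_bound' (phs hQ) (fixP (pol_det hQ) H'' hiso2) (psys (phs hQ))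
          (hle H'' fun z hz => Set.mem_insert_of_mem _ (hcz' z hz)) (fun _ => rfl) h5
          (cen_of hQ htr) n ht _ (Set.mem_insert _ _)

/-- **A group between the Mumford-Tate group and the group of similitudes which commutes with the
homomorphisms of bounded degree is the Mumford-Tate group.** -/
theorem mt_eq_of (hQ : IsPolarisation V Q) (htr : TotallyRealCentre V Q)
    {G : Set (Matrix κ κ ℂ)} (hG : IsQGroup G) (hV : ∀ z, z ≠ 0 → V.h z ∈ G)
    (hsim : ∀ g ∈ G, ∃ c : ℂ, gᵀ * toField ℂ Q * g = c • toField ℂ Q ∧ (w = 0 → c = 1))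
    (hm : ∀ a ≤ Fintype.card κ ^ 3, ∀ b ≤ Fintype.card κ ^ 3,
      ∀ A : Matrix (Fin a → κ) (Fin b → κ) ℚ, IsHom V A →
      ∀ g ∈ G, TP g a * toField ℂ A = toField ℂ A * TP g b) :
    mumfordTate V.h = G := by
  have hMG : mumfordTate V.h ⊆ G := fun g hg => hg G hG hV
  refine Set.Subset.antisymm hMG fun g hg => ?_
  have hgd : g.det ≠ 0 := by
    obtain ⟨⟨P, hP⟩, -⟩ := hG
    exact ((hP g).1 hg).1
  set H : Set (Matrix κ κ ℂ) := {x | x ∈ G ∧ xᵀ * toField ℂ Q * x = toField ℂ Q} with hH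
  have hcz : ∀ z, z ≠ 0 → cz V z ∈ H := fun z hz => ⟨hMG (cz_mem hQ hz), cz_inv hQ hz⟩
  have key : ∀ x ∈ H, x ∈ mumfordTate V.h := by
    intro x hx
    rcases good_of hQ htr (H := H) (fun x hx => hx.2) hcz
      (fun a ha b hb A hA x hx => hm a ha b hb A hA x hx.1) hx with h | ⟨hw, h⟩
    · exact h.mem hx.2
    · have h1 : -x ∈ mumfordTate V.h := h.mem (by
        rw [Matrix.transpose_neg, Matrix.neg_mul, Matrix.neg_mul, Matrix.mul_neg, neg_neg]
        exact hx.2)
      have h2 := mt_mul (scalar_mem hQ hw (μ := -1) (by norm_num)) h1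
      rw [Matrix.smul_mul, Matrix.one_mul, neg_one_smul, neg_neg] at h2
      exact h2
  obtain ⟨c, hc, hc0⟩ := hsim g hg
  rcases eq_or_ne w 0 with hw | hw
  · rw [hc0 hw, one_smul] at hc
    exact key g ⟨hg, hc⟩
  · rcases isEmpty_or_nonempty κ with hκ | hκ
    · have h1 : g = 1 := by
        ext i
        exact hκ.elim i
      rw [h1]
      exact mt_one
    have hcne : c ≠ 0 := by
      rintro rfl
      have h1 := congrArg Matrix.det hc
      rw [zero_smul, Matrix.det_mul, Matrix.det_mul, Matrix.det_transpose,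
        Matrix.det_zero] at h1
      exact mul_ne_zero (mul_ne_zero hgd (toField_det (pol_det hQ))) hgd h1
    obtain ⟨ν, hν⟩ := IsAlgClosed.exists_pow_nat_eq c⁻¹ (n := 2) two_pos
    have hν0 : ν ≠ 0 := by
      rintro rfl
      rw [zero_pow two_ne_zero] at hν
      exact inv_ne_zero hcne hν.symm
    have h1 : ν • g ∈ H := by
      refine ⟨?_, ?_⟩
      · have h2 := hG.2.2.1 _ (hMG (scalar_mem hQ hw hν0)) g hg
        rwa [Matrix.smul_mul, Matrix.one_mul] at h2
      · rw [Matrix.transpose_smul, Matrix.smul_mul, Matrix.smul_mul, Matrix.mul_smul, smul_smul,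
          hc, smul_smul, ← sq, hν, inv_mul_cancel₀ hcne, one_smul]
    have h2 := mt_mul (scalar_mem hQ hw (inv_ne_zero hν0)) (key _ h1)
    rw [Matrix.smul_mul, Matrix.one_mul, smul_smul, inv_mul_cancel₀ hν0, one_smul] at h2
    exact h2

end Pool.Agent.Q60.GL
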