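import Pool.Agent.Q60.GL.Defs

/-!
# The motivic Galois group in coordinates
-/

set_option autoImplicit false

namespace Pool.Agent.Q60.GL

open MvPolynomial Matrix Kronecker

noncomputable section

variable {κ : Type} [Fintype κ] [DecidableEq κ] {w : ℤ}

/-- The action of a matrix on the tensor power `V ⊗ ... ⊗ V` with `n` factors. -/
def tensorPower {R : Type} [CommRing R] (g : Matrix κ κ R) (n : ℕ) :
    Matrix (Fin n → κ) (Fin n → κ) R :=
  Matrix.of fun I J => ∏ k, g (I k) (J k)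

/-- A homomorphism of the rational Hodge structures `V^(⊗ b) → V^(⊗ a)`. -/
def IsHodgeHom (V : HodgeStructure κ w) {a b : ℕ} (A : Matrix (Fin a → κ) (Fin b → κ) ℚ) : Prop :=
  ∀ z : ℂ, z ≠ 0 → tensorPower (V.h z) a * toField ℂ A = toField ℂ A * tensorPower (V.h z) b

/-- The homomorphisms of Hodge structures `V^(⊗ b) → V^(⊗ a)` for `a, b ≤ N` commute with the group
`G`. If `G` is the motivic Galois group then they are motivated. -/
def HodgeMotivated (V : HodgeStructure κ w) (G : Set (Matrix κ κ ℂ)) (N : ℕ) : Prop :=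
  ∀ a ≤ N, ∀ b ≤ N, ∀ A : Matrix (Fin a → κ) (Fin b → κ) ℚ, IsHodgeHom V A →
    ∀ g ∈ G, tensorPower g a * toField ℂ A = toField ℂ A * tensorPower g b

/-- The points of an algebraic group `G` over `ℚ`, given by its complex points, over a field. -/
def IsPoint {R : Type} [Field R] [Algebra ℚ R] (G : Set (Matrix κ κ ℂ)) (g : Matrix κ κ R) :
    Prop :=
  ∀ f : MvPolynomial (κ × κ) ℚ, (∀ m ∈ G, value m f = 0) → value g f = 0

/-- `H` is a subgroup of finite index of `G`: it is contained in `G`, and `G` is the union of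
finitely many cosets of `H`. -/
def IsFiniteIndexIn (G : Set (Matrix κ κ ℂ)) (H : Subgroup (Matrix κ κ ℂ)ˣ) : Prop :=
  (∀ u ∈ H, (u : Matrix κ κ ℂ) ∈ G) ∧
    ∃ F : Finset (Matrix κ κ ℂ), ∀ g ∈ G, ∃ a ∈ F, ∃ u ∈ H, g = a * (u : Matrix κ κ ℂ)

/-- The complex points of the identity component of `G`: a polynomial which vanishes on a subgroup
of finite index vanishes at these points. -/
def identityComponent (G : Set (Matrix κ κ ℂ)) : Set (Matrix κ κ ℂ) :=
  {g | g.det ≠ 0 ∧ ∀ f : MvPolynomial (κ × κ) ℂ,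
    (∃ H, IsFiniteIndexIn G H ∧ ∀ u ∈ H, value (u : Matrix κ κ ℂ) f = 0) → value g f = 0}

/-- Every endomorphism of the Hodge structure `V ⊗ V` commutes with a subgroup of finite index of
`G`. -/
def HodgeVirtuallyMotivated (V : HodgeStructure κ w) (G : Set (Matrix κ κ ℂ)) : Prop :=
  ∀ A : Matrix (κ × κ) (κ × κ) ℚ, IsHodgeEndSq V A → ∃ H, IsFiniteIndexIn G H ∧
    ∀ u ∈ H, ((u : Matrix κ κ ℂ) ⊗ₖ (u : Matrix κ κ ℂ)) * toField ℂ A =
      toField ℂ A * ((u : Matrix κ κ ℂ) ⊗ₖ (u : Matrix κ κ ℂ))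

variable {ℓ : ℕ} [Fact ℓ.Prime] {Γ : Type} [Group Γ]

/-- The properties of the motivic Galois group `G` of a polarised pure motive with the Hodge
realisation `V` and the `ℓ`-adic realisation `ρ`: it is an algebraic group over `ℚ` of similitudes of
the polarisation which contains the image of `ℂ^×` and, over `ℚ_ℓ`, the image of a subgroup of finite
index of `Γ`. -/
structure IsMotivicGroup (V : HodgeStructure κ w) (Q : Matrix κ κ ℚ)
    (ρ : Γ →* Matrix κ κ ℚ_[ℓ]) (G : Set (Matrix κ κ ℂ)) : Prop where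
  group : IsQGroup G
  hodge : ∀ z : ℂ, z ≠ 0 → V.h z ∈ G
  sim : ∀ g ∈ G, ∃ c : ℂ, gᵀ * toField ℂ Q * g = c • toField ℂ Q ∧ (w = 0 → c = 1)
  galois : ∃ Δ : Subgroup Γ, Δ.FiniteIndex ∧ ∀ s ∈ Δ, IsPoint G (ρ s)

/-- The identity component of the algebraic monodromy group is the group `G` over `ℚ_ℓ`. -/
def MonodromyIs (ρ : Γ →* Matrix κ κ ℚ_[ℓ]) (G : Set (Matrix κ κ ℂ)) : Prop :=
  ∀ g : Matrix κ κ (AlgebraicClosure ℚ_[ℓ]), g.det ≠ 0 → (InMonodromy ρ g ↔ IsPoint G g)

end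

end Pool.Agent.Q60.GL
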