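import Pool.Agent.Q60.GL.Mot2
import Pool.Agent.Q60.GL.MotDefs
import Pool.Agent.Q60.GL.Final

/-!
# The identity component of a group which contains the Mumford-Tate group
-/

set_option linter.unusedSectionVars false

namespace Pool.Agent.Q60.GL

open MvPolynomial Module Matrix Kronecker Pool.Agent.Q60.ED Pool.Agent.Q60.FI Pool.Agent.Q60.TD
  Pool.Agent.Q60.NP Pool.Agent.Q60.MV Pool.Agent.Q60.CJ Pool.Agent.Q60.TP

variable {κ : Type} [Fintype κ] [DecidableEq κ] {w : ℤ} {V : HodgeStructure κ w}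
  {Q : Matrix κ κ ℚ} {G : Set (Matrix κ κ ℂ)}

/-- The group as a subgroup of the group of invertible matrices. -/
def uG (hG : IsQGroup G) : Subgroup (Matrix κ κ ℂ)ˣ where
  carrier := {u | (u : Matrix κ κ ℂ) ∈ G}
  mul_mem' {a b} ha hb := by
    rw [Set.mem_ofPred_eq, Units.val_mul]
    exact hG.2.2.1 _ ha _ hb
  one_mem' := hG.2.1
  inv_mem' {a} ha := by
    rw [Set.mem_ofPred_eq, Matrix.coe_units_inv]
    exact hG.2.2.2 _ ha

/-- The tautological representation. -/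
def rG (hG : IsQGroup G) : uG hG →* Matrix κ κ ℂ :=
  (Units.coeHom (Matrix κ κ ℂ)).comp (uG hG).subtype

lemma rG_apply (hG : IsQGroup G) (u : uG hG) : rG hG u = ((u : (Matrix κ κ ℂ)ˣ) : Matrix κ κ ℂ) :=
  rfl

lemma exists_unit (hG : IsQGroup G) {g : Matrix κ κ ℂ} (hg : g ∈ G) :
    ∃ u : uG hG, rG hG u = g := by
  have hd : g.det ≠ 0 := by
    obtain ⟨⟨P, hP⟩, -⟩ := hG
    exact ((hP g).1 hg).1
  exact ⟨⟨Matrix.nonsingInvUnit g (isUnit_iff_ne_zero.2 hd), hg⟩, rfl⟩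

/-- Subgroups of finite index. -/
lemma fin_iff (hG : IsQGroup G) (p : Matrix κ κ ℂ → Prop) :
    (∃ H, IsFiniteIndexIn G H ∧ ∀ u ∈ H, p (u : Matrix κ κ ℂ)) ↔
      ∃ Δ : Subgroup (uG hG), Δ.FiniteIndex ∧ ∀ s ∈ Δ, p (rG hG s) := by
  classical
  constructor
  · rintro ⟨H, ⟨hH, F, hF⟩, hp⟩
    refine ⟨H.subgroupOf (uG hG), ?_, fun s hs => hp _ hs⟩
    have h1 : ∀ q : uG hG ⧸ H.subgroupOf (uG hG), ∃ a ∈ F, ∃ s : uG hG,
        rG hG s = a ∧ (s : uG hG ⧸ H.subgroupOf (uG hG)) = q := by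
      intro q
      obtain ⟨g, rfl⟩ := QuotientGroup.mk_surjective q
      obtain ⟨a, ha, u, hu, h1⟩ := hF _ g.2
      have hu' : u ∈ uG hG := hH u hu
      refine ⟨a, ha, g * ⟨u, hu'⟩⁻¹, ?_, ?_⟩
      · rw [rG_apply, Subgroup.coe_mul, Units.val_mul, h1, Subgroup.coe_inv, Matrix.mul_assoc,
          ← Units.val_mul]
        change a * ((u * u⁻¹ : (Matrix κ κ ℂ)ˣ) : Matrix κ κ ℂ) = a
        rw [mul_inv_cancel, Units.val_one, Matrix.mul_one]
      · symm
        rw [QuotientGroup.eq, Subgroup.mem_subgroupOf]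
        have h2 : ((g⁻¹ * (g * ⟨u, hu'⟩⁻¹) : uG hG) : (Matrix κ κ ℂ)ˣ) = u⁻¹ := by
          rw [inv_mul_cancel_left]
          rfl
        rw [h2]
        exact H.inv_mem hu
    have h2 : Finite (uG hG ⧸ H.subgroupOf (uG hG)) := by
      choose f hf s hs hs' using h1
      refine Finite.of_injective (fun q => (⟨f q, hf q⟩ : F)) fun q q' hqq => ?_
      have h3 : f q = f q' := congrArg Subtype.val hqq
      have h4 : s q = s q' := by
        apply Subtype.ext
        apply Units.ext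
        have h5 : rG hG (s q) = rG hG (s q') := by rw [hs, hs, h3]
        exact h5
      rw [← hs' q, ← hs' q', h4]
    exact Subgroup.finiteIndex_of_finite_quotient
  · rintro ⟨Δ, hΔ, hp⟩
    have hfin : Finite (uG hG ⧸ Δ) := inferInstance
    have hft : Fintype (uG hG ⧸ Δ) := Fintype.ofFinite _
    refine ⟨Δ.map (uG hG).subtype, ⟨?_, Finset.univ.image fun q : uG hG ⧸ Δ => rG hG q.out,
      fun g hg => ?_⟩, ?_⟩
    · rintro _ ⟨s, _, rfl⟩
      exact s.2
    · obtain ⟨u, rfl⟩ := exists_unit hG hg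
      refine ⟨_, Finset.mem_image_of_mem _ (Finset.mem_univ (u : uG hG ⧸ Δ)),
        (((u : uG hG ⧸ Δ).out⁻¹ * u : uG hG) : (Matrix κ κ ℂ)ˣ), ?_, ?_⟩
      · refine ⟨(u : uG hG ⧸ Δ).out⁻¹ * u, ?_, rfl⟩
        rw [SetLike.mem_coe, ← QuotientGroup.eq, QuotientGroup.out_eq']
      · have h1 : rG hG u = rG hG (u : uG hG ⧸ Δ).out * rG hG ((u : uG hG ⧸ Δ).out⁻¹ * u) := by
          rw [← map_mul, mul_inv_cancel_left]
        exact h1
    · rintro _ ⟨s, hs, rfl⟩
      exact hp s hs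

/-- The identity component. -/
lemma mem_idc (hG : IsQGroup G) {g : Matrix κ κ ℂ} :
    g ∈ identityComponent G ↔ g.det ≠ 0 ∧ InMon (L := ℂ) (rG hG) g := by
  refine and_congr_right fun _ => forall_congr' fun f => ?_
  rw [fin_iff hG fun u => value u f = 0]
  exact Iff.rfl

/-- Divisible elements belong to all subgroups of finite index. -/
lemma mem_of_pow {Γ : Type*} [Group Γ] {Δ : Subgroup Γ} (hΔ : Δ.FiniteIndex) {s : Γ}
    (h : ∀ n : ℕ, n ≠ 0 → ∃ t : Γ, t ^ n = s) : s ∈ Δ := by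
  obtain ⟨t, ht⟩ := h Δ.normalCore.index Subgroup.FiniteIndex.index_ne_zero
  rw [← ht]
  exact Δ.normalCore_le (Subgroup.pow_index_mem Δ.normalCore t)

/-- The exponentials which belong to the group belong to the identity component. -/
lemma ex_inMon (hG : IsQGroup G) {Z : Matrix κ κ ℂ} (h : ∀ t, ex Z t ∈ G) (t : ℂ) :
    InMon (L := ℂ) (rG hG) (ex Z t) := by
  rintro f ⟨Δ, hΔ, hf⟩
  obtain ⟨u, hu⟩ := exists_unit hG (h t)
  have h1 : u ∈ Δ := by
    refine mem_of_pow hΔ fun n hn => ?_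
    obtain ⟨v, hv⟩ := exists_unit hG (h (t / n))
    refine ⟨v, ?_⟩
    apply Subtype.ext
    apply Units.ext
    have h2 : rG hG (v ^ n) = rG hG u := by
      rw [map_pow, hv, hu, ex_pow, mul_div_cancel₀ t (Nat.cast_ne_zero.2 hn)]
    exact h2
  have h2 := hf u h1
  have h3 : (rG hG u).map (algebraMap ℂ ℂ) = ex Z t := by
    rw [hu]
    ext i j
    rfl
  rwa [h3] at h2

lemma gx_refl (Z : Matrix κ κ ℂ) (t : ℂ) :
    gx (RingEquiv.refl ℂ) (Z.map (algebraMap ℂ ℂ)) t = ex Z t := by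
  have h1 : (gx (RingEquiv.refl ℂ) (Z.map (algebraMap ℂ ℂ)) t).map (RingEquiv.refl ℂ) =
      ex ((Z.map (algebraMap ℂ ℂ)).map (RingEquiv.refl ℂ)) t := gx_map _ _ _
  have h2 : ∀ M : Matrix κ κ ℂ, M.map (RingEquiv.refl ℂ) = M := fun M => by
    ext i j
    rfl
  rw [h2, h2] at h1
  have h3 : Z.map (algebraMap ℂ ℂ) = Z := by
    ext i j
    rfl
  rw [h3] at h1 ⊢
  exact h1

/-- The Mumford-Tate group is contained in the identity component. -/
theorem mt_le_idc (hQ : IsPolarisation V Q) (hG : IsQGroup G) (hV : ∀ z, z ≠ 0 → V.h z ∈ G) :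
    mumfordTate V.h ⊆ identityComponent G := by
  have hMG : mumfordTate V.h ⊆ G := fun g hg => hg G hG hV
  have hdet : ∀ z, z ≠ 0 → (V.h z).det ≠ 0 := fun z hz => h_det V hz
  have key : ∀ Z : Matrix κ κ ℂ, (∀ (a b : ℕ) (A : Matrix (Fin a → κ) (Fin b → κ) ℚ),
      IsHom V A → am Z a * toField ℂ A = toField ℂ A * am Z b) → Z ∈ LG (rG hG) := by
    intro Z hZ
    refine mem_LG_of_gx (L := ℂ) (RingEquiv.refl ℂ) fun t => ?_
    rw [gx_refl]
    refine ex_inMon hG (fun t => hMG ?_) t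
    rw [mem_mt hdet]
    have h1 := inMT_gx (RingEquiv.refl ℂ) hQ (z := Z.map (algebraMap ℂ ℂ)) (fun a b A hA => by
      have h3 : Z.map (algebraMap ℂ ℂ) = Z := by
        ext i j
        rfl
      rw [h3]
      exact hZ a b A hA) t
    rw [gx_refl] at h1
    exact ⟨ex_det Z t, h1⟩
  intro g hg
  rw [mem_idc hG]
  refine ⟨mt_det hdet hg, ?_⟩
  refine mt_le_of (K := ℂ) (L := ℂ) hQ (fun hw => key 1 fun a b A hA => ?_)
    (fun B hB => key B fun a b A hA => comm_of_kill hQ (HL_skew hQ hB) hB hA)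
    ((mem_mt hdet).1 hg).2
  by_cases hab : a = b
  · subst hab
    rw [am_one, Matrix.smul_mul, Matrix.mul_smul, Matrix.one_mul, Matrix.mul_one]
  · rw [hom_eq_zero hw hab hA]
    have h6 : toField ℂ (0 : Matrix (Fin a → κ) (Fin b → κ) ℚ) = 0 :=
      Matrix.map_zero _ (map_zero _)
    rw [h6, Matrix.mul_zero, Matrix.zero_mul]

/-- **The Mumford-Tate group is the identity component if and only if the endomorphisms of the
square of the Hodge structure commute with a subgroup of finite index.** -/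
theorem idc_iff (hQ : IsPolarisation V Q) (htr : TotallyRealCentre V Q) (hG : IsQGroup G)
    (hV : ∀ z, z ≠ 0 → V.h z ∈ G)
    (hsim : ∀ g ∈ G, ∃ c : ℂ, gᵀ * toField ℂ Q * g = c • toField ℂ Q ∧ (w = 0 → c = 1)) :
    mumfordTate V.h = identityComponent G ↔ HodgeVirtuallyMotivated V G := by
  have hdet : ∀ z, z ≠ 0 → (V.h z).det ≠ 0 := fun z hz => h_det V hz
  have hS : SimK w Q (rG hG) := fun s => hsim _ s.2
  have h1 : HodgeVirtuallyMotivated V G ↔ HTK V (rG hG) := by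
    constructor
    · intro h M hM
      obtain ⟨A, rfl⟩ := sb_surj M
      obtain ⟨Δ, hΔ, h2⟩ := (fin_iff hG fun u => (u ⊗ₖ u) * toField ℂ A =
        toField ℂ A * (u ⊗ₖ u)).1 (h A (hodge_iff.2 hM))
      refine ⟨Δ, hΔ, fun s hs => ?_⟩
      rw [← sb_toField]
      exact sb_comm.1 (h2 s hs)
    · intro h A hA
      obtain ⟨Δ, hΔ, h2⟩ := h _ (hodge_iff.1 hA)
      refine (fin_iff hG fun u => (u ⊗ₖ u) * toField ℂ A =
        toField ℂ A * (u ⊗ₖ u)).2 ⟨Δ, hΔ, fun s hs => ?_⟩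
      refine sb_comm.2 ?_
      rw [sb_toField]
      exact h2 s hs
  rw [h1]
  constructor
  · intro h
    refine ht_of_monIn (L := ℂ) fun g hgd hg => ?_
    have h2 : g ∈ identityComponent G := (mem_idc hG).2 ⟨hgd, hg⟩
    rw [← h] at h2
    exact ((mem_mt hdet).1 h2).2
  · intro h
    refine Set.Subset.antisymm (mt_le_idc hQ hG hV) fun g hg => ?_
    obtain ⟨hgd, hg⟩ := (mem_idc hG).1 hg
    rw [mem_mt hdet]
    exact ⟨hgd, monIn_of (K := ℂ) (L := ℂ) hQ hS htr h g hgd hg⟩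

end Pool.Agent.Q60.GL
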