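import Pool.Agent.Q60.GL.Mot3

/-!
# The motivic Galois group, the Mumford-Tate group and the monodromy group: the main theorem
-/

set_option linter.unusedSectionVars false

namespace Pool.Agent.Q60.GL

open MvPolynomial Module Matrix Kronecker Pool.Agent.Q60.ED Pool.Agent.Q60.FI Pool.Agent.Q60.TD
  Pool.Agent.Q60.NP Pool.Agent.Q60.MV Pool.Agent.Q60.CJ Pool.Agent.Q60.TP

variable {κ : Type} [Fintype κ] [DecidableEq κ] {w : ℤ} {V : HodgeStructure κ w}
  {Q : Matrix κ κ ℚ} {ℓ : ℕ} [Fact ℓ.Prime] {Γ : Type} [Group Γ] {ρ : Γ →* Matrix κ κ ℚ_[ℓ]}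
  {G : Set (Matrix κ κ ℂ)}

/-- **The Mumford-Tate group is the motivic Galois group.** -/
theorem first_iff (hQ : IsPolarisation V Q) (hG : IsMotivicGroup V Q ρ G)
    (htr : TotallyRealCentre V Q) :
    mumfordTate V.h = G ↔ HodgeMotivated V G (Fintype.card κ ^ 3) := by
  constructor
  · rintro rfl a _ b _ A hA g hg
    exact mt_comm (fun z hz => h_det V hz) hA hg
  · intro h
    exact mt_eq_of hQ htr hG.group hG.hodge hG.sim h

/-- Hodge endomorphisms which commute with a subgroup of finite index of the group are Tate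
endomorphisms. -/
theorem ht_of_virt (hG : IsMotivicGroup V Q ρ G) (h : HodgeVirtuallyMotivated V G) :
    HodgeIsTate V ρ := by
  classical
  obtain ⟨τ⟩ := exists_iso ℓ
  obtain ⟨Δ, hΔ, hs⟩ := hG.galois
  intro A hA
  obtain ⟨H, ⟨hH, F, hF⟩, hHA⟩ := h A hA
  let σ : ℚ_[ℓ] →+* ℂ := (τ : AlgebraicClosure ℚ_[ℓ] →+* ℂ).comp (algebraMap _ _)
  have hσ : ∀ a : ℚ, σ (algebraMap ℚ ℚ_[ℓ] a) = algebraMap ℚ ℂ a := fun a => by simp
  have hσA : (toField ℚ_[ℓ] A).map σ = toField ℂ A := by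
    ext i j
    exact hσ _
  let r : Γ →* Matrix κ κ ℂ :=
    { toFun := fun s => (ρ s).map σ
      map_one' := by
        rw [map_one]
        exact Matrix.map_one _ (map_zero _) (map_one _)
      map_mul' := fun a b => by
        rw [map_mul]
        exact Matrix.map_mul }
  have hr : ∀ s, r s = (ρ s).map σ := fun _ => rfl
  have hrG : ∀ s ∈ Δ, r s ∈ G := by
    intro s hsΔ
    obtain ⟨⟨P, hP⟩, -⟩ := hG.group
    rw [hr, hP]
    refine ⟨det_map_ne σ (rho_det (ρ := ρ) s), fun f hf => ?_⟩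
    rw [value_mapL σ hσ, hs s hsΔ f fun m hm => ((hP m).1 hm).2 f hf, map_zero]
  -- the subgroup
  let C : Subgroup Γ :=
    { carrier := {s | ((r s) ⊗ₖ (r s)) * toField ℂ A = toField ℂ A * ((r s) ⊗ₖ (r s))}
      one_mem' := by
        rw [Set.mem_ofPred_eq, map_one, Matrix.one_kronecker_one, Matrix.one_mul, Matrix.mul_one]
      mul_mem' := fun {a b} ha hb => by
        rw [Set.mem_ofPred_eq] at ha hb ⊢
        rw [map_mul, Matrix.mul_kronecker_mul, Matrix.mul_assoc, hb, ← Matrix.mul_assoc, ha,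
          Matrix.mul_assoc]
      inv_mem' := fun {a} ha => by
        rw [Set.mem_ofPred_eq] at ha ⊢
        have h1 : ((r a⁻¹) ⊗ₖ (r a⁻¹)) * ((r a) ⊗ₖ (r a)) = 1 := by
          rw [← Matrix.mul_kronecker_mul, ← map_mul, inv_mul_cancel, map_one,
            Matrix.one_kronecker_one]
        have h2 : ((r a) ⊗ₖ (r a)) * ((r a⁻¹) ⊗ₖ (r a⁻¹)) = 1 := by
          rw [← Matrix.mul_kronecker_mul, ← map_mul, mul_inv_cancel, map_one,
            Matrix.one_kronecker_one]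
        calc ((r a⁻¹) ⊗ₖ (r a⁻¹)) * toField ℂ A
            = ((r a⁻¹) ⊗ₖ (r a⁻¹)) * (toField ℂ A * ((r a) ⊗ₖ (r a))) *
                ((r a⁻¹) ⊗ₖ (r a⁻¹)) := by
              rw [Matrix.mul_assoc, Matrix.mul_assoc, h2, Matrix.mul_one]
          _ = ((r a⁻¹) ⊗ₖ (r a⁻¹)) * (((r a) ⊗ₖ (r a)) * toField ℂ A) *
                ((r a⁻¹) ⊗ₖ (r a⁻¹)) := by rw [ha]
          _ = _ := by rw [← Matrix.mul_assoc, h1, Matrix.one_mul] }
  have hC : ∀ s, s ∈ C ↔ ((r s) ⊗ₖ (r s)) * toField ℂ A = toField ℂ A * ((r s) ⊗ₖ (r s)) :=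
    fun _ => Iff.rfl
  have hrel : C.relIndex Δ ≠ 0 := by
    have h1 : ∀ q : Δ ⧸ C.subgroupOf Δ, ∃ a ∈ F, ∃ s : Δ, (∃ u ∈ H, r s = a * (u : Matrix κ κ ℂ)) ∧
        (s : Δ ⧸ C.subgroupOf Δ) = q := by
      intro q
      obtain ⟨s, rfl⟩ := QuotientGroup.mk_surjective q
      obtain ⟨a, ha, u, hu, h1⟩ := hF _ (hrG s s.2)
      exact ⟨a, ha, s, ⟨u, hu, h1⟩, rfl⟩
    choose f hf s hs hs' using h1
    have h2 : Finite (Δ ⧸ C.subgroupOf Δ) := by
      refine Finite.of_injective (fun q => (⟨f q, hf q⟩ : F)) fun q q' hqq => ?_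
      have h3 : f q = f q' := congrArg Subtype.val hqq
      rw [← hs' q, ← hs' q', QuotientGroup.eq, Subgroup.mem_subgroupOf]
      obtain ⟨u, hu, h4⟩ := hs q
      obtain ⟨u', hu', h5⟩ := hs q'
      rw [hC]
      have h6 : r (((s q)⁻¹ * s q' : Δ) : Γ) = ((u⁻¹ * u' : (Matrix κ κ ℂ)ˣ) : Matrix κ κ ℂ) := by
        have h7 : r ((s q : Δ) : Γ) * r (((s q)⁻¹ * s q' : Δ) : Γ) = r ((s q' : Δ) : Γ) := by
          rw [← map_mul]
          congr 1
          push_cast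
          group
        have h8 : r ((s q : Δ) : Γ) * ((u⁻¹ * u' : (Matrix κ κ ℂ)ˣ) : Matrix κ κ ℂ) =
            r ((s q' : Δ) : Γ) := by
          rw [h4, h5, h3, Matrix.mul_assoc, ← Units.val_mul, mul_inv_cancel_left]
        have h9 : r (((s q : Δ) : Γ)⁻¹) * r ((s q : Δ) : Γ) = 1 := by
          rw [← map_mul, inv_mul_cancel, map_one]
        have h10 := congrArg (fun M => r (((s q : Δ) : Γ)⁻¹) * M) (h7.trans h8.symm)
        simp only [← Matrix.mul_assoc, h9, Matrix.one_mul] at h10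
        exact h10
      rw [h6]
      exact hHA _ (H.mul_mem (H.inv_mem hu) hu')
    have h3 : (C.subgroupOf Δ).FiniteIndex := Subgroup.finiteIndex_of_finite_quotient
    exact h3.index_ne_zero
  refine ⟨C ⊓ Δ, ⟨?_⟩, fun s hs => ?_⟩
  · have h1 := Subgroup.relIndex_mul_index (H := C ⊓ Δ) (K := Δ) inf_le_right
    rw [Subgroup.inf_relIndex_right] at h1
    rw [← h1]
    exact mul_ne_zero hrel hΔ.index_ne_zero
  · have h1 := (hC s).1 hs.1
    have h2 : (((ρ s) ⊗ₖ (ρ s)) * toField ℚ_[ℓ] A).map σ =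
        (toField ℚ_[ℓ] A * ((ρ s) ⊗ₖ (ρ s))).map σ := by
      have h3 : ((ρ s) ⊗ₖ (ρ s)).map σ = (r s) ⊗ₖ (r s) := by
        ext i j
        exact map_mul σ _ _
      rw [Matrix.map_mul, Matrix.map_mul, h3, hσA]
      exact h1
    exact Matrix.map_injective σ.injective h2

variable (hQ : IsPolarisation V Q) (hρ : Similitudes w Q ρ) (hpure : w ≠ 0 → HasPureElement ρ)
  (hG : IsMotivicGroup V Q ρ G) (htr : TotallyRealCentre V Q)

include hQ hρ hpure hG htr

/-- **The three groups agree.** -/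
theorem three_iff : (mumfordTate V.h = G ∧ MonodromyIs ρ G) ↔
    Semisimple ρ ∧ TateIsHodge V ρ ∧ HodgeMotivated V G (Fintype.card κ ^ 3) := by
  constructor
  · rintro ⟨h1, h2⟩
    have h3 : MumfordTateConjecture V.h ρ := by
      intro g hg
      rw [h2 g hg, ← h1]
      exact Iff.rfl
    obtain ⟨hss, -, hT⟩ := (mtc_tr_iff hQ hρ hpure htr).1 h3
    exact ⟨hss, hT, (first_iff hQ hG htr).1 h1⟩
  · rintro ⟨hss, hT, hM⟩
    have h1 := (first_iff hQ hG htr).2 hM
    have h2 : HodgeIsTate V ρ := by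
      rw [ht_iff]
      intro A hA
      obtain ⟨Δ, hΔ, hs⟩ := hG.galois
      refine ⟨Δ, hΔ, fun s hsΔ => ?_⟩
      have h3 : InMumfordTate V.h (ρ s) := by
        intro f hf
        refine hs s hsΔ f ?_
        rw [← h1]
        exact hf
      exact comm_of_inMT h3 hA
    refine ⟨h1, fun g hg => ?_⟩
    have h3 := (mtc_tr_iff hQ hρ hpure htr).2 ⟨hss, h2, hT⟩ g hg
    rw [h3, ← h1]
    exact Iff.rfl

/-- **The identity components agree.** -/
theorem three_idc_iff :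
    (mumfordTate V.h = identityComponent G ∧ MonodromyIs ρ (identityComponent G)) ↔
      Semisimple ρ ∧ TateIsHodge V ρ ∧ HodgeVirtuallyMotivated V G := by
  constructor
  · rintro ⟨h1, h2⟩
    have h3 : MumfordTateConjecture V.h ρ := by
      intro g hg
      rw [h2 g hg, ← h1]
      exact Iff.rfl
    obtain ⟨hss, -, hT⟩ := (mtc_tr_iff hQ hρ hpure htr).1 h3
    exact ⟨hss, hT, (idc_iff hQ htr hG.group hG.hodge hG.sim).1 h1⟩
  · rintro ⟨hss, hT, hM⟩
    have h1 := (idc_iff hQ htr hG.group hG.hodge hG.sim).2 hM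
    refine ⟨h1, fun g hg => ?_⟩
    have h3 := (mtc_tr_iff hQ hρ hpure htr).2 ⟨hss, ht_of_virt hG hM, hT⟩ g hg
    rw [h3, ← h1]
    exact Iff.rfl

end Pool.Agent.Q60.GL
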