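import Pool.Agent.Q60.GL.Defs
import Pool.Agent.Q60.GL.Dens
import Pool.Agent.W437.HD.Fixed

/-!
# The Mumford-Tate group is defined by the homomorphisms of Hodge structures
-/

set_option linter.unusedSectionVars false

namespace Pool.Agent.Q60.GL

open MvPolynomial Module Matrix Pool.Agent.Q60.ED Pool.Agent.Q60.FI Pool.Agent.Q60.TD
  Pool.Agent.W437.HD

section value

variable {K L : Type} [Field K] [Field L] [Algebra K L] {κ : Type} [Fintype κ] [DecidableEq κ]

lemma value_self (g : Matrix κ κ K) (f : MvPolynomial (κ × κ) K) : value g f = evM g f := rfl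

lemma value_eq (g : Matrix κ κ L) (f : MvPolynomial (κ × κ) K) :
    value g f = evM g (MvPolynomial.map (algebraMap K L) f) := by
  rw [value, evM, MvPolynomial.aeval_map_algebraMap]

lemma value_mapL {M : Type} [Field M] [Algebra K M] (σ : L →+* M)
    (hσ : ∀ a : K, σ (algebraMap K L a) = algebraMap K M a)
    (g : Matrix κ κ L) (f : MvPolynomial (κ × κ) K) : value (g.map σ) f = σ (value g f) := by
  rw [value, value, MvPolynomial.aeval_def, MvPolynomial.aeval_def, MvPolynomial.hom_eval₂]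
  congr 1
  ext a
  exact (hσ a).symm

lemma map_mon {n : ℕ} (I J : Fin n → κ) :
    MvPolynomial.map (algebraMap K L) (mon I J) = mon I J := by
  rw [mon, mon, map_prod]
  exact Finset.prod_congr rfl fun k _ => map_X _ _

lemma value_pc (g : Matrix κ κ L) (d : ℕ) (c : Matrix (Bd κ d) (Bd κ d) K) :
    value g (pc d c) = fn (c.map (algebraMap K L)) (TT d g) := by
  rw [value_eq, ← evM_pc]
  congr 1
  rw [pc, pc, map_sum]
  refine Finset.sum_congr rfl fun k _ => ?_
  rw [map_sum]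
  refine Finset.sum_congr rfl fun I _ => ?_
  rw [map_sum]
  refine Finset.sum_congr rfl fun J _ => ?_
  rw [map_mul, map_C, map_mon]
  rfl

lemma value_FM {a b : ℕ} (g : Matrix κ κ L) (M : Matrix (Fin a → κ) (Fin b → κ) K)
    (p : (Fin a → κ) × (Fin b → κ)) : value g (FM M p) =
      (TP g a * M.map (algebraMap K L) - M.map (algebraMap K L) * TP g b) p.1 p.2 := by
  rw [value_eq, ← evM_FM]
  congr 1
  rw [FM, FM, map_sub, xt, xt, map_sum, map_sum]
  congr 1
  · refine Finset.sum_congr rfl fun J _ => ?_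
    rw [map_mul, map_C, map_mon]
    rfl
  · refine Finset.sum_congr rfl fun J _ => ?_
    rw [map_mul, map_C, map_mon]
    rfl

/-- The transposed polynomial for the adjunction of a form. -/
noncomputable def adjP (Q R : Matrix κ κ K) : MvPolynomial (κ × κ) K →ₐ[K] MvPolynomial (κ × κ) K :=
  aeval fun p => ∑ a, ∑ b, C (R p.1 a) * X (b, a) * C (Q b p.2)

lemma value_adjP (Q R : Matrix κ κ K) (g : Matrix κ κ L) (f : MvPolynomial (κ × κ) K) :
    value g (adjP Q R f) =
      value (R.map (algebraMap K L) * gᵀ * Q.map (algebraMap K L)) f := by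
  have h1 : (aeval (fun q : κ × κ => g q.1 q.2) : MvPolynomial (κ × κ) K →ₐ[K] L).comp (adjP Q R) =
      aeval fun q : κ × κ => (R.map (algebraMap K L) * gᵀ * Q.map (algebraMap K L)) q.1 q.2 := by
    refine MvPolynomial.algHom_ext fun p => ?_
    rw [AlgHom.comp_apply, adjP, aeval_X, aeval_X, map_sum, Matrix.mul_assoc, Matrix.mul_apply]
    refine Finset.sum_congr rfl fun a _ => ?_
    rw [map_sum, Matrix.mul_apply, Finset.mul_sum]
    refine Finset.sum_congr rfl fun b _ => ?_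
    rw [map_mul, map_mul, aeval_X, aeval_C, aeval_C, mul_assoc]
    rfl
  exact DFunLike.congr_fun h1 f

end value

section group

variable {κ : Type} [Fintype κ] [DecidableEq κ] {h : ℂ → Matrix κ κ ℂ}

lemma mt_det (hdet : ∀ z, z ≠ 0 → (h z).det ≠ 0) {m : Matrix κ κ ℂ} (hm : m ∈ mumfordTate h) :
    m.det ≠ 0 := by
  refine hm {g | g.det ≠ 0} ⟨⟨∅, fun g => by simp⟩, by simp, fun a ha b hb => ?_, fun a ha => ?_⟩
    hdet
  · rw [Set.mem_ofPred_eq, Matrix.det_mul]
    exact mul_ne_zero ha hb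
  · rw [Set.mem_ofPred_eq, Matrix.det_nonsing_inv, Ring.inverse_eq_inv']
    exact inv_ne_zero ha

lemma h_mem_mt {z : ℂ} (hz : z ≠ 0) : h z ∈ mumfordTate h := fun _ _ hG => hG z hz

lemma mt_one : (1 : Matrix κ κ ℂ) ∈ mumfordTate h := fun _ hG _ => hG.2.1

lemma mt_mul {a b : Matrix κ κ ℂ} (ha : a ∈ mumfordTate h) (hb : b ∈ mumfordTate h) :
    a * b ∈ mumfordTate h := fun G hG hh => hG.2.2.1 a (ha G hG hh) b (hb G hG hh)

lemma mt_inv {a : Matrix κ κ ℂ} (ha : a ∈ mumfordTate h) : a⁻¹ ∈ mumfordTate h :=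
  fun G hG hh => hG.2.2.2 a (ha G hG hh)

/-- The Mumford-Tate group is the zero set of its rational equations. -/
lemma mem_mt (hdet : ∀ z, z ≠ 0 → (h z).det ≠ 0) {m : Matrix κ κ ℂ} :
    m ∈ mumfordTate h ↔ m.det ≠ 0 ∧
      ∀ f : MvPolynomial (κ × κ) ℚ, (∀ x ∈ mumfordTate h, value x f = 0) → value m f = 0 := by
  constructor
  · intro hm
    exact ⟨mt_det hdet hm, fun f hf => hf m hm⟩
  · rintro ⟨h1, h2⟩ G hG hh
    obtain ⟨⟨P, hP⟩, h3⟩ := hG
    rw [hP]
    exact ⟨h1, fun f hf => h2 f fun x hx => ((hP x).1 (hx G ⟨⟨P, hP⟩, h3⟩ hh)).2 f hf⟩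

lemma mt_isQGroup (hdet : ∀ z, z ≠ 0 → (h z).det ≠ 0) : IsQGroup (mumfordTate h) :=
  ⟨⟨{f | ∀ x ∈ mumfordTate h, value x f = 0}, fun _ => mem_mt hdet⟩, mt_one,
    fun _ ha _ hb => mt_mul ha hb, fun _ ha => mt_inv ha⟩

lemma det_map_ne {L M : Type} [Field L] [Field M] (σ : L →+* M) {g : Matrix κ κ L}
    (hg : g.det ≠ 0) : (g.map σ).det ≠ 0 := by
  have h1 : (g.map σ).det = σ g.det := (RingHom.map_det σ g).symm
  rw [h1]
  exact (map_ne_zero σ).2 hg

/-- The Mumford-Tate group is stable under the automorphisms of the field of complex numbers. -/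
lemma mt_aut (hdet : ∀ z, z ≠ 0 → (h z).det ≠ 0) (σ : ℂ ≃+* ℂ) {m : Matrix κ κ ℂ}
    (hm : m ∈ mumfordTate h) : m.map σ ∈ mumfordTate h := by
  rw [mem_mt hdet]
  refine ⟨det_map_ne (σ : ℂ →+* ℂ) (mt_det hdet hm), fun f hf => ?_⟩
  have h1 := value_mapL (σ : ℂ →+* ℂ) (fun a => by simp) m f
  rw [hf m hm, map_zero] at h1
  exact h1

/-- Homomorphisms of Hodge structures commute with the Mumford-Tate group. -/
lemma mt_comm (hdet : ∀ z, z ≠ 0 → (h z).det ≠ 0) {a b : ℕ}
    {A : Matrix (Fin a → κ) (Fin b → κ) ℚ}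
    (hA : ∀ z, z ≠ 0 → TP (h z) a * toField ℂ A = toField ℂ A * TP (h z) b) {m : Matrix κ κ ℂ}
    (hm : m ∈ mumfordTate h) : TP m a * toField ℂ A = toField ℂ A * TP m b := by
  have hG : IsQGroup {g : Matrix κ κ ℂ | g.det ≠ 0 ∧
      TP g a * toField ℂ A = toField ℂ A * TP g b} := by
    refine ⟨⟨Set.range (FM A), fun g => ?_⟩, ?_, ?_, ?_⟩
    · rw [Set.mem_ofPred_eq]
      refine and_congr_right fun _ => ?_
      constructor
      · rintro h1 _ ⟨p, rfl⟩
        rw [value_FM]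
        change (TP g a * toField ℂ A - toField ℂ A * TP g b) p.1 p.2 = 0
        rw [h1, sub_self]
        rfl
      · intro h1
        ext I J
        have h2 := h1 _ ⟨(I, J), rfl⟩
        rw [value_FM] at h2
        exact sub_eq_zero.1 h2
    · refine ⟨by simp, ?_⟩
      rw [TP_one, TP_one, Matrix.one_mul, Matrix.mul_one]
    · rintro x ⟨hx, hx'⟩ y ⟨hy, hy'⟩
      refine ⟨by rw [Matrix.det_mul]; exact mul_ne_zero hx hy, ?_⟩
      rw [TP_mul, TP_mul, Matrix.mul_assoc, hy', ← Matrix.mul_assoc, hx', Matrix.mul_assoc]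
    · rintro x ⟨hx, hx'⟩
      refine ⟨by
        rw [Matrix.det_nonsing_inv, Ring.inverse_eq_inv']
        exact inv_ne_zero hx, ?_⟩
      calc TP x⁻¹ a * toField ℂ A = TP x⁻¹ a * (toField ℂ A * TP x b) * TP x⁻¹ b := by
            rw [Matrix.mul_assoc, Matrix.mul_assoc (toField ℂ A), (TP_det hx b).1, Matrix.mul_one]
        _ = toField ℂ A * TP x⁻¹ b := by
            rw [← hx', ← Matrix.mul_assoc, (TP_det hx a).2, Matrix.one_mul]
  exact (hm _ hG fun z hz => ⟨hdet z hz, hA z hz⟩).2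

/-- The adjoint of a matrix. -/
noncomputable def adjM (Q : Matrix κ κ ℚ) (g : Matrix κ κ ℂ) : Matrix κ κ ℂ :=
  toField ℂ Q⁻¹ * gᵀ * toField ℂ Q

lemma toField_inv {Q : Matrix κ κ ℚ} (hQ : Q.det ≠ 0) :
    toField ℂ Q * toField ℂ Q⁻¹ = 1 ∧ toField ℂ Q⁻¹ * toField ℂ Q = 1 := by
  constructor
  · rw [toField, toField, ← Matrix.map_mul, Matrix.mul_nonsing_inv _ (isUnit_iff_ne_zero.2 hQ)]
    simp
  · rw [toField, toField, ← Matrix.map_mul, Matrix.nonsing_inv_mul _ (isUnit_iff_ne_zero.2 hQ)]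
    simp

lemma adjM_one {Q : Matrix κ κ ℚ} (hQ : Q.det ≠ 0) : adjM Q (1 : Matrix κ κ ℂ) = 1 := by
  rw [adjM, Matrix.transpose_one, Matrix.mul_one, (toField_inv hQ).2]

lemma adjM_mul {Q : Matrix κ κ ℚ} (hQ : Q.det ≠ 0) (a b : Matrix κ κ ℂ) :
    adjM Q (a * b) = adjM Q b * adjM Q a := by
  have h1 : adjM Q b * adjM Q a =
      toField ℂ Q⁻¹ * bᵀ * (toField ℂ Q * toField ℂ Q⁻¹) * aᵀ * toField ℂ Q := by
    simp only [adjM, Matrix.mul_assoc]
  rw [h1, (toField_inv hQ).1, Matrix.mul_one, adjM, Matrix.transpose_mul]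
  simp only [Matrix.mul_assoc]

/-- The Mumford-Tate group is stable under the adjunction of a polarisation. -/
lemma mt_adj (hdet : ∀ z, z ≠ 0 → (h z).det ≠ 0) {Q : Matrix κ κ ℚ} (hQ : Q.det ≠ 0)
    (hadj : ∀ z, z ≠ 0 → adjM Q (h z) ∈ mumfordTate h) {m : Matrix κ κ ℂ}
    (hm : m ∈ mumfordTate h) : adjM Q m ∈ mumfordTate h := by
  have hG : IsQGroup {g : Matrix κ κ ℂ | g.det ≠ 0 ∧ adjM Q g ∈ mumfordTate h} := by
    refine ⟨⟨(adjP Q Q⁻¹) '' {f | ∀ x ∈ mumfordTate h, value x f = 0}, fun g => ?_⟩, ?_, ?_, ?_⟩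
    · rw [Set.mem_ofPred_eq]
      refine and_congr_right fun hg => ?_
      rw [mem_mt hdet]
      constructor
      · rintro ⟨-, h1⟩ _ ⟨f, hf, rfl⟩
        rw [value_adjP]
        exact h1 f hf
      · intro h1
        refine ⟨?_, fun f hf => ?_⟩
        · have h2 : (adjM Q g).det = g.det * ((toField ℂ Q⁻¹ * toField ℂ Q).det) := by
            rw [adjM, Matrix.det_mul, Matrix.det_mul, Matrix.det_mul, Matrix.det_transpose]
            ring
          rw [h2, (toField_inv hQ).2, Matrix.det_one, mul_one]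
          exact hg
        · have h2 := h1 _ ⟨f, hf, rfl⟩
          rwa [value_adjP] at h2
    · refine ⟨by simp, ?_⟩
      rw [adjM_one hQ]
      exact mt_one
    · rintro x ⟨hx, hx'⟩ y ⟨hy, hy'⟩
      refine ⟨by rw [Matrix.det_mul]; exact mul_ne_zero hx hy, ?_⟩
      rw [adjM_mul hQ]
      exact mt_mul hy' hx'
    · rintro x ⟨hx, hx'⟩
      refine ⟨by
        rw [Matrix.det_nonsing_inv, Ring.inverse_eq_inv']
        exact inv_ne_zero hx, ?_⟩
      have h1 : adjM Q x⁻¹ = (adjM Q x)⁻¹ := by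
        symm
        apply Matrix.inv_eq_left_inv
        rw [← adjM_mul hQ, Matrix.mul_nonsing_inv _ (isUnit_iff_ne_zero.2 hx), adjM_one hQ]
      rw [h1]
      exact mt_inv hx'
  exact (hm _ hG fun z hz => ⟨hdet z hz, hadj z hz⟩).2

end group

section algebra

variable {κ : Type} [Fintype κ] [DecidableEq κ] (h : ℂ → Matrix κ κ ℂ) (d : ℕ)

/-- The span of the Mumford-Tate group on the tensors of bounded degree. -/
noncomputable def MC : Submodule ℂ (Matrix (Bd κ d) (Bd κ d) ℂ) :=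
  Submodule.span ℂ (TT d '' mumfordTate h)

variable {h d}

lemma MC_mul {X Y : Matrix (Bd κ d) (Bd κ d) ℂ} (hX : X ∈ MC h d) (hY : Y ∈ MC h d) :
    X * Y ∈ MC h d := by
  refine Submodule.span_induction (p := fun X _ => X * Y ∈ MC h d) ?_ ?_ ?_ ?_ hX
  · rintro _ ⟨x, hx, rfl⟩
    refine Submodule.span_induction (p := fun Y _ => TT d x * Y ∈ MC h d) ?_ ?_ ?_ ?_ hY
    · rintro _ ⟨y, hy, rfl⟩
      exact Submodule.subset_span ⟨x * y, mt_mul hx hy, TT_mul d x y⟩
    · rw [Matrix.mul_zero]; exact Submodule.zero_mem _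
    · intro a b _ _ ha hb
      rw [Matrix.mul_add]; exact Submodule.add_mem _ ha hb
    · intro c a _ ha
      rw [Matrix.mul_smul]; exact Submodule.smul_mem _ _ ha
  · rw [Matrix.zero_mul]; exact Submodule.zero_mem _
  · intro a b _ _ ha hb
    rw [Matrix.add_mul]; exact Submodule.add_mem _ ha hb
  · intro c a _ ha
    rw [Matrix.smul_mul]; exact Submodule.smul_mem _ _ ha

variable (h d)

/-- The rational algebra of the Mumford-Tate group on the tensors of bounded degree. -/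
noncomputable def MQ : Subalgebra ℚ (Matrix (Bd κ d) (Bd κ d) ℚ) where
  carrier := {X | toField ℂ X ∈ MC h d}
  mul_mem' {a b} ha hb := by
    have h1 : toField ℂ (a * b) = toField ℂ a * toField ℂ b := Matrix.map_mul
    rw [Set.mem_ofPred_eq, h1]
    exact MC_mul ha hb
  add_mem' {a b} ha hb := by
    have h1 : toField ℂ (a + b) = toField ℂ a + toField ℂ b :=
      Matrix.map_add _ (fun x y => map_add _ x y) a b
    rw [Set.mem_ofPred_eq, h1]
    exact Submodule.add_mem _ ha hb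
  algebraMap_mem' r := by
    have h1 : toField ℂ (algebraMap ℚ (Matrix (Bd κ d) (Bd κ d) ℚ) r) =
        (algebraMap ℚ ℂ r) • (1 : Matrix (Bd κ d) (Bd κ d) ℂ) := by
      ext i j
      rw [toField, Matrix.map_apply, Matrix.algebraMap_matrix_apply, Matrix.smul_apply,
        Matrix.one_apply]
      split_ifs <;> simp
    rw [Set.mem_ofPred_eq, h1]
    refine Submodule.smul_mem _ _ (Submodule.subset_span ⟨1, mt_one, TT_one d⟩)

variable {h d}

lemma mem_MQ {X : Matrix (Bd κ d) (Bd κ d) ℚ} : X ∈ MQ h d ↔ toField ℂ X ∈ MC h d := Iff.rfl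

/-- The span is defined over the field of rational numbers. -/
lemma MC_le (hdet : ∀ z, z ≠ 0 → (h z).det ≠ 0) :
    MC h d ≤ SpM ℂ (Subalgebra.toSubmodule (MQ h d)) := by
  let B := Bd κ d
  let uc : (B × B → ℂ) →ₗ[ℂ] Matrix B B ℂ :=
    { toFun := fun v => Matrix.of fun i j => v (i, j), map_add' := fun _ _ => rfl,
      map_smul' := fun _ _ => rfl }
  let C : Submodule ℂ (B × B → ℂ) := (MC h d).comap uc
  have hC : ∀ (σ : ℂ ≃+* ℂ), ∀ v ∈ C, (fun i => σ (v i)) ∈ C := by
    intro σ v hv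
    change (uc v).map σ ∈ MC h d
    have hv' : uc v ∈ MC h d := hv
    refine Submodule.span_induction (p := fun X _ => X.map σ ∈ MC h d) ?_ ?_ ?_ ?_ hv'
    · rintro _ ⟨m, hm, rfl⟩
      have h1 : (TT d m).map σ = TT d (m.map σ) := (TT_map (σ : ℂ →+* ℂ) d m).symm
      rw [h1]
      exact Submodule.subset_span ⟨_, mt_aut hdet σ hm, rfl⟩
    · rw [Matrix.map_zero _ (map_zero σ)]
      exact Submodule.zero_mem _
    · intro a b _ _ ha hb
      rw [Matrix.map_add _ (fun x y => map_add σ x y)]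
      exact Submodule.add_mem _ ha hb
    · intro c a _ ha
      have h1 : (c • a).map σ = σ c • a.map σ := by
        ext i j
        simp
      rw [h1]
      exact Submodule.smul_mem _ _ ha
  have hspan := span_rational C hC
  intro X hX
  have hX' : (fun p : B × B => X p.1 p.2) ∈ C := hX
  rw [hspan] at hX'
  have h2 : ∀ v ∈ C, v ∈ Submodule.span ℂ ({w | w ∈ C ∧ ∃ u : B × B → ℚ, w = fun i => (u i : ℂ)} :
      Set (B × B → ℂ)) → uc v ∈ SpM ℂ (Subalgebra.toSubmodule (MQ h d)) := by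
    intro v _ hv
    refine Submodule.span_induction (p := fun v _ => uc v ∈
      SpM ℂ (Subalgebra.toSubmodule (MQ h d))) ?_ ?_ ?_ ?_ hv
    · rintro _ ⟨hw, u, rfl⟩
      refine Submodule.subset_span ⟨Matrix.of fun i j => u (i, j), ?_, rfl⟩
      exact hw
    · rw [map_zero]; exact Submodule.zero_mem _
    · intro a b _ _ ha hb
      rw [map_add]; exact Submodule.add_mem _ ha hb
    · intro c a _ ha
      rw [map_smul]; exact Submodule.smul_mem _ _ ha
  have hX'' : (fun p : B × B => X p.1 p.2) ∈ C := hX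
  exact h2 _ hX'' hX'

end algebra

end Pool.Agent.Q60.GL
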