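import Pool.Agent.Q60.GL.Grp

/-!
# The Mumford-Tate conjecture and the square of the representation
-/

set_option linter.unusedSectionVars false

namespace Pool.Agent.Q60.GL

open MvPolynomial Module Matrix Pool.Agent.Q60.ED Pool.Agent.Q60.FI Pool.Agent.Q60.TD
  Pool.Agent.Q60.NP Pool.Agent.Q60.MV Pool.Agent.Q60.CJ Pool.Agent.Q60.TP

section tower

variable {K L : Type} [Field K] [CharZero K] [Field L] [CharZero L] [Algebra K L]

lemma tower_rat : IsScalarTower ℚ K L :=
  IsScalarTower.of_algebraMap_eq' (Subsingleton.elim _ _)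

lemma toField_map {m n : Type} (A : Matrix m n ℚ) :
    (toField K A).map (algebraMap K L) = toField L A := by
  have := tower_rat (K := K) (L := L)
  ext i j
  exact (IsScalarTower.algebraMap_apply ℚ K L (A i j)).symm

lemma map_inj {m n : Type} {A B : Matrix m n K}
    (h : A.map (algebraMap K L) = B.map (algebraMap K L)) : A = B :=
  Matrix.map_injective (algebraMap K L).injective h

end tower

section hodge

variable {κ : Type} [Fintype κ] [DecidableEq κ] {w : ℤ} {V : HodgeStructure κ w}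
  {Q : Matrix κ κ ℚ}

lemma dl_eq (hQ : IsPolarisation V Q) : PH.dl (phs hQ) = V.op fun a => (a.1 : ℂ) - a.2 := by
  have h1 : PH.dl (phs hQ) =
      ∑ n ∈ Finset.range (2 * bnd V + 1), ((n : ℂ) - bnd V) • En V n := rfl
  have h2 : ∑ n ∈ Finset.range (2 * bnd V + 1), ((n : ℂ) - bnd V) • En V n =
      ∑ a ∈ V.types, (((a.1 - a.2 + (bnd V : ℤ)).toNat : ℂ) - bnd V) • V.e a := by
    rw [← Finset.sum_fiberwise_of_maps_to (s := V.types) (t := Finset.range (2 * bnd V + 1))
      (g := fun a => (a.1 - a.2 + (bnd V : ℤ)).toNat) (fun a ha => by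
        have := le_bnd ha
        rw [Finset.mem_range]
        omega)]
    refine Finset.sum_congr rfl fun n _ => ?_
    rw [En, Finset.smul_sum]
    refine Finset.sum_congr rfl fun a ha => ?_
    rw [(Finset.mem_filter.1 ha).2]
  rw [h1, h2, HodgeStructure.op]
  refine Finset.sum_congr rfl fun a ha => ?_
  congr 1
  have h3 : ((a.1 - a.2 + (bnd V : ℤ)).toNat : ℤ) = a.1 - a.2 + bnd V := by
    have := le_bnd ha
    omega
  have h4 : ((a.1 - a.2 + (bnd V : ℤ)).toNat : ℂ) = ((a.1 - a.2 + (bnd V : ℤ) : ℤ) : ℂ) := by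
    rw [← h3]
    push_cast
    rfl
  rw [h4]
  push_cast
  ring

lemma op_f1 (hQ : IsPolarisation V Q) :
    V.op f1 = ((w : ℂ) / 2) • 1 + (1 / 2 : ℂ) • PH.dl (phs hQ) := by
  rw [dl_eq, ← op_one V, HodgeStructure.op, HodgeStructure.op, HodgeStructure.op,
    Finset.smul_sum, Finset.smul_sum, ← Finset.sum_add_distrib]
  refine Finset.sum_congr rfl fun a ha => ?_
  rw [smul_smul, smul_smul, ← add_smul]
  congr 1
  have hw : ((a.1 : ℤ) : ℂ) + a.2 = w := by
    exact_mod_cast V.weight a ha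
  rw [f1, ← hw]
  ring

lemma op_f2 (hQ : IsPolarisation V Q) :
    V.op f2 = ((w : ℂ) / 2) • 1 + (-1 / 2 : ℂ) • PH.dl (phs hQ) := by
  rw [dl_eq, ← op_one V, HodgeStructure.op, HodgeStructure.op, HodgeStructure.op,
    Finset.smul_sum, Finset.smul_sum, ← Finset.sum_add_distrib]
  refine Finset.sum_congr rfl fun a ha => ?_
  rw [smul_smul, smul_smul, ← add_smul]
  congr 1
  have hw : ((a.1 : ℤ) : ℂ) + a.2 = w := by
    exact_mod_cast V.weight a ha
  rw [f2, ← hw]
  ring

/-- The central endomorphisms of the Hodge structure. -/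
def ZA (V : HodgeStructure κ w) : Subalgebra ℚ (Matrix κ κ ℚ) where
  carrier := {c | IsHodgeEnd V c ∧ ∀ a, IsHodgeEnd V a → a * c = c * a}
  mul_mem' {a b} ha hb := by
    refine ⟨fun z hz => ?_, fun c hc => ?_⟩
    · rw [toField_mul, ← Matrix.mul_assoc, ha.1 z hz, Matrix.mul_assoc, hb.1 z hz,
        Matrix.mul_assoc]
    · rw [← Matrix.mul_assoc, ha.2 c hc, Matrix.mul_assoc, hb.2 c hc, Matrix.mul_assoc]
  add_mem' {a b} ha hb := by
    refine ⟨fun z hz => ?_, fun c hc => ?_⟩
    · have h1 : toField ℂ (a + b) = toField ℂ a + toField ℂ b :=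
        Matrix.map_add _ (fun x y => map_add _ x y) a b
      rw [h1, Matrix.mul_add, Matrix.add_mul, ha.1 z hz, hb.1 z hz]
    · rw [Matrix.mul_add, Matrix.add_mul, ha.2 c hc, hb.2 c hc]
  algebraMap_mem' r := by
    refine ⟨fun z hz => ?_, fun c _ => (Algebra.commutes r c).symm⟩
    have h1 : toField ℂ (algebraMap ℚ (Matrix κ κ ℚ) r) =
        algebraMap ℂ (Matrix κ κ ℂ) (r : ℂ) := by
      ext i j
      rw [toField, Matrix.map_apply, Matrix.algebraMap_matrix_apply,
        Matrix.algebraMap_matrix_apply]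
      split_ifs <;> simp
    rw [h1]
    exact (Algebra.commutes _ _).symm

end hodge

section main

variable {K L : Type} [Field K] [CharZero K] [Field L] [CharZero L] [Algebra K L]
  {κ : Type} [Fintype κ] [DecidableEq κ] {w : ℤ} {V : HodgeStructure κ w} {Q : Matrix κ κ ℚ}
  {Γ : Type*} [Group Γ] {ρ : Γ →* Matrix κ κ K}

/-- The rational matrices which belong to the Lie algebra. -/
def nQ (ρ : Γ →* Matrix κ κ K) : Submodule ℚ (Matrix κ κ ℚ) where
  carrier := {y | y.map (algebraMap ℚ K) ∈ LG ρ}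
  add_mem' {a b} ha hb := by
    rw [Set.mem_ofPred_eq, Matrix.map_add _ (fun x y => map_add _ x y)]
    exact Submodule.add_mem _ ha hb
  zero_mem' := by
    rw [Set.mem_ofPred_eq, Matrix.map_zero _ (map_zero _)]
    exact Submodule.zero_mem _
  smul_mem' c a ha := by
    have h1 : (c • a).map (algebraMap ℚ K) = (algebraMap ℚ K c) • a.map (algebraMap ℚ K) := by
      ext i j
      simp
    rw [Set.mem_ofPred_eq, h1]
    exact Submodule.smul_mem _ _ ha

/-- The Mumford-Tate conjecture. -/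
def MTCK (V : HodgeStructure κ w) (ρ : Γ →* Matrix κ κ K) (L : Type) [Field L] [CharZero L]
    [Algebra K L] : Prop :=
  ∀ g : Matrix κ κ L, g.det ≠ 0 → (InMon ρ g ↔ InMumfordTate V.h g)

/-- The condition on the centres. -/
def CCK (V : HodgeStructure κ w) (ρ : Γ →* Matrix κ κ K) (L : Type) [Field L] [CharZero L]
    [Algebra K L] : Prop :=
  ∃ n : ℕ, 0 < n ∧ ∀ g ∈ SpM L (Subalgebra.toSubmodule (ZA V)), g.det ≠ 0 →
    (InMumfordTate V.h g → InMon ρ (g ^ n)) ∧ (InMon ρ g → InMumfordTate V.h (g ^ n))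

section fromLie

variable (h : Hyp V Q ρ) (hle : ∀ B ∈ LG ρ ⊓ skS (toField K Q), B ∈ HL K h.pol)
  (hge : ∀ B ∈ HL K h.pol, B ∈ LG ρ ⊓ skS (toField K Q))

include hle in
/-- The Lie algebra commutes with the homomorphisms of Hodge structures. -/
theorem Hyp.comm {B : Matrix κ κ K} (hB : B ∈ LG ρ) {a b : ℕ}
    {A : Matrix (Fin a → κ) (Fin b → κ) ℚ} (hA : IsHom V A) :
    am B a * toField K A = toField K A * am B b := by
  obtain ⟨μ, h1, h2⟩ := h.dec hB
  have h3 := comm_of_kill h.pol h1.2 (hle _ h1) hA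
  have h4 : ∀ n, am B n = am (B - μ • 1) n + (μ * n) • 1 := by
    intro n
    have h5 : B = (B - μ • 1) + μ • 1 := by rw [sub_add_cancel]
    conv_lhs => rw [h5, am_add, am_smul, am_one, smul_smul]
  rw [h4 a, h4 b, Matrix.add_mul, Matrix.mul_add, h3, Matrix.smul_mul, Matrix.mul_smul,
    Matrix.one_mul, Matrix.mul_one]
  congr 1
  rcases eq_or_ne w 0 with hw | hw
  · rw [h2 hw, zero_mul, zero_mul]
  · by_cases hab : a = b
    · subst hab
      rfl
    · rw [hom_eq_zero hw hab hA]
      have h6 : toField K (0 : Matrix (Fin a → κ) (Fin b → κ) ℚ) = 0 :=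
        Matrix.map_zero _ (map_zero _)
      rw [h6, smul_zero, smul_zero]

include hle in
/-- The identity component is contained in the Mumford-Tate group. -/
theorem Hyp.mon_le {g : Matrix κ κ L} (hg : InMon ρ g) : InMumfordTate V.h g := by
  refine inMT_of_comm h.pol fun a b A hA => ?_
  obtain ⟨Δ, hΔ, h1⟩ := vcomm_of_am fun B hB => h.comm hle hB hA
  rw [FM_comm]
  intro p
  refine hg _ ⟨Δ, hΔ, fun s hs => ?_⟩
  have h2 : TP ((ρ s).map (algebraMap K L)) a * toField L A =
      toField L A * TP ((ρ s).map (algebraMap K L)) b := by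
    rw [TP_map (algebraMap K L), TP_map (algebraMap K L), ← toField_map (K := K),
      ← Matrix.map_mul, ← Matrix.map_mul, h1 s hs]
  exact FM_comm.1 h2 p

include hge in
lemma Hyp.op_mem {c d : ℂ} (hc : w = 0 → c = 0) :
    c • (1 : Matrix κ κ ℂ) + d • PH.dl (phs h.pol) ∈ SpM ℂ (nQ ρ) := by
  apply mem_SpM
  intro l
  let l' : ℂ →ₗ[ℚ] ℚ :=
    { toFun := fun x => l (d * x)
      map_add' := fun x y => by rw [mul_add, map_add]
      map_smul' := fun r x => by rw [mul_smul_comm, map_smul]; rfl }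
  have h1 : (Matrix.of fun i j => l ((c • (1 : Matrix κ κ ℂ) + d • PH.dl (phs h.pol)) i j)) =
      (l c) • (1 : Matrix κ κ ℚ) + Matrix.of fun i j => l' (PH.dl (phs h.pol) i j) := by
    ext i j
    rw [Matrix.of_apply, Matrix.add_apply, Matrix.add_apply, Matrix.smul_apply,
      Matrix.smul_apply, Matrix.smul_apply, map_add, Matrix.of_apply, smul_eq_mul, smul_eq_mul,
      smul_eq_mul]
    congr 1
    rw [Matrix.one_apply, Matrix.one_apply]
    split_ifs
    · rw [mul_one, mul_one]
    · rw [mul_zero, mul_zero, map_zero]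
  rw [h1]
  refine Submodule.add_mem _ ?_ ?_
  · rcases eq_or_ne w 0 with hw | hw
    · rw [hc hw, map_zero, zero_smul]
      exact Submodule.zero_mem _
    · refine Submodule.smul_mem _ _ ?_
      change (1 : Matrix κ κ ℚ).map (algebraMap ℚ K) ∈ LG ρ
      rw [Matrix.map_one _ (map_zero _) (map_one _)]
      exact h.one hw
  · exact (hge _ (HL_rat (K := K) h.pol (PH.form_dl (phs h.pol) l'))).1

include hge in
/-- The Mumford-Tate group is contained in the identity component. -/
theorem Hyp.mt_le {g : Matrix κ κ L} (hg : InMumfordTate V.h g) : InMon ρ g := by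
  have := tower_rat (K := K) (L := L)
  have hw0 : w = 0 → ((w : ℂ) / 2) = 0 := by
    intro hw
    rw [hw]
    simp
  refine inMon_of fun d => ?_
  refine UA_map (K := ℚ) (L := K) (M := L) (𝔪 := nQ ρ) (𝔫 := LG ρ) (fun y hy => hy) d ?_
  refine TT_mem_of_inMT ?_ ?_ hg d
  · rw [op_f1 h.pol]
    exact h.op_mem hge hw0
  · rw [op_f2 h.pol]
    exact h.op_mem hge hw0

include hle hge in
/-- **The Mumford-Tate conjecture from the equality of the Lie algebras.** -/
theorem Hyp.mtc : MTCK V ρ L := fun _ _ => ⟨h.mon_le hle, h.mt_le hge⟩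

end fromLie

end main

end Pool.Agent.Q60.GL
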