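import Pool.Agent.Q60.GL.Mtc

/-!
# The Mumford-Tate conjecture and the square of the representation: the centres and the converse
-/

set_option linter.unusedSectionVars false

namespace Pool.Agent.Q60.GL

open MvPolynomial Module Matrix Pool.Agent.Q60.ED Pool.Agent.Q60.FI Pool.Agent.Q60.TD
  Pool.Agent.Q60.NP Pool.Agent.Q60.MV Pool.Agent.Q60.CJ Pool.Agent.Q60.TP

section aux

variable {K L : Type} [Field K] [CharZero K] [Field L] [CharZero L] [Algebra K L]
  {κ : Type} [Fintype κ] [DecidableEq κ] {w : ℤ} {V : HodgeStructure κ w} {Q : Matrix κ κ ℚ}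

lemma SpM_tower {B : Type} [Fintype B] [DecidableEq B] {U : Submodule ℚ (Matrix B B ℚ)} {X : Matrix B B K}
    (hX : X ∈ SpM K U) : X.map (algebraMap K L) ∈ SpM L U := by
  refine Submodule.span_induction (p := fun X _ => X.map (algebraMap K L) ∈ SpM L U) ?_ ?_ ?_ ?_ hX
  · rintro _ ⟨u, hu, rfl⟩
    have h1 := toField_map (K := K) (L := L) u
    rw [toField] at h1
    simp only
    rw [h1]
    exact map_mem_SpM hu
  · rw [Matrix.map_zero _ (map_zero _)]
    exact Submodule.zero_mem _
  · intro a b _ _ ha hb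
    rw [Matrix.map_add _ (fun x y => map_add _ x y)]
    exact Submodule.add_mem _ ha hb
  · intro c a _ ha
    have h1 : (c • a).map (algebraMap K L) = (algebraMap K L c) • a.map (algebraMap K L) := by
      ext i j
      simp
    rw [h1]
    exact Submodule.smul_mem _ _ ha

lemma mul_form_left (l : K →ₗ[ℚ] ℚ) {A B C : Type} [Fintype B] (P : Matrix A B ℚ)
    (X : Matrix B C K) : (Matrix.of fun i j => l ((toField K P * X) i j)) =
      P * Matrix.of fun i j => l (X i j) := by
  ext i j
  rw [Matrix.of_apply, Matrix.mul_apply, map_sum, Matrix.mul_apply]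
  refine Finset.sum_congr rfl fun k _ => ?_
  rw [toField, Matrix.map_apply, ← Algebra.smul_def, map_smul, smul_eq_mul]
  rfl

lemma mul_form_right (l : K →ₗ[ℚ] ℚ) {A B C : Type} [Fintype B] (P : Matrix B C ℚ)
    (X : Matrix A B K) : (Matrix.of fun i j => l ((X * toField K P) i j)) =
      (Matrix.of fun i j => l (X i j)) * P := by
  ext i j
  rw [Matrix.of_apply, Matrix.mul_apply, map_sum, Matrix.mul_apply]
  refine Finset.sum_congr rfl fun k _ => ?_
  rw [toField, Matrix.map_apply, mul_comm, ← Algebra.smul_def, map_smul, smul_eq_mul, mul_comm]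
  rfl

lemma form_eq {l : K →ₗ[ℚ] ℚ} {A B : Type} {X Y : Matrix A B K} (h : X = Y) :
    (Matrix.of fun i j => l (X i j)) = Matrix.of fun i j => l (Y i j) := by rw [h]

/-- A skew matrix which commutes with all homomorphisms belongs to the Lie algebra of the Hodge
group. -/
lemma HL_of_comm (hQ : IsPolarisation V Q) {z : Matrix κ κ K} (hs : Skw (toField K Q) z)
    (h : ∀ (a b : ℕ) (A : Matrix (Fin a → κ) (Fin b → κ) ℚ), IsHom V A →
      am z a * toField K A = toField K A * am z b) : z ∈ HL K hQ := by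
  intro n t ht
  have hd := pol_det hQ
  apply aop_of_sq
  rw [TP.tmul_bc]
  have h0 : tmul t t ∈ (phs hQ).T (n + n) := (psys (phs hQ)).mul ht ht
  have h1 : tenM (opt Q (a := n) (b := n) (tmul t t) * TP Q⁻¹ n) = tmul t t := tenM_opt hd _
  have h2 : IsHom V (opt Q (a := n) (b := n) (tmul t t)) :=
    hom_of_tensor hQ (by rw [h1]; exact h0)
  have h3 := (kill_iff (toField_det (K := K) hd) hs _).2 (h n n _ h2)
  rw [toField_inv', ← toField_TP, ← toField_mul, ← bc_tenM, h1] at h3
  exact h3

/-- A matrix which commutes with the Lie algebra of the Hodge group and with the endomorphisms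
is a combination of central endomorphisms. -/
lemma central_mem (hQ : IsPolarisation V Q) {z : Matrix κ κ K}
    (h1 : ∀ B ∈ HL K hQ, B * z = z * B)
    (h2 : ∀ a, IsHodgeEnd V a → toField K a * z = z * toField K a) :
    z ∈ SpM K (Subalgebra.toSubmodule (ZA V)) := by
  apply mem_SpM
  intro l
  refine ⟨(tv_iff hQ).1 (PH.tv_mem (phs hQ) fun y hy => ?_), fun a ha => ?_⟩
  · have h3 := form_eq (l := l) (h1 _ (HL_rat (K := K) hQ hy))
    have h4 : y.map (algebraMap ℚ K) = toField K y := rfl
    rw [h4, mul_form_left, mul_form_right] at h3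
    exact h3
  · have h3 := form_eq (l := l) (h2 a ha)
    rw [mul_form_left, mul_form_right] at h3
    exact h3

lemma K2_comm {B c : Matrix κ κ K} (h : am B 2 * K2 c 1 = K2 c 1 * am B 2) : B * c = c * B := by
  rw [← sub_eq_zero, am_K2] at h
  exact sub_eq_zero.1 (K2_inj h)

lemma K2_end {a : Matrix κ κ ℚ} (ha : IsHodgeEnd V a) :
    K2 (toField K a) 1 ∈ SpM K (HE V) := by
  have h1 : toField K (K2 a 1) = K2 (toField K a) 1 := by rw [toField_K2, toField_one]
  rw [← h1]
  exact map_mem_SpM (isHom_K2.2 ha)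

end aux

section main

variable {K L : Type} [Field K] [CharZero K] [Field L] [CharZero L] [Algebra K L]
  {κ : Type} [Fintype κ] [DecidableEq κ] {w : ℤ} {V : HodgeStructure κ w} {Q : Matrix κ κ ℚ}
  {Γ : Type*} [Group Γ] {ρ : Γ →* Matrix κ κ K} (h : Hyp V Q ρ)

include h

lemma Hyp.central1 {z : Matrix κ κ K} (hz : z ∈ LG ρ ⊓ skS (toField K Q))
    (hz' : ∀ B ∈ LG ρ ⊓ skS (toField K Q), B * z = z * B) :
    z ∈ SpM K (Subalgebra.toSubmodule (ZA V)) :=
  central_mem h.pol (h.cen.1 hz') fun _ ha => (K2_comm (h.comm_of_op (K2_end ha) hz.1)).symm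

lemma Hyp.central2 {z : Matrix κ κ K} (hz : z ∈ HL K h.pol)
    (hz' : ∀ B ∈ HL K h.pol, B * z = z * B) :
    z ∈ SpM K (Subalgebra.toSubmodule (ZA V)) :=
  central_mem h.pol hz' fun _ ha => (K2_comm (HL_comm h.pol hz (K2_end ha))).symm

/-- There are no skew central elements if the centre is totally real. -/
lemma Hyp.tr (htr : TotallyRealCentre V Q) {z : Matrix κ κ K} (hs : Skw (toField K Q) z)
    (hz : z ∈ SpM K (Subalgebra.toSubmodule (ZA V))) : z = 0 := by
  ext i j
  rw [Matrix.zero_apply]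
  apply eq_zero_of_forms (K := ℚ)
  intro l
  have h1 : (Matrix.of fun i j => l (z i j)) ∈ Subalgebra.toSubmodule (ZA V) := form_SpM l hz
  have h2 : (Matrix.of fun i j => l (z i j)) * Q⁻¹ + Q⁻¹ * (Matrix.of fun i j => l (z i j))ᵀ =
      0 := by
    have h3 : z * toField K Q⁻¹ + toField K Q⁻¹ * zᵀ = 0 := by
      rw [← toField_inv']
      exact hs
    have h4 := form_eq (l := l) h3
    have h5 : (Matrix.of fun i j => l ((z * toField K Q⁻¹ + toField K Q⁻¹ * zᵀ) i j)) =
        (Matrix.of fun i j => l ((z * toField K Q⁻¹) i j)) +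
          Matrix.of fun i j => l ((toField K Q⁻¹ * zᵀ) i j) := by
      ext i j
      simp only [Matrix.of_apply, Matrix.add_apply, map_add]
    rw [h5, mul_form_left, mul_form_right] at h4
    refine h4.trans ?_
    ext i j
    exact map_zero l
  have hu := isUnit_iff_ne_zero.2 (pol_det h.pol)
  set c := Matrix.of fun i j => l (z i j) with hc
  have h6 : Q * (c * Q⁻¹ + Q⁻¹ * cᵀ) * Q = Q * c + cᵀ * Q := by
    rw [Matrix.mul_add, Matrix.add_mul, ← Matrix.mul_assoc Q Q⁻¹, Matrix.mul_nonsing_inv _ hu,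
      Matrix.one_mul, Matrix.mul_assoc Q, Matrix.mul_assoc c, Matrix.nonsing_inv_mul _ hu,
      Matrix.mul_one]
  rw [h2, Matrix.mul_zero, Matrix.zero_mul] at h6
  have h7 := htr c h1.1 h1.2 (by
    rw [eq_neg_iff_add_eq_zero, add_comm]
    exact h6.symm)
  exact congrFun (congrFun h7 i) j

/-- **The Mumford-Tate conjecture follows from the condition in degree four** if the centre is
totally real. -/
theorem Hyp.mtc_tr (htr : TotallyRealCentre V Q) : MTCK V ρ L := by
  have hc : ∀ z ∈ LG ρ ⊓ skS (toField K Q),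
      (∀ B ∈ LG ρ ⊓ skS (toField K Q), B * z = z * B) → z ∈ HL K h.pol := by
    intro z hz hz'
    rw [h.tr htr hz.2 (h.central1 hz hz')]
    exact Submodule.zero_mem _
  have hc' : ∀ z ∈ HL K h.pol, (∀ B ∈ HL K h.pol, B * z = z * B) →
      z ∈ LG ρ ⊓ skS (toField K Q) := by
    intro z hz hz'
    rw [h.tr htr (HL_skew h.pol hz) (h.central2 hz hz')]
    exact Submodule.zero_mem _
  exact h.mtc (fun B hB => h.le hc hB) fun B hB => h.ge hc hc' hB

/-- **The Mumford-Tate conjecture follows from the condition in degree four and the condition on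
the centres.** -/
theorem Hyp.mtc_cc (τ : L ≃+* ℂ) (hCC : CCK V ρ L) : MTCK V ρ L := by
  obtain ⟨n, hn, hCC⟩ := hCC
  have hn' : (n : ℂ) ≠ 0 := Nat.cast_ne_zero.2 hn.ne'
  have hgm : ∀ z : Matrix κ κ K, z ∈ SpM K (Subalgebra.toSubmodule (ZA V)) → ∀ t,
      gx τ (z.map (algebraMap K L)) t ∈ SpM L (Subalgebra.toSubmodule (ZA V)) :=
    fun z hz t => gx_mem τ (SpM_tower hz) t
  have hc : ∀ z ∈ LG ρ ⊓ skS (toField K Q),
      (∀ B ∈ LG ρ ⊓ skS (toField K Q), B * z = z * B) → z ∈ HL K h.pol := by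
    intro z hz hz'
    have h1 := h.central1 hz hz'
    have h2 : ∀ t, InMumfordTate V.h (gx τ (z.map (algebraMap K L)) t) := by
      intro t
      have h3 := (hCC _ (hgm z h1 (t / n)) (gx_det τ _ _)).2 (inMon_gx τ hz.1 _)
      rwa [gx_pow, mul_div_cancel₀ t hn'] at h3
    refine HL_of_comm h.pol hz.2 fun a b A hA => map_inj (L := L) ?_
    have h4 := comm_of_inMT_gx τ h2 hA
    rw [Matrix.map_mul, Matrix.map_mul, toField_map, ← am_map, ← am_map]
    exact h4
  have hc' : ∀ z ∈ HL K h.pol, (∀ B ∈ HL K h.pol, B * z = z * B) →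
      z ∈ LG ρ ⊓ skS (toField K Q) := by
    intro z hz hz'
    have h1 := h.central2 hz hz'
    refine ⟨mem_LG_of_gx τ fun t => ?_, HL_skew h.pol hz⟩
    have h3 := (hCC _ (hgm z h1 (t / n)) (gx_det τ _ _)).1
      (inMT_gx τ h.pol (fun a b A hA => by
        have h4 := comm_of_kill h.pol (HL_skew h.pol hz) hz hA
        have h5 := congrArg (fun M => M.map (algebraMap K L)) h4
        simp only [Matrix.map_mul, toField_map, ← am_map] at h5
        exact h5) _)
    rwa [gx_pow, mul_div_cancel₀ t hn'] at h3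
  exact h.mtc (fun B hB => h.le hc hB) fun B hB => h.ge hc hc' hB

end main

section converse

variable {K L : Type} [Field K] [CharZero K] [Field L] [CharZero L] [Algebra K L]
  {κ : Type} [Fintype κ] [DecidableEq κ] {w : ℤ} {V : HodgeStructure κ w} {Q : Matrix κ κ ℚ}
  {Γ : Type*} [Group Γ] {ρ : Γ →* Matrix κ κ K}

/-- There is a subgroup of finite index with the smallest Zariski closure. -/
lemma exists_max (ρ : Γ →* Matrix κ κ K) : ∃ Δ : Subgroup Γ, Δ.FiniteIndex ∧
    ∀ Δ' : Subgroup Γ, Δ'.FiniteIndex → VG ρ Δ' ≤ VG ρ Δ := by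
  have hwf : WellFoundedGT (Ideal (MvPolynomial (κ × κ) K)) := inferInstance
  obtain ⟨M, ⟨Δ, hΔ, rfl⟩, hmin⟩ := hwf.wf.has_min
    {M | ∃ Δ : Subgroup Γ, Δ.FiniteIndex ∧ M = VG ρ Δ} ⟨_, ⊤, inferInstance, rfl⟩
  refine ⟨Δ, hΔ, fun Δ' hΔ' => ?_⟩
  have h1 : (Δ ⊓ Δ').FiniteIndex := inferInstance
  have h2 := hmin _ ⟨Δ ⊓ Δ', h1, rfl⟩
  have h3 : VG ρ Δ ≤ VG ρ (Δ ⊓ Δ') := VG_anti inf_le_left
  have h4 : VG ρ Δ = VG ρ (Δ ⊓ Δ') := by
    rcases h3.lt_or_eq with h | h
    · exact absurd h h2
    · exact h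
  rw [h4]
  exact VG_anti inf_le_right

lemma inMon_rho {Δ : Subgroup Γ} (hΔ : ∀ Δ' : Subgroup Γ, Δ'.FiniteIndex → VG ρ Δ' ≤ VG ρ Δ)
    {s : Γ} (hs : s ∈ Δ) : InMon ρ ((ρ s).map (algebraMap K L)) := by
  rintro f ⟨Δ', hΔ', hf⟩
  obtain ⟨d, c, rfl⟩ := exists_pc f
  change evM _ _ = 0
  rw [evM_pc, TT_map]
  apply eq_zero_of_forms (K := K)
  intro l
  rw [form_pc, ← evM_pc]
  refine mem_VG.1 (hΔ Δ' hΔ' (mem_VG.2 fun t ht => ?_)) s hs
  rw [evM_pc, ← form_pc, ← TT_map, ← evM_pc]
  have h1 : evM ((ρ t).map (algebraMap K L)) (pc d c) = 0 := hf t ht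
  rw [h1, map_zero]

/-- The block of degree two. -/
def bk {R : Type} (T : Matrix (Bd κ 2) (Bd κ 2) R) : Matrix (Fin 2 → κ) (Fin 2 → κ) R :=
  Matrix.of fun I J => T ⟨2, I⟩ ⟨2, J⟩

lemma bk_TT {R : Type} [Field R] (g : Matrix κ κ R) : bk (TT 2 g) = TP g 2 := by
  ext I J
  exact TT_same 2 g 2 I J

/-- **The Mumford-Tate conjecture implies the condition in degree four.** -/
theorem sq_of_mtc (τ : L ≃+* ℂ) (h : MTCK V ρ L) : SqK V ρ := by
  intro M
  constructor
  · rintro ⟨Δ, hΔ, hM⟩
    have hdet : ∀ z, z ≠ 0 → (V.h z).det ≠ 0 := fun z hz => h_det V hz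
    set M' := M.map (algebraMap K L) with hM'
    set N := M'.map τ with hN
    have h1 : ∀ m ∈ mumfordTate V.h, TP m 2 * N = N * TP m 2 := by
      intro m hm
      have h2 : InMumfordTate V.h (m.map τ.symm) := by
        intro f hf
        have h3 := value_mapL (τ.symm : ℂ →+* L) (fun a => by simp) m f
        rw [hf m hm, map_zero] at h3
        exact h3
      have h3 := (h (m.map τ.symm) (det_map_ne (τ.symm : ℂ →+* L) (mt_det hdet hm))).2 h2
      have h4 : TP (m.map τ.symm) 2 * M' = M' * TP (m.map τ.symm) 2 := by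
        rw [FM_comm]
        intro p
        refine h3 _ ⟨Δ, hΔ, fun s hs => ?_⟩
        have h5 : TP ((ρ s).map (algebraMap K L)) 2 * M' =
            M' * TP ((ρ s).map (algebraMap K L)) 2 := by
          rw [TP_map (algebraMap K L), hM', ← Matrix.map_mul, ← Matrix.map_mul, hM s hs]
        exact FM_comm.1 h5 p
      have h5 := congrArg (fun X => X.map (τ : L →+* ℂ)) h4
      simp only [Matrix.map_mul] at h5
      rw [← TP_map (τ : L →+* ℂ)] at h5
      have h6 : (m.map τ.symm).map (τ : L →+* ℂ) = m := by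
        ext i j
        simp
      rw [h6] at h5
      exact h5
    -- the rational algebra
    have h2 : ∀ X ∈ MQ V.h 2, toField K (bk X) * M = M * toField K (bk X) := by
      intro X hX
      have h3 : bk (toField ℂ X) * N = N * bk (toField ℂ X) := by
        refine Submodule.span_induction (p := fun X _ => bk X * N = N * bk X) ?_ ?_ ?_ ?_
          (mem_MQ.1 hX)
        · rintro _ ⟨m, hm, rfl⟩
          rw [bk_TT]
          exact h1 m hm
        · have h4 : bk (0 : Matrix (Bd κ 2) (Bd κ 2) ℂ) = 0 := rfl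
          rw [h4, Matrix.zero_mul, Matrix.mul_zero]
        · intro a b _ _ ha hb
          have h4 : bk (a + b) = bk a + bk b := rfl
          rw [h4, Matrix.add_mul, Matrix.mul_add, ha, hb]
        · intro c a _ ha
          have h4 : bk (c • a) = c • bk a := rfl
          rw [h4, Matrix.smul_mul, Matrix.mul_smul, ha]
      have h4 := congrArg (fun X => X.map (τ.symm : ℂ →+* L)) h3
      simp only [Matrix.map_mul] at h4
      have h5 : N.map (τ.symm : ℂ →+* L) = M' := by
        ext i j
        simp [hN]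
      have h6 : (bk (toField ℂ X)).map (τ.symm : ℂ →+* L) =
          (toField K (bk X)).map (algebraMap K L) := by
        rw [toField_map]
        ext i j
        simp [toField, bk]
      rw [h5, h6, hM', ← Matrix.map_mul, ← Matrix.map_mul] at h4
      exact map_inj h4
    apply mem_SpM
    intro l z hz
    have h3 : ∀ X ∈ SpM ℂ (Subalgebra.toSubmodule (MQ V.h 2)),
        bk X * toField ℂ (Matrix.of fun i j => l (M i j)) =
          toField ℂ (Matrix.of fun i j => l (M i j)) * bk X := by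
      intro X hX
      refine Submodule.span_induction (p := fun X _ => bk X *
        toField ℂ (Matrix.of fun i j => l (M i j)) =
          toField ℂ (Matrix.of fun i j => l (M i j)) * bk X) ?_ ?_ ?_ ?_ hX
      · rintro _ ⟨x, hx, rfl⟩
        have h4 := form_eq (l := l) (h2 x hx)
        rw [mul_form_left, mul_form_right] at h4
        have h5 := congrArg (toField ℂ) h4
        rw [toField_mul, toField_mul] at h5
        exact h5
      · have h4 : bk (0 : Matrix (Bd κ 2) (Bd κ 2) ℂ) = 0 := rfl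
        rw [h4, Matrix.zero_mul, Matrix.mul_zero]
      · intro a b _ _ ha hb
        have h4 : bk (a + b) = bk a + bk b := rfl
        rw [h4, Matrix.add_mul, Matrix.mul_add, ha, hb]
      · intro c a _ ha
        have h4 : bk (c • a) = c • bk a := rfl
        rw [h4, Matrix.smul_mul, Matrix.mul_smul, ha]
    have h4 := h3 (TT 2 (V.h z)) (MC_le hdet (Submodule.subset_span ⟨_, h_mem_mt hz, rfl⟩))
    rw [bk_TT] at h4
    exact h4
  · intro hM
    obtain ⟨Δ, hΔ, hmax⟩ := exists_max ρ
    refine ⟨Δ, hΔ, fun s hs => ?_⟩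
    have h1 := (h _ (det_map_ne (algebraMap K L) (rho_det (ρ := ρ) s))).1 (inMon_rho hmax hs)
    refine Submodule.span_induction (p := fun M _ => TP (ρ s) 2 * M = M * TP (ρ s) 2)
      ?_ ?_ ?_ ?_ hM
    · rintro _ ⟨A, hA, rfl⟩
      have h2 := comm_of_inMT h1 (show IsHom V A from hA)
      apply map_inj (L := L)
      rw [Matrix.map_mul, Matrix.map_mul, ← TP_map (algebraMap K L)]
      have h3 := toField_map (K := K) (L := L) A
      rw [toField] at h3
      simp only
      rw [h3]
      exact h2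
    · rw [Matrix.mul_zero, Matrix.zero_mul]
    · intro x y _ _ hx hy
      rw [Matrix.mul_add, Matrix.add_mul, hx, hy]
    · intro c x _ hx
      rw [Matrix.mul_smul, Matrix.smul_mul, hx]

end converse

end Pool.Agent.Q60.GL
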