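import Pool.Agent.Q60.GL.Mtc2

/-!
# The two inclusions of the Mumford-Tate conjecture
-/

set_option linter.unusedSectionVars false

namespace Pool.Agent.Q60.GL

open MvPolynomial Module Matrix Pool.Agent.Q60.ED Pool.Agent.Q60.FI Pool.Agent.Q60.TD
  Pool.Agent.Q60.NP Pool.Agent.Q60.MV Pool.Agent.Q60.CJ Pool.Agent.Q60.TP

section one

variable {K L : Type} [Field K] [CharZero K] [Field L] [CharZero L] [Algebra K L]
  {κ : Type} [Fintype κ] [DecidableEq κ] {w : ℤ} {V : HodgeStructure κ w} {Q : Matrix κ κ ℚ}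
  {Γ : Type*} [Group Γ] {ρ : Γ →* Matrix κ κ K}

/-- The endomorphisms of the square of the Hodge structure are Tate endomorphisms. -/
def HTK (V : HodgeStructure κ w) (ρ : Γ →* Matrix κ κ K) : Prop :=
  ∀ M : Matrix (Fin 2 → κ) (Fin 2 → κ) ℚ, IsHom V M → VComm ρ (toField K M)

/-- The Tate endomorphisms of the square are combinations of endomorphisms of the Hodge
structure. -/
def THK (V : HodgeStructure κ w) (ρ : Γ →* Matrix κ κ K) : Prop :=
  ∀ M : Matrix (Fin 2 → κ) (Fin 2 → κ) K, VComm ρ M → M ∈ SpM K (HE V)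

/-- One inclusion. -/
def MonIn (V : HodgeStructure κ w) (ρ : Γ →* Matrix κ κ K) (L : Type) [Field L] [CharZero L]
    [Algebra K L] : Prop :=
  ∀ g : Matrix κ κ L, g.det ≠ 0 → InMon ρ g → InMumfordTate V.h g

/-- The other inclusion. -/
def MTIn (V : HodgeStructure κ w) (ρ : Γ →* Matrix κ κ K) (L : Type) [Field L] [CharZero L]
    [Algebra K L] : Prop :=
  ∀ g : Matrix κ κ L, g.det ≠ 0 → InMumfordTate V.h g → InMon ρ g

/-- **The Lie algebra is contained in the Lie algebra of the Mumford-Tate group.** -/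
theorem lie_le (hQ : IsPolarisation V Q) (hsim : SimK w Q ρ) (htr : TotallyRealCentre V Q)
    (h : HTK V ρ) {B : Matrix κ κ K} (hB : B ∈ LG ρ) :
    ∃ μ : K, B - μ • 1 ∈ HL K hQ ∧ (w = 0 → μ = 0) := by
  obtain ⟨μ, h1, h2⟩ := decomp (pol_det hQ) hsim hB
  refine ⟨μ, fun n t ht => ?_, h2⟩
  have hd := pol_det hQ
  refine hodge_lie_bc (phs hQ) (cen_of hQ htr) (psys (phs hQ)) (fun _ => rfl) (fun s hs => ?_) ht
  have h3 : tenM (opt Q (a := 2) (b := 2) s * TP Q⁻¹ 2) = s := tenM_opt hd _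
  have h4 : IsHom V (opt Q (a := 2) (b := 2) s) := hom_of_tensor hQ (by rw [h3]; exact hs)
  have h5 := am_of_vcomm (h _ h4) hB
  have h6 : am (B - μ • 1) 2 * toField K (opt Q (a := 2) (b := 2) s) =
      toField K (opt Q (a := 2) (b := 2) s) * am (B - μ • 1) 2 := by
    apply comm_dec (μ := -μ)
    have h7 : B - μ • 1 - -μ • 1 = B := by
      rw [neg_smul, sub_neg_eq_add, sub_add_cancel]
    rw [h7]
    exact h5
  have h7 := (kill_iff (toField_det (K := K) hd) h1 _).2 h6
  rw [toField_inv', ← toField_TP, ← toField_mul, ← bc_tenM, h3] at h7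
  exact h7

/-- The Lie algebra commutes with the homomorphisms of Hodge structures. -/
lemma comm_of_dec (hQ : IsPolarisation V Q) {B : Matrix κ κ K} {μ : K}
    (h1 : B - μ • 1 ∈ HL K hQ) (h2 : w = 0 → μ = 0) {a b : ℕ}
    {A : Matrix (Fin a → κ) (Fin b → κ) ℚ} (hA : IsHom V A) :
    am B a * toField K A = toField K A * am B b := by
  have h3 := comm_of_kill hQ (HL_skew hQ h1) h1 hA
  have h4 : ∀ n, am B n = am (B - μ • 1) n + (μ * n) • 1 := by
    intro n
    have h5 : B = (B - μ • 1) + μ • 1 := by rw [sub_add_cancel]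
    conv_lhs => rw [h5, am_add, am_smul, am_one, smul_smul]
  rw [h4 a, h4 b, Matrix.add_mul, Matrix.mul_add, h3, Matrix.smul_mul, Matrix.mul_smul,
    Matrix.one_mul, Matrix.mul_one]
  congr 1
  rcases eq_or_ne w 0 with hw | hw
  · rw [h2 hw, zero_mul, zero_mul]
  · by_cases hab : a = b
    · subst hab
      rfl
    · rw [hom_eq_zero hw hab hA]
      have h6 : toField K (0 : Matrix (Fin a → κ) (Fin b → κ) ℚ) = 0 :=
        Matrix.map_zero _ (map_zero _)
      rw [h6, smul_zero, smul_zero]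

/-- The identity component is contained in the Mumford-Tate group if this holds for the Lie
algebras. -/
theorem mon_le_of (hQ : IsPolarisation V Q)
    (hle : ∀ B ∈ LG ρ, ∃ μ : K, B - μ • 1 ∈ HL K hQ ∧ (w = 0 → μ = 0))
    {g : Matrix κ κ L} (hg : InMon ρ g) : InMumfordTate V.h g := by
  refine inMT_of_comm hQ fun a b A hA => ?_
  obtain ⟨Δ, hΔ, h1⟩ := vcomm_of_am fun B hB => by
    obtain ⟨μ, h2, h3⟩ := hle B hB
    exact comm_of_dec hQ h2 h3 hA
  rw [FM_comm]
  intro p
  refine hg _ ⟨Δ, hΔ, fun s hs => ?_⟩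
  have h2 : TP ((ρ s).map (algebraMap K L)) a * toField L A =
      toField L A * TP ((ρ s).map (algebraMap K L)) b := by
    rw [TP_map (algebraMap K L), TP_map (algebraMap K L), ← toField_map (K := K),
      ← Matrix.map_mul, ← Matrix.map_mul, h1 s hs]
  exact FM_comm.1 h2 p

/-- **The first inclusion from the Hodge endomorphisms of the square.** -/
theorem monIn_of (hQ : IsPolarisation V Q) (hsim : SimK w Q ρ) (htr : TotallyRealCentre V Q)
    (h : HTK V ρ) : MonIn V ρ L := fun _ _ hg =>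
  mon_le_of hQ (fun _ hB => lie_le hQ hsim htr h hB) hg

/-- The converse. -/
theorem ht_of_monIn (h : MonIn V ρ L) : HTK V ρ := by
  intro A hA
  obtain ⟨Δ, hΔ, hmax⟩ := exists_max ρ
  refine ⟨Δ, hΔ, fun s hs => ?_⟩
  have h1 := h _ (det_map_ne (algebraMap K L) (rho_det (ρ := ρ) s)) (inMon_rho hmax hs)
  have h2 := comm_of_inMT h1 hA
  apply map_inj (L := L)
  rw [Matrix.map_mul, Matrix.map_mul, ← TP_map (algebraMap K L), toField_map]
  exact h2

lemma op_mem_of (hQ : IsPolarisation V Q) (hone : w ≠ 0 → 1 ∈ LG ρ)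
    (hge : ∀ B ∈ HL K hQ, B ∈ LG ρ) {c d : ℂ} (hc : w = 0 → c = 0) :
    c • (1 : Matrix κ κ ℂ) + d • PH.dl (phs hQ) ∈ SpM ℂ (nQ ρ) := by
  apply mem_SpM
  intro l
  let l' : ℂ →ₗ[ℚ] ℚ :=
    { toFun := fun x => l (d * x)
      map_add' := fun x y => by rw [mul_add, map_add]
      map_smul' := fun r x => by rw [mul_smul_comm, map_smul]; rfl }
  have h1 : (Matrix.of fun i j => l ((c • (1 : Matrix κ κ ℂ) + d • PH.dl (phs hQ)) i j)) =
      (l c) • (1 : Matrix κ κ ℚ) + Matrix.of fun i j => l' (PH.dl (phs hQ) i j) := by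
    ext i j
    rw [Matrix.of_apply, Matrix.add_apply, Matrix.add_apply, Matrix.smul_apply,
      Matrix.smul_apply, Matrix.smul_apply, map_add, Matrix.of_apply, smul_eq_mul, smul_eq_mul,
      smul_eq_mul]
    congr 1
    rw [Matrix.one_apply, Matrix.one_apply]
    split_ifs
    · rw [mul_one, mul_one]
    · rw [mul_zero, mul_zero, map_zero]
  rw [h1]
  refine Submodule.add_mem _ ?_ ?_
  · rcases eq_or_ne w 0 with hw | hw
    · rw [hc hw, map_zero, zero_smul]
      exact Submodule.zero_mem _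
    · refine Submodule.smul_mem _ _ ?_
      change (1 : Matrix κ κ ℚ).map (algebraMap ℚ K) ∈ LG ρ
      rw [Matrix.map_one _ (map_zero _) (map_one _)]
      exact hone hw
  · exact hge _ (HL_rat (K := K) hQ (PH.form_dl (phs hQ) l'))

/-- The Mumford-Tate group is contained in the identity component if this holds for the Lie
algebras. -/
theorem mt_le_of (hQ : IsPolarisation V Q) (hone : w ≠ 0 → 1 ∈ LG ρ)
    (hge : ∀ B ∈ HL K hQ, B ∈ LG ρ) {g : Matrix κ κ L} (hg : InMumfordTate V.h g) :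
    InMon ρ g := by
  have := tower_rat (K := K) (L := L)
  have hw0 : w = 0 → ((w : ℂ) / 2) = 0 := by
    intro hw
    rw [hw]
    simp
  refine inMon_of fun d => ?_
  refine UA_map (K := ℚ) (L := K) (M := L) (𝔪 := nQ ρ) (𝔫 := LG ρ) (fun y hy => hy) d ?_
  refine TT_mem_of_inMT ?_ ?_ hg d
  · rw [op_f1 hQ]
    exact op_mem_of hQ hone hge hw0
  · rw [op_f2 hQ]
    exact op_mem_of hQ hone hge hw0

end one

end Pool.Agent.Q60.GL
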