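import Pool.Agent.Q60.GL.Mtc3

/-!
# The Lie algebra of the Hodge group is perfect if the centre is totally real
-/

set_option linter.unusedSectionVars false

namespace Pool.Agent.Q60.GL

open MvPolynomial Module Matrix Pool.Agent.Q60.ED Pool.Agent.Q60.FI Pool.Agent.Q60.TD
  Pool.Agent.Q60.NP Pool.Agent.Q60.MV Pool.Agent.Q60.CJ Pool.Agent.Q60.TP

section pos

open scoped ComplexOrder

variable {κ : Type} [Fintype κ] [DecidableEq κ]

/-- The trace of the product of a matrix and its adjoint for a positive form. -/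
lemma trace_pos {B G X : Matrix κ κ ℂ} (hB : B.det ≠ 0) (hG : G = B.conjTranspose * B)
    (h : (X * (G⁻¹ * X.conjTranspose * G)).trace = 0) : X = 0 := by
  have hBu := isUnit_iff_ne_zero.2 hB
  have hBs : IsUnit B.conjTranspose.det := by
    rw [Matrix.det_conjTranspose]
    exact isUnit_iff_ne_zero.2 (star_ne_zero.2 hB)
  set Y := B * X * B⁻¹ with hY
  have h1 : Y.conjTranspose = B.conjTranspose⁻¹ * X.conjTranspose * B.conjTranspose := by
    rw [hY, Matrix.conjTranspose_mul, Matrix.conjTranspose_mul, Matrix.conjTranspose_nonsing_inv,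
      Matrix.mul_assoc]
  have h2 : G⁻¹ = B⁻¹ * B.conjTranspose⁻¹ := by
    rw [hG, Matrix.mul_inv_rev]
  have h3 : (Y * Y.conjTranspose).trace = 0 := by
    rw [← h, h1, hY, h2, hG]
    have h4 : B * X * B⁻¹ * (B.conjTranspose⁻¹ * X.conjTranspose * B.conjTranspose) =
        B * (X * (B⁻¹ * B.conjTranspose⁻¹ * X.conjTranspose * B.conjTranspose)) := by
      simp only [Matrix.mul_assoc]
    rw [h4, Matrix.trace_mul_comm]
    simp only [Matrix.mul_assoc]
  have h5 : Y = 0 := by
    rw [Matrix.trace_mul_conjTranspose_self_eq_zero_iff] at h3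
    exact h3
  have h6 : X = B⁻¹ * Y * B := by
    rw [hY]
    rw [← Matrix.mul_assoc, ← Matrix.mul_assoc, Matrix.nonsing_inv_mul _ hBu, Matrix.one_mul,
      Matrix.mul_assoc, Matrix.nonsing_inv_mul _ hBu, Matrix.mul_one]
  rw [h6, h5, Matrix.mul_zero, Matrix.zero_mul]

end pos

section hodge

variable {κ : Type} [Fintype κ] [DecidableEq κ] {w : ℤ} {V : HodgeStructure κ w}
  {Q : Matrix κ κ ℚ} (hQ : IsPolarisation V Q)

/-- The extension of scalars of the Lie algebra. -/
lemma HL_SpM {K : Type} [Field K] [CharZero K] {B : Matrix κ κ K} (hB : B ∈ HL K hQ) :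
    B ∈ SpM K (HL ℚ hQ) := by
  apply mem_SpM
  intro l n t ht
  exact HL_form hQ hB l n t ht

/-- The Lie algebra over `ℂ` is stable under the Weil operator. -/
lemma HL_weil {X : Matrix κ κ ℂ} (hX : X ∈ HL ℂ hQ) {z : ℂ} (hz : z ≠ 0) :
    cz V z⁻¹ * X * cz V z ∈ HL ℂ hQ := by
  intro n t ht
  have hz' : z⁻¹ ≠ 0 := inv_ne_zero hz
  have h1 : cz V z⁻¹ * X = (cz V z⁻¹ * X * cz V z) * cz V z⁻¹ := by
    have h2 : cz V z * cz V z⁻¹ = 1 := by
      rw [cz, cz, op_mul, ← op_one V]
      refine op_congr V fun a _ => ?_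
      rw [← mul_zpow, mul_inv_cancel₀ hz, _root_.one_zpow]
    rw [Matrix.mul_assoc, h2, Matrix.mul_one]
  have h2 := tpow_aop h1 (bc ℂ t)
  have h3 : tpow (cz V z⁻¹) n (bc ℂ t) = bc ℂ t := by
    have h4 := (PHS.mem_T.1 ht) z⁻¹ hz'
    rw [phs_c hQ hz'] at h4
    exact h4
  rw [h3, hX n t ht, map_zero] at h2
  exact h2.symm

/-- The trace form is nondegenerate on the Lie algebra. -/
lemma HL_trace {X : Matrix κ κ ℚ} (hX : X ∈ HL ℚ hQ)
    (h : ∀ Y ∈ HL ℚ hQ, (X * Y).trace = 0) : X = 0 := by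
  obtain ⟨B, hB, hG⟩ := gram_of hQ
  have hXr : Lie (phs hQ).T X := by
    intro n t ht
    have h1 := hX n t ht
    exact h1
  have hXc : toField ℂ X ∈ HL ℂ hQ := HL_rat (K := ℂ) hQ hXr
  have h1 : ∀ Y ∈ HL ℂ hQ, (toField ℂ X * Y).trace = 0 := by
    intro Y hY
    refine Submodule.span_induction (p := fun Y _ => (toField ℂ X * Y).trace = 0) ?_ ?_ ?_ ?_
      (HL_SpM hQ hY)
    · rintro _ ⟨y, hy, rfl⟩
      have h2 : (toField ℂ X * y.map (algebraMap ℚ ℂ)).trace =
          algebraMap ℚ ℂ (X * y).trace := by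
        have h3 := toField_mul (R := ℂ) X y
        have h4 : (toField ℂ (X * y)).trace = algebraMap ℚ ℂ (X * y).trace := by
          rw [Matrix.trace, Matrix.trace, map_sum]
          rfl
        rw [← h4, h3]
        rfl
      simp only
      rw [h2, h y hy, map_zero]
    · rw [Matrix.mul_zero, Matrix.trace_zero]
    · intro a b _ _ ha hb
      rw [Matrix.mul_add, Matrix.trace_add, ha, hb, add_zero]
    · intro c a _ ha
      rw [Matrix.mul_smul, Matrix.trace_smul, ha, smul_zero]
  have hI : Complex.I ≠ 0 := Complex.I_ne_zero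
  have hW : V.weil = cz V Complex.I := rfl
  have hQd := toField_det (K := ℂ) (pol_det hQ)
  have hWW : cz V Complex.I⁻¹ * cz V Complex.I = 1 := by
    rw [cz, cz, op_mul, ← op_one V]
    refine op_congr V fun a _ => ?_
    rw [← mul_zpow, inv_mul_cancel₀ hI, _root_.one_zpow]
  have h2 := h1 _ (HL_weil hQ hXc hI)
  have hs := HL_skew hQ hXc
  have h3 : (toField ℂ X)ᵀ * toField ℂ Q = -(toField ℂ Q * toField ℂ X) := by
    have hu := isUnit_iff_ne_zero.2 hQd
    have h4 : toField ℂ Q * (toField ℂ X * (toField ℂ Q)⁻¹ + (toField ℂ Q)⁻¹ * (toField ℂ X)ᵀ) *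
        toField ℂ Q = toField ℂ Q * toField ℂ X + (toField ℂ X)ᵀ * toField ℂ Q := by
      rw [Matrix.mul_add, Matrix.add_mul, ← Matrix.mul_assoc (toField ℂ Q) (toField ℂ Q)⁻¹,
        Matrix.mul_nonsing_inv _ hu, Matrix.one_mul, Matrix.mul_assoc (toField ℂ Q),
        Matrix.mul_assoc (toField ℂ X), Matrix.nonsing_inv_mul _ hu, Matrix.mul_one]
    rw [Skw] at hs
    rw [hs, Matrix.mul_zero, Matrix.zero_mul] at h4
    rw [eq_neg_iff_add_eq_zero, add_comm]
    exact h4.symm
  have hG' : toField ℂ Q * cz V Complex.I = B.conjTranspose * B := hG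
  have h4 : ((toField ℂ Q * cz V Complex.I)⁻¹ * (toField ℂ X).conjTranspose *
      (toField ℂ Q * cz V Complex.I)) = -(cz V Complex.I⁻¹ * toField ℂ X * cz V Complex.I) := by
    have h5 : (toField ℂ X).conjTranspose = (toField ℂ X)ᵀ := by
      ext i j
      simp [toField]
    have h6 : (cz V Complex.I)⁻¹ = cz V Complex.I⁻¹ := Matrix.inv_eq_left_inv hWW
    have hu := isUnit_iff_ne_zero.2 hQd
    rw [h5, Matrix.mul_inv_rev, h6]
    calc cz V Complex.I⁻¹ * (toField ℂ Q)⁻¹ * (toField ℂ X)ᵀ * (toField ℂ Q * cz V Complex.I)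
        = cz V Complex.I⁻¹ * (toField ℂ Q)⁻¹ * ((toField ℂ X)ᵀ * toField ℂ Q) *
            cz V Complex.I := by
          simp only [Matrix.mul_assoc]
      _ = -(cz V Complex.I⁻¹ * ((toField ℂ Q)⁻¹ * toField ℂ Q) * toField ℂ X *
            cz V Complex.I) := by
          rw [h3]
          simp only [Matrix.mul_assoc, Matrix.mul_neg, Matrix.neg_mul]
      _ = _ := by rw [Matrix.nonsing_inv_mul _ hu, Matrix.mul_one]
  have h5 : toField ℂ X = 0 := by
    refine trace_pos hB hG' ?_
    rw [h4, Matrix.mul_neg, Matrix.trace_neg, h2, neg_zero]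
  ext i j
  have h6 := congrFun (congrFun h5 i) j
  rw [toField, Matrix.map_apply, Matrix.zero_apply] at h6
  exact (map_eq_zero (algebraMap ℚ ℂ)).1 h6

lemma HL_br {K : Type} [Field K] [CharZero K] {X Y : Matrix κ κ K} (hX : X ∈ HL K hQ)
    (hY : Y ∈ HL K hQ) : X * Y - Y * X ∈ HL K hQ := by
  obtain ⟨P, hP, hP1, hP2⟩ := HL_proj (K := K) hQ
  have h1 := pr_br (toField_det (pol_det hQ)) (HL_skew hQ hX) (HL_comm hQ hX hP) Y
  rw [hP2 Y hY] at h1
  rw [← h1]
  exact hP1 _

include hQ in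
/-- There are no skew central elements if the centre is totally real. -/
lemma central_zero (htr : TotallyRealCentre V Q) {K : Type} [Field K] [CharZero K]
    {z : Matrix κ κ K} (hs : Skw (toField K Q) z)
    (hz : z ∈ SpM K (Subalgebra.toSubmodule (ZA V))) : z = 0 := by
  ext i j
  rw [Matrix.zero_apply]
  apply eq_zero_of_forms (K := ℚ)
  intro l
  have h1 : (Matrix.of fun i j => l (z i j)) ∈ Subalgebra.toSubmodule (ZA V) := form_SpM l hz
  have h2 : (Matrix.of fun i j => l (z i j)) * Q⁻¹ + Q⁻¹ * (Matrix.of fun i j => l (z i j))ᵀ =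
      0 := by
    have h3 : z * toField K Q⁻¹ + toField K Q⁻¹ * zᵀ = 0 := by
      rw [← toField_inv']
      exact hs
    have h4 := form_eq (l := l) h3
    have h5 : (Matrix.of fun i j => l ((z * toField K Q⁻¹ + toField K Q⁻¹ * zᵀ) i j)) =
        (Matrix.of fun i j => l ((z * toField K Q⁻¹) i j)) +
          Matrix.of fun i j => l ((toField K Q⁻¹ * zᵀ) i j) := by
      ext i j
      simp only [Matrix.of_apply, Matrix.add_apply, map_add]
    rw [h5, mul_form_left, mul_form_right] at h4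
    refine h4.trans ?_
    ext i j
    exact map_zero l
  have hu := isUnit_iff_ne_zero.2 (pol_det hQ)
  set c := Matrix.of fun i j => l (z i j) with hc
  have h6 : Q * (c * Q⁻¹ + Q⁻¹ * cᵀ) * Q = Q * c + cᵀ * Q := by
    rw [Matrix.mul_add, Matrix.add_mul, ← Matrix.mul_assoc Q Q⁻¹, Matrix.mul_nonsing_inv _ hu,
      Matrix.one_mul, Matrix.mul_assoc Q, Matrix.mul_assoc c, Matrix.nonsing_inv_mul _ hu,
      Matrix.mul_one]
  rw [h2, Matrix.mul_zero, Matrix.zero_mul] at h6
  have h7 := htr c h1.1 h1.2 (by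
    rw [eq_neg_iff_add_eq_zero, add_comm]
    exact h6.symm)
  exact congrFun (congrFun h7 i) j

/-- The Lie algebra is generated by commutators if the centre is totally real. -/
lemma HL_perfect (htr : TotallyRealCentre V Q) {D : Submodule ℚ (Matrix κ κ ℚ)}
    (hD : ∀ X ∈ HL ℚ hQ, ∀ Y ∈ HL ℚ hQ, X * Y - Y * X ∈ D) : HL ℚ hQ ≤ D := by
  -- the trace form
  let β : HL ℚ hQ →ₗ[ℚ] Module.Dual ℚ (HL ℚ hQ) :=
    LinearMap.mk₂ ℚ (fun x y => ((x : Matrix κ κ ℚ) * (y : Matrix κ κ ℚ)).trace)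
      (fun x x' y => by rw [Submodule.coe_add, Matrix.add_mul, Matrix.trace_add])
      (fun c x y => by rw [Submodule.coe_smul, Matrix.smul_mul, Matrix.trace_smul])
      (fun x y y' => by rw [Submodule.coe_add, Matrix.mul_add, Matrix.trace_add])
      (fun c x y => by rw [Submodule.coe_smul, Matrix.mul_smul, Matrix.trace_smul])
  have hβ : ∀ x y, β x y = ((x : Matrix κ κ ℚ) * (y : Matrix κ κ ℚ)).trace := fun _ _ => rfl
  have hinj : Function.Injective β := by
    rw [← LinearMap.ker_eq_bot, LinearMap.ker_eq_bot']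
    intro x hx
    apply Subtype.ext
    refine HL_trace hQ x.2 fun Y hY => ?_
    have h1 := LinearMap.congr_fun hx ⟨Y, hY⟩
    exact h1
  have hsurj : Function.Surjective β :=
    (LinearMap.injective_iff_surjective_of_finrank_eq_finrank
      (Subspace.dual_finrank_eq).symm).1 hinj
  by_contra hle
  -- the trace of the subspace
  let D' : Submodule ℚ (HL ℚ hQ) := D.comap (HL ℚ hQ).subtype
  have hD' : D' ≠ ⊤ := by
    intro h
    apply hle
    intro x hx
    have h1 : (⟨x, hx⟩ : HL ℚ hQ) ∈ D' := by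
      rw [h]
      exact Submodule.mem_top
    exact h1
  obtain ⟨f, hf, hf'⟩ := Submodule.exists_le_ker_of_lt_top D' (lt_top_iff_ne_top.2 hD')
  obtain ⟨x, rfl⟩ := hsurj f
  have hcom : ∀ Y ∈ HL ℚ hQ, (x : Matrix κ κ ℚ) * Y - Y * x = 0 := by
    intro Y hY
    refine HL_trace hQ (HL_br hQ x.2 hY) fun Z hZ => ?_
    have h1 : (⟨Y * Z - Z * Y, HL_br hQ hY hZ⟩ : HL ℚ hQ) ∈ D' := hD Y hY Z hZ
    have h2 := hf' h1
    rw [LinearMap.mem_ker, hβ] at h2
    simp only at h2
    rw [← h2]
    rw [Matrix.sub_mul, Matrix.mul_sub, Matrix.trace_sub, Matrix.trace_sub, Matrix.mul_assoc,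
      Matrix.mul_assoc, Matrix.trace_mul_comm Y, Matrix.mul_assoc]
  have hx0 : (x : Matrix κ κ ℚ) = 0 := by
    have h1 : (x : Matrix κ κ ℚ) ∈ SpM ℚ (Subalgebra.toSubmodule (ZA V)) :=
      central_mem hQ (fun B hB => (sub_eq_zero.1 (hcom B hB)).symm)
        fun a ha => (K2_comm (HL_comm hQ x.2 (K2_end ha))).symm
    exact central_zero hQ htr (HL_skew hQ x.2) h1
  exact hf (by rw [show x = 0 from Subtype.ext hx0, map_zero])

/-- The Lie algebra over an extension is generated by commutators if the centre is totally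
real. -/
lemma HL_perfect' (htr : TotallyRealCentre V Q) {K : Type} [Field K] [CharZero K]
    {D : Submodule K (Matrix κ κ K)}
    (hD : ∀ X ∈ HL K hQ, ∀ Y ∈ HL K hQ, X * Y - Y * X ∈ D) : HL K hQ ≤ D := by
  let D' : Submodule ℚ (Matrix κ κ ℚ) :=
    { carrier := {x | toField K x ∈ D}
      add_mem' := fun {a b} ha hb => by
        have h1 : toField K (a + b) = toField K a + toField K b :=
          Matrix.map_add _ (fun x y => map_add _ x y) a b
        rw [Set.mem_ofPred_eq, h1]
        exact D.add_mem ha hb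
      zero_mem' := by
        have h1 : toField K (0 : Matrix κ κ ℚ) = 0 := Matrix.map_zero _ (map_zero _)
        rw [Set.mem_ofPred_eq, h1]
        exact D.zero_mem
      smul_mem' := fun c a ha => by
        have h1 : toField K (c • a) = (algebraMap ℚ K c) • toField K a := by
          ext i j
          simp [toField]
        rw [Set.mem_ofPred_eq, h1]
        exact D.smul_mem _ ha }
  have h1 : HL ℚ hQ ≤ D' := by
    refine HL_perfect hQ htr fun X hX Y hY => ?_
    have h2 : toField K (X * Y - Y * X) = toField K X * toField K Y - toField K Y * toField K X := by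
      rw [← toField_mul, ← toField_mul]
      exact Matrix.map_sub _ (fun x y => map_sub _ x y) _ _
    change toField K (X * Y - Y * X) ∈ D
    rw [h2]
    exact hD _ (HL_rat (K := K) hQ fun n t ht => hX n t ht) _
      (HL_rat (K := K) hQ fun n t ht => hY n t ht)
  intro B hB
  refine Submodule.span_induction (p := fun B _ => B ∈ D) ?_ D.zero_mem
    (fun _ _ _ _ hx hy => D.add_mem hx hy) (fun c _ _ hx => D.smul_mem c hx) (HL_SpM hQ hB)
  rintro _ ⟨y, hy, rfl⟩
  exact h1 hy

end hodge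

end Pool.Agent.Q60.GL
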