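import Pool.Agent.Q60.GL.Lower
import Pool.Agent.Q60.CJ.Sys
import Pool.Agent.Q60.MV.Core

/-!
# The Hodge tensors of a polarised Hodge structure
-/

set_option linter.unusedSectionVars false

namespace Pool.Agent.Q60.GL

open MvPolynomial Module Matrix Pool.Agent.Q60.ED Pool.Agent.Q60.FI Pool.Agent.Q60.TD
  Pool.Agent.Q60.NP Pool.Agent.Q60.MV Pool.Agent.Q60.CJ

variable {κ : Type} [Fintype κ] [DecidableEq κ] {w : ℤ} {V : HodgeStructure κ w}
  {Q : Matrix κ κ ℚ}

/-- A bound for the differences of the types. -/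
def bnd (V : HodgeStructure κ w) : ℕ := ∑ a ∈ V.types, (a.1 - a.2).natAbs

lemma le_bnd {a : ℤ × ℤ} (ha : a ∈ V.types) : (a.1 - a.2).natAbs ≤ bnd V :=
  Finset.single_le_sum (f := fun a : ℤ × ℤ => (a.1 - a.2).natAbs) (fun _ _ => Nat.zero_le _) ha

/-- The projections to the pieces with a given difference. -/
noncomputable def En (V : HodgeStructure κ w) (n : ℕ) : Matrix κ κ ℂ :=
  ∑ a ∈ V.types with (a.1 - a.2 + (bnd V : ℤ)).toNat = n, V.e a

/-- The operator `z ^ (a - b)` on the piece of type `(a, b)`. -/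
noncomputable def cz (V : HodgeStructure κ w) (z : ℂ) : Matrix κ κ ℂ :=
  V.op fun a => z ^ (a.1 - a.2)

lemma coch_eq {z : ℂ} (hz : z ≠ 0) : coch (bnd V) (En V) z = cz V z := by
  have h1 : ∑ n ∈ Finset.range (2 * bnd V + 1), z ^ n • En V n =
      ∑ a ∈ V.types, z ^ (a.1 - a.2 + (bnd V : ℤ)).toNat • V.e a := by
    rw [← Finset.sum_fiberwise_of_maps_to (s := V.types) (t := Finset.range (2 * bnd V + 1))
      (g := fun a => (a.1 - a.2 + (bnd V : ℤ)).toNat) (fun a ha => by
        have := le_bnd ha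
        rw [Finset.mem_range]
        omega)]
    refine Finset.sum_congr rfl fun n _ => ?_
    rw [En, Finset.smul_sum]
    refine Finset.sum_congr rfl fun a ha => ?_
    rw [(Finset.mem_filter.1 ha).2]
  rw [coch, h1, Finset.smul_sum, cz, HodgeStructure.op]
  refine Finset.sum_congr rfl fun a ha => ?_
  rw [smul_smul]
  congr 1
  have h2 : ((a.1 - a.2 + (bnd V : ℤ)).toNat : ℤ) = a.1 - a.2 + bnd V := by
    have := le_bnd ha
    omega
  have h3 : z ^ (a.1 - a.2 + (bnd V : ℤ)).toNat = z ^ (a.1 - a.2) * z ^ bnd V := by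
    rw [← zpow_natCast z (a.1 - a.2 + (bnd V : ℤ)).toNat, h2, zpow_add₀ hz, zpow_natCast]
  rw [h3]
  field_simp

lemma op_adj (hQ : IsPolarisation V Q) (f : ℤ × ℤ → ℂ) :
    (V.op f)ᵀ * toField ℂ Q = toField ℂ Q * V.op (fun a => f a.swap) := by
  rw [HodgeStructure.op, HodgeStructure.op, Matrix.transpose_sum, Finset.sum_mul, Finset.mul_sum]
  refine Finset.sum_nbij' Prod.swap Prod.swap (fun a ha => (V.conj a ha).1)
    (fun a ha => (V.conj a ha).1) (fun a _ => Prod.swap_swap a) (fun a _ => Prod.swap_swap a)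
    fun a ha => ?_
  rw [Matrix.transpose_smul, Matrix.smul_mul, e_adj hQ ha, Matrix.mul_smul, Prod.swap_swap]

lemma cz_inv (hQ : IsPolarisation V Q) {z : ℂ} (hz : z ≠ 0) :
    (cz V z)ᵀ * toField ℂ Q * cz V z = toField ℂ Q := by
  rw [cz, op_adj hQ, Matrix.mul_assoc, op_mul]
  have h1 : V.op (fun a => z ^ (a.swap.1 - a.swap.2) * z ^ (a.1 - a.2)) = 1 := by
    rw [← op_one V]
    refine op_congr V fun a _ => ?_
    rw [Prod.fst_swap, Prod.snd_swap, ← zpow_add₀ hz]
    have h2 : a.2 - a.1 + (a.1 - a.2) = 0 := by ring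
    rw [h2, zpow_zero]
  rw [h1, Matrix.mul_one]

/-- The polarised Hodge structure in the other formulation. -/
noncomputable def phs (hQ : IsPolarisation V Q) : PHS κ where
  d := bnd V
  E := En V
  Q := Q
  one := by
    rw [coch_eq one_ne_zero, cz]
    simp only [_root_.one_zpow]
    exact op_one V
  mul := fun z z' hz hz' => by
    rw [coch_eq (mul_ne_zero hz hz'), coch_eq hz, coch_eq hz', cz, cz, cz, op_mul]
    exact op_congr V fun a _ => mul_zpow _ _ _
  inv := fun z hz => by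
    rw [coch_eq hz]
    exact cz_inv hQ hz
  gram := by
    rw [coch_eq Complex.I_ne_zero]
    exact gram_of hQ

lemma phs_c (hQ : IsPolarisation V Q) {z : ℂ} (hz : z ≠ 0) : (phs hQ).c z = cz V z := coch_eq hz

lemma phs_Q (hQ : IsPolarisation V Q) : (phs hQ).Q = Q := rfl

/-- The Hodge tensors are a closed system. -/
noncomputable def psys (P : PHS κ) : PSys P.Q where
  S := P.T
  one := by
    apply mem_T_of_Lie
    intro B _
    funext J
    rw [aop_apply, Finset.univ_eq_empty, Finset.sum_empty]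
    rfl
  mul := by
    intro m n s t hs ht
    apply mem_T_of_Lie
    intro B hB
    rw [aop_tmul, hB m s hs, hB n t ht]
    funext J
    simp [tmul]
  perm := by
    intro n σ t ht
    apply mem_T_of_Lie
    intro B hB
    rw [aop_perm', hB n t ht]
    rfl
  contr := by
    intro m n s t hs ht
    apply mem_T_of_Lie
    intro B hB
    have h0 : aop B (bc ℚ (PHS.Om P.Q)) = 0 := hB 2 _ PHS.Om_mem
    have h1 := skew_of (L := ℚ) (PHS.det_Q (V := P)) h0
    have h2 : P.Q.map (algebraMap ℚ ℚ) = P.Q := by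
      ext i j
      rfl
    rw [h2] at h1
    exact aop_con h1 (hB m s hs) (hB (m + n) t ht)
  cas := PHS.Om_mem

end Pool.Agent.Q60.GL
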