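import Pool.Agent.Q60.GL.Ge

/-!
# The Mumford-Tate conjecture implies semisimplicity
-/

set_option linter.unusedSectionVars false

namespace Pool.Agent.Q60.GL

open MvPolynomial Module Matrix Pool.Agent.Q60.ED Pool.Agent.Q60.FI Pool.Agent.Q60.TD
  Pool.Agent.Q60.NP Pool.Agent.Q60.MV Pool.Agent.Q60.CJ Pool.Agent.Q60.TP

section cplx

variable {κ : Type} [Fintype κ] [DecidableEq κ] {w : ℤ} {V : HodgeStructure κ w}
  {Q : Matrix κ κ ℚ}

lemma adj_dot {G m : Matrix κ κ ℂ} (hGh : G.conjTranspose = G) (hGu : IsUnit G.det)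
    (u v : κ → ℂ) : star ((G⁻¹ * m.conjTranspose * G) *ᵥ u) ⬝ᵥ (G *ᵥ v) =
      star u ⬝ᵥ (G *ᵥ (m *ᵥ v)) := by
  rw [Matrix.star_mulVec, ← Matrix.dotProduct_mulVec, Matrix.conjTranspose_mul,
    Matrix.conjTranspose_mul, Matrix.conjTranspose_conjTranspose, hGh,
    Matrix.conjTranspose_nonsing_inv, hGh, Matrix.mulVec_mulVec, Matrix.mulVec_mulVec,
    Matrix.mul_assoc, Matrix.mul_assoc, Matrix.nonsing_inv_mul _ hGu, Matrix.mul_one]

/-- Invariant complements for the Mumford-Tate group over `ℂ`. -/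
lemma mt_compl (hQ : IsPolarisation V Q) {U : Submodule ℂ (κ → ℂ)}
    (hU : ∀ m ∈ mumfordTate V.h, ∀ v ∈ U, m *ᵥ v ∈ U) :
    ∃ C : Submodule ℂ (κ → ℂ), IsCompl U C ∧ ∀ m ∈ mumfordTate V.h, ∀ v ∈ C, m *ᵥ v ∈ C := by
  set G : Matrix κ κ ℂ := toField ℂ Q * V.weil with hG
  obtain ⟨B, hB, hGB⟩ := gram_of hQ
  have hGB' : G = B.conjTranspose * B := hGB
  have hGh : G.conjTranspose = G := by
    rw [hGB', Matrix.conjTranspose_mul, Matrix.conjTranspose_conjTranspose]
  have hGd : G.det ≠ 0 := by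
    rw [hGB', Matrix.det_mul, Matrix.det_conjTranspose]
    exact mul_ne_zero (star_ne_zero.2 hB) hB
  have hGu := isUnit_iff_ne_zero.2 hGd
  have hdet : ∀ z, z ≠ 0 → (V.h z).det ≠ 0 := fun z hz => h_det V hz
  let b := Module.finBasis ℂ U
  let F : (κ → ℂ) →ₗ[ℂ] (Fin (finrank ℂ U) → ℂ) :=
    { toFun := fun v i => star (b i : κ → ℂ) ⬝ᵥ (G *ᵥ v)
      map_add' := fun v v' => by
        funext i
        rw [Matrix.mulVec_add, dotProduct_add]
        rfl
      map_smul' := fun c v => by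
        funext i
        rw [Matrix.mulVec_smul, dotProduct_smul]
        rfl }
  have hF : ∀ v, v ∈ LinearMap.ker F ↔ ∀ u ∈ U, star u ⬝ᵥ (G *ᵥ v) = 0 := by
    intro v
    rw [LinearMap.mem_ker]
    constructor
    · intro h u hu
      have h1 : u = ∑ i, b.repr ⟨u, hu⟩ i • (b i : κ → ℂ) := (sum_bas b ⟨u, hu⟩).symm
      rw [h1, star_sum, sum_dotProduct]
      refine Finset.sum_eq_zero fun i _ => ?_
      have h2 : star (b i : κ → ℂ) ⬝ᵥ (G *ᵥ v) = 0 := congrFun h i
      rw [star_smul, smul_dotProduct, h2, smul_zero]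
    · intro h
      funext i
      exact h _ (b i).2
  refine ⟨LinearMap.ker F, ?_, ?_⟩
  · have hdis : Disjoint U (LinearMap.ker F) := by
      rw [Submodule.disjoint_def]
      intro v hv hv'
      by_contra hne
      obtain ⟨r, hr, h1⟩ := hQ.pos v hne
      have h2 := (hF v).1 hv' v hv
      rw [h1] at h2
      exact hr.ne' (by exact_mod_cast h2)
    rw [Submodule.isCompl_iff_disjoint _ _ ?_]
    · exact hdis
    · have h1 := LinearMap.finrank_range_add_finrank_ker F
      have h2 : finrank ℂ (LinearMap.range F) ≤ finrank ℂ U := by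
        have h3 := Submodule.finrank_le (LinearMap.range F)
        rwa [Module.finrank_fin_fun] at h3
      rw [← h1]
      exact Nat.add_le_add_right h2 _
  · intro m hm v hv
    rw [hF] at hv ⊢
    intro u hu
    -- the adjoint
    have hconj : m.map (starRingEnd ℂ) ∈ mumfordTate V.h :=
      mt_aut hdet (starRingAut : ℂ ≃+* ℂ) hm
    have hadj : adjM Q (m.map (starRingEnd ℂ)) ∈ mumfordTate V.h :=
      mt_adj hdet (pol_det hQ) (fun z hz => by
        rw [adjM_h hQ]
        exact h_mem_mt ((map_ne_zero _).2 hz)) hconj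
    have hW : V.weil ∈ mumfordTate V.h := by
      rw [weil_eq_h]
      exact h_mem_mt (neg_ne_zero.2 Complex.I_ne_zero)
    have h1 : V.weil⁻¹ * adjM Q (m.map (starRingEnd ℂ)) * V.weil ∈ mumfordTate V.h :=
      mt_mul (mt_mul (mt_inv hW) hadj) hW
    have h2 : V.weil⁻¹ * adjM Q (m.map (starRingEnd ℂ)) * V.weil =
        G⁻¹ * m.conjTranspose * G := by
      rw [hG, Matrix.mul_inv_rev, adjM, toField_inv']
      have h3 : (m.map (starRingEnd ℂ))ᵀ = m.conjTranspose := rfl
      rw [h3]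
      simp only [Matrix.mul_assoc]
    rw [h2] at h1
    have h3 := hv _ (hU _ h1 u hu)
    rw [← adj_dot hGh hGu]
    exact h3

end cplx

section main

variable {K L : Type} [Field K] [CharZero K] [Field L] [CharZero L] [Algebra K L]
  {κ : Type} [Fintype κ] [DecidableEq κ] {w : ℤ} {V : HodgeStructure κ w} {Q : Matrix κ κ ℚ}
  {Γ : Type*} [Group Γ] {ρ : Γ →* Matrix κ κ K}

lemma inMT_map (τ : L ≃+* ℂ) {m : Matrix κ κ ℂ} (hm : m ∈ mumfordTate V.h) :
    InMumfordTate V.h (m.map τ.symm) := by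
  intro f hf
  have h3 := value_mapL (τ.symm : ℂ →+* L) (fun a => by simp) m f
  rw [hf m hm, map_zero] at h3
  exact h3

lemma mt_of_inMT (τ : L ≃+* ℂ) {g : Matrix κ κ L} (hd : g.det ≠ 0)
    (hg : InMumfordTate V.h g) : g.map τ ∈ mumfordTate V.h := by
  rw [mem_mt fun z hz => h_det V hz]
  refine ⟨det_map_ne (τ : L →+* ℂ) hd, fun f hf => ?_⟩
  have h3 := value_mapL (τ : L →+* ℂ) (fun a => by simp) g f
  rw [hg f hf, map_zero] at h3
  exact h3

/-- Invariant complements for the Mumford-Tate group over a field isomorphic to `ℂ`. -/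
lemma mt_complL (hQ : IsPolarisation V Q) (τ : L ≃+* ℂ) {U : Submodule L (κ → L)}
    (hU : ∀ g : Matrix κ κ L, g.det ≠ 0 → InMumfordTate V.h g → ∀ v ∈ U, g *ᵥ v ∈ U) :
    ∃ C : Submodule L (κ → L), IsCompl U C ∧
      ∀ g : Matrix κ κ L, g.det ≠ 0 → InMumfordTate V.h g → ∀ v ∈ C, g *ᵥ v ∈ C := by
  have hmv : ∀ (g : Matrix κ κ ℂ) (v : κ → ℂ),
      (fun i => τ.symm ((g *ᵥ v) i)) = (g.map τ.symm) *ᵥ fun i => τ.symm (v i) := by
    intro g v
    funext i
    rw [Matrix.mulVec, dotProduct, map_sum, Matrix.mulVec, dotProduct]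
    exact Finset.sum_congr rfl fun j _ => by rw [map_mul]; rfl
  have hmv' : ∀ (g : Matrix κ κ L) (v : κ → L),
      (fun i => τ ((g *ᵥ v) i)) = (g.map τ) *ᵥ fun i => τ (v i) := by
    intro g v
    funext i
    rw [Matrix.mulVec, dotProduct, map_sum, Matrix.mulVec, dotProduct]
    exact Finset.sum_congr rfl fun j _ => by rw [map_mul]; rfl
  let U' : Submodule ℂ (κ → ℂ) :=
    { carrier := {v | (fun i => τ.symm (v i)) ∈ U}
      add_mem' := fun {a b} ha hb => by
        have h1 := U.add_mem ha hb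
        have h2 : (fun i => τ.symm ((a + b) i)) =
            (fun i => τ.symm (a i)) + fun i => τ.symm (b i) := by
          funext i
          simp
        rw [Set.mem_ofPred_eq, h2]
        exact h1
      zero_mem' := by
        have h2 : (fun i : κ => τ.symm ((0 : κ → ℂ) i)) = 0 := by
          funext i
          simp
        rw [Set.mem_ofPred_eq, h2]
        exact U.zero_mem
      smul_mem' := fun c a ha => by
        have h1 := U.smul_mem (τ.symm c) ha
        have h2 : (fun i => τ.symm ((c • a) i)) = τ.symm c • fun i => τ.symm (a i) := by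
          funext i
          simp
        rw [Set.mem_ofPred_eq, h2]
        exact h1 }
  have hU' : ∀ v, v ∈ U' ↔ (fun i => τ.symm (v i)) ∈ U := fun _ => Iff.rfl
  obtain ⟨C', hC, hC'⟩ := mt_compl hQ (U := U') (fun m hm v hv => by
    rw [hU', hmv]
    exact hU _ (det_map_ne (τ.symm : ℂ →+* L) (mt_det (fun z hz => h_det V hz) hm))
      (inMT_map τ hm) _ hv)
  let C : Submodule L (κ → L) :=
    { carrier := {v | (fun i => τ (v i)) ∈ C'}
      add_mem' := fun {a b} ha hb => by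
        have h1 := C'.add_mem ha hb
        have h2 : (fun i => τ ((a + b) i)) = (fun i => τ (a i)) + fun i => τ (b i) := by
          funext i
          simp
        rw [Set.mem_ofPred_eq, h2]
        exact h1
      zero_mem' := by
        have h2 : (fun i : κ => τ ((0 : κ → L) i)) = 0 := by
          funext i
          simp
        rw [Set.mem_ofPred_eq, h2]
        exact C'.zero_mem
      smul_mem' := fun c a ha => by
        have h1 := C'.smul_mem (τ c) ha
        have h2 : (fun i => τ ((c • a) i)) = τ c • fun i => τ (a i) := by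
          funext i
          simp
        rw [Set.mem_ofPred_eq, h2]
        exact h1 }
  have hCm : ∀ v, v ∈ C ↔ (fun i => τ (v i)) ∈ C' := fun _ => Iff.rfl
  refine ⟨C, ⟨?_, ?_⟩, fun g hd hg v hv => ?_⟩
  · rw [Submodule.disjoint_def]
    intro v hv hv'
    have h1 : (fun i => τ (v i)) ∈ U' := by
      rw [hU']
      have h2 : (fun i => τ.symm (τ (v i))) = v := by
        funext i
        simp
      rw [h2]
      exact hv
    have h3 := (Submodule.disjoint_def.1 hC.disjoint) _ h1 hv'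
    funext i
    have h4 := congrFun h3 i
    exact (map_eq_zero τ).1 h4
  · rw [codisjoint_iff, eq_top_iff]
    intro v _
    have h1 : (fun i => τ (v i)) ∈ U' ⊔ C' := by
      rw [hC.sup_eq_top]
      exact Submodule.mem_top
    obtain ⟨a, ha, c, hc, hac⟩ := Submodule.mem_sup.1 h1
    have h2 : v = (fun i => τ.symm (a i)) + fun i => τ.symm (c i) := by
      funext i
      have h3 := congrFun hac i
      rw [Pi.add_apply] at h3
      rw [Pi.add_apply, ← map_add, h3, RingEquiv.symm_apply_apply]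
    rw [h2]
    refine Submodule.add_mem_sup ((hU' a).1 ha) ?_
    rw [hCm]
    have h3 : (fun i => τ (τ.symm (c i))) = c := by
      funext i
      simp
    rw [h3]
    exact hc
  · rw [hCm, hmv']
    exact hC' _ (mt_of_inMT τ hd hg) _ hv

/-- The polynomial function `g ↦ φ (g v)`. -/
noncomputable def pv (φ : (κ → L) →ₗ[L] L) (v : κ → L) : MvPolynomial (κ × κ) L :=
  ∑ i, ∑ j, C (φ (Pi.single i 1) * v j) * X (i, j)

lemma value_pv (φ : (κ → L) →ₗ[L] L) (v : κ → L) (g : Matrix κ κ L) :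
    value g (pv φ v) = φ (g *ᵥ v) := by
  rw [← form_sum φ (g *ᵥ v), value, pv, map_sum]
  refine Finset.sum_congr rfl fun i _ => ?_
  rw [map_sum, Matrix.mulVec, dotProduct, Finset.mul_sum]
  refine Finset.sum_congr rfl fun j _ => ?_
  rw [map_mul, aeval_C, aeval_X, Algebra.algebraMap_self_apply]
  ring

/-- Subspaces which are stable under a subgroup of finite index are stable under the identity
component of the monodromy group. -/
lemma stab_inMon {U : Submodule L (κ → L)} {Δ : Subgroup Γ} (hΔ : Δ.FiniteIndex)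
    (hU : ∀ s ∈ Δ, ∀ v ∈ U, (ρ s).map (algebraMap K L) *ᵥ v ∈ U) {g : Matrix κ κ L}
    (hg : InMon ρ g) {v : κ → L} (hv : v ∈ U) : g *ᵥ v ∈ U := by
  by_contra hne
  obtain ⟨φ, hφ1, hφ2⟩ := Submodule.exists_dual_map_eq_bot_of_notMem hne inferInstance
  have hφ : ∀ w ∈ U, φ w = 0 := by
    intro w hw
    have h1 : φ w ∈ U.map φ := ⟨w, hw, rfl⟩
    rw [hφ2] at h1
    exact (Submodule.mem_bot L).1 h1
  apply hφ1
  rw [← value_pv]
  refine hg _ ⟨Δ, hΔ, fun s hs => ?_⟩
  rw [value_pv]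
  exact hφ _ (hU s hs v hv)

/-- **The Mumford-Tate conjecture implies semisimplicity.** -/
theorem ss_of_mtc (hQ : IsPolarisation V Q) (τ : L ≃+* ℂ) (h : MTCK V ρ L) : SsV ρ := by
  obtain ⟨Δ, hΔ, hmax⟩ := exists_max ρ
  have h1 : SSon (MO (bcM L '' {A | ∃ s ∈ Δ, ρ s = A})) (bcS L (⊤ : Submodule K (κ → K))) := by
    rw [bcS_top]
    intro U _ hU
    have h2 : ∀ s ∈ Δ, ∀ v ∈ U, (ρ s).map (algebraMap K L) *ᵥ v ∈ U := by
      intro s hs v hv
      exact hU _ ⟨_, ⟨_, ⟨s, hs, rfl⟩, rfl⟩, rfl⟩ v hv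
    obtain ⟨C, hC, hC'⟩ := mt_complL hQ τ (U := U) fun g hd hg v hv =>
      stab_inMon hΔ h2 ((h g hd).2 hg) hv
    refine ⟨C, le_top, ?_, hC.inf_eq_bot, hC.sup_eq_top⟩
    rintro _ ⟨_, ⟨_, ⟨s, hs, rfl⟩, rfl⟩, rfl⟩ v hv
    have hd := det_map_ne (algebraMap K L) (rho_det (ρ := ρ) s)
    exact hC' _ hd ((h _ hd).1 (inMon_rho hmax hs)) v hv
  have h2 := ss_descend (L := L) (fun _ _ _ _ => Submodule.mem_top) h1
  have h3 : SSon (Op (opG ρ) Δ) (⊤ : Submodule K (κ → K)) := by
    intro W hW hWs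
    obtain ⟨C, hC, hC1, hC2, hC3⟩ := h2 W hW (by
      rintro _ ⟨_, ⟨s, hs, rfl⟩, rfl⟩ v hv
      exact hWs _ ⟨s, hs, rfl⟩ v hv)
    refine ⟨C, hC, ?_, hC2, hC3⟩
    rintro _ ⟨s, hs, rfl⟩ v hv
    exact hC1 _ ⟨_, ⟨s, hs, rfl⟩, rfl⟩ v hv
  have h4 := maschke Δ (fun _ _ _ _ => Submodule.mem_top) h3
  intro W hW
  obtain ⟨C, -, hC1, hC2, hC3⟩ := h4 W le_top (by
    rintro _ ⟨s, _, rfl⟩ v hv
    exact hW s v hv)
  refine ⟨C, ⟨disjoint_iff.2 hC2, codisjoint_iff.2 hC3⟩, fun s v hv => ?_⟩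
  exact hC1 _ ⟨s, Subgroup.mem_top s, rfl⟩ v hv

end main

end Pool.Agent.Q60.GL
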