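import Pool.Agent.Q60.GL.Stb
import Pool.Agent.Q60.GL.Key
import Pool.Agent.Helper462.Cb.Chev

/-!
# Semisimplicity of the square for the Lie algebra

The Lie algebra of a semisimple representation acts semisimply on the square of the
representation.
-/

set_option linter.unusedSectionVars false

namespace Pool.Agent.Q60.GL

open MvPolynomial Module Matrix Pool.Agent.Q60.ED Pool.Agent.Q60.FI Pool.Agent.Q60.TD
  Pool.Agent.Q60.NP Pool.Agent.Q60.TP

section alg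

variable {K : Type} [Field K] {κ : Type} [Fintype κ] [DecidableEq κ] {q : Matrix κ κ K}

lemma skew_t {A : Matrix κ κ K} (hA : Skw q A) : (q⁻¹)ᵀ * Aᵀ = -(A * (q⁻¹)ᵀ) := by
  have h1 := congrArg Matrix.transpose hA
  rw [Matrix.transpose_add, Matrix.transpose_mul, Matrix.transpose_mul,
    Matrix.transpose_transpose, Matrix.transpose_zero] at h1
  exact eq_neg_of_add_eq_zero_left h1

/-- The infinitesimal action on the tensor of a matrix is the commutator. -/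
lemma am_tv {A : Matrix κ κ K} (hA : Skw q A) (B : Matrix κ κ K) :
    am A 2 *ᵥ tv q B = tv q (A * B - B * A) := by
  rw [tv, am_vec, tv]
  congr 1
  rw [Matrix.sub_mul, Matrix.mul_assoc B, skew_t hA, Matrix.mul_neg, ← sub_eq_add_neg,
    Matrix.mul_assoc, Matrix.mul_assoc]

lemma skw_br {A B : Matrix κ κ K} (hA : Skw q A) (hB : Skw q B) : Skw q (A * B - B * A) := by
  have h1 : A * q⁻¹ = -(q⁻¹ * Aᵀ) := eq_neg_of_add_eq_zero_left hA
  have h2 : B * q⁻¹ = -(q⁻¹ * Bᵀ) := eq_neg_of_add_eq_zero_left hB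
  rw [Skw, Matrix.sub_mul, Matrix.transpose_sub, Matrix.mul_sub, Matrix.transpose_mul,
    Matrix.transpose_mul, Matrix.mul_assoc A, h2, Matrix.mul_assoc B, h1, Matrix.mul_neg,
    Matrix.mul_neg, ← Matrix.mul_assoc A, h1, ← Matrix.mul_assoc B, h2]
  simp only [Matrix.neg_mul, Matrix.mul_assoc]
  abel

lemma tv_surj (hq : q.det ≠ 0) (t : (Fin 2 → κ) → K) : ∃ B, tv q B = t := by
  refine ⟨mat2 t * qᵀ, ?_⟩
  rw [tv_mul_right hq]
  funext w
  rw [NP.vec, mat2, Matrix.of_apply]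
  congr 1
  funext k
  fin_cases k <;> rfl

end alg

section main

variable {K : Type} [Field K] [CharZero K] {κ : Type} [Fintype κ] [DecidableEq κ]
  {q : Matrix κ κ K} {Γ : Type*} [Group Γ] {ρ : Γ →* Matrix κ κ K}

/-- The hypotheses on the form. -/
structure SH (q : Matrix κ κ K) (ρ : Γ →* Matrix κ κ K) : Prop where
  det : q.det ≠ 0
  sim : ∀ s, ∃ c : K, (ρ s)ᵀ * q * ρ s = c • q
  dec : ∀ B ∈ LG ρ, ∃ μ : K, B - μ • 1 ∈ LG ρ ⊓ skS q

variable (h : SH q ρ)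

include h

lemma SH.tv_conj (s : Γ) : ∃ c : K, ∀ A : Matrix κ κ K, TP (ρ s) 2 *ᵥ tv q A =
    c • tv q (ρ s * A * ρ s⁻¹) := by
  obtain ⟨c, hcs⟩ := h.sim s
  have h1 := congrArg Matrix.transpose (sim_Om h.det (rho_det s) hcs)
  rw [Matrix.transpose_mul, Matrix.transpose_mul, Matrix.transpose_transpose,
    Matrix.transpose_smul, ← Matrix.mul_assoc] at h1
  refine ⟨c, fun A => ?_⟩
  rw [tv, TP_vec, tv]
  have h2 : ρ s * (A * (q⁻¹)ᵀ) * (ρ s)ᵀ = c • (ρ s * A * ρ s⁻¹ * (q⁻¹)ᵀ) := by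
    calc ρ s * (A * (q⁻¹)ᵀ) * (ρ s)ᵀ
        = ρ s * A * (ρ s⁻¹ * ρ s) * (q⁻¹)ᵀ * (ρ s)ᵀ := by
          rw [rep_inv', Matrix.mul_one]
          simp only [Matrix.mul_assoc]
      _ = ρ s * A * ρ s⁻¹ * (ρ s * (q⁻¹)ᵀ * (ρ s)ᵀ) := by
          simp only [Matrix.mul_assoc]
      _ = _ := by rw [h1, Matrix.mul_smul]
  rw [h2]
  rfl

/-- The skew part is closed under commutators. -/
lemma SH.br {A B : Matrix κ κ K} (hA : A ∈ LG ρ ⊓ skS q) (hB : B ∈ LG ρ ⊓ skS q) :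
    A * B - B * A ∈ LG ρ ⊓ skS q := by
  refine ⟨?_, skw_br hA.2 hB.2⟩
  have h1 : am A 2 *ᵥ tvL q B ∈ (LG ρ).map (tvL q) := by
    refine am_stab (Δ := ⊤) inferInstance ?_ hA.1 ⟨B, hB.1, rfl⟩
    rintro s _ _ ⟨X, hX, rfl⟩
    obtain ⟨c, hc⟩ := h.tv_conj s
    exact ⟨c • (ρ s * X * ρ s⁻¹), Submodule.smul_mem _ c (LG_conj s hX), by
      rw [map_smul]
      exact (hc X).symm⟩
  obtain ⟨C, hC, hC'⟩ := h1
  have h2 : tv q C = tv q (A * B - B * A) := by
    rw [← am_tv hA.2]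
    exact hC'
  rw [← tv_inj h.det h2]
  exact hC

/-- The extension of scalars of the skew part is closed under commutators. -/
lemma SH.brL {L : Type} [Field L] [Algebra K L] {X Y : Matrix κ κ L}
    (hX : X ∈ SpM L (LG ρ ⊓ skS q)) (hY : Y ∈ SpM L (LG ρ ⊓ skS q)) :
    X * Y - Y * X ∈ SpM L (LG ρ ⊓ skS q) := by
  refine Submodule.span_induction (p := fun X _ => X * Y - Y * X ∈ SpM L (LG ρ ⊓ skS q))
    ?_ ?_ ?_ ?_ hX
  · rintro _ ⟨A, hA, rfl⟩
    refine Submodule.span_induction (p := fun Y _ => A.map (algebraMap K L) * Y -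
      Y * A.map (algebraMap K L) ∈ SpM L (LG ρ ⊓ skS q)) ?_ ?_ ?_ ?_ hY
    · rintro _ ⟨B, hB, rfl⟩
      have h1 : A.map (algebraMap K L) * B.map (algebraMap K L) -
          B.map (algebraMap K L) * A.map (algebraMap K L) =
          (A * B - B * A).map (algebraMap K L) := by
        rw [Matrix.map_sub _ (fun a b => map_sub _ a b), Matrix.map_mul, Matrix.map_mul]
      rw [h1]
      exact map_mem_SpM (h.br hA hB)
    · rw [Matrix.mul_zero, Matrix.zero_mul, sub_zero]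
      exact Submodule.zero_mem _
    · intro x y _ _ hx hy
      rw [Matrix.mul_add, Matrix.add_mul, add_sub_add_comm]
      exact Submodule.add_mem _ hx hy
    · intro c x _ hx
      rw [Matrix.mul_smul, Matrix.smul_mul, ← smul_sub]
      exact Submodule.smul_mem _ c hx
  · rw [Matrix.mul_zero, Matrix.zero_mul, sub_zero]
    exact Submodule.zero_mem _
  · intro x y _ _ hx hy
    rw [Matrix.mul_add, Matrix.add_mul, add_sub_add_comm]
    exact Submodule.add_mem _ hx hy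
  · intro c x _ hx
    rw [Matrix.mul_smul, Matrix.smul_mul, ← smul_sub]
    exact Submodule.smul_mem _ c hx

omit h

lemma skw_SpM {L : Type} [Field L] [Algebra K L] {X : Matrix κ κ L}
    (hX : X ∈ SpM L (LG ρ ⊓ skS q)) : Skw (q.map (algebraMap K L)) X := by
  have h1 : SpM L (LG ρ ⊓ skS q) ≤ skS (q.map (algebraMap K L)) := by
    rw [SpM, Submodule.span_le]
    rintro _ ⟨A, hA, rfl⟩
    change Skw _ _
    have h2 : A * q⁻¹ + q⁻¹ * Aᵀ = 0 := hA.2
    have h3 := congrArg (fun M => M.map (algebraMap K L)) h2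
    simp only [Matrix.map_add _ (fun a b => map_add (algebraMap K L) a b), Matrix.map_mul] at h3
    rw [Skw, map_inv_mat q L]
    exact h3.trans (Matrix.map_zero _ (map_zero _))
  exact h1 hX

lemma bcS_top {B : Type} [Fintype B] [DecidableEq B] (L : Type) [Field L] [Algebra K L] :
    bcS L (⊤ : Submodule K (B → K)) = ⊤ := by
  rw [eq_top_iff]
  intro v _
  exact mem_bcS fun _ => Submodule.mem_top

include h

/-- Semisimplicity over the algebraic closure. -/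
lemma SH.ssL (hss : SsV ρ) {W : Submodule (AlgebraicClosure K) (κ → AlgebraicClosure K)}
    (hW : ∀ X ∈ SpM (AlgebraicClosure K) (LG ρ ⊓ skS q), ∀ v ∈ W, X *ᵥ v ∈ W) :
    ∃ W' : Submodule (AlgebraicClosure K) (κ → AlgebraicClosure K),
      (∀ X ∈ SpM (AlgebraicClosure K) (LG ρ ⊓ skS q), ∀ v ∈ W', X *ᵥ v ∈ W') ∧
        IsCompl W W' := by
  have h1 := ss_extend (L := AlgebraicClosure K) (N := (LG ρ : Set (Matrix κ κ K)))
    (U := (⊤ : Submodule K (κ → K))) (fun _ _ _ _ => Submodule.mem_top) (ss_LG hss)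
  rw [bcS_top] at h1
  obtain ⟨C, _, hC1, hC2, hC3⟩ := h1 W le_top (by
    rintro _ ⟨_, ⟨A, hA, rfl⟩, rfl⟩ v hv
    obtain ⟨μ, hμ⟩ := h.dec A hA
    have h2 := hW _ (map_mem_SpM hμ) v hv
    have h3 : A.map (algebraMap K (AlgebraicClosure K)) *ᵥ v =
        (A - μ • 1).map (algebraMap K (AlgebraicClosure K)) *ᵥ v +
          algebraMap K (AlgebraicClosure K) μ • v := by
      have h4 : A.map (algebraMap K (AlgebraicClosure K)) =
          (A - μ • 1).map (algebraMap K (AlgebraicClosure K)) +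
          algebraMap K (AlgebraicClosure K) μ • 1 := by
        ext i j
        simp only [Matrix.map_apply, Matrix.sub_apply, Matrix.add_apply, Matrix.smul_apply,
          smul_eq_mul, map_sub, map_mul, Matrix.one_apply]
        split_ifs <;> simp
      rw [h4, Matrix.add_mulVec, Matrix.smul_mulVec, Matrix.one_mulVec]
    change A.map (algebraMap K (AlgebraicClosure K)) *ᵥ v ∈ W
    rw [h3]
    exact Submodule.add_mem _ h2 (Submodule.smul_mem _ _ hv))
  refine ⟨C, fun X hX v hv => ?_, ⟨disjoint_iff.2 hC2, codisjoint_iff.2 hC3⟩⟩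
  refine Submodule.span_induction (p := fun X _ => X *ᵥ v ∈ C) ?_ ?_ ?_ ?_ hX
  · rintro _ ⟨A, hA, rfl⟩
    exact hC1 _ ⟨_, ⟨A, hA.1, rfl⟩, rfl⟩ v hv
  · rw [Matrix.zero_mulVec]
    exact Submodule.zero_mem _
  · intro x y _ _ hx hy
    rw [Matrix.add_mulVec]
    exact Submodule.add_mem _ hx hy
  · intro c x _ hx
    rw [Matrix.smul_mulVec]
    exact Submodule.smul_mem _ c hx

/-- Semisimplicity of the square over the algebraic closure. -/
lemma SH.sqL (hss : SsV ρ)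
    {U : Submodule (AlgebraicClosure K) ((Fin 2 → κ) → AlgebraicClosure K)}
    (hU : ∀ X ∈ SpM (AlgebraicClosure K) (LG ρ ⊓ skS q), ∀ v ∈ U, am X 2 *ᵥ v ∈ U) :
    ∃ U' : Submodule (AlgebraicClosure K) ((Fin 2 → κ) → AlgebraicClosure K),
      (∀ X ∈ SpM (AlgebraicClosure K) (LG ρ ⊓ skS q), ∀ v ∈ U', am X 2 *ᵥ v ∈ U') ∧
        IsCompl U U' := by
  have : CharZero (AlgebraicClosure K) :=
    charZero_of_injective_algebraMap (algebraMap K (AlgebraicClosure K)).injective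
  set L := AlgebraicClosure K with hL
  set Q' : Matrix κ κ L := q.map (algebraMap K L) with hQ'
  have hd : Q'.det ≠ 0 := det_map_ne (algebraMap K L) h.det
  let S : Submodule L (Module.End L (κ → L)) :=
    (SpM L (LG ρ ⊓ skS q)).map (Matrix.toLin' : Matrix κ κ L ≃ₗ[L] _).toLinearMap
  have hS : ∀ X, X ∈ SpM L (LG ρ ⊓ skS q) → Matrix.toLin' X ∈ S := fun X hX => ⟨X, hX, rfl⟩
  have hbr : ∀ x ∈ S, ∀ y ∈ S, x * y - y * x ∈ S := by
    rintro _ ⟨X, hX, rfl⟩ _ ⟨Y, hY, rfl⟩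
    refine ⟨X * Y - Y * X, h.brL hX hY, ?_⟩
    change Matrix.toLin' (X * Y - Y * X) = Matrix.toLin' X * Matrix.toLin' Y -
      Matrix.toLin' Y * Matrix.toLin' X
    rw [map_sub, Matrix.toLin'_mul, Matrix.toLin'_mul]
    rfl
  have hV : ∀ W : Submodule L (κ → L), (∀ x ∈ S, ∀ w ∈ W, x w ∈ W) →
      ∃ W' : Submodule L (κ → L), (∀ x ∈ S, ∀ w ∈ W', x w ∈ W') ∧ IsCompl W W' := by
    intro W hW
    obtain ⟨W', h1, h2⟩ := h.ssL hss (W := W) fun X hX v hv => hW _ (hS X hX) v hv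
    refine ⟨W', ?_, h2⟩
    rintro _ ⟨X, hX, rfl⟩ v hv
    exact h1 X hX v hv
  let Ψ : Module.End L (κ → L) →ₗ[L] ((Fin 2 → κ) → L) :=
    tvL Q' ∘ₗ (LinearMap.toMatrix' : _ ≃ₗ[L] Matrix κ κ L).toLinearMap
  have hΨ : ∀ f, Ψ f = tv Q' (LinearMap.toMatrix' f) := fun _ => rfl
  have hΨi : Function.Injective Ψ := by
    intro f g hfg
    rw [hΨ, hΨ] at hfg
    exact LinearMap.toMatrix'.injective (tv_inj hd hfg)
  have hΨs : Function.Surjective Ψ := by
    intro t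
    obtain ⟨B, hB⟩ := tv_surj hd t
    exact ⟨Matrix.toLin' B, by rw [hΨ, LinearMap.toMatrix'_toLin', hB]⟩
  have hΨc : ∀ X, X ∈ SpM L (LG ρ ⊓ skS q) → ∀ f : Module.End L (κ → L),
      Ψ (Matrix.toLin' X * f - f * Matrix.toLin' X) = am X 2 *ᵥ Ψ f := by
    intro X hX f
    rw [hΨ, hΨ, am_tv (skw_SpM hX), map_sub]
    have h1 : LinearMap.toMatrix' (Matrix.toLin' X * f) = X * LinearMap.toMatrix' f := by
      rw [Module.End.mul_eq_comp, LinearMap.toMatrix'_comp, LinearMap.toMatrix'_toLin']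
    have h2 : LinearMap.toMatrix' (f * Matrix.toLin' X) = LinearMap.toMatrix' f * X := by
      rw [Module.End.mul_eq_comp, LinearMap.toMatrix'_comp, LinearMap.toMatrix'_toLin']
    rw [h1, h2]
  obtain ⟨W', h1, h2⟩ := Cb.lie_ad_all L (κ → L) S hbr hV (U.comap Ψ) (by
    rintro _ ⟨X, hX, rfl⟩ f hf
    change Ψ (Matrix.toLin' X * f - f * Matrix.toLin' X) ∈ U
    rw [hΨc X hX]
    exact hU X hX _ hf)
  refine ⟨W'.map Ψ, ?_, ?_, ?_⟩
  · rintro X hX _ ⟨f, hf, rfl⟩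
    exact ⟨_, h1 _ (hS X hX) f hf, hΨc X hX f⟩
  · rw [disjoint_iff, eq_bot_iff]
    rintro _ ⟨hv, f, hf, rfl⟩
    have h3 : f ∈ U.comap Ψ ⊓ W' := ⟨hv, hf⟩
    rw [h2.inf_eq_bot] at h3
    rw [(Submodule.mem_bot L).1 h3, map_zero]
    exact Submodule.zero_mem _
  · rw [codisjoint_iff, eq_top_iff]
    intro v _
    obtain ⟨f, rfl⟩ := hΨs v
    have h3 : f ∈ U.comap Ψ ⊔ W' := by
      rw [h2.sup_eq_top]
      trivial
    obtain ⟨a, ha, b, hb, rfl⟩ := Submodule.mem_sup.1 h3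
    rw [map_add]
    exact Submodule.add_mem_sup ha ⟨b, hb, rfl⟩

/-- **The Lie algebra acts semisimply on the square of a semisimple representation.** -/
theorem SH.ss_sq (hss : SsV ρ) :
    SSon (MO ((fun A => am A 2) '' (LG ρ ⊓ skS q : Submodule K (Matrix κ κ K))))
      (⊤ : Submodule K ((Fin 2 → κ) → K)) := by
  refine ss_descend (L := AlgebraicClosure K) (fun _ _ _ _ => Submodule.mem_top) ?_
  rw [bcS_top]
  intro U _ hU
  have h1 : ∀ X ∈ SpM (AlgebraicClosure K) (LG ρ ⊓ skS q), ∀ v ∈ U, am X 2 *ᵥ v ∈ U := by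
    intro X hX v hv
    refine Submodule.span_induction (p := fun X _ => am X 2 *ᵥ v ∈ U) ?_ ?_ ?_ ?_ hX
    · rintro _ ⟨A, hA, rfl⟩
      simp only
      rw [am_map]
      exact hU _ ⟨_, ⟨_, ⟨A, hA, rfl⟩, rfl⟩, rfl⟩ v hv
    · rw [am_zero, Matrix.zero_mulVec]
      exact Submodule.zero_mem _
    · intro x y _ _ hx hy
      rw [am_add, Matrix.add_mulVec]
      exact Submodule.add_mem _ hx hy
    · intro c x _ hx
      rw [am_smul, Matrix.smul_mulVec]
      exact Submodule.smul_mem _ c hx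
  obtain ⟨U', h2, h3⟩ := h.sqL hss h1
  refine ⟨U', le_top, ?_, h3.inf_eq_bot, h3.sup_eq_top⟩
  rintro _ ⟨_, ⟨_, ⟨A, hA, rfl⟩, rfl⟩, rfl⟩ v hv
  have h4 := h2 _ (map_mem_SpM hA) v hv
  rw [am_map] at h4
  exact h4

/-- Projections onto the stable subspaces of the square. -/
theorem SH.proj (hss : SsV ρ) {W : Submodule K ((Fin 2 → κ) → K)}
    (hW : ∀ A ∈ LG ρ ⊓ skS q, ∀ v ∈ W, am A 2 *ᵥ v ∈ W) :
    ∃ P : Matrix (Fin 2 → κ) (Fin 2 → κ) K, (∀ A ∈ LG ρ ⊓ skS q, am A 2 * P = P * am A 2) ∧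
      (∀ v, P *ᵥ v ∈ W) ∧ ∀ v ∈ W, P *ᵥ v = v := by
  obtain ⟨p, hp1, hp2, hp3⟩ := (ss_iff (fun _ _ _ _ => Submodule.mem_top)).1 (h.ss_sq hss) W le_top
    (by
      rintro _ ⟨_, ⟨A, hA, rfl⟩, rfl⟩ v hv
      exact hW A hA v hv)
  have hPv : ∀ v, LinearMap.toMatrix' p *ᵥ v = p v := fun v => by
    rw [← Matrix.toLin'_apply, Matrix.toLin'_toMatrix']
  refine ⟨LinearMap.toMatrix' p, fun A hA => ?_, fun v => ?_, fun v hv => ?_⟩
  · apply Matrix.toLin'.injective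
    refine LinearMap.ext fun v => ?_
    rw [Matrix.toLin'_apply, Matrix.toLin'_apply, ← Matrix.mulVec_mulVec, ← Matrix.mulVec_mulVec,
      hPv, hPv]
    exact (hp3 _ ⟨_, ⟨A, hA, rfl⟩, rfl⟩ v Submodule.mem_top).symm
  · rw [hPv]
    exact hp2 _ Submodule.mem_top
  · rw [hPv]
    exact hp1 _ hv

end main

end Pool.Agent.Q60.GL
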