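import Pool.Agent.Q60.GL.LieG
import Pool.Agent.Q60.FI.LieEq
import Pool.Agent.Q60.ED.ThmB
import Pool.Agent.Q60.TD.Bc

/-!
# Stable subspaces for the Lie algebra and for subgroups of finite index
-/

set_option linter.unusedSectionVars false

namespace Pool.Agent.Q60.GL

open MvPolynomial Algebra Module Matrix Pool.Agent.Q60.ED Pool.Agent.Q60.FI Pool.Agent.Q60.TD

variable {K : Type} [Field K] {ι : Type} [Fintype ι] [DecidableEq ι]

/-- The polynomial function `g ↦ φ (g v)`. -/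
noncomputable def pf {n : ℕ} (φ : ((Fin n → ι) → K) →ₗ[K] K) (v : (Fin n → ι) → K) :
    MvPolynomial (ι × ι) K := ∑ I, C (φ (Pi.single I 1)) * xt v I

lemma form_sum {B : Type} [Fintype B] [DecidableEq B] (φ : (B → K) →ₗ[K] K) (v : B → K) :
    ∑ I, φ (Pi.single I 1) * v I = φ v := by
  conv_rhs => rw [pi_eq_sum_univ' v, map_sum]
  refine Finset.sum_congr rfl fun I _ => ?_
  rw [map_smul, smul_eq_mul, mul_comm]

lemma evM_pf (g : Matrix ι ι K) {n : ℕ} (φ : ((Fin n → ι) → K) →ₗ[K] K) (v : (Fin n → ι) → K) :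
    evM g (pf φ v) = φ (TP g n *ᵥ v) := by
  rw [pf, map_sum, ← form_sum φ, ← tpow_eq]
  refine Finset.sum_congr rfl fun I _ => ?_
  rw [map_mul, evM_C, evM_xt]

lemma dA_pf (A : Matrix ι ι K) {n : ℕ} (φ : ((Fin n → ι) → K) →ₗ[K] K) (v : (Fin n → ι) → K) :
    dA A (pf φ v) = pf φ (am A n *ᵥ v) := by
  rw [pf, map_sum, pf]
  refine Finset.sum_congr rfl fun I _ => ?_
  rw [Derivation.leibniz, dA_C, smul_zero, add_zero, smul_eq_mul, dA_xt, am_mulVec]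

lemma pf_add {n : ℕ} (φ : ((Fin n → ι) → K) →ₗ[K] K) (v w : (Fin n → ι) → K) :
    pf φ (v + w) = pf φ v + pf φ w := by
  rw [pf, pf, pf, ← Finset.sum_add_distrib]
  exact Finset.sum_congr rfl fun I _ => by rw [xt_add, mul_add]

lemma pf_smul {n : ℕ} (φ : ((Fin n → ι) → K) →ₗ[K] K) (c : K) (v : (Fin n → ι) → K) :
    pf φ (c • v) = C c * pf φ v := by
  rw [pf, pf, Finset.mul_sum]
  exact Finset.sum_congr rfl fun I _ => by rw [xt_smul, smul_eq_C_mul]; ring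

lemma pf_sum {n : ℕ} (φ : ((Fin n → ι) → K) →ₗ[K] K) {T : Type} (s : Finset T)
    (v : T → (Fin n → ι) → K) : pf φ (∑ t ∈ s, v t) = ∑ t ∈ s, pf φ (v t) := by
  classical
  induction s using Finset.induction_on with
  | empty =>
    rw [Finset.sum_empty, Finset.sum_empty]
    have h1 := pf_smul φ 0 (0 : (Fin n → ι) → K)
    rwa [zero_smul, map_zero, zero_mul] at h1
  | insert a s ha ih => rw [Finset.sum_insert ha, Finset.sum_insert ha, pf_add, ih]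

variable {Γ : Type*} [Group Γ] {ρ : Γ →* Matrix ι ι K}

/-- Subspaces which are stable for a subgroup of finite index are stable for the Lie algebra. -/
theorem am_stab {n : ℕ} {W : Submodule K ((Fin n → ι) → K)} {Δ : Subgroup Γ}
    (hΔ : Δ.FiniteIndex) (h : ∀ s ∈ Δ, ∀ v ∈ W, TP (ρ s) n *ᵥ v ∈ W) {A : Matrix ι ι K}
    (hA : A ∈ LG ρ) {v : (Fin n → ι) → K} (hv : v ∈ W) : am A n *ᵥ v ∈ W := by
  by_contra hne
  obtain ⟨φ, hφ1, hφ2⟩ := Submodule.exists_dual_map_eq_bot_of_notMem hne inferInstance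
  have hφ : ∀ w ∈ W, φ w = 0 := by
    intro w hw
    have h1 : φ w ∈ W.map φ := ⟨w, hw, rfl⟩
    rw [hφ2] at h1
    exact (Submodule.mem_bot K).1 h1
  have h1 : pf φ v ∈ VG ρ Δ := by
    rw [mem_VG]
    intro s hs
    rw [evM_pf]
    exact hφ _ (h s hs v hv)
  have h2 := mem_LG.1 hA Δ hΔ _ h1
  rw [← evM_dA, dA_pf, evM_pf, TP_one, Matrix.one_mulVec] at h2
  exact hφ1 h2

lemma TP_inv_mulVec (s : Γ) {n : ℕ} (v : (Fin n → ι) → K) :
    TP (ρ s) n *ᵥ (TP (ρ s⁻¹) n *ᵥ v) = v := by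
  rw [Matrix.mulVec_mulVec, ← TP_mul, rep_inv, TP_one, Matrix.one_mulVec]

lemma TP_inv_mulVec' (s : Γ) {n : ℕ} (v : (Fin n → ι) → K) :
    TP (ρ s⁻¹) n *ᵥ (TP (ρ s) n *ᵥ v) = v := by
  rw [Matrix.mulVec_mulVec, ← TP_mul, rep_inv', TP_one, Matrix.one_mulVec]

lemma sum_bas {B : Type} {W : Submodule K (B → K)} {T : Type} [Fintype T] (b : Basis T K W)
    (v : W) : ∑ k, b.repr v k • (b k : B → K) = v := by
  have h3 := congrArg Subtype.val (b.sum_repr v)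
  rw [Submodule.coe_sum] at h3
  exact h3

/-- **Subspaces which are stable for the Lie algebra are stable for a subgroup of finite index.** -/
theorem grp_stab [CharZero K] {n : ℕ} {W : Submodule K ((Fin n → ι) → K)}
    (h : ∀ A ∈ LG ρ, ∀ v ∈ W, am A n *ᵥ v ∈ W) :
    ∃ Δ : Subgroup Γ, Δ.FiniteIndex ∧ ∀ s ∈ Δ, ∀ v ∈ W, TP (ρ s) n *ᵥ v ∈ W := by
  classical
  obtain ⟨Δ, hΔ, hmin⟩ := exists_sub ρ
  obtain ⟨W', hc⟩ := Submodule.exists_isCompl W
  let p := Submodule.projection W W' hc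
  have hp1 : ∀ v, p v ∈ W := fun v => Submodule.projection_apply_mem hc v
  have hp2 : ∀ v, v ∈ W ↔ p v = v := fun v => (Submodule.projection_eq_self_iff hc v).symm
  let φ : (Fin n → ι) → (((Fin n → ι) → K) →ₗ[K] K) := fun I =>
    LinearMap.proj I ∘ₗ (LinearMap.id - p)
  have hφ : ∀ v, (∀ I, φ I v = 0) ↔ v ∈ W := by
    intro v
    rw [hp2]
    constructor
    · intro h1
      funext I
      exact (sub_eq_zero.1 (h1 I)).symm
    · intro h1 I
      have h2 : φ I v = v I - p v I := rfl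
      rw [h2, h1, sub_self]
  let b := Module.finBasis K W
  let F : ((Fin n → ι) × Fin (finrank K W)) → MvPolynomial (ι × ι) K :=
    fun x => pf (φ x.1) (b x.2 : (Fin n → ι) → K)
  obtain ⟨u, hu1, hu⟩ := exists_unit_family (VG_le Δ) (fun A hA f hf => dA_VG A hA f hf) F
    (fun x => by
      rw [mem_P1, evM_pf, TP_one, Matrix.one_mulVec]
      exact (hφ _).2 (b x.2).2 x.1)
    (fun A hA x => by
      rw [dA_pf]
      have h1 : am A n *ᵥ (b x.2 : (Fin n → ι) → K) ∈ W := h A (hmin A hA) _ (b x.2).2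
      have h2 : am A n *ᵥ (b x.2 : (Fin n → ι) → K) =
          ∑ k, b.repr ⟨_, h1⟩ k • (b k : (Fin n → ι) → K) := by
        exact (sum_bas b ⟨_, h1⟩).symm
      rw [h2, pf_sum]
      refine Submodule.mem_sup_left (Ideal.sum_mem _ fun k _ => ?_)
      rw [pf_smul]
      exact Ideal.mul_mem_left _ _ (Ideal.subset_span ⟨(x.1, k), rfl⟩))
  let H : Subgroup Γ :=
    { carrier := {s | s ∈ Δ ∧ ∀ v, v ∈ W ↔ TP (ρ s) n *ᵥ v ∈ W}
      mul_mem' := by
        rintro s t ⟨hs, hs'⟩ ⟨ht, ht'⟩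
        refine ⟨Δ.mul_mem hs ht, fun v => ?_⟩
        rw [map_mul, TP_mul, ← Matrix.mulVec_mulVec, ← hs', ← ht']
      one_mem' := ⟨Δ.one_mem, fun v => by rw [map_one, TP_one, Matrix.one_mulVec]⟩
      inv_mem' := by
        rintro s ⟨hs, hs'⟩
        refine ⟨Δ.inv_mem hs, fun v => ?_⟩
        rw [hs' (TP (ρ s⁻¹) n *ᵥ v), TP_inv_mulVec] }
  have hHΔ : H ≤ Δ := fun s hs => hs.1
  refine ⟨H, finite_index_of_unit (ρ := ρ) hHΔ (u := u) (by rw [hu1]; exact one_ne_zero)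
    (fun s hs hne => ⟨hs, ?_⟩), fun s hs v hv => (hs.2 v).1 hv⟩
  have h1 : ∀ v ∈ W, TP (ρ s) n *ᵥ v ∈ W := by
    intro v hv
    have h2 : v = ∑ k, b.repr ⟨v, hv⟩ k • (b k : (Fin n → ι) → K) := by
      exact (sum_bas b ⟨v, hv⟩).symm
    rw [h2, Matrix.mulVec_sum]
    refine Submodule.sum_mem _ fun k _ => ?_
    rw [Matrix.mulVec_smul]
    refine Submodule.smul_mem _ _ ((hφ _).1 fun I => ?_)
    have h4 := mem_VG.1 (hu (I, k)) s hs
    rw [map_mul, evM_pf] at h4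
    exact (mul_eq_zero.1 h4).resolve_left hne
  intro v
  refine ⟨fun hv => h1 v hv, fun hv => ?_⟩
  let L : W →ₗ[K] W := (Matrix.toLin' (TP (ρ s) n)).restrict h1
  have hinj : Function.Injective L := by
    intro x y hxy
    apply Subtype.ext
    have h2 : TP (ρ s) n *ᵥ (x : (Fin n → ι) → K) = TP (ρ s) n *ᵥ (y : (Fin n → ι) → K) :=
      congrArg Subtype.val hxy
    rw [← TP_inv_mulVec' (ρ := ρ) s (x : (Fin n → ι) → K), h2, TP_inv_mulVec']
  obtain ⟨x, hx⟩ := LinearMap.surjective_of_injective hinj ⟨_, hv⟩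
  have h2 : TP (ρ s) n *ᵥ (x : (Fin n → ι) → K) = TP (ρ s) n *ᵥ v := congrArg Subtype.val hx
  have h3 : (x : (Fin n → ι) → K) = v := by
    rw [← TP_inv_mulVec' (ρ := ρ) s (x : (Fin n → ι) → K), h2, TP_inv_mulVec']
  rw [← h3]
  exact x.2

/-- The vector as a tensor of degree one. -/
def e1 (v : ι → K) : (Fin 1 → ι) → K := fun I => v (I 0)

lemma e1_inj {v w : ι → K} (h : e1 v = e1 w) : v = w := by
  funext i
  exact congrFun h ![i]

lemma TP_e1 (g : Matrix ι ι K) (v : ι → K) : TP g 1 *ᵥ e1 v = e1 (g *ᵥ v) := by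
  funext I
  rw [Matrix.mulVec, dotProduct, e1, Matrix.mulVec, dotProduct,
    ← (Equiv.funUnique (Fin 1) ι).sum_comp]
  refine Finset.sum_congr rfl fun J _ => ?_
  rw [TP_apply, Fin.prod_univ_one, e1]
  rfl

lemma am_e1 (A : Matrix ι ι K) (v : ι → K) : am A 1 *ᵥ e1 v = e1 (A *ᵥ v) := by
  rw [am_mulVec]
  funext I
  rw [NP.aop_apply, Fin.sum_univ_one, e1, Matrix.mulVec, dotProduct]
  refine Finset.sum_congr rfl fun j _ => ?_
  rw [e1, Function.update_self]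

/-- The tensors of degree one as a linear map. -/
def e1L : (ι → K) →ₗ[K] ((Fin 1 → ι) → K) where
  toFun := e1
  map_add' _ _ := rfl
  map_smul' _ _ := rfl

/-- The representation is semisimple. -/
def SsV (ρ : Γ →* Matrix ι ι K) : Prop :=
  ∀ W : Submodule K (ι → K), (∀ s, ∀ v ∈ W, ρ s *ᵥ v ∈ W) →
    ∃ W' : Submodule K (ι → K), IsCompl W W' ∧ ∀ s, ∀ v ∈ W', ρ s *ᵥ v ∈ W'

/-- The operators of the group. -/
def opG (ρ : Γ →* Matrix ι ι K) : Γ →* Module.End K (ι → K) where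
  toFun s := Matrix.toLin' (ρ s)
  map_one' := by
    rw [map_one, Matrix.toLin'_one]
    rfl
  map_mul' s t := by
    rw [map_mul, Matrix.toLin'_mul]
    rfl

/-- **Semisimplicity for the group implies semisimplicity for the Lie algebra.** -/
theorem ss_LG [CharZero K] (h : SsV ρ) :
    SSon (MO (LG ρ : Set (Matrix ι ι K))) (⊤ : Submodule K (ι → K)) := by
  intro W _ hW
  have h1 : ∀ A ∈ LG ρ, ∀ v ∈ W.map e1L, am A 1 *ᵥ v ∈ W.map e1L := by
    rintro A hA _ ⟨v, hv, rfl⟩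
    exact ⟨A *ᵥ v, hW _ ⟨A, hA, rfl⟩ v hv, (am_e1 A v).symm⟩
  obtain ⟨Δ, hΔ, hΔ2⟩ := grp_stab h1
  have h2 : Stab (Op (opG ρ) Δ) W := by
    rintro _ ⟨s, hs, rfl⟩ v hv
    obtain ⟨v', hv', h3⟩ := hΔ2 s hs _ ⟨v, hv, rfl⟩
    have h4 : e1 v' = e1 (ρ s *ᵥ v) := h3.trans (TP_e1 (ρ s) v)
    change ρ s *ᵥ v ∈ W
    rw [← e1_inj h4]
    exact hv'
  have h3 : SSon (Op (opG ρ) ⊤) (⊤ : Submodule K (ι → K)) := by
    intro W _ hW
    obtain ⟨W', h4, h5⟩ := h W fun s v hv => hW _ ⟨s, Subgroup.mem_top _, rfl⟩ v hv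
    refine ⟨W', le_top, ?_, h4.inf_eq_bot, h4.sup_eq_top⟩
    rintro _ ⟨s, _, rfl⟩ v hv
    exact h5 s v hv
  obtain ⟨C, hC, hC1, hC2, hC3⟩ := ss_finiteIndex Δ (fun _ _ _ _ => Submodule.mem_top) h3 W le_top h2
  refine ⟨C, hC, ?_, hC2, hC3⟩
  rintro _ ⟨A, hA, rfl⟩ v hv
  have h5 := am_stab (n := 1) (W := C.map e1L) hΔ (by
    rintro s hs _ ⟨v, hv, rfl⟩
    exact ⟨ρ s *ᵥ v, hC1 _ ⟨s, hs, rfl⟩ v hv, (TP_e1 (ρ s) v).symm⟩) hA ⟨v, hv, rfl⟩
  obtain ⟨v', hv', h6⟩ := h5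
  have h7 : e1 v' = e1 (A *ᵥ v) := h6.trans (am_e1 A v)
  change A *ᵥ v ∈ C
  rw [← e1_inj h7]
  exact hv'

end Pool.Agent.Q60.GL
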