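import Pool.Agent.Q60.GL.Phs
import Pool.Agent.Q60.MV.Nd

/-!
# Homomorphisms between tensor powers and tensors
-/

set_option linter.unusedSectionVars false

namespace Pool.Agent.Q60.GL

open MvPolynomial Module Matrix Pool.Agent.Q60.ED Pool.Agent.Q60.FI Pool.Agent.Q60.TD
  Pool.Agent.Q60.NP Pool.Agent.Q60.MV Pool.Agent.Q60.CJ

section alg

variable {K : Type} [Field K] {κ : Type} [Fintype κ] [DecidableEq κ]

lemma TP_am {g A B : Matrix κ κ K} (h : g * A = B * g) (n : ℕ) :
    TP g n * am A n = am B n * TP g n := by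
  refine Matrix.toLin'.injective (LinearMap.ext fun t => ?_)
  rw [Matrix.toLin'_apply, Matrix.toLin'_apply, ← Matrix.mulVec_mulVec, ← Matrix.mulVec_mulVec,
    am_mulVec, am_mulVec, ← tpow_eq, ← tpow_eq]
  exact Pool.Agent.Q60.FI.tpow_aop h t

lemma am_transpose (x : Matrix κ κ K) (n : ℕ) : am xᵀ n = (am x n)ᵀ := by
  ext I J
  have h1 := aop_adj x (Pi.single I 1 : (Fin n → κ) → K) (Pi.single J 1)
  simp only [Pi.single_apply, mul_ite, mul_one, mul_zero, ite_mul, one_mul, zero_mul,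
    Finset.sum_ite_eq', Finset.mem_univ, if_true] at h1
  rw [Matrix.transpose_apply, am, am, Matrix.of_apply, Matrix.of_apply]
  exact h1.symm

lemma am_neg (x : Matrix κ κ K) (n : ℕ) : am (-x) n = -am x n := by
  have h1 := am_smul (-1 : K) x n
  rwa [neg_one_smul, neg_one_smul] at h1

lemma am_one (n : ℕ) : am (1 : Matrix κ κ K) n = (n : K) • 1 := by
  have h1 : am (1 : Matrix κ κ K) n * 1 = (n : K) • 1 := by
    ext I J
    rw [am_mul, Matrix.smul_apply, smul_eq_mul]
    have h2 : ∀ k : Fin n, ∑ j, (1 : Matrix κ κ K) (I k) j *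
        (1 : Matrix (Fin n → κ) (Fin n → κ) K) (Function.update I k j) J =
        (1 : Matrix (Fin n → κ) (Fin n → κ) K) I J := by
      intro k
      rw [Finset.sum_eq_single (I k)]
      · rw [Matrix.one_apply_eq, one_mul, Function.update_eq_self]
      · intro j _ hj
        rw [Matrix.one_apply_ne (Ne.symm hj), zero_mul]
      · intro h
        exact absurd (Finset.mem_univ _) h
    rw [Finset.sum_congr rfl fun k _ => h2 k, Finset.sum_const, Finset.card_univ, Fintype.card_fin,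
      nsmul_eq_mul]
  rwa [Matrix.mul_one] at h1

/-- The skew matrices for the inverse of the form. -/
def Skw (Q : Matrix κ κ K) (B : Matrix κ κ K) : Prop := B * Q⁻¹ + Q⁻¹ * Bᵀ = 0

variable {Q : Matrix κ κ K}

lemma TP_skew {B : Matrix κ κ K} (hB : Skw Q B) (n : ℕ) :
    TP Q⁻¹ n * (am B n)ᵀ = -(am B n * TP Q⁻¹ n) := by
  have h1 : Q⁻¹ * Bᵀ = (-B) * Q⁻¹ := by
    rw [Matrix.neg_mul]
    exact eq_neg_of_add_eq_zero_right hB
  have h2 := TP_am h1 n
  rw [am_transpose, am_neg, Matrix.neg_mul] at h2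
  exact h2

/-- A skew matrix annihilates the tensor of a homomorphism if and only if it commutes with it. -/
lemma kill_iff (hQ : Q.det ≠ 0) {B : Matrix κ κ K} (hB : Skw Q B) {a b : ℕ}
    (A : Matrix (Fin a → κ) (Fin b → κ) K) :
    aop B (tenM (A * TP Q⁻¹ b)) = 0 ↔ am B a * A = A * am B b := by
  have h1 : ∀ I J, aop B (tenM (A * TP Q⁻¹ b)) (Fin.append I J) =
      ((am B a * A - A * am B b) * TP Q⁻¹ b) I J := by
    intro I J
    rw [aop_tenM, Matrix.mul_assoc A, TP_skew hB, Matrix.mul_neg, ← sub_eq_add_neg,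
      Matrix.sub_mul, Matrix.mul_assoc, Matrix.mul_assoc]
  constructor
  · intro h
    have h2 : (am B a * A - A * am B b) * TP Q⁻¹ b = 0 := by
      ext I J
      rw [← h1, h]
      rfl
    have h3 := congrArg (fun M => M * TP Q b) h2
    simp only [Matrix.mul_assoc, (TP_det hQ b).2, Matrix.mul_one, Matrix.zero_mul] at h3
    exact sub_eq_zero.1 h3
  · intro h
    funext L
    obtain ⟨I, J, rfl⟩ : ∃ (I : Fin a → κ) (J : Fin b → κ), L = Fin.append I J :=
      ⟨fun k => L (Fin.castAdd b k), fun k => L (Fin.natAdd a k),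
        (Fin.append_castAdd_natAdd (f := L)).symm⟩
    rw [h1, h, sub_self, Matrix.zero_mul]
    rfl

/-- The matrix of a tensor. -/
def unten {a b : ℕ} (t : (Fin (a + b) → κ) → K) : Matrix (Fin a → κ) (Fin b → κ) K :=
  Matrix.of fun I J => t (Fin.append I J)

lemma tenM_unten {a b : ℕ} (t : (Fin (a + b) → κ) → K) : tenM (unten (a := a) (b := b) t) = t := by
  funext L
  rw [tenM, unten, Matrix.of_apply, Fin.append_castAdd_natAdd]

/-- The operator with the tensor `t`. -/
noncomputable def opt (Q : Matrix κ κ K) {a b : ℕ} (t : (Fin (a + b) → κ) → K) :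
    Matrix (Fin a → κ) (Fin b → κ) K := unten t * TP Q b

lemma tenM_opt (hQ : Q.det ≠ 0) {a b : ℕ} (t : (Fin (a + b) → κ) → K) :
    tenM (opt Q (a := a) (b := b) t * TP Q⁻¹ b) = t := by
  rw [opt, Matrix.mul_assoc, (TP_det hQ b).1, Matrix.mul_one, tenM_unten]

/-- The tensor product of two matrices. -/
def K2 (x y : Matrix κ κ K) : Matrix (Fin 2 → κ) (Fin 2 → κ) K :=
  Matrix.of fun I J => x (I 0) (J 0) * y (I 1) (J 1)

lemma K2_mul (x y x' y' : Matrix κ κ K) : K2 x y * K2 x' y' = K2 (x * x') (y * y') := by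
  ext I J
  rw [Matrix.mul_apply, sum_fin_two]
  simp only [K2, Matrix.of_apply, Matrix.cons_val_zero, Matrix.cons_val_one, Matrix.mul_apply,
    Finset.sum_mul_sum]
  exact Finset.sum_congr rfl fun c _ => Finset.sum_congr rfl fun d _ => by ring

lemma TP_two (g : Matrix κ κ K) : TP g 2 = K2 g g := by
  ext I J
  rw [TP_apply, Fin.prod_univ_two, K2, Matrix.of_apply]

lemma am_two (x : Matrix κ κ K) : am x 2 = K2 x 1 + K2 1 x := by
  ext I J
  have h1 := congrFun (congrFun (Matrix.mul_one (am x 2)) I) J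
  rw [← h1, am_mul, Fin.sum_univ_two, Matrix.add_apply, K2, K2, Matrix.of_apply, Matrix.of_apply]
  have h2 : ∀ (I : Fin 2 → κ), ((1 : Matrix (Fin 2 → κ) (Fin 2 → κ) K) I J) =
      (1 : Matrix κ κ K) (I 0) (J 0) * (1 : Matrix κ κ K) (I 1) (J 1) := by
    intro I
    have h3 := congrFun (congrFun (TP_one (ι := κ) (K := K) 2) I) J
    rw [← h3, TP_apply, Fin.prod_univ_two]
  congr 1
  · rw [Finset.sum_eq_single (J 0)]
    · rw [h2, Function.update_self, Function.update_of_ne (by decide), Matrix.one_apply_eq, one_mul]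
    · intro j _ hj
      rw [h2, Function.update_self, Matrix.one_apply_ne hj, zero_mul, mul_zero]
    · intro h
      exact absurd (Finset.mem_univ _) h
  · rw [Finset.sum_eq_single (J 1)]
    · rw [h2, Function.update_self, Function.update_of_ne (by decide), Matrix.one_apply_eq, mul_one,
        mul_comm]
    · intro j _ hj
      rw [h2, Function.update_self, Matrix.one_apply_ne hj, mul_zero, mul_zero]
    · intro h
      exact absurd (Finset.mem_univ _) h

lemma K2_inj {x : Matrix κ κ K} (h : K2 x (1 : Matrix κ κ K) = 0) : x = 0 := by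
  ext i j
  have h1 : x i j * (1 : Matrix κ κ K) i i = 0 := congrFun (congrFun h ![i, i]) ![j, i]
  rwa [Matrix.one_apply_eq, mul_one] at h1

lemma K2_sub (x x' y : Matrix κ κ K) : K2 x y - K2 x' y = K2 (x - x') y := by
  ext I J
  simp only [K2, Matrix.sub_apply, Matrix.of_apply, sub_mul]

lemma am_K2 (x c : Matrix κ κ K) :
    am x 2 * K2 c 1 - K2 c 1 * am x 2 = K2 (x * c - c * x) 1 := by
  rw [am_two, Matrix.add_mul, Matrix.mul_add, K2_mul, K2_mul, K2_mul, K2_mul]
  simp only [Matrix.one_mul, Matrix.mul_one]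
  rw [add_sub_add_right_eq_sub, K2_sub]

/-- The action on the tensor of a matrix. -/
lemma TP_vec (g Y : Matrix κ κ K) : TP g 2 *ᵥ NP.vec Y = NP.vec (g * Y * gᵀ) := by
  have h1 := tpow_two g (NP.vec Y)
  have h2 : mat2 (NP.vec Y) = Y := rfl
  rw [h2] at h1
  rw [← tpow_eq]
  funext I
  have h3 := congrFun (congrFun h1 (I 0)) (I 1)
  rw [mat2, Matrix.of_apply] at h3
  have h4 : ![I 0, I 1] = I := by
    funext k
    fin_cases k <;> rfl
  rw [h4] at h3
  exact h3

end alg

section hodge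

variable {κ : Type} [Fintype κ] [DecidableEq κ] {w : ℤ} {V : HodgeStructure κ w}
  {Q : Matrix κ κ ℚ}

/-- Operators which are multiplicative functions of the type commute with homomorphisms. -/
lemma hom_TP {a b : ℕ} {A : Matrix (Fin a → κ) (Fin b → κ) ℚ} (hA : IsHom V A)
    {f F : ℤ × ℤ → ℂ} (hf : ∀ (n : ℕ) (t : Fin n → ℤ × ℤ), ∏ i, f (t i) = F (tot t)) :
    TP (V.op f) a * toField ℂ A = toField ℂ A * TP (V.op f) b := by
  classical
  let S : Finset (ℤ × ℤ) := tts V a ∪ tts V b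
  have h1 : ∀ n, tts V n ⊆ S → TP (V.op f) n = ∑ c ∈ S, F c • pt V n c := by
    intro n hn
    rw [TP_op, sum_pt V n F hn]
    exact Finset.sum_congr rfl fun t _ => by rw [hf]
  rw [h1 a Finset.subset_union_left, h1 b Finset.subset_union_right, Matrix.sum_mul,
    Matrix.mul_sum]
  refine Finset.sum_congr rfl fun c _ => ?_
  rw [Matrix.smul_mul, Matrix.mul_smul, hom_pt V hA c]

lemma hom_cz {a b : ℕ} {A : Matrix (Fin a → κ) (Fin b → κ) ℚ} (hA : IsHom V A) {z : ℂ}
    (hz : z ≠ 0) : TP (cz V z) a * toField ℂ A = toField ℂ A * TP (cz V z) b := by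
  refine hom_TP (F := fun a => z ^ (a.1 - a.2)) hA fun n t => ?_
  have h2 : ∀ s : Finset (Fin n), ∏ i ∈ s, z ^ ((t i).1 - (t i).2) =
      z ^ (∑ i ∈ s, (t i).1 - ∑ i ∈ s, (t i).2) := by
    intro s
    induction s using Finset.induction_on with
    | empty => simp
    | insert a s ha ih =>
      rw [Finset.prod_insert ha, Finset.sum_insert ha, Finset.sum_insert ha, ih, ← zpow_add₀ hz]
      congr 1
      ring
  exact h2 _

lemma cx_tenM {a b : ℕ} (M : Matrix (Fin a → κ) (Fin b → κ) ℚ) :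
    cx (tenM M) = tenM (toField ℂ M) := by
  funext L
  simp [cx, tenM, toField]

lemma phs_det (hQ : IsPolarisation V Q) {z : ℂ} (hz : z ≠ 0) : (cz V z).det ≠ 0 := by
  rw [← phs_c hQ hz]
  exact PHS.c_det hz

lemma cz_Om (hQ : IsPolarisation V Q) {z : ℂ} (hz : z ≠ 0) :
    cz V z * toField ℂ Q⁻¹ * (cz V z)ᵀ = toField ℂ Q⁻¹ := by
  have h1 := PHS.c_Om (V := phs hQ) hz
  rw [phs_c hQ hz] at h1
  exact h1

lemma toField_mul {R : Type} [Field R] [Algebra ℚ R] {l m n : Type} [Fintype m]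
    (A : Matrix l m ℚ) (B : Matrix m n ℚ) : toField R (A * B) = toField R A * toField R B :=
  Matrix.map_mul

lemma toField_TP {R : Type} [Field R] [Algebra ℚ R] (g : Matrix κ κ ℚ) (n : ℕ) :
    toField R (TP g n) = TP (toField R g) n := (TP_map (algebraMap ℚ R) g n).symm

lemma tensor_iff (hQ : IsPolarisation V Q) {a b : ℕ} (A : Matrix (Fin a → κ) (Fin b → κ) ℚ) :
    tenM (A * TP Q⁻¹ b) ∈ (phs hQ).T (a + b) ↔
      ∀ z : ℂ, z ≠ 0 → TP (cz V z) a * toField ℂ A = toField ℂ A * TP (cz V z) b := by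
  rw [PHS.mem_T]
  refine forall_congr' fun z => forall_congr' fun hz => ?_
  rw [phs_c hQ hz, cx_tenM, toField_mul, toField_TP]
  have hd : (toField ℂ Q⁻¹).det ≠ 0 := by
    intro h0
    have h1 := congrArg Matrix.det (toField_inv (pol_det hQ)).1
    rw [Matrix.det_mul, h0, mul_zero, Matrix.det_one] at h1
    exact zero_ne_one h1
  exact inv_iff (phs_det hQ hz) hd (cz_Om hQ hz) _

/-- The tensors of homomorphisms are Hodge tensors. -/
lemma tensor_of_hom (hQ : IsPolarisation V Q) {a b : ℕ} {A : Matrix (Fin a → κ) (Fin b → κ) ℚ}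
    (hA : IsHom V A) : tenM (A * TP Q⁻¹ b) ∈ (phs hQ).T (a + b) :=
  (tensor_iff hQ A).2 fun _ hz => hom_cz hA hz

lemma h_eq_smul {z : ℂ} (hz : z ≠ 0) : ∃ (c u : ℂ), c ≠ 0 ∧ u ≠ 0 ∧ V.h z = c • cz V u := by
  have hr : (‖z‖ : ℂ) ≠ 0 := by
    rw [Ne, Complex.ofReal_eq_zero, norm_eq_zero]
    exact hz
  set r : ℂ := (‖z‖ : ℂ) with hrdef
  have hzz : z * starRingEnd ℂ z = r * r := by
    rw [Complex.mul_conj, Complex.normSq_eq_norm_sq, hrdef]
    push_cast
    ring
  have hz' : starRingEnd ℂ z ≠ 0 := (map_ne_zero _).2 hz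
  refine ⟨r ^ (-w), r / z, zpow_ne_zero _ hr, div_ne_zero hr hz, ?_⟩
  rw [h_eq_op, cz, HodgeStructure.op, HodgeStructure.op, Finset.smul_sum]
  refine Finset.sum_congr rfl fun a ha => ?_
  rw [smul_smul]
  congr 1
  have h1 : starRingEnd ℂ z = r * r / z := by
    rw [← hzz]
    field_simp
  have hw := V.weight a ha
  rw [h1, div_zpow, div_zpow, mul_zpow]
  have h2 : r ^ (-w) = r ^ (-a.1) * r ^ (-a.2) := by
    rw [← zpow_add₀ hr]
    congr 1
    omega
  have h3 : r ^ (a.1 - a.2) = r ^ a.1 * r ^ (-a.2) := by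
    rw [← zpow_add₀ hr]
    rfl
  have h4 : z ^ (a.1 - a.2) = z ^ a.1 * z ^ (-a.2) := by
    rw [← zpow_add₀ hz]
    rfl
  have h5 : r ^ (-a.1) * r ^ a.1 = 1 := by
    rw [← zpow_add₀ hr, neg_add_cancel, zpow_zero]
  have h6 : z ^ (-a.1) * z ^ a.1 = 1 := by
    rw [← zpow_add₀ hz, neg_add_cancel, zpow_zero]
  rw [h2, h3, h4]
  have hz1 : z ^ a.1 ≠ 0 := zpow_ne_zero _ hz
  have hz2 : z ^ (-a.2) ≠ 0 := zpow_ne_zero _ hz
  field_simp
  linear_combination h6 - h5

/-- Hodge tensors of even degree give endomorphisms. -/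
lemma hom_of_tensor (hQ : IsPolarisation V Q) {n : ℕ} {A : Matrix (Fin n → κ) (Fin n → κ) ℚ}
    (hA : tenM (A * TP Q⁻¹ n) ∈ (phs hQ).T (n + n)) : IsHom V A := by
  intro z hz
  obtain ⟨c, u, hc, hu, h1⟩ := h_eq_smul (V := V) hz
  rw [h1, MV.TP_smul, Matrix.smul_mul, Matrix.mul_smul, (tensor_iff hQ A).1 hA u hu]

/-- There are no homomorphisms between tensor powers of different weights. -/
lemma hom_eq_zero (hw : w ≠ 0) {a b : ℕ} (hab : a ≠ b) {A : Matrix (Fin a → κ) (Fin b → κ) ℚ}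
    (hA : IsHom V A) : A = 0 := by
  have h2 : V.h 2 = ((2 : ℂ) ^ (-w)) • 1 := by
    rw [h_eq_op, ← op_one V, HodgeStructure.op, HodgeStructure.op, Finset.smul_sum]
    refine Finset.sum_congr rfl fun a ha => ?_
    have h3 : starRingEnd ℂ 2 = 2 := Complex.conj_ofNat 2
    rw [h3, ← zpow_add₀ two_ne_zero, one_smul]
    congr 2
    have := V.weight a ha
    omega
  have h3 := hA 2 two_ne_zero
  rw [h2, MV.TP_smul, MV.TP_smul, TP_one, TP_one, Matrix.smul_mul, Matrix.mul_smul, Matrix.one_mul,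
    Matrix.mul_one] at h3
  have hne : ((2 : ℂ) ^ (-w)) ^ a ≠ ((2 : ℂ) ^ (-w)) ^ b := by
    intro h4
    rw [← zpow_natCast, ← zpow_natCast, ← _root_.zpow_mul, ← _root_.zpow_mul] at h4
    have h5 : (2 : ℝ) ^ (-w * a) = (2 : ℝ) ^ (-w * b) := by
      apply Complex.ofReal_injective
      push_cast
      exact h4
    have h6 := zpow_right_injective₀ (a := (2 : ℝ)) two_pos (by norm_num) h5
    have h7 : (a : ℤ) = b := mul_left_cancel₀ (neg_ne_zero.2 hw) h6
    exact hab (by exact_mod_cast h7)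
  ext I J
  have h4 := congrFun (congrFun h3 I) J
  rw [Matrix.smul_apply, Matrix.smul_apply, smul_eq_mul, smul_eq_mul] at h4
  have h5 : (((2 : ℂ) ^ (-w)) ^ a - ((2 : ℂ) ^ (-w)) ^ b) * toField ℂ A I J = 0 := by
    rw [sub_mul, h4, sub_self]
  have h6 := (mul_eq_zero.1 h5).resolve_left (sub_ne_zero.2 hne)
  rw [toField, Matrix.map_apply] at h6
  exact (map_eq_zero _).1 h6

end hodge

end Pool.Agent.Q60.GL
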