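import Pool.Agent.Q60.GL.HodgeS

/-!
# Types of tensors and the derivations of the Hodge decomposition
-/

set_option linter.unusedSectionVars false

namespace Pool.Agent.Q60.GL

open MvPolynomial Module Matrix Pool.Agent.Q60.ED Pool.Agent.Q60.FI Pool.Agent.Q60.TD

section chars

/-- The characters `z ^ (-m) * conj z ^ (-n)`. -/
noncomputable def chr (a : ℤ × ℤ) : ℂˣ →* ℂ where
  toFun z := (z : ℂ) ^ (-a.1) * starRingEnd ℂ (z : ℂ) ^ (-a.2)
  map_one' := by simp
  map_mul' x y := by
    rw [Units.val_mul, map_mul, mul_zpow, mul_zpow]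
    ring

lemma chr_injective : Function.Injective chr := by
  intro a b hab
  have h : ∀ z : ℂ, z ≠ 0 → z ^ (-a.1) * starRingEnd ℂ z ^ (-a.2) =
      z ^ (-b.1) * starRingEnd ℂ z ^ (-b.2) := fun z hz =>
    DFunLike.congr_fun hab (Units.mk0 z hz)
  have h1 : a.1 + a.2 = b.1 + b.2 := by
    have h2 := h 2 two_ne_zero
    have h3 : starRingEnd ℂ 2 = 2 := Complex.conj_ofNat 2
    rw [h3, ← zpow_add₀ two_ne_zero, ← zpow_add₀ two_ne_zero] at h2
    have h4 : (2 : ℝ) ^ (-a.1 + -a.2) = (2 : ℝ) ^ (-b.1 + -b.2) := by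
      apply Complex.ofReal_injective
      push_cast
      exact h2
    have h5 := zpow_right_injective₀ (a := (2 : ℝ)) two_pos (by norm_num) h4
    omega
  by_contra hne
  have hk : (a.1 - a.2) - (b.1 - b.2) ≠ 0 := by
    intro h0
    apply hne
    apply Prod.ext <;> omega
  set k := (a.1 - a.2) - (b.1 - b.2) with hkdef
  have hkc : (k : ℂ) ≠ 0 := by exact_mod_cast hk
  set u : ℂ := Complex.exp (Real.pi * Complex.I / k) with hu
  have hu0 : u ≠ 0 := Complex.exp_ne_zero _
  have hcu : starRingEnd ℂ u = u⁻¹ := by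
    rw [hu, ← Complex.exp_conj, ← Complex.exp_neg]
    congr 1
    rw [map_div₀, map_mul, Complex.conj_ofReal, Complex.conj_I, map_intCast]
    ring
  have h2 := h u hu0
  rw [hcu, _root_.inv_zpow', _root_.inv_zpow', neg_neg, neg_neg, ← zpow_add₀ hu0,
    ← zpow_add₀ hu0] at h2
  have h3 : u ^ k = 1 := by
    have h4 : k = (-b.1 + b.2) - (-a.1 + a.2) := by omega
    rw [h4, zpow_sub₀ hu0, h2, div_self (zpow_ne_zero _ hu0)]
  have h4 : u ^ k = -1 := by
    rw [hu, ← Complex.exp_int_mul, mul_div_cancel₀ _ hkc, Complex.exp_pi_mul_I]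
  rw [h4] at h3
  norm_num at h3

/-- The coefficients of a combination of the characters which vanishes are zero. -/
lemma coeff_zero (S : Finset (ℤ × ℤ)) (c : ℤ × ℤ → ℂ)
    (h : ∀ z : ℂ, z ≠ 0 → ∑ a ∈ S, c a * (z ^ (-a.1) * starRingEnd ℂ z ^ (-a.2)) = 0) :
    ∀ a ∈ S, c a = 0 := by
  have h1 := linearIndependent_monoidHom ℂˣ ℂ
  have h2 : LinearIndependent ℂ fun a : ℤ × ℤ => (chr a : ℂˣ → ℂ) := h1.comp chr chr_injective
  rw [linearIndependent_iff'] at h2
  refine h2 S c ?_
  funext z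
  rw [Finset.sum_apply, Pi.zero_apply, ← h z z.ne_zero]
  exact Finset.sum_congr rfl fun a _ => rfl

/-- The same for matrices. -/
lemma coeff_zero_mat {A B : Type} (S : Finset (ℤ × ℤ)) (c : ℤ × ℤ → Matrix A B ℂ)
    (h : ∀ z : ℂ, z ≠ 0 → ∑ a ∈ S, (z ^ (-a.1) * starRingEnd ℂ z ^ (-a.2)) • c a = 0) :
    ∀ a ∈ S, c a = 0 := by
  intro a ha
  ext i j
  refine coeff_zero S (fun a => c a i j) (fun z hz => ?_) a ha
  have h1 := congrFun (congrFun (h z hz) i) j
  rw [Matrix.sum_apply] at h1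
  refine Eq.trans ?_ h1
  exact Finset.sum_congr rfl fun b _ => by rw [Matrix.smul_apply, smul_eq_mul, mul_comm]

/-- Eigenvectors for different eigenvalues can be separated. -/
lemma separate {M : Type} [AddCommGroup M] [Module ℂ M] (W : Submodule ℂ M)
    (D : M →ₗ[ℂ] M) (hD : ∀ v ∈ W, D v ∈ W) {T : Type} (S : Finset T)
    (v : T → M) (lam : T → ℂ) (hv : ∀ t ∈ S, D (v t) = lam t • v t) (hs : ∑ t ∈ S, v t ∈ W)
    (c : ℂ) : ∑ t ∈ S with lam t = c, v t ∈ W := by
  classical
  have key : ∀ (R : Finset ℂ) (x : ℂ → M), (∀ r ∈ R, D (x r) = r • x r) → ∑ r ∈ R, x r ∈ W →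
      ∀ r ∈ R, x r ∈ W := by
    intro R
    induction R using Finset.induction_on with
    | empty => intro x _ _ r hr; exact absurd hr (Finset.notMem_empty r)
    | insert a R ha ih =>
      intro x hx hs
      rw [Finset.sum_insert ha] at hs
      have h1 : ∑ r ∈ R, (r - a) • x r ∈ W := by
        have h2 := W.sub_mem (hD _ hs) (W.smul_mem a hs)
        have h3 : D (x a + ∑ r ∈ R, x r) - a • (x a + ∑ r ∈ R, x r) = ∑ r ∈ R, (r - a) • x r := by
          rw [map_add, map_sum, hx a (Finset.mem_insert_self a R), smul_add, add_sub_add_left_eq_sub,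
            Finset.smul_sum, ← Finset.sum_sub_distrib]
          refine Finset.sum_congr rfl fun r hr => ?_
          rw [hx r (Finset.mem_insert_of_mem hr), sub_smul]
        rwa [h3] at h2
      have h4 := ih (fun r => (r - a) • x r) (fun r hr => by
        rw [map_smul, hx r (Finset.mem_insert_of_mem hr), smul_comm]) h1
      have h5 : ∀ r ∈ R, x r ∈ W := by
        intro r hr
        have hne : r - a ≠ 0 := by
          intro h0
          rw [sub_eq_zero.1 h0] at hr
          exact ha hr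
        have h6 := W.smul_mem (r - a)⁻¹ (h4 r hr)
        rwa [smul_smul, inv_mul_cancel₀ hne, one_smul] at h6
      have h7 : x a ∈ W := by
        have h8 := W.sub_mem hs (W.sum_mem h5)
        rwa [add_sub_cancel_right] at h8
      intro r hr
      rcases Finset.mem_insert.1 hr with rfl | hr
      · exact h7
      · exact h5 r hr
  have h1 : ∑ r ∈ S.image lam, ∑ t ∈ S with lam t = r, v t = ∑ t ∈ S, v t :=
    Finset.sum_fiberwise_of_maps_to (fun t ht => Finset.mem_image_of_mem lam ht) v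
  have h2 := key (S.image lam) (fun r => ∑ t ∈ S with lam t = r, v t) (fun r _ => by
    rw [map_sum, Finset.smul_sum]
    refine Finset.sum_congr rfl fun t ht => ?_
    rw [hv t (Finset.mem_filter.1 ht).1, (Finset.mem_filter.1 ht).2]) (by rw [h1]; exact hs)
  by_cases hc : c ∈ S.image lam
  · exact h2 c hc
  · have h3 : (S.filter fun t => lam t = c) = ∅ := by
      rw [Finset.filter_eq_empty_iff]
      intro t ht htc
      exact hc (Finset.mem_image.2 ⟨t, ht, htc⟩)
    rw [h3, Finset.sum_empty]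
    exact W.zero_mem

end chars

section types

variable {κ : Type} [Fintype κ] [DecidableEq κ] {w : ℤ} (V : HodgeStructure κ w)

/-- The projection to the tensors of a given multitype. -/
noncomputable def et {n : ℕ} (t : Fin n → ℤ × ℤ) : Matrix (Fin n → κ) (Fin n → κ) ℂ :=
  Matrix.of fun I J => ∏ i, V.e (t i) (I i) (J i)

/-- The multitypes. -/
def mts (n : ℕ) : Finset (Fin n → ℤ × ℤ) := Fintype.piFinset fun _ => V.types

lemma mem_mts {n : ℕ} {t : Fin n → ℤ × ℤ} : t ∈ mts V n ↔ ∀ i, t i ∈ V.types := by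
  rw [mts, Fintype.mem_piFinset]

/-- The action of an operator on tensors. -/
lemma TP_op (f : ℤ × ℤ → ℂ) (n : ℕ) :
    TP (V.op f) n = ∑ t ∈ mts V n, (∏ i, f (t i)) • et V t := by
  ext I J
  rw [TP_apply, Matrix.sum_apply]
  have h1 : ∀ i, V.op f (I i) (J i) = ∑ a ∈ V.types, f a * V.e a (I i) (J i) := by
    intro i
    rw [HodgeStructure.op, Matrix.sum_apply]
    rfl
  rw [Finset.prod_congr rfl fun i _ => h1 i, Finset.prod_univ_sum]
  refine Finset.sum_congr rfl fun t _ => ?_
  rw [Finset.prod_mul_distrib]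
  rfl

lemma et_sum (n : ℕ) : ∑ t ∈ mts V n, et V t = 1 := by
  have h1 := TP_op V (fun _ => 1) n
  rw [op_one, TP_one] at h1
  rw [h1]
  refine Finset.sum_congr rfl fun t _ => ?_
  rw [Finset.prod_const_one, one_smul]

lemma op_e (f : ℤ × ℤ → ℂ) {a : ℤ × ℤ} (ha : a ∈ V.types) : V.op f * V.e a = f a • V.e a := by
  rw [HodgeStructure.op, Finset.sum_mul, Finset.sum_eq_single a]
  · rw [Matrix.smul_mul, V.mul a ha a ha, if_pos rfl]
  · intro b hb hba
    rw [Matrix.smul_mul, V.mul b hb a ha, if_neg hba, smul_zero]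
  · intro h
    exact absurd ha h

/-- The infinitesimal action of an operator on tensors of a given multitype. -/
lemma am_et (f : ℤ × ℤ → ℂ) {n : ℕ} {t : Fin n → ℤ × ℤ} (ht : t ∈ mts V n) :
    am (V.op f) n * et V t = (∑ i, f (t i)) • et V t := by
  ext I J
  rw [am_mul, Matrix.smul_apply, smul_eq_mul, Finset.sum_mul]
  refine Finset.sum_congr rfl fun k _ => ?_
  have h1 : ∀ j, V.op f (I k) j * et V t (Function.update I k j) J =
      (V.op f (I k) j * V.e (t k) j (J k)) *
        ∏ i ∈ Finset.univ.erase k, V.e (t i) (I i) (J i) := by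
    intro j
    rw [et, Matrix.of_apply, ← Finset.mul_prod_erase _ _ (Finset.mem_univ k),
      Function.update_self, mul_assoc]
    congr 2
    refine Finset.prod_congr rfl fun i hi => ?_
    rw [Function.update_of_ne (Finset.ne_of_mem_erase hi)]
  rw [Finset.sum_congr rfl fun j _ => h1 j, ← Finset.sum_mul]
  have h2 : ∑ j, V.op f (I k) j * V.e (t k) j (J k) = f (t k) * V.e (t k) (I k) (J k) := by
    have h3 := congrFun (congrFun (op_e V f (mem_mts V |>.1 ht k)) (I k)) (J k)
    rw [Matrix.mul_apply, Matrix.smul_apply] at h3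
    exact h3
  rw [h2, et, Matrix.of_apply, ← Finset.mul_prod_erase Finset.univ _ (Finset.mem_univ k), mul_assoc]

lemma am_op (f : ℤ × ℤ → ℂ) (n : ℕ) :
    am (V.op f) n = ∑ t ∈ mts V n, (∑ i, f (t i)) • et V t := by
  conv_lhs => rw [← Matrix.mul_one (am (V.op f) n), ← et_sum V n, Finset.mul_sum]
  exact Finset.sum_congr rfl fun t ht => am_et V f ht

/-- The total type. -/
def tot {n : ℕ} (t : Fin n → ℤ × ℤ) : ℤ × ℤ := (∑ i, (t i).1, ∑ i, (t i).2)

/-- The projection to the tensors of a given type. -/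
noncomputable def pt (n : ℕ) (a : ℤ × ℤ) : Matrix (Fin n → κ) (Fin n → κ) ℂ :=
  ∑ t ∈ mts V n with tot t = a, et V t

/-- All types of tensors. -/
def tts (n : ℕ) : Finset (ℤ × ℤ) := (mts V n).image tot

lemma sum_pt (n : ℕ) (F : ℤ × ℤ → ℂ) {S : Finset (ℤ × ℤ)} (hS : tts V n ⊆ S) :
    ∑ a ∈ S, F a • pt V n a = ∑ t ∈ mts V n, F (tot t) • et V t := by
  rw [← Finset.sum_fiberwise_of_maps_to (s := mts V n) (t := S) (g := tot)
    fun t ht => hS (Finset.mem_image_of_mem _ ht)]
  refine Finset.sum_congr rfl fun a _ => ?_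
  rw [pt, Finset.smul_sum]
  refine Finset.sum_congr rfl fun t ht => ?_
  rw [(Finset.mem_filter.1 ht).2]

lemma TP_h (n : ℕ) (z : ℂ) (hz : z ≠ 0) {S : Finset (ℤ × ℤ)} (hS : tts V n ⊆ S) :
    TP (V.h z) n = ∑ a ∈ S, (z ^ (-a.1) * starRingEnd ℂ z ^ (-a.2)) • pt V n a := by
  have hz' : starRingEnd ℂ z ≠ 0 := (map_ne_zero _).2 hz
  rw [h_eq_op, TP_op, sum_pt V n _ hS]
  refine Finset.sum_congr rfl fun t _ => ?_
  congr 1
  rw [Finset.prod_mul_distrib, tot]
  have h1 : ∀ (x : ℂ) (_ : x ≠ 0) (g : Fin n → ℤ), ∏ i, x ^ (-g i) = x ^ (-∑ i, g i) := by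
    intro x hx g
    have h2 : ∀ s : Finset (Fin n), ∏ i ∈ s, x ^ (-g i) = x ^ (-∑ i ∈ s, g i) := by
      intro s
      induction s using Finset.induction_on with
      | empty => simp
      | insert a s ha ih => rw [Finset.prod_insert ha, Finset.sum_insert ha, ih, neg_add,
          zpow_add₀ hx]
    exact h2 _
  rw [h1 z hz, h1 _ hz']

/-- Homomorphisms of Hodge structures respect the types. -/
lemma hom_pt {a b : ℕ} {A : Matrix (Fin a → κ) (Fin b → κ) ℚ} (hA : IsHom V A) (c : ℤ × ℤ) :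
    pt V a c * toField ℂ A = toField ℂ A * pt V b c := by
  classical
  let S : Finset (ℤ × ℤ) := insert c (tts V a ∪ tts V b)
  have ha : tts V a ⊆ S := fun x hx =>
    Finset.mem_insert_of_mem (Finset.mem_union_left _ hx)
  have hb : tts V b ⊆ S := fun x hx =>
    Finset.mem_insert_of_mem (Finset.mem_union_right _ hx)
  have h1 := coeff_zero_mat S (fun c => pt V a c * toField ℂ A - toField ℂ A * pt V b c)
    (fun z hz => by
      have h2 := hA z hz
      rw [TP_h V a z hz ha, TP_h V b z hz hb, Matrix.sum_mul, Matrix.mul_sum] at h2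
      rw [← sub_eq_zero, ← Finset.sum_sub_distrib] at h2
      rw [← h2]
      refine Finset.sum_congr rfl fun c _ => ?_
      rw [smul_sub, Matrix.smul_mul, Matrix.mul_smul]) c (Finset.mem_insert_self _ _)
  exact sub_eq_zero.1 h1

/-- Homomorphisms of Hodge structures commute with the operators which are additive functions of
the type. -/
lemma hom_am {a b : ℕ} {A : Matrix (Fin a → κ) (Fin b → κ) ℚ} (hA : IsHom V A)
    {f : ℤ × ℤ → ℂ} (hf : ∀ (n : ℕ) (t : Fin n → ℤ × ℤ), ∑ i, f (t i) = f (tot t)) :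
    am (V.op f) a * toField ℂ A = toField ℂ A * am (V.op f) b := by
  classical
  let S : Finset (ℤ × ℤ) := tts V a ∪ tts V b
  have h1 : ∀ n, tts V n ⊆ S → am (V.op f) n = ∑ c ∈ S, f c • pt V n c := by
    intro n hn
    rw [am_op, sum_pt V n f hn]
    exact Finset.sum_congr rfl fun t _ => by rw [hf]
  rw [h1 a Finset.subset_union_left, h1 b Finset.subset_union_right, Matrix.sum_mul,
    Matrix.mul_sum]
  refine Finset.sum_congr rfl fun c _ => ?_
  rw [Matrix.smul_mul, Matrix.mul_smul, hom_pt V hA c]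

end types

end Pool.Agent.Q60.GL
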